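import Pool.Agent.Helper83.TS.Kinds
import Pool.Agent.Helper53.TT.DefsB

/-!
# Certificates for the inequalities of the column `b` (case `CaseOneTall`)

The variables of the certificates: `v 2, v 3, v 5` the heights `x, y, z` of `c`, `l`, `a`; `v 7` is `w`;
`v 11` is `t` or `s`; `v 13`, `v 17` are `u` (or `p`) and `v`; `v 19`, `v 23` are `A`, `B`. A certificate
is a closed statement `Ck gs p`: a positive multiple of `p` is in the cone of the list `gs`.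
-/

set_option autoImplicit false

namespace Pool.Agent.Helper20.TS

open Pool.Agent.Helper83.Cert Pool.Agent.Helper83.TS Pool.Agent.Helper53.TT Pool.Agent.Helper74.TS

/-- a certificate of `0 ≤ p` on the set given by `gs` -/
structure Ck (gs : List Ex) (p : Ex) : Prop where
  h : ∃ (M : ℤ) (e : NN), 0 < M ∧ check (gs.map exPol) (exPol (Ex.mul (Ex.c M) p)) e = true

theorem Ck.mk' {gs : List Ex} {p : Ex} (M : ℤ) (e : NN) (hM : 0 < M)
    (h : check (gs.map exPol) (exPol (Ex.mul (Ex.c M) p)) e = true) : Ck gs p := ⟨M, e, hM, h⟩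

theorem Ck.nn {gs : List Ex} {p : Ex} (k : Ck gs p) {y : ℕ → ℝ} (hy : ∀ k, 0 ≤ y k)
    (hg : ∀ g ∈ gs, 0 ≤ exVal y g) : 0 ≤ exVal y p := by
  obtain ⟨M, e, hM, h⟩ := k.h
  have h1 := cert h hy hg
  rw [exmul, exc] at h1
  have h2 : (0 : ℝ) < (M : ℝ) := by exact_mod_cast hM
  exact (mul_nonneg_iff_of_pos_left h2).1 h1

/-- the bound of a column -/
theorem Ck.fin {gs : List Ex} {W V : Ex} (k : Ck gs (Ex.sub (Ex.mul (Ex.c 6) W) V)) {y : ℕ → ℝ}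
    (hy : ∀ k, 0 ≤ y k) (hg : ∀ g ∈ gs, 0 ≤ exVal y g) {a b : ℝ} (hW : exVal y W = 100000 * a)
    (hV : exVal y V = 600000 * b) : b ≤ a := by
  have h := k.nn hy hg
  rw [exsub, exmul, exc, hW, hV] at h
  push_cast at h
  linarith

theorem nn_append {y : ℕ → ℝ} {l m : List Ex} (h1 : ∀ g ∈ l, 0 ≤ exVal y g)
    (h2 : ∀ g ∈ m, 0 ≤ exVal y g) : ∀ g ∈ l ++ m, 0 ≤ exVal y g := by
  intro g hg
  rcases List.mem_append.1 hg with h | h
  · exact h1 g h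
  · exact h2 g h

/-! ### Pieces -/

/-- `600000 ra n z w` -/
def raE (N : Ex) : Ex :=
  Ex.add (Ex.sub (Ex.mul (Ex.mul (Ex.c (-6)) N) (Ex.sub (Ex.v 7) (Ex.v 5)))
    (Ex.mul (Ex.mul (Ex.mul (Ex.c 300000) (Ex.sub (Ex.c 1) (Ex.v 5))) (Ex.sub (Ex.v 7) (Ex.v 5)))
      (Ex.sub (Ex.v 7) (Ex.v 5))))
    (Ex.mul (Ex.mul (Ex.mul (Ex.c 200000) (Ex.sub (Ex.v 7) (Ex.v 5))) (Ex.sub (Ex.v 7) (Ex.v 5)))
      (Ex.sub (Ex.v 7) (Ex.v 5)))

theorem raE_val {N : Ex} {x y z n : ℝ} (h : Dt x y z N (100000 * n)) (w s u v A B : ℝ) :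
    exVal (yv x y z w s u v A B) (raE N) = 600000 * ra n z w := by
  simp only [raE, exadd, exsub, exmul, exc, exv7, exv5, h.h]
  unfold ra
  push_cast
  ring

/-- `600000 vm` of an expression -/
def vmT (T : Ex) : Ex :=
  Ex.sub (Ex.mul (Ex.mul (Ex.mul (Ex.c 150000) T) (Ex.add (Ex.c 1) T)) (Ex.add (Ex.c 1) T))
    (Ex.mul (Ex.mul (Ex.mul (Ex.c 200000) T) T) T)

theorem vmT_val {Y : ℕ → ℝ} {T : Ex} {t : ℝ} (h : exVal Y T = t) :
    exVal Y (vmT T) = 600000 * vm t := by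
  simp only [vmT, exadd, exsub, exmul, exc, h]
  unfold vm
  push_cast
  ring

/-- the four regimes of the volume `vl w A B`: the conditions -/
def kE : ℕ → List Ex
  | 1 => [Ex.sub (Ex.v 19) (Ex.v 7), Ex.sub (Ex.v 23) (Ex.v 7)]
  | 2 => [Ex.sub (Ex.v 7) (Ex.v 19), Ex.sub (Ex.v 23) (Ex.v 7)]
  | 3 => [Ex.sub (Ex.v 7) (Ex.v 23), Ex.sub (Ex.v 19) (Ex.v 7)]
  | _ => [Ex.sub (Ex.v 7) (Ex.v 19), Ex.sub (Ex.v 7) (Ex.v 23)]

/-- the four regimes: the conditions -/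
def kv : ℕ → ℝ → ℝ → ℝ → Prop
  | 1, w, A, B => w ≤ A ∧ w ≤ B
  | 2, w, A, B => A ≤ w ∧ w ≤ B
  | 3, w, A, B => B ≤ w ∧ w ≤ A
  | _, w, A, B => A ≤ w ∧ B ≤ w

/-- `600000 w A B` -/
def wABE : Ex := Ex.mul (Ex.mul (Ex.mul (Ex.c 600000) (Ex.v 7)) (Ex.v 19)) (Ex.v 23)

/-- the cube of `E`, times `200000` -/
def cuE (E : Ex) : Ex := Ex.mul (Ex.mul (Ex.mul (Ex.c 200000) E) E) E

/-- the four regimes: `600000` times the volume -/
def fE : ℕ → Ex
  | 1 => Ex.sub wABE (cuE (Ex.v 7))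
  | 2 => Ex.add (Ex.sub wABE (cuE (Ex.v 7))) (cuE (Ex.sub (Ex.v 7) (Ex.v 19)))
  | 3 => Ex.add (Ex.sub wABE (cuE (Ex.v 7))) (cuE (Ex.sub (Ex.v 7) (Ex.v 23)))
  | _ => Ex.add (Ex.sub wABE (cuE (Ex.v 7))) (Ex.add (cuE (Ex.sub (Ex.v 7) (Ex.v 19)))
      (cuE (Ex.sub (Ex.v 7) (Ex.v 23))))

theorem cuE_val {Y : ℕ → ℝ} {E : Ex} {e : ℝ} (h : exVal Y E = e) :
    exVal Y (cuE E) = 600000 * (e ^ 3 / 3) := by
  simp only [cuE, exmul, exc, h]
  push_cast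
  ring

theorem fE_val {k : ℕ} {x y z w s u v A B : ℝ} (h : kv k w A B) :
    exVal (yv x y z w s u v A B) (fE k) = 600000 * vl w A B := by
  have e19 := exv19 x y z w s u v A B
  have e23 := exv23 x y z w s u v A B
  have e7 := exv7 x y z w s u v A B
  have c1 := cuE_val e7
  have c2 : exVal (yv x y z w s u v A B) (cuE (Ex.sub (Ex.v 7) (Ex.v 19))) =
      600000 * ((w - A) ^ 3 / 3) := cuE_val (by rw [exsub, e7, e19])
  have c3 : exVal (yv x y z w s u v A B) (cuE (Ex.sub (Ex.v 7) (Ex.v 23))) =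
      600000 * ((w - B) ^ 3 / 3) := cuE_val (by rw [exsub, e7, e23])
  have c4 : exVal (yv x y z w s u v A B) wABE = 600000 * (w * A * B) := by
    simp only [wABE, exmul, exc, e7, e19, e23]
    push_cast
    ring
  match k, h with
  | 1, h =>
    obtain ⟨h1, h2⟩ : w ≤ A ∧ w ≤ B := h
    simp only [fE, exsub, c1, c4, vl]
    rw [max_eq_right (by linarith : w - B ≤ 0), max_eq_right (by linarith : w - A ≤ 0)]
    ring
  | 2, h =>
    obtain ⟨h1, h2⟩ : A ≤ w ∧ w ≤ B := h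
    simp only [fE, exadd, exsub, c1, c2, c4, vl]
    rw [max_eq_left (by linarith : 0 ≤ w - A), max_eq_right (by linarith : w - B ≤ 0)]
    ring
  | 3, h =>
    obtain ⟨h1, h2⟩ : B ≤ w ∧ w ≤ A := h
    simp only [fE, exadd, exsub, c1, c3, c4, vl]
    rw [max_eq_left (by linarith : 0 ≤ w - B), max_eq_right (by linarith : w - A ≤ 0)]
    ring
  | 0, h =>
    obtain ⟨h1, h2⟩ : A ≤ w ∧ B ≤ w := h
    simp only [fE, exadd, exsub, c1, c2, c3, c4, vl]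
    rw [max_eq_left (by linarith : 0 ≤ w - B), max_eq_left (by linarith : 0 ≤ w - A)]
    ring
  | (n + 4), h =>
    obtain ⟨h1, h2⟩ : A ≤ w ∧ B ≤ w := h
    simp only [fE, exadd, exsub, c1, c2, c3, c4, vl]
    rw [max_eq_left (by linarith : 0 ≤ w - B), max_eq_left (by linarith : 0 ≤ w - A)]
    ring

theorem kE_nn {k : ℕ} {x y z w s u v A B : ℝ} (h : kv k w A B) :
    ∀ g ∈ kE k, 0 ≤ exVal (yv x y z w s u v A B) g := by
  match k, h with
  | 1, h =>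
    obtain ⟨h1, h2⟩ : w ≤ A ∧ w ≤ B := h
    simp only [kE, List.forall_mem_cons, exsub, exv7, exv19, exv23]
    exact ⟨by linarith, by linarith, fun _ hh => absurd hh List.not_mem_nil⟩
  | 2, h =>
    obtain ⟨h1, h2⟩ : A ≤ w ∧ w ≤ B := h
    simp only [kE, List.forall_mem_cons, exsub, exv7, exv19, exv23]
    exact ⟨by linarith, by linarith, fun _ hh => absurd hh List.not_mem_nil⟩
  | 3, h =>
    obtain ⟨h1, h2⟩ : B ≤ w ∧ w ≤ A := h
    simp only [kE, List.forall_mem_cons, exsub, exv7, exv19, exv23]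
    exact ⟨by linarith, by linarith, fun _ hh => absurd hh List.not_mem_nil⟩
  | 0, h =>
    obtain ⟨h1, h2⟩ : A ≤ w ∧ B ≤ w := h
    simp only [kE, List.forall_mem_cons, exsub, exv7, exv19, exv23]
    exact ⟨by linarith, by linarith, fun _ hh => absurd hh List.not_mem_nil⟩
  | (n + 4), h =>
    obtain ⟨h1, h2⟩ : A ≤ w ∧ B ≤ w := h
    simp only [kE, List.forall_mem_cons, exsub, exv7, exv19, exv23]
    exact ⟨by linarith, by linarith, fun _ hh => absurd hh List.not_mem_nil⟩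

/-- the constraints of the tall far cell -/
def ffE : List Ex :=
  [Ex.sub (Ex.mul (Ex.c 20) (Ex.v 7)) (Ex.c 13), Ex.sub (Ex.c 1) (Ex.v 7), Ex.v 19, Ex.v 23,
    Ex.sub (Ex.add (Ex.v 19) (Ex.v 23)) (Ex.v 7),
    Ex.sub (Ex.sub (Ex.add (Ex.c 1) (Ex.v 7)) (Ex.v 19)) (Ex.v 23)]

theorem ff_nn {x y z w s u v A B : ℝ} (h : FF w A B) :
    ∀ g ∈ ffE, 0 ≤ exVal (yv x y z w s u v A B) g := by
  simp only [ffE, List.forall_mem_cons, exadd, exsub, exmul, exc, exv7, exv19, exv23]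
  push_cast
  exact ⟨by linarith [h.w0], by linarith [h.w1], h.A0, h.B0, by linarith [h.lo],
    by linarith [h.hi], fun _ hh => absurd hh List.not_mem_nil⟩

/-- the entry `u` of kind A -/
def uAE (D U A : Ex) : List Ex :=
  [U, Ex.sub (Ex.c 1) U, Ex.sub (Ex.add (Ex.sub (Ex.c 1) A) D) U]

theorem uA_nn {Y : ℕ → ℝ} {D U A : Ex} {d u a : ℝ} (hD : exVal Y D = d) (hU : exVal Y U = u)
    (hA : exVal Y A = a) (h0 : 0 ≤ u) (h1 : u ≤ 1) (h2 : u ≤ 1 - a + d) :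
    ∀ g ∈ uAE D U A, 0 ≤ exVal Y g := by
  simp only [uAE, List.forall_mem_cons, exadd, exsub, exc, hD, hU, hA]
  push_cast
  exact ⟨h0, by linarith, by linarith, fun _ hh => absurd hh List.not_mem_nil⟩

/-- the entry of kind A is negative -/
def yAE (D A : Ex) : List Ex := [Ex.sub (Ex.sub A (Ex.c 1)) D]

theorem yA_nn {Y : ℕ → ℝ} {D A : Ex} {d a : ℝ} (hD : exVal Y D = d) (hA : exVal Y A = a)
    (h : 1 + d ≤ a) : ∀ g ∈ yAE D A, 0 ≤ exVal Y g := by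
  simp only [yAE, List.forall_mem_cons, exsub, exc, hD, hA]
  push_cast
  exact ⟨by linarith, fun _ hh => absurd hh List.not_mem_nil⟩

/-- `600000 c (1 - a + d)` -/
def yVE (C D A : Ex) : Ex := Ex.mul (Ex.mul (Ex.c 6) C) (Ex.add (Ex.sub (Ex.c 1) A) D)

theorem yVE_val {Y : ℕ → ℝ} {C D A : Ex} {c d a : ℝ} (hC : exVal Y C = 100000 * c)
    (hD : exVal Y D = d) (hA : exVal Y A = a) :
    exVal Y (yVE C D A) = 600000 * (c * (1 - a + d)) := by
  simp only [yVE, exadd, exsub, exmul, exc, hC, hD, hA]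
  push_cast
  ring

/-- `0 ≤ t ≤ 13/20` -/
def tE (T : Ex) : List Ex := [T, Ex.sub (Ex.c 13) (Ex.mul (Ex.c 20) T)]

theorem tE_nn {Y : ℕ → ℝ} {T : Ex} {t : ℝ} (hT : exVal Y T = t) (h0 : 0 ≤ t)
    (h1 : t ≤ 13 / 20) : ∀ g ∈ tE T, 0 ≤ exVal Y g := by
  simp only [tE, List.forall_mem_cons, exsub, exmul, exc, hT]
  push_cast
  exact ⟨h0, by linarith, fun _ hh => absurd hh List.not_mem_nil⟩

/-- `0 ≤ u ≤ 1` -/
def oE (U : Ex) : List Ex := [U, Ex.sub (Ex.c 1) U]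

theorem oE_nn {Y : ℕ → ℝ} {U : Ex} {u : ℝ} (hU : exVal Y U = u) (h0 : 0 ≤ u) (h1 : u ≤ 1) :
    ∀ g ∈ oE U, 0 ≤ exVal Y g := by
  simp only [oE, List.forall_mem_cons, exsub, exc, hU]
  push_cast
  exact ⟨h0, by linarith, fun _ hh => absurd hh List.not_mem_nil⟩

/-- `w ≥ 0` and the heights -/
def tlE : List Ex := Ex.v 7 :: bE

theorem tl_nn {x y z w : ℝ} (hb : Bd x y z) (hw : 0 ≤ w) (s u v A B : ℝ) :
    ∀ g ∈ tlE, 0 ≤ exVal (yv x y z w s u v A B) g := by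
  rw [tlE, List.forall_mem_cons]
  exact ⟨by rw [exv7]; exact hw, bE_nn hb w s u v A B⟩

/-- `2 w - A - B` -/
def mE : Ex := Ex.sub (Ex.sub (Ex.add (Ex.v 7) (Ex.v 7)) (Ex.v 19)) (Ex.v 23)

theorem mE_val (x y z w s u v A B : ℝ) :
    exVal (yv x y z w s u v A B) mE = 2 * w - A - B := by
  simp only [mE, exadd, exsub, exv7, exv19, exv23]
  ring

theorem one_nn {Y : ℕ → ℝ} {E : Ex} {e : ℝ} (hE : exVal Y E = e) (h : 0 ≤ e) :
    ∀ g ∈ [E], 0 ≤ exVal Y g := by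
  simp only [List.forall_mem_cons, hE]
  exact ⟨h, fun _ hh => absurd hh List.not_mem_nil⟩

end Pool.Agent.Helper20.TS
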