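import Pool.Agent.Helper20.TS.Ck

/-!
# The fields of `SA` and `GA` from closed certificates
-/

set_option autoImplicit false

namespace Pool.Agent.Helper20.TS

open Pool.Agent.Helper83.Cert Pool.Agent.Helper83.TS Pool.Agent.Helper53.TT Pool.Agent.Helper74.TS

section defs

variable (k : ℕ) (C1 C2 N W : Ex)

/-- the bound of the column, with the volume of the regime `k` -/
def pol (V : Ex) : Ex := Ex.sub (Ex.mul (Ex.c 6) W) (Ex.add (Ex.add V (raE N)) (fE k))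

/-- the bound of the column, the volume being at most `1/10` -/
def poL (V : Ex) : Ex := Ex.sub (Ex.mul (Ex.c 6) W) (Ex.add (Ex.add V (raE N)) (Ex.c 60000))

def mj1 : Ex := mjE C1 (Ex.sub (Ex.c 1) (Ex.v 2)) (Ex.v 2) (Ex.v 11)

def mj1A : Ex := mjE C1 (Ex.sub (Ex.c 1) (Ex.v 2)) (Ex.v 2) (Ex.sub (Ex.v 19) (Ex.c 1))

def mj2 : Ex := mjE C2 (Ex.sub (Ex.c 1) (Ex.v 3)) (Ex.v 3) (Ex.v 13)

def gP : List Ex :=
  ffE ++ (kE k ++ (uAE (Ex.v 2) (Ex.v 13) (Ex.v 19) ++ (uAE (Ex.v 3) (Ex.v 17) (Ex.v 23) ++ tlE)))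

def vP : Ex := Ex.add (stE C1 (Ex.v 2) (Ex.v 13)) (stE C2 (Ex.v 3) (Ex.v 17))

def gYc : List Ex :=
  ffE ++ (kE k ++ (yAE (Ex.v 2) (Ex.v 19) ++ (uAE (Ex.v 3) (Ex.v 17) (Ex.v 23) ++ tlE)))

def vYc : Ex := Ex.add (yVE C1 (Ex.v 2) (Ex.v 19)) (stE C2 (Ex.v 3) (Ex.v 17))

def gYl : List Ex :=
  ffE ++ (kE k ++ (uAE (Ex.v 2) (Ex.v 13) (Ex.v 19) ++ (yAE (Ex.v 3) (Ex.v 23) ++ tlE)))

def vYl : Ex := Ex.add (stE C1 (Ex.v 2) (Ex.v 13)) (yVE C2 (Ex.v 3) (Ex.v 23))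

/-- `324000 T (w - A)` -/
def hA (T A : Ex) : Ex := Ex.mul (Ex.mul (Ex.c 324000) T) (Ex.sub (Ex.v 7) A)

/-- `600000 T (2 w - A - B)` -/
def hM (T : Ex) : Ex := Ex.mul (Ex.mul (Ex.c 600000) T) mE

def gP0 : List Ex :=
  ffE ++ (kE k ++ ((tE (Ex.v 11) ++ [Ex.sub (Ex.v 7) (Ex.v 19)]) ++
    (uAE (Ex.v 3) (Ex.v 13) (Ex.v 23) ++ tlE)))

def vP0 : Ex := Ex.add (mj1 C1) (stE C2 (Ex.v 3) (Ex.v 13))

def gY0 : List Ex :=
  ffE ++ (kE k ++ ((tE (Ex.v 11) ++ [Ex.sub (Ex.v 7) (Ex.v 19)]) ++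
    (yAE (Ex.v 3) (Ex.v 23) ++ tlE)))

def vY0 : Ex := Ex.add (mj1 C1) (yVE C2 (Ex.v 3) (Ex.v 23))

/-- `A ≤ 1 + t` -/
def a1t : Ex := Ex.sub (Ex.add (Ex.c 1) (Ex.v 11)) (Ex.v 19)

def gP1 : List Ex :=
  ffE ++ (kE k ++ ((tE (Ex.v 11) ++ [mE, a1t]) ++ (uAE (Ex.v 3) (Ex.v 13) (Ex.v 23) ++ tlE)))

def gY1 : List Ex :=
  ffE ++ (kE k ++ ((tE (Ex.v 11) ++ [mE, a1t]) ++ (yAE (Ex.v 3) (Ex.v 23) ++ tlE)))

def gB1 : List Ex :=
  ffE ++ (kE k ++ ((tE (Ex.v 11) ++ [mE, Ex.sub (Ex.sub (Ex.v 19) (Ex.c 1)) (Ex.v 11),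
    Ex.sub (Ex.v 19) (Ex.c 1)]) ++ (uAE (Ex.v 3) (Ex.v 13) (Ex.v 23) ++ tlE)))

def vB1 : Ex := Ex.add (mj1A C1) (stE C2 (Ex.v 3) (Ex.v 13))

def pol2 (V H : Ex) : Ex :=
  Ex.sub (Ex.mul (Ex.c 6) W) (Ex.add (Ex.add (Ex.add V (raE N)) H) (fE k))

def gG00 : List Ex :=
  ffE ++ (kE k ++ ((tE (Ex.v 11) ++ tE (Ex.v 13)) ++
    ([Ex.sub (Ex.v 7) (Ex.v 19), Ex.sub (Ex.v 7) (Ex.v 23)] ++ tlE)))

def gG01 : List Ex :=
  ffE ++ (kE k ++ ((tE (Ex.v 11) ++ tE (Ex.v 13)) ++ ([Ex.sub (Ex.v 7) (Ex.v 19), mE] ++ tlE)))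

def gG10 : List Ex :=
  ffE ++ (kE k ++ ((tE (Ex.v 11) ++ tE (Ex.v 13)) ++ ([Ex.sub (Ex.v 7) (Ex.v 23), mE] ++ tlE)))

def gG11 : List Ex :=
  ffE ++ (kE k ++ ((tE (Ex.v 11) ++ tE (Ex.v 13)) ++ ([mE] ++ tlE)))

def vGG : Ex := Ex.add (mj1 C1) (mj2 C2)

def wwE : List Ex := [Ex.sub (Ex.mul (Ex.c 20) (Ex.v 7)) (Ex.c 13), Ex.sub (Ex.c 1) (Ex.v 7)]

def gL0 : List Ex := wwE ++ ((oE (Ex.v 13) ++ oE (Ex.v 17)) ++ tlE)

def gL1 : List Ex := wwE ++ ((tE (Ex.v 11) ++ oE (Ex.v 13)) ++ tlE)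

def gL2 : List Ex := wwE ++ ((tE (Ex.v 11) ++ tE (Ex.v 13)) ++ tlE)

def poL1 (V : Ex) : Ex := Ex.sub (Ex.mul (Ex.c 6) W)
  (Ex.add (Ex.add (Ex.add V (raE N)) (Ex.c 60000)) (vmT (Ex.v 11)))

def poL2 (V : Ex) : Ex := Ex.sub (Ex.mul (Ex.c 6) W)
  (Ex.add (Ex.add (Ex.add (Ex.add V (raE N)) (Ex.c 60000)) (vmT (Ex.v 11))) (vmT (Ex.v 13)))

end defs

section lemmas

variable {k : ℕ} {C1 C2 N W : Ex} {c1 c2 n r x y z : ℝ}

theorem sa_p (hb : Bd x y z) (h1 : Dt x y z C1 (100000 * c1)) (h2 : Dt x y z C2 (100000 * c2))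
    (h3 : Dt x y z N (100000 * n)) (h4 : Dt x y z W (100000 * r))
    (K : Ck (gP k) (pol k N W (vP C1 C2))) : ∀ w A B u v : ℝ, FF w A B → kv k w A B → 0 ≤ u →
    u ≤ 1 → u ≤ 1 - A + x → 0 ≤ v → v ≤ 1 → v ≤ 1 - B + y →
    st c1 x u + st c2 y v + ra n z w + vl w A B ≤ r := by
  intro w A B u v hF hk a1 a2 a3 b1 b2 b3
  have hw : 0 ≤ w := by linarith [hF.w0]
  refine K.fin (y := yv x y z w 0 u v A B)
    (yv_nonneg hb.x0 hb.y0 hb.z0 hw le_rfl a1 b1 hF.A0 hF.B0) ?_ (h4.h ..) ?_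
  · exact nn_append (ff_nn hF) (nn_append (kE_nn hk) (nn_append
      (uA_nn (exv2 ..) (exv13 ..) (exv19 ..) a1 a2 a3) (nn_append
      (uA_nn (exv3 ..) (exv17 ..) (exv23 ..) b1 b2 b3) (tl_nn hb hw _ _ _ _ _))))
  · simp only [vP, exadd, stE_val (h1.h ..) (exv2 ..) (exv13 ..),
      stE_val (h2.h ..) (exv3 ..) (exv17 ..), raE_val h3, fE_val hk]
    ring

theorem sa_yc (hb : Bd x y z) (h1 : Dt x y z C1 (100000 * c1)) (h2 : Dt x y z C2 (100000 * c2))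
    (h3 : Dt x y z N (100000 * n)) (h4 : Dt x y z W (100000 * r))
    (K : Ck (gYc k) (pol k N W (vYc C1 C2))) : ∀ w A B v : ℝ, FF w A B → kv k w A B →
    1 + x ≤ A → 0 ≤ v → v ≤ 1 → v ≤ 1 - B + y →
    c1 * (1 - A + x) + st c2 y v + ra n z w + vl w A B ≤ r := by
  intro w A B v hF hk a1 b1 b2 b3
  have hw : 0 ≤ w := by linarith [hF.w0]
  refine K.fin (y := yv x y z w 0 0 v A B)
    (yv_nonneg hb.x0 hb.y0 hb.z0 hw le_rfl le_rfl b1 hF.A0 hF.B0) ?_ (h4.h ..) ?_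
  · exact nn_append (ff_nn hF) (nn_append (kE_nn hk) (nn_append
      (yA_nn (exv2 ..) (exv19 ..) a1) (nn_append
      (uA_nn (exv3 ..) (exv17 ..) (exv23 ..) b1 b2 b3) (tl_nn hb hw _ _ _ _ _))))
  · simp only [vYc, exadd, yVE_val (h1.h ..) (exv2 ..) (exv19 ..),
      stE_val (h2.h ..) (exv3 ..) (exv17 ..), raE_val h3, fE_val hk]
    ring

theorem sa_yl (hb : Bd x y z) (h1 : Dt x y z C1 (100000 * c1)) (h2 : Dt x y z C2 (100000 * c2))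
    (h3 : Dt x y z N (100000 * n)) (h4 : Dt x y z W (100000 * r))
    (K : Ck (gYl k) (pol k N W (vYl C1 C2))) : ∀ w A B u : ℝ, FF w A B → kv k w A B →
    1 + y ≤ B → 0 ≤ u → u ≤ 1 → u ≤ 1 - A + x →
    st c1 x u + c2 * (1 - B + y) + ra n z w + vl w A B ≤ r := by
  intro w A B u hF hk b1 a1 a2 a3
  have hw : 0 ≤ w := by linarith [hF.w0]
  refine K.fin (y := yv x y z w 0 u 0 A B)
    (yv_nonneg hb.x0 hb.y0 hb.z0 hw le_rfl a1 le_rfl hF.A0 hF.B0) ?_ (h4.h ..) ?_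
  · exact nn_append (ff_nn hF) (nn_append (kE_nn hk) (nn_append
      (uA_nn (exv2 ..) (exv13 ..) (exv19 ..) a1 a2 a3) (nn_append
      (yA_nn (exv3 ..) (exv23 ..) b1) (tl_nn hb hw _ _ _ _ _))))
  · simp only [vYl, exadd, yVE_val (h2.h ..) (exv3 ..) (exv23 ..),
      stE_val (h1.h ..) (exv2 ..) (exv13 ..), raE_val h3, fE_val hk]
    ring

theorem hA_val {Y : ℕ → ℝ} {T A : Ex} {t a w : ℝ} (hT : exVal Y T = t) (hA' : exVal Y A = a)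
    (hw : exVal Y (Ex.v 7) = w) : exVal Y (hA T A) = 600000 * (27 / 50 * t * (w - a)) := by
  simp only [hA, exsub, exmul, exc, hT, hA', hw]
  push_cast
  ring

theorem hM_val {Y : ℕ → ℝ} {T : Ex} {t m : ℝ} (hT : exVal Y T = t) (hm : exVal Y mE = m) :
    exVal Y (hM T) = 600000 * (t * m) := by
  simp only [hM, exmul, exc, hT, hm]
  push_cast
  ring

theorem mj1_val (h1 : Dt x y z C1 (100000 * c1)) (w t u v A B : ℝ) :
    exVal (yv x y z w t u v A B) (mj1 C1) = 600000 * mj c1 (1 - x) x t :=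
  mjE_val (h1.h ..) (by rw [exsub, exc, exv2]; push_cast; ring) (exv2 ..) (exv11 ..)

theorem mj1A_val (h1 : Dt x y z C1 (100000 * c1)) (w t u v A B : ℝ) :
    exVal (yv x y z w t u v A B) (mj1A C1) = 600000 * mj c1 (1 - x) x (A - 1) :=
  mjE_val (h1.h ..) (by rw [exsub, exc, exv2]; push_cast; ring) (exv2 ..)
    (by rw [exsub, exc, exv19]; push_cast; ring)

theorem mj2_val (h2 : Dt x y z C2 (100000 * c2)) (w t u v A B : ℝ) :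
    exVal (yv x y z w t u v A B) (mj2 C2) = 600000 * mj c2 (1 - y) y u :=
  mjE_val (h2.h ..) (by rw [exsub, exc, exv3]; push_cast; ring) (exv3 ..) (exv13 ..)

theorem ga_p0 (hb : Bd x y z) (h1 : Dt x y z C1 (100000 * c1)) (h2 : Dt x y z C2 (100000 * c2))
    (h3 : Dt x y z N (100000 * n)) (h4 : Dt x y z W (100000 * r))
    (K : Ck (gP0 k) (pol2 k N W (vP0 C1 C2) (hA (Ex.v 11) (Ex.v 19)))) :
    ∀ w A B t u : ℝ, FF w A B → kv k w A B → 0 ≤ t → t ≤ 13 / 20 → A ≤ w → 0 ≤ u → u ≤ 1 →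
    u ≤ 1 - B + y →
    mj c1 (1 - x) x t + st c2 y u + ra n z w + 27 / 50 * t * (w - A) + vl w A B ≤ r := by
  intro w A B t u hF hk t0 t1 hA' a1 a2 a3
  have hw : 0 ≤ w := by linarith [hF.w0]
  refine K.fin (y := yv x y z w t u 0 A B)
    (yv_nonneg hb.x0 hb.y0 hb.z0 hw t0 a1 le_rfl hF.A0 hF.B0) ?_ (h4.h ..) ?_
  · exact nn_append (ff_nn hF) (nn_append (kE_nn hk) (nn_append (nn_append
      (tE_nn (exv11 ..) t0 t1) (one_nn (by rw [exsub, exv7, exv19]) (sub_nonneg.2 hA')))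
      (nn_append (uA_nn (exv3 ..) (exv13 ..) (exv23 ..) a1 a2 a3) (tl_nn hb hw _ _ _ _ _))))
  · simp only [vP0, exadd, mj1_val h1, stE_val (h2.h ..) (exv3 ..) (exv13 ..), raE_val h3,
      fE_val hk, hA_val (exv11 ..) (exv19 ..) (exv7 ..)]
    ring

theorem ga_y0 (hb : Bd x y z) (h1 : Dt x y z C1 (100000 * c1)) (h2 : Dt x y z C2 (100000 * c2))
    (h3 : Dt x y z N (100000 * n)) (h4 : Dt x y z W (100000 * r))
    (K : Ck (gY0 k) (pol2 k N W (vY0 C1 C2) (hA (Ex.v 11) (Ex.v 19)))) :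
    ∀ w A B t : ℝ, FF w A B → kv k w A B → 0 ≤ t → t ≤ 13 / 20 → A ≤ w → 1 + y ≤ B →
    mj c1 (1 - x) x t + c2 * (1 - B + y) + ra n z w + 27 / 50 * t * (w - A) + vl w A B ≤ r := by
  intro w A B t hF hk t0 t1 hA' b1
  have hw : 0 ≤ w := by linarith [hF.w0]
  refine K.fin (y := yv x y z w t 0 0 A B)
    (yv_nonneg hb.x0 hb.y0 hb.z0 hw t0 le_rfl le_rfl hF.A0 hF.B0) ?_ (h4.h ..) ?_
  · exact nn_append (ff_nn hF) (nn_append (kE_nn hk) (nn_append (nn_append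
      (tE_nn (exv11 ..) t0 t1) (one_nn (by rw [exsub, exv7, exv19]) (sub_nonneg.2 hA')))
      (nn_append (yA_nn (exv3 ..) (exv23 ..) b1) (tl_nn hb hw _ _ _ _ _))))
  · simp only [vY0, exadd, mj1_val h1, yVE_val (h2.h ..) (exv3 ..) (exv23 ..), raE_val h3,
      fE_val hk, hA_val (exv11 ..) (exv19 ..) (exv7 ..)]
    ring

theorem m2_nn {w t u v A B : ℝ} (h1 : A + B ≤ 2 * w) (h2 : A ≤ 1 + t) :
    ∀ g ∈ [mE, a1t], 0 ≤ exVal (yv x y z w t u v A B) g := by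
  simp only [a1t, List.forall_mem_cons, mE_val, exadd, exsub, exc, exv11, exv19]
  push_cast
  exact ⟨by linarith, by linarith, fun _ hh => absurd hh List.not_mem_nil⟩

theorem ga_p1 (hb : Bd x y z) (h1 : Dt x y z C1 (100000 * c1)) (h2 : Dt x y z C2 (100000 * c2))
    (h3 : Dt x y z N (100000 * n)) (h4 : Dt x y z W (100000 * r))
    (K : Ck (gP1 k) (pol2 k N W (vP0 C1 C2) (hM (Ex.v 11)))) :
    ∀ w A B t u : ℝ, FF w A B → kv k w A B → 0 ≤ t → t ≤ 13 / 20 → A + B ≤ 2 * w → A ≤ 1 + t →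
    0 ≤ u → u ≤ 1 → u ≤ 1 - B + y →
    mj c1 (1 - x) x t + st c2 y u + ra n z w + t * (2 * w - A - B) + vl w A B ≤ r := by
  intro w A B t u hF hk t0 t1 hAB hA' a1 a2 a3
  have hw : 0 ≤ w := by linarith [hF.w0]
  refine K.fin (y := yv x y z w t u 0 A B)
    (yv_nonneg hb.x0 hb.y0 hb.z0 hw t0 a1 le_rfl hF.A0 hF.B0) ?_ (h4.h ..) ?_
  · exact nn_append (ff_nn hF) (nn_append (kE_nn hk) (nn_append (nn_append
      (tE_nn (exv11 ..) t0 t1) (m2_nn hAB hA'))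
      (nn_append (uA_nn (exv3 ..) (exv13 ..) (exv23 ..) a1 a2 a3) (tl_nn hb hw _ _ _ _ _))))
  · simp only [vP0, exadd, mj1_val h1, stE_val (h2.h ..) (exv3 ..) (exv13 ..), raE_val h3,
      fE_val hk, hM_val (exv11 ..) (mE_val ..)]
    ring

theorem ga_y1 (hb : Bd x y z) (h1 : Dt x y z C1 (100000 * c1)) (h2 : Dt x y z C2 (100000 * c2))
    (h3 : Dt x y z N (100000 * n)) (h4 : Dt x y z W (100000 * r))
    (K : Ck (gY1 k) (pol2 k N W (vY0 C1 C2) (hM (Ex.v 11)))) :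
    ∀ w A B t : ℝ, FF w A B → kv k w A B → 0 ≤ t → t ≤ 13 / 20 → A + B ≤ 2 * w → A ≤ 1 + t →
    1 + y ≤ B →
    mj c1 (1 - x) x t + c2 * (1 - B + y) + ra n z w + t * (2 * w - A - B) + vl w A B ≤ r := by
  intro w A B t hF hk t0 t1 hAB hA' b1
  have hw : 0 ≤ w := by linarith [hF.w0]
  refine K.fin (y := yv x y z w t 0 0 A B)
    (yv_nonneg hb.x0 hb.y0 hb.z0 hw t0 le_rfl le_rfl hF.A0 hF.B0) ?_ (h4.h ..) ?_
  · exact nn_append (ff_nn hF) (nn_append (kE_nn hk) (nn_append (nn_append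
      (tE_nn (exv11 ..) t0 t1) (m2_nn hAB hA'))
      (nn_append (yA_nn (exv3 ..) (exv23 ..) b1) (tl_nn hb hw _ _ _ _ _))))
  · simp only [vY0, exadd, mj1_val h1, yVE_val (h2.h ..) (exv3 ..) (exv23 ..), raE_val h3,
      fE_val hk, hM_val (exv11 ..) (mE_val ..)]
    ring

theorem ga_b1 (hb : Bd x y z) (h1 : Dt x y z C1 (100000 * c1)) (h2 : Dt x y z C2 (100000 * c2))
    (h3 : Dt x y z N (100000 * n)) (h4 : Dt x y z W (100000 * r))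
    (K : Ck (gB1 k) (pol2 k N W (vB1 C1 C2) (hM (Ex.v 11)))) :
    ∀ w A B t u : ℝ, FF w A B → kv k w A B → 0 ≤ t → t ≤ 13 / 20 → A + B ≤ 2 * w → 1 + t ≤ A →
    0 ≤ u → u ≤ 1 → u ≤ 1 - B + y →
    mj c1 (1 - x) x (A - 1) + st c2 y u + ra n z w + t * (2 * w - A - B) + vl w A B ≤ r := by
  intro w A B t u hF hk t0 t1 hAB hA' a1 a2 a3
  have hw : 0 ≤ w := by linarith [hF.w0]
  refine K.fin (y := yv x y z w t u 0 A B)
    (yv_nonneg hb.x0 hb.y0 hb.z0 hw t0 a1 le_rfl hF.A0 hF.B0) ?_ (h4.h ..) ?_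
  · refine nn_append (ff_nn hF) (nn_append (kE_nn hk) (nn_append (nn_append
      (tE_nn (exv11 ..) t0 t1) ?_)
      (nn_append (uA_nn (exv3 ..) (exv13 ..) (exv23 ..) a1 a2 a3) (tl_nn hb hw _ _ _ _ _))))
    simp only [List.forall_mem_cons, mE_val, exsub, exc, exv11, exv19]
    push_cast
    exact ⟨by linarith, by linarith, by linarith, fun _ hh => absurd hh List.not_mem_nil⟩
  · simp only [vB1, exadd, mj1A_val h1, stE_val (h2.h ..) (exv3 ..) (exv13 ..), raE_val h3,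
      fE_val hk, hM_val (exv11 ..) (mE_val ..)]
    ring

theorem sa_g00 (hb : Bd x y z) (h1 : Dt x y z C1 (100000 * c1)) (h2 : Dt x y z C2 (100000 * c2))
    (h3 : Dt x y z N (100000 * n)) (h4 : Dt x y z W (100000 * r))
    (K : Ck (gG00 k) (pol2 k N W (vGG C1 C2)
      (Ex.add (hA (Ex.v 11) (Ex.v 19)) (hA (Ex.v 13) (Ex.v 23))))) :
    ∀ w A B t p : ℝ, FF w A B → kv k w A B → 0 ≤ t → t ≤ 13 / 20 → 0 ≤ p → p ≤ 13 / 20 →
    A ≤ w → B ≤ w →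
    mj c1 (1 - x) x t + mj c2 (1 - y) y p + ra n z w + 27 / 50 * t * (w - A)
      + 27 / 50 * p * (w - B) + vl w A B ≤ r := by
  intro w A B t p hF hk t0 t1 p0 p1 hA' hB'
  have hw : 0 ≤ w := by linarith [hF.w0]
  refine K.fin (y := yv x y z w t p 0 A B)
    (yv_nonneg hb.x0 hb.y0 hb.z0 hw t0 p0 le_rfl hF.A0 hF.B0) ?_ (h4.h ..) ?_
  · refine nn_append (ff_nn hF) (nn_append (kE_nn hk) (nn_append (nn_append
      (tE_nn (exv11 ..) t0 t1) (tE_nn (exv13 ..) p0 p1)) (nn_append ?_ (tl_nn hb hw _ _ _ _ _))))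
    simp only [List.forall_mem_cons, exsub, exv7, exv19, exv23]
    exact ⟨by linarith, by linarith, fun _ hh => absurd hh List.not_mem_nil⟩
  · simp only [vGG, exadd, mj1_val h1, mj2_val h2, raE_val h3, fE_val hk,
      hA_val (exv11 ..) (exv19 ..) (exv7 ..), hA_val (exv13 ..) (exv23 ..) (exv7 ..)]
    ring

theorem sa_g01 (hb : Bd x y z) (h1 : Dt x y z C1 (100000 * c1)) (h2 : Dt x y z C2 (100000 * c2))
    (h3 : Dt x y z N (100000 * n)) (h4 : Dt x y z W (100000 * r))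
    (K : Ck (gG01 k) (pol2 k N W (vGG C1 C2)
      (Ex.add (hA (Ex.v 11) (Ex.v 19)) (hM (Ex.v 13))))) :
    ∀ w A B t p : ℝ, FF w A B → kv k w A B → 0 ≤ t → t ≤ 13 / 20 → 0 ≤ p → p ≤ 13 / 20 →
    A ≤ w → A + B ≤ 2 * w →
    mj c1 (1 - x) x t + mj c2 (1 - y) y p + ra n z w + 27 / 50 * t * (w - A)
      + p * (2 * w - A - B) + vl w A B ≤ r := by
  intro w A B t p hF hk t0 t1 p0 p1 hA' hB'
  have hw : 0 ≤ w := by linarith [hF.w0]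
  refine K.fin (y := yv x y z w t p 0 A B)
    (yv_nonneg hb.x0 hb.y0 hb.z0 hw t0 p0 le_rfl hF.A0 hF.B0) ?_ (h4.h ..) ?_
  · refine nn_append (ff_nn hF) (nn_append (kE_nn hk) (nn_append (nn_append
      (tE_nn (exv11 ..) t0 t1) (tE_nn (exv13 ..) p0 p1)) (nn_append ?_ (tl_nn hb hw _ _ _ _ _))))
    simp only [List.forall_mem_cons, mE_val, exsub, exv7, exv19]
    exact ⟨by linarith, by linarith, fun _ hh => absurd hh List.not_mem_nil⟩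
  · simp only [vGG, exadd, mj1_val h1, mj2_val h2, raE_val h3, fE_val hk,
      hA_val (exv11 ..) (exv19 ..) (exv7 ..), hM_val (exv13 ..) (mE_val ..)]
    ring

theorem sa_g10 (hb : Bd x y z) (h1 : Dt x y z C1 (100000 * c1)) (h2 : Dt x y z C2 (100000 * c2))
    (h3 : Dt x y z N (100000 * n)) (h4 : Dt x y z W (100000 * r))
    (K : Ck (gG10 k) (pol2 k N W (vGG C1 C2)
      (Ex.add (hM (Ex.v 11)) (hA (Ex.v 13) (Ex.v 23))))) :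
    ∀ w A B t p : ℝ, FF w A B → kv k w A B → 0 ≤ t → t ≤ 13 / 20 → 0 ≤ p → p ≤ 13 / 20 →
    B ≤ w → A + B ≤ 2 * w →
    mj c1 (1 - x) x t + mj c2 (1 - y) y p + ra n z w + t * (2 * w - A - B)
      + 27 / 50 * p * (w - B) + vl w A B ≤ r := by
  intro w A B t p hF hk t0 t1 p0 p1 hA' hB'
  have hw : 0 ≤ w := by linarith [hF.w0]
  refine K.fin (y := yv x y z w t p 0 A B)
    (yv_nonneg hb.x0 hb.y0 hb.z0 hw t0 p0 le_rfl hF.A0 hF.B0) ?_ (h4.h ..) ?_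
  · refine nn_append (ff_nn hF) (nn_append (kE_nn hk) (nn_append (nn_append
      (tE_nn (exv11 ..) t0 t1) (tE_nn (exv13 ..) p0 p1)) (nn_append ?_ (tl_nn hb hw _ _ _ _ _))))
    simp only [List.forall_mem_cons, mE_val, exsub, exv7, exv23]
    exact ⟨by linarith, by linarith, fun _ hh => absurd hh List.not_mem_nil⟩
  · simp only [vGG, exadd, mj1_val h1, mj2_val h2, raE_val h3, fE_val hk,
      hA_val (exv13 ..) (exv23 ..) (exv7 ..), hM_val (exv11 ..) (mE_val ..)]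
    ring

theorem sa_g11 (hb : Bd x y z) (h1 : Dt x y z C1 (100000 * c1)) (h2 : Dt x y z C2 (100000 * c2))
    (h3 : Dt x y z N (100000 * n)) (h4 : Dt x y z W (100000 * r))
    (K : Ck (gG11 k) (pol2 k N W (vGG C1 C2) (Ex.add (hM (Ex.v 11)) (hM (Ex.v 13))))) :
    ∀ w A B t p : ℝ, FF w A B → kv k w A B → 0 ≤ t → t ≤ 13 / 20 → 0 ≤ p → p ≤ 13 / 20 →
    A + B ≤ 2 * w →
    mj c1 (1 - x) x t + mj c2 (1 - y) y p + ra n z w + t * (2 * w - A - B)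
      + p * (2 * w - A - B) + vl w A B ≤ r := by
  intro w A B t p hF hk t0 t1 p0 p1 hB'
  have hw : 0 ≤ w := by linarith [hF.w0]
  refine K.fin (y := yv x y z w t p 0 A B)
    (yv_nonneg hb.x0 hb.y0 hb.z0 hw t0 p0 le_rfl hF.A0 hF.B0) ?_ (h4.h ..) ?_
  · exact nn_append (ff_nn hF) (nn_append (kE_nn hk) (nn_append (nn_append
      (tE_nn (exv11 ..) t0 t1) (tE_nn (exv13 ..) p0 p1)) (nn_append
      (one_nn (mE_val ..) (by linarith)) (tl_nn hb hw _ _ _ _ _))))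
  · simp only [vGG, exadd, mj1_val h1, mj2_val h2, raE_val h3, fE_val hk,
      hM_val (exv11 ..) (mE_val ..), hM_val (exv13 ..) (mE_val ..)]
    ring

theorem ww_nn {w t u v A B : ℝ} (h1 : 13 / 20 ≤ w) (h2 : w ≤ 1) :
    ∀ g ∈ wwE, 0 ≤ exVal (yv x y z w t u v A B) g := by
  simp only [wwE, List.forall_mem_cons, exsub, exmul, exc, exv7]
  push_cast
  exact ⟨by linarith, by linarith, fun _ hh => absurd hh List.not_mem_nil⟩

theorem sa_l0 (hb : Bd x y z) (h1 : Dt x y z C1 (100000 * c1)) (h2 : Dt x y z C2 (100000 * c2))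
    (h3 : Dt x y z N (100000 * n)) (h4 : Dt x y z W (100000 * r))
    (K : Ck gL0 (poL N W (vP C1 C2))) :
    ∀ w u v : ℝ, 13 / 20 ≤ w → w ≤ 1 → 0 ≤ u → u ≤ 1 → 0 ≤ v → v ≤ 1 →
    st c1 x u + st c2 y v + ra n z w + 1 / 10 ≤ r := by
  intro w u v w0 w1 a1 a2 b1 b2
  have hw : 0 ≤ w := by linarith
  refine K.fin (y := yv x y z w 0 u v 0 0)
    (yv_nonneg hb.x0 hb.y0 hb.z0 hw le_rfl a1 b1 le_rfl le_rfl) ?_ (h4.h ..) ?_
  · exact nn_append (ww_nn w0 w1) (nn_append (nn_append (oE_nn (exv13 ..) a1 a2)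
      (oE_nn (exv17 ..) b1 b2)) (tl_nn hb hw _ _ _ _ _))
  · simp only [vP, exadd, exc, stE_val (h1.h ..) (exv2 ..) (exv13 ..),
      stE_val (h2.h ..) (exv3 ..) (exv17 ..), raE_val h3]
    push_cast
    ring

theorem ga_l (hb : Bd x y z) (h1 : Dt x y z C1 (100000 * c1)) (h2 : Dt x y z C2 (100000 * c2))
    (h3 : Dt x y z N (100000 * n)) (h4 : Dt x y z W (100000 * r))
    (K : Ck gL1 (poL1 N W (vP0 C1 C2))) :
    ∀ w t u : ℝ, 13 / 20 ≤ w → w ≤ 1 → 0 ≤ t → t ≤ 13 / 20 → 0 ≤ u → u ≤ 1 →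
    mj c1 (1 - x) x t + st c2 y u + ra n z w + 1 / 10 + vm t ≤ r := by
  intro w t u w0 w1 t0 t1 a1 a2
  have hw : 0 ≤ w := by linarith
  refine K.fin (y := yv x y z w t u 0 0 0)
    (yv_nonneg hb.x0 hb.y0 hb.z0 hw t0 a1 le_rfl le_rfl le_rfl) ?_ (h4.h ..) ?_
  · exact nn_append (ww_nn w0 w1) (nn_append (nn_append (tE_nn (exv11 ..) t0 t1)
      (oE_nn (exv13 ..) a1 a2)) (tl_nn hb hw _ _ _ _ _))
  · simp only [vP0, exadd, exc, mj1_val h1, stE_val (h2.h ..) (exv3 ..) (exv13 ..), raE_val h3,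
      vmT_val (exv11 ..)]
    push_cast
    ring

theorem sa_l2 (hb : Bd x y z) (h1 : Dt x y z C1 (100000 * c1)) (h2 : Dt x y z C2 (100000 * c2))
    (h3 : Dt x y z N (100000 * n)) (h4 : Dt x y z W (100000 * r))
    (K : Ck gL2 (poL2 N W (vGG C1 C2))) :
    ∀ w t p : ℝ, 13 / 20 ≤ w → w ≤ 1 → 0 ≤ t → t ≤ 13 / 20 → 0 ≤ p → p ≤ 13 / 20 →
    mj c1 (1 - x) x t + mj c2 (1 - y) y p + ra n z w + 1 / 10 + vm t + vm p ≤ r := by
  intro w t p w0 w1 t0 t1 p0 p1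
  have hw : 0 ≤ w := by linarith
  refine K.fin (y := yv x y z w t p 0 0 0)
    (yv_nonneg hb.x0 hb.y0 hb.z0 hw t0 p0 le_rfl le_rfl le_rfl) ?_ (h4.h ..) ?_
  · exact nn_append (ww_nn w0 w1) (nn_append (nn_append (tE_nn (exv11 ..) t0 t1)
      (tE_nn (exv13 ..) p0 p1)) (tl_nn hb hw _ _ _ _ _))
  · simp only [vGG, exadd, exc, mj1_val h1, mj2_val h2, raE_val h3, vmT_val (exv11 ..),
      vmT_val (exv13 ..)]
    push_cast
    ring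

/-- the certificates of `GA` -/
structure KGA (C1 C2 N W : Ex) : Prop where
  p02 : Ck (gP0 2) (pol2 2 N W (vP0 C1 C2) (hA (Ex.v 11) (Ex.v 19)))
  p04 : Ck (gP0 4) (pol2 4 N W (vP0 C1 C2) (hA (Ex.v 11) (Ex.v 19)))
  y0 : Ck (gY0 2) (pol2 2 N W (vY0 C1 C2) (hA (Ex.v 11) (Ex.v 19)))
  p12 : Ck (gP1 2) (pol2 2 N W (vP0 C1 C2) (hM (Ex.v 11)))
  p13 : Ck (gP1 3) (pol2 3 N W (vP0 C1 C2) (hM (Ex.v 11)))
  p14 : Ck (gP1 4) (pol2 4 N W (vP0 C1 C2) (hM (Ex.v 11)))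
  y1 : Ck (gY1 2) (pol2 2 N W (vY0 C1 C2) (hM (Ex.v 11)))
  b1 : Ck (gB1 3) (pol2 3 N W (vB1 C1 C2) (hM (Ex.v 11)))
  l : Ck gL1 (poL1 N W (vP0 C1 C2))

theorem ga_of (hb : Bd x y z) (h1 : Dt x y z C1 (100000 * c1)) (h2 : Dt x y z C2 (100000 * c2))
    (h3 : Dt x y z N (100000 * n)) (h4 : Dt x y z W (100000 * r)) (K : KGA C1 C2 N W) :
    GA c1 x c2 y n z r where
  p0 := by
    intro w A B t u hF t0 t1 hA' a1 a2 a3
    rcases le_total B w with hB | hB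
    · exact ga_p0 hb h1 h2 h3 h4 K.p04 w A B t u hF ⟨hA', hB⟩ t0 t1 hA' a1 a2 a3
    · exact ga_p0 hb h1 h2 h3 h4 K.p02 w A B t u hF ⟨hA', hB⟩ t0 t1 hA' a1 a2 a3
  y0 := by
    intro w A B t hF t0 t1 hA' b1
    exact ga_y0 hb h1 h2 h3 h4 K.y0 w A B t hF ⟨hA', by linarith [hF.w1, hb.y0]⟩ t0 t1 hA' b1
  p1 := by
    intro w A B t u hF t0 t1 hAB hA' a1 a2 a3
    rcases le_total A w with hA | hA
    · rcases le_total B w with hB | hB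
      · exact ga_p1 hb h1 h2 h3 h4 K.p14 w A B t u hF ⟨hA, hB⟩ t0 t1 hAB hA' a1 a2 a3
      · exact ga_p1 hb h1 h2 h3 h4 K.p12 w A B t u hF ⟨hA, hB⟩ t0 t1 hAB hA' a1 a2 a3
    · exact ga_p1 hb h1 h2 h3 h4 K.p13 w A B t u hF ⟨by linarith, hA⟩ t0 t1 hAB hA' a1 a2 a3
  y1 := by
    intro w A B t hF t0 t1 hAB b1
    have hB : w ≤ B := by linarith [hF.w1, hb.y0]
    exact ga_y1 hb h1 h2 h3 h4 K.y1 w A B t hF ⟨by linarith, hB⟩ t0 t1 hAB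
      (by linarith [hF.w1]) b1
  b1 := by
    intro w A B t u hF t0 t1 hAB hA' a1 a2 a3
    have hA : w ≤ A := by linarith [hF.w1]
    exact ga_b1 hb h1 h2 h3 h4 K.b1 w A B t u hF ⟨by linarith, hA⟩ t0 t1 hAB hA' a1 a2 a3
  l := ga_l hb h1 h2 h3 h4 K.l

/-- the certificates of `SA`, without `GA` -/
structure KSA (C1 C2 N W : Ex) : Prop where
  p1 : Ck (gP 1) (pol 1 N W (vP C1 C2))
  p2 : Ck (gP 2) (pol 2 N W (vP C1 C2))
  p3 : Ck (gP 3) (pol 3 N W (vP C1 C2))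
  p4 : Ck (gP 4) (pol 4 N W (vP C1 C2))
  yc : Ck (gYc 3) (pol 3 N W (vYc C1 C2))
  yl : Ck (gYl 2) (pol 2 N W (vYl C1 C2))
  g00 : Ck (gG00 4) (pol2 4 N W (vGG C1 C2)
      (Ex.add (hA (Ex.v 11) (Ex.v 19)) (hA (Ex.v 13) (Ex.v 23))))
  g012 : Ck (gG01 2) (pol2 2 N W (vGG C1 C2)
      (Ex.add (hA (Ex.v 11) (Ex.v 19)) (hM (Ex.v 13))))
  g014 : Ck (gG01 4) (pol2 4 N W (vGG C1 C2)
      (Ex.add (hA (Ex.v 11) (Ex.v 19)) (hM (Ex.v 13))))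
  g103 : Ck (gG10 3) (pol2 3 N W (vGG C1 C2)
      (Ex.add (hM (Ex.v 11)) (hA (Ex.v 13) (Ex.v 23))))
  g104 : Ck (gG10 4) (pol2 4 N W (vGG C1 C2)
      (Ex.add (hM (Ex.v 11)) (hA (Ex.v 13) (Ex.v 23))))
  g112 : Ck (gG11 2) (pol2 2 N W (vGG C1 C2) (Ex.add (hM (Ex.v 11)) (hM (Ex.v 13))))
  g113 : Ck (gG11 3) (pol2 3 N W (vGG C1 C2) (Ex.add (hM (Ex.v 11)) (hM (Ex.v 13))))
  g114 : Ck (gG11 4) (pol2 4 N W (vGG C1 C2) (Ex.add (hM (Ex.v 11)) (hM (Ex.v 13))))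
  l0 : Ck gL0 (poL N W (vP C1 C2))
  l2 : Ck gL2 (poL2 N W (vGG C1 C2))

/-- all fields of `SA` but `h1`, `h2` -/
theorem sa_of (hb : Bd x y z) (h1 : Dt x y z C1 (100000 * c1)) (h2 : Dt x y z C2 (100000 * c2))
    (h3 : Dt x y z N (100000 * n)) (h4 : Dt x y z W (100000 * r)) (K : KSA C1 C2 N W)
    (n0 : 0 ≤ n) (m1 : x * (1 - x) ≤ c1) (m2 : y * (1 - y) ≤ c2) (g1 : GA c1 x c2 y n z r)
    (g2 : GA c2 y c1 x n z r) : SA c1 x c2 y n z r where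
  n0 := n0
  m1 := m1
  m2 := m2
  p := by
    intro w A B u v hF a1 a2 a3 b1 b2 b3
    rcases le_total A w with hA | hA
    · rcases le_total B w with hB | hB
      · exact sa_p hb h1 h2 h3 h4 K.p4 w A B u v hF ⟨hA, hB⟩ a1 a2 a3 b1 b2 b3
      · exact sa_p hb h1 h2 h3 h4 K.p2 w A B u v hF ⟨hA, hB⟩ a1 a2 a3 b1 b2 b3
    · rcases le_total B w with hB | hB
      · exact sa_p hb h1 h2 h3 h4 K.p3 w A B u v hF ⟨hB, hA⟩ a1 a2 a3 b1 b2 b3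
      · exact sa_p hb h1 h2 h3 h4 K.p1 w A B u v hF ⟨hA, hB⟩ a1 a2 a3 b1 b2 b3
  yc := by
    intro w A B v hF hA b1 b2 b3
    exact sa_yc hb h1 h2 h3 h4 K.yc w A B v hF
      ⟨by linarith [hF.hi, hb.x0, hF.w0], by linarith [hF.w1, hb.x0]⟩ hA b1 b2 b3
  yl := by
    intro w A B u hF hB a1 a2 a3
    exact sa_yl hb h1 h2 h3 h4 K.yl w A B u hF
      ⟨by linarith [hF.hi, hb.y0, hF.w0], by linarith [hF.w1, hb.y0]⟩ hB a1 a2 a3
  g00 := by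
    intro w A B t p hF t0 t1 p0 p1 hA hB
    exact sa_g00 hb h1 h2 h3 h4 K.g00 w A B t p hF ⟨hA, hB⟩ t0 t1 p0 p1 hA hB
  g01 := by
    intro w A B t p hF t0 t1 p0 p1 hA hAB
    rcases le_total B w with hB | hB
    · exact sa_g01 hb h1 h2 h3 h4 K.g014 w A B t p hF ⟨hA, hB⟩ t0 t1 p0 p1 hA hAB
    · exact sa_g01 hb h1 h2 h3 h4 K.g012 w A B t p hF ⟨hA, hB⟩ t0 t1 p0 p1 hA hAB
  g10 := by
    intro w A B t p hF t0 t1 p0 p1 hB hAB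
    rcases le_total A w with hA | hA
    · exact sa_g10 hb h1 h2 h3 h4 K.g104 w A B t p hF ⟨hA, hB⟩ t0 t1 p0 p1 hB hAB
    · exact sa_g10 hb h1 h2 h3 h4 K.g103 w A B t p hF ⟨hB, hA⟩ t0 t1 p0 p1 hB hAB
  g11 := by
    intro w A B t p hF t0 t1 p0 p1 hAB
    rcases le_total A w with hA | hA
    · rcases le_total B w with hB | hB
      · exact sa_g11 hb h1 h2 h3 h4 K.g114 w A B t p hF ⟨hA, hB⟩ t0 t1 p0 p1 hAB
      · exact sa_g11 hb h1 h2 h3 h4 K.g112 w A B t p hF ⟨hA, hB⟩ t0 t1 p0 p1 hAB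
    · exact sa_g11 hb h1 h2 h3 h4 K.g113 w A B t p hF ⟨by linarith, hA⟩ t0 t1 p0 p1 hAB
  l0 := sa_l0 hb h1 h2 h3 h4 K.l0
  l2 := sa_l2 hb h1 h2 h3 h4 K.l2
  h1 := g1
  h2 := g2

end lemmas

end Pool.Agent.Helper20.TS
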