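import Pool.Agent.Helper20.TS.TallSAD

/-!
# Column `b`, set A: certificates 2
-/

set_option autoImplicit false
set_option maxRecDepth 100000

namespace Pool.Agent.Helper20.TS.SA

open Pool.Agent.Helper83.Cert Pool.Agent.Helper83.TS Pool.Agent.Helper53.TT

theorem r0_p02 : Ck (gP0 2)
    (pol2 2 nE WE (vP0 c1E c2E) (hA (Ex.v 11) (Ex.v 19))) :=
  Ck.mk' 250000 (.add (.add (.add (.add (.mul (.g 13) (.add (.add (.add (.add (.mul (.pp [(1, 139890)]) (.sq [(2,
    80), (3, -27), (5, -17), (7, 100), (11, 81), (13, -23), (19, 39), (23, 30)])) (.mul (.pp [(1,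
    55875)]) (.sq [(2, 6), (3, -6), (5, 50), (7, 100), (11, -26), (13, 15), (19, 32), (23, 3)])))
    (.add (.mul (.pp [(1, 466230)]) (.sq [(2, -8), (3, -92), (5, 100), (11, -29), (13, -14), (19,
    -11), (23, 16)])) (.add (.mul (.pp [(1, 106155)]) (.sq [(2, 96), (3, 100), (5, 16), (7, -26), (11,
    -32), (13, 42), (19, -81), (23, -46)])) (.mul (.pp [(1, 61185)]) (.sq [(1, 8), (2, -66), (3, -14),
    (5, 100), (7, 55), (11, 70), (13, 2), (19, -25), (23, -93)]))))) (.add (.add (.mul (.pp [(1,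
    2195355)]) (.sq [(2, 100), (3, -19), (5, -19), (7, -19), (11, -19), (13, -19), (19, -19), (23,
    -19)])) (.add (.mul (.pp [(1, 75810)]) (.sq [(2, -66), (3, -29), (5, 100), (7, 1), (11, 83), (13,
    -2), (19, -45), (23, 33)])) (.mul (.pp [(1, 535125)]) (.sq [(3, 51), (5, 100), (7, -27), (11,
    -74), (13, 84), (19, -95), (23, -38)])))) (.add (.mul (.pp [(1, 540885)]) (.sq [(2, 12), (3, 100),
    (5, -70), (7, -98), (11, -56), (13, 32), (19, 80), (23, -53)])) (.add (.mul (.pp [(1, 444045)])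
    (.sq [(1, 2), (2, 100), (3, 50), (5, 92), (7, -31), (11, -95), (13, -41), (19, -39), (23, -59)]))
    (.mul (.pp [(1, 606765)]) (.sq [(2, 47), (3, 98), (5, 5), (7, 15), (11, -4), (13, -29), (19,
    -100), (23, 35)])))))) (.add (.add (.add (.mul (.g 11) (.add (.add (.mul (.g 0) (.pp [(1,
    934590000)])) (.mul (.g 7) (.pp [(1, 57209400000)]))) (.add (.mul (.g 8) (.pp [(1, 13833300000)]))
    (.add (.mul (.g 13) (.pp [(1, 6719850000)])) (.mul (.g 16) (.pp [(1, 40952850000)])))))) (.add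
    (.mul (.g 13) (.add (.add (.pp [(1, 46021800000)]) (.mul (.g 4) (.pp [(1, 4362750000)]))) (.add
    (.mul (.g 17) (.pp [(1, 8121000000)])) (.mul (.g 18) (.pp [(1, 1436370000)]))))) (.mul (.g 15)
    (.add (.add (.mul (.g 2) (.pp [(1, 8596200000)])) (.mul (.g 3) (.pp [(1, 8301450000)]))) (.add
    (.mul (.g 17) (.pp [(1, 9135150000)])) (.mul (.g 18) (.pp [(1, 1509750000)]))))))) (.add (.mul (.g
    7) (.add (.mul (.g 0) (.pp [(1, 1374397500)])) (.add (.mul (.g 12) (.pp [(1, 37777950000)])) (.mul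
    (.g 19) (.pp [(1, 4280340000)]))))) (.add (.mul (.g 8) (.add (.mul (.g 9) (.pp [(1, 254865000)]))
    (.add (.mul (.g 16) (.pp [(1, 34719750000)])) (.mul (.g 18) (.pp [(1, 1531290000)]))))) (.mul (.g
    9) (.add (.mul (.g 0) (.pp [(1, 97170750)])) (.mul (.g 20) (.pp [(1, 164056500)]))))))) (.add
    (.add (.mul (.g 17) (.add (.mul (.g 4) (.pp [(1, 19655550000)])) (.mul (.g 20) (.pp [(1,
    3531930000)])))) (.add (.mul (.g 1) (.mul (.g 3) (.pp [(1, 27141150000)]))) (.mul (.g 5) (.mul (.g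
    16) (.pp [(1, 5793900000)]))))) (.add (.mul (.g 6) (.pp [(1, 13516200000)])) (.add (.mul (.g 18)
    (.pp [(1, 1206390000)])) (.mul (.g 19) (.pp [(1, 16167930000)])))))))) (.add (.mul (.g 8) (.add
    (.add (.add (.mul (.pp [(1, 946575)]) (.sq [(2, -85), (3, 78), (5, -16), (7, -11), (11, -52), (13,
    19), (19, -58), (23, 100)])) (.add (.mul (.pp [(1, 479295)]) (.sq [(1, 6), (2, 81), (3, -100), (5,
    76), (7, -22), (11, -1), (13, -59), (19, -28), (23, 11)])) (.mul (.pp [(1, 15630)]) (.sq [(1,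
    -37), (2, 97), (3, 38), (5, -97), (7, 100), (11, 13), (13, -79), (19, -5), (23, 80)])))) (.add
    (.add (.mul (.pp [(1, 619455)]) (.sq [(1, -31), (2, 27), (3, -2), (5, -5), (7, -11), (11, 92),
    (13, 100), (19, 8), (23, -24)])) (.mul (.pp [(1, 1314150)]) (.sq [(2, -100), (3, -4), (5, 46),
    (11, 76), (13, 21), (19, -1), (23, 1)]))) (.add (.mul (.pp [(1, 3500550)]) (.sq [(2, 100), (3,
    -18), (5, -18), (7, -18), (11, 57), (13, -18), (19, -18), (23, -18)])) (.mul (.g 2) (.add (.add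
    (.mul (.g 2) (.pp [(1, 6915600000)])) (.mul (.g 8) (.pp [(1, 33011250000)]))) (.add (.mul (.g 11)
    (.pp [(1, 32149200000)])) (.add (.mul (.g 17) (.pp [(1, 13734600000)])) (.mul (.g 18) (.pp [(1,
    812190000)]))))))))) (.add (.add (.mul (.g 1) (.add (.add (.mul (.g 3) (.pp [(1, 6041850000)]))
    (.mul (.g 11) (.pp [(1, 28888500000)]))) (.add (.mul (.g 14) (.pp [(1, 5113500000)])) (.mul (.g
    18) (.pp [(1, 4332870000)]))))) (.add (.mul (.g 8) (.add (.mul (.g 3) (.pp [(1, 14835450000)]))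
    (.add (.mul (.g 9) (.pp [(1, 3838545000)])) (.mul (.g 17) (.pp [(1, 12082500000)]))))) (.mul (.g
    19) (.add (.mul (.g 9) (.pp [(1, 93283500)])) (.add (.mul (.g 15) (.pp [(1, 3398490000)])) (.mul
    (.g 16) (.pp [(1, 7179300000)]))))))) (.add (.add (.mul (.g 17) (.add (.mul (.g 11) (.pp [(1,
    29400000)])) (.mul (.g 20) (.pp [(1, 3626820000)])))) (.mul (.g 18) (.add (.pp [(1, 9149490000)])
    (.mul (.g 20) (.pp [(1, 552792000)]))))) (.add (.mul (.g 4) (.mul (.g 12) (.pp [(1,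
    10372350000)]))) (.mul (.g 7) (.pp [(1, 7894050000)]))))))) (.mul (.g 5) (.add (.add (.add (.mul
    (.pp [(1, 163350)]) (.sq [(1, 4), (2, -30), (3, 55), (5, 100), (7, 44), (11, 52), (13, -37), (19,
    58), (23, -48)])) (.add (.mul (.pp [(1, 43560)]) (.sq [(2, 8), (3, 51), (5, 20), (7, 58), (11,
    80), (13, 42), (19, 100), (23, -7)])) (.mul (.pp [(1, 183300)]) (.sq [(1, 4), (2, 16), (3, 98),
    (5, -85), (7, 98), (11, 2), (13, -67), (19, 100), (23, -30)])))) (.add (.mul (.pp [(1, 31665)])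
    (.sq [(1, 58), (2, 80), (3, 100), (5, 23), (7, -96), (11, -10), (13, 53), (19, 16), (23, -69)]))
    (.add (.mul (.pp [(1, 35820)]) (.sq [(1, 5), (2, -77), (3, -40), (5, -22), (7, -63), (11, 24),
    (13, -100), (19, 94), (23, 25)])) (.mul (.pp [(1, 308925)]) (.sq [(2, 38), (3, -13), (5, 98), (7,
    -18), (11, -94), (13, -24), (19, -100), (23, -96)]))))) (.add (.add (.mul (.g 0) (.add (.add (.pp
    [(1, 5780400000)]) (.mul (.g 4) (.pp [(1, 2734462500)]))) (.add (.mul (.g 15) (.pp [(1,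
    1418655000)])) (.mul (.g 20) (.pp [(1, 219904500)]))))) (.add (.mul (.g 17) (.add (.mul (.g 2)
    (.pp [(1, 21726150000)])) (.add (.mul (.g 16) (.pp [(1, 1936350000)])) (.mul (.g 20) (.pp [(1,
    1307610000)]))))) (.mul (.g 6) (.add (.mul (.g 2) (.pp [(1, 22062600000)])) (.mul (.g 4) (.pp [(1,
    48193050000)])))))) (.add (.add (.mul (.g 7) (.add (.pp [(1, 28646850000)]) (.mul (.g 7) (.pp [(1,
    27135000000)])))) (.mul (.g 11) (.add (.mul (.g 9) (.pp [(1, 1532790000)])) (.mul (.g 12) (.pp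
    [(1, 17406450000)]))))) (.add (.mul (.g 19) (.add (.pp [(1, 4634070000)]) (.mul (.g 16) (.pp [(1,
    8013630000)])))) (.mul (.g 15) (.mul (.g 18) (.pp [(1, 1781640000)])))))))))) (.add (.mul (.g 7)
    (.add (.add (.add (.mul (.pp [(1, 108000)]) (.sq [(2, -21), (3, 78), (5, -32), (7, 77), (11,
    -100), (13, 50), (19, -47), (23, 74)])) (.add (.mul (.pp [(1, 544080)]) (.sq [(2, -21), (3, -3),
    (5, 44), (7, 3), (11, 100), (13, -3), (19, 20), (23, 14)])) (.mul (.pp [(1, 315660)]) (.sq [(1,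
    -66), (2, -83), (3, -45), (5, 40), (7, 100), (11, 42), (13, 88), (19, 8), (23, 26)])))) (.add
    (.mul (.pp [(1, 138615)]) (.sq [(2, -100), (3, 78), (5, -93), (7, -75), (11, 76), (13, 8), (19,
    7), (23, -4)])) (.add (.mul (.pp [(1, 489735)]) (.sq [(1, -9), (2, -23), (3, 79), (5, 13), (7,
    -18), (11, -73), (13, 88), (19, -100), (23, 10)])) (.mul (.pp [(1, 734100)]) (.sq [(1, 100), (2,
    -52), (3, -52), (5, 2), (11, -57), (13, -83), (19, -2), (23, -57)]))))) (.add (.add (.mul (.pp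
    [(1, 190200)]) (.sq [(2, 63), (3, 18), (5, 30), (7, 44), (11, -99), (13, 19), (19, 100), (23,
    -29)])) (.add (.mul (.pp [(1, 262485)]) (.sq [(1, 36), (2, 12), (3, 46), (5, -100), (7, 14), (11,
    -15), (13, 17), (19, 31), (23, -97)])) (.mul (.g 6) (.add (.mul (.g 2) (.pp [(1, 84175650000)]))
    (.add (.mul (.g 11) (.pp [(1, 17953950000)])) (.mul (.g 15) (.pp [(1, 17603550000)]))))))) (.add
    (.add (.mul (.g 7) (.add (.mul (.g 0) (.pp [(1, 4001805000)])) (.add (.mul (.g 3) (.pp [(1,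
    26812650000)])) (.mul (.g 16) (.pp [(1, 16246350000)]))))) (.mul (.g 19) (.add (.mul (.g 3) (.pp
    [(1, 10436400000)])) (.mul (.g 15) (.pp [(1, 2077080000)]))))) (.add (.mul (.g 11) (.mul (.g 12)
    (.pp [(1, 22449900000)]))) (.mul (.g 18) (.mul (.g 18) (.pp [(1, 593712000)])))))))) (.add (.mul
    (.g 20) (.add (.add (.add (.mul (.pp [(1, 94836)]) (.sq [(2, 39), (3, -84), (5, 11), (7, -71),
    (11, 100), (13, -23), (19, 37), (23, -13)])) (.add (.mul (.pp [(1, 9912)]) (.sq [(1, 22), (2, 93),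
    (3, -61), (5, 7), (11, -30), (13, -100), (19, 39), (23, 53)])) (.mul (.pp [(1, 77547)]) (.sq [(2,
    100), (3, 37), (5, -5), (7, 10), (11, -32), (13, -15), (19, 53), (23, -66)])))) (.add (.add (.mul
    (.pp [(1, 61548)]) (.sq [(1, -22), (2, -18), (3, -69), (5, -10), (7, 25), (11, -7), (13, 100),
    (19, 50), (23, -53)])) (.mul (.pp [(1, 371763)]) (.sq [(2, 1), (3, 3), (5, 100), (7, 4), (11, 6),
    (13, -8), (19, 6), (23, 14)]))) (.add (.mul (.pp [(1, 94557)]) (.sq [(1, 66), (2, -54), (3, -78),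
    (5, 80), (7, -32), (11, -100), (13, 5), (19, -35), (23, -9)])) (.mul (.pp [(1, 9579)]) (.sq [(1,
    -14), (2, -100), (3, 60), (5, 94), (7, 23), (11, 58), (13, 8), (19, 15), (23, 25)]))))) (.add
    (.add (.mul (.pp [(1, 28800)]) (.sq [(2, 5), (3, 5), (5, 5), (7, 4), (11, 5), (13, 5), (19, 5),
    (23, 5)])) (.add (.mul (.pp [(1, 96486)]) (.sq [(1, -64), (2, 58), (3, 12), (5, 77), (11, -100),
    (13, 36), (19, -82), (23, -1)])) (.mul (.g 0) (.add (.add (.pp [(1, 507192000)]) (.mul (.g 18)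
    (.pp [(1, 23347200)]))) (.add (.mul (.g 19) (.pp [(1, 59271000)])) (.mul (.g 20) (.pp [(1,
    35022300)]))))))) (.add (.add (.mul (.g 18) (.add (.mul (.g 3) (.pp [(1, 139530000)])) (.mul (.g
    15) (.pp [(1, 586218000)])))) (.mul (.g 2) (.mul (.g 6) (.pp [(1, 2666820000)])))) (.add (.mul (.g
    16) (.mul (.g 16) (.pp [(1, 982890000)]))) (.mul (.g 19) (.pp [(1, 376926000)]))))))) (.mul (.g 1)
    (.add (.add (.add (.mul (.pp [(1, 9600)]) (.sq [(2, 88), (3, -20), (5, -100), (7, -49), (11, 7),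
    (13, 34), (19, -39), (23, 4)])) (.mul (.pp [(1, 1603590)]) (.sq [(2, -36), (3, -42), (5, -100),
    (7, 29), (13, -2), (19, 59), (23, -1)]))) (.add (.mul (.pp [(1, 1506705)]) (.sq [(2, -45), (3,
    66), (5, 13), (7, -6), (11, -66), (13, -100), (19, -24), (23, 36)])) (.add (.mul (.pp [(1,
    76680)]) (.sq [(1, -12), (2, 20), (3, 100), (5, -53), (7, 59), (11, 19), (13, 9), (19, 74), (23,
    -43)])) (.mul (.pp [(1, 208575)]) (.sq [(1, 1), (2, 59), (3, 43), (5, 100), (7, -56), (11, 72),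
    (13, 46), (19, -23), (23, -72)]))))) (.add (.add (.mul (.pp [(1, 251640)]) (.sq [(1, 5), (2, -46),
    (3, -17), (5, 69), (7, -9), (11, 100), (13, 15), (19, 51), (23, -9)])) (.add (.mul (.g 0) (.add
    (.pp [(1, 717765000)]) (.add (.mul (.g 14) (.pp [(1, 2354317500)])) (.mul (.g 15) (.pp [(1,
    310875000)]))))) (.mul (.g 17) (.add (.mul (.g 1) (.pp [(1, 55521450000)])) (.add (.mul (.g 4)
    (.pp [(1, 29034600000)])) (.mul (.g 11) (.pp [(1, 13827750000)]))))))) (.add (.mul (.g 16) (.add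
    (.mul (.g 2) (.pp [(1, 39697200000)])) (.mul (.g 19) (.pp [(1, 3976470000)])))) (.add (.mul (.g 6)
    (.mul (.g 6) (.pp [(1, 10452900000)]))) (.mul (.g 15) (.mul (.g 18) (.pp [(1,
    8138100000)]))))))))))) (.add (.add (.mul (.g 10) (.add (.add (.add (.mul (.pp [(1, 1718040)])
    (.sq [(2, -7), (3, 3), (5, -5), (7, 9), (11, -100), (13, -54), (19, -8), (23, 41)])) (.mul (.pp
    [(1, 15330)]) (.sq [(2, 100), (3, 27), (5, -10), (7, 76), (11, -26), (13, -72), (19, -2), (23,
    -8)]))) (.add (.mul (.pp [(1, 1002300)]) (.sq [(1, 3), (2, -19), (3, -35), (5, -10), (7, -61),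
    (11, 37), (13, -95), (19, 100), (23, 68)])) (.mul (.pp [(1, 741345)]) (.sq [(2, -22), (3, 78), (5,
    66), (7, 36), (11, 100), (13, -20), (19, -21), (23, -64)])))) (.add (.add (.mul (.pp [(1, 27690)])
    (.sq [(2, -16), (3, 1), (5, -32), (7, 20), (11, 45), (13, 13), (19, 1), (23, 100)])) (.mul (.pp
    [(1, 66270)]) (.sq [(2, -2), (3, 29), (5, 46), (7, 10), (11, -55), (13, 100), (19, -9), (23,
    25)]))) (.add (.mul (.pp [(1, 469800)]) (.sq [(1, 34), (2, 30), (3, 100), (5, -83), (7, -70), (11,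
    45), (13, -19), (19, 59), (23, -45)])) (.mul (.pp [(1, 1181265)]) (.sq [(2, 26), (3, 100), (5, 7),
    (7, -57), (11, -37), (13, 19), (19, 65), (23, 39)])))))) (.add (.mul (.g 6) (.add (.add (.mul (.pp
    [(1, 77340)]) (.sq [(1, -9), (2, -9), (3, 100), (5, 50), (7, 22), (11, -1), (13, -52), (19, -19),
    (23, 100)])) (.mul (.g 6) (.add (.mul (.g 4) (.pp [(1, 3094350000)])) (.mul (.g 15) (.pp [(1,
    149700000)]))))) (.add (.mul (.g 18) (.add (.mul (.g 14) (.pp [(1, 1096620000)])) (.mul (.g 16)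
    (.pp [(1, 2307060000)])))) (.add (.mul (.g 9) (.mul (.g 12) (.pp [(1, 2006415000)]))) (.mul (.g
    11) (.mul (.g 11) (.pp [(1, 4048050000)]))))))) (.mul (.g 19) (.add (.add (.mul (.pp [(1,
    100467)]) (.sq [(1, -10), (2, 43), (3, -73), (5, 100), (7, -13), (11, -11), (13, -22), (19, -22),
    (23, -24)])) (.mul (.pp [(1, 340857)]) (.sq [(1, -6), (2, -25), (3, 100), (5, -8), (7, -7), (11,
    -8), (13, 98), (19, 5), (23, -19)]))) (.add (.mul (.g 11) (.mul (.g 11) (.pp [(1, 864120000)])))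
    (.mul (.g 15) (.mul (.g 19) (.pp [(1, 678726000)])))))))) (.add (.mul (.g 18) (.add (.mul (.pp
    [(1, 385119)]) (.sq [(1, -4), (2, 100), (3, -54), (5, 1), (7, 3), (11, -20), (13, -57), (23, 3)]))
    (.add (.mul (.pp [(1, 875247)]) (.sq [(2, 100), (3, -75), (5, 6), (7, 6), (11, -41), (13, 6), (19,
    6), (23, 6)])) (.mul (.g 15) (.mul (.g 15) (.pp [(1, 2547000000)])))))) (.add (.mul (.g 11) (.mul
    (.pp [(1, 647115)]) (.sq [(2, 100), (3, 26), (5, 26), (7, -18), (11, -9), (13, 6), (19, -11), (23,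
    -19)]))) (.mul (.g 15) (.mul (.pp [(1, 326340)]) (.sq [(2, 48), (3, 100), (5, -13), (7, -13), (11,
    -74), (13, -13), (19, -13), (23, -13)]))))))) (.pp [(1, 946768191), (2, 1524510), (3, 1536600),
    (4, 1477206), (5, 1397484), (6, 1616550), (7, 1541526), (8, 1412640), (9, 1591590), (10, 1602948),
    (11, 1529235), (12, 1478295), (13, 1549146), (14, 1541694), (15, 1835760), (18, 1439265), (19,
    1646346), (20, 1297695), (21, 1697658), (22, 1336800), (23, 1572939), (25, 1654692), (26,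
    1544850), (27, 1615875), (28, 1605915), (30, 1577460), (33, 1602054), (35, 1679472), (38,
    1544388), (39, 1444404), (42, 1329750), (44, 1508125), (45, 1617360), (46, 1401810), (49,
    1558899), (50, 1482915), (52, 1523565), (55, 1435956), (57, 1190952), (63, 1483395), (65,
    1364682), (66, 1432860), (69, 1297908), (70, 1571250), (75, 1386000), (76, 1501080), (77,
    1734606), (78, 1423470), (91, 1379904), (92, 1584810), (95, 1612044), (98, 1568415), (99,
    1506540), (105, 1508790), (110, 1884030), (114, 1521750), (115, 1611690), (117, 1525110), (121,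
    1632132), (125, 1373285), (130, 1409100), (133, 1273926), (138, 1583970), (143, 1675764), (147,
    1297155), (154, 1262790), (161, 1611570), (165, 1524510), (169, 1312254), (171, 1367685), (175,
    1624305), (182, 1454340), (190, 1474860), (195, 1164660), (207, 1345350), (209, 1526532), (230,
    1444050), (231, 1585620), (242, 1512685), (245, 1604355), (247, 1639152), (253, 1581666), (266,
    1506150), (273, 1559130), (275, 1482915), (285, 1419840), (286, 1600020), (299, 1710198), (322,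
    1386480), (325, 1428480), (338, 1396185), (343, 1578940), (345, 1476300), (361, 1707312), (363,
    1462065), (385, 1598130), (399, 1625100), (418, 1536720), (429, 1695270), (437, 1346916), (455,
    1571880), (475, 1421340), (483, 1762950), (494, 1608600), (506, 1506240), (507, 1601340), (529,
    1455843), (539, 1549620), (575, 1338705), (598, 1506750), (605, 1471320), (627, 1428540), (637,
    1232835), (665, 1603560), (715, 1216050), (722, 1461960), (741, 1679100), (759, 1354740), (805,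
    1130640), (845, 1589040), (847, 1520295), (874, 1475400), (897, 1504140), (931, 1577505), (1001,
    1790970), (1045, 1281390), (1058, 1505505), (1083, 1482450), (1127, 1348020), (1183, 1707405),
    (1235, 1525830), (1265, 1574880), (1311, 1650660), (1331, 1355965), (1463, 1670310), (1495,
    1435380), (1573, 1403805), (1587, 1479435), (1729, 1605210), (1771, 1177080), (1805, 1207665),
    (1859, 1338630), (2093, 1575480), (2185, 1423020), (2197, 1574430), (2299, 1393245), (2527,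
    1577745), (2645, 1385160), (2717, 1396080), (2783, 1619280), (3059, 1520100), (3211, 1369230),
    (3289, 1368090), (3703, 1492635), (3887, 1460040), (3971, 1331430), (4693, 1308930), (4807,
    1423980), (5681, 1451730), (5819, 1381785), (6859, 1453910), (6877, 1562325), (8303, 1364985),
    (10051, 1614000), (12167, 1590840)]))
    (by norm_num) (by decide +kernel)

theorem r0_p04 : Ck (gP0 4)
    (pol2 4 nE WE (vP0 c1E c2E) (hA (Ex.v 11) (Ex.v 19))) :=
  Ck.mk' 250000 (.add (.add (.add (.add (.mul (.g 8) (.add (.add (.add (.mul (.pp [(1, 1523595)]) (.sq [(2, 100),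
    (3, -18), (5, -18), (7, -18), (11, 57), (13, -18), (19, -18), (23, -18)])) (.add (.mul (.pp [(1,
    178200)]) (.sq [(1, 4), (2, -100), (3, 74), (5, -29), (7, 4), (11, -10), (13, -79), (19, -4), (23,
    58)])) (.mul (.pp [(1, 317070)]) (.sq [(1, 2), (2, 70), (3, -10), (5, -96), (7, 19), (11, -100),
    (13, -43), (19, 35), (23, 12)])))) (.add (.add (.mul (.pp [(1, 465465)]) (.sq [(2, -2), (3, 37),
    (5, 100), (7, -26), (11, -47), (13, 18), (19, -56), (23, 8)])) (.mul (.g 8) (.add (.add (.pp [(1,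
    19642500000)]) (.add (.mul (.g 2) (.pp [(1, 1887300000)])) (.mul (.g 4) (.pp [(1,
    18359550000)])))) (.add (.mul (.g 9) (.pp [(1, 2958412500)])) (.add (.mul (.g 11) (.pp [(1,
    1937550000)])) (.mul (.g 17) (.pp [(1, 16985550000)]))))))) (.add (.mul (.g 18) (.add (.add (.pp
    [(1, 2438610000)]) (.add (.mul (.g 9) (.pp [(1, 166960500)])) (.mul (.g 14) (.pp [(1,
    714630000)])))) (.add (.mul (.g 16) (.pp [(1, 10347810000)])) (.add (.mul (.g 17) (.pp [(1,
    4323990000)])) (.mul (.g 18) (.pp [(1, 1550070000)])))))) (.mul (.g 11) (.add (.add (.mul (.g 2)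
    (.pp [(1, 17218950000)])) (.mul (.g 7) (.pp [(1, 14457600000)]))) (.add (.mul (.g 12) (.pp [(1,
    1956000000)])) (.mul (.g 13) (.pp [(1, 6620400000)])))))))) (.add (.add (.mul (.g 4) (.add (.mul
    (.g 0) (.pp [(1, 288547500)])) (.add (.mul (.g 4) (.pp [(1, 11641800000)])) (.mul (.g 5) (.pp [(1,
    10294050000)]))))) (.add (.mul (.g 13) (.add (.pp [(1, 4137300000)]) (.add (.mul (.g 7) (.pp [(1,
    17071650000)])) (.mul (.g 20) (.pp [(1, 2307840000)]))))) (.mul (.g 17) (.add (.mul (.g 0) (.pp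
    [(1, 1275840000)])) (.add (.mul (.g 7) (.pp [(1, 155700000)])) (.mul (.g 20) (.pp [(1,
    735900000)]))))))) (.add (.add (.mul (.g 2) (.add (.mul (.g 1) (.pp [(1, 71508150000)])) (.mul (.g
    2) (.pp [(1, 11892450000)])))) (.mul (.g 3) (.add (.mul (.g 19) (.pp [(1, 1030200000)])) (.mul (.g
    20) (.pp [(1, 2058090000)]))))) (.add (.mul (.g 6) (.mul (.g 19) (.pp [(1, 296910000)]))) (.mul
    (.g 12) (.mul (.g 16) (.pp [(1, 4889850000)])))))))) (.add (.mul (.g 6) (.add (.add (.add (.mul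
    (.pp [(1, 469710)]) (.sq [(1, -11), (2, 14), (3, -59), (5, -9), (7, 16), (11, 84), (13, -100),
    (19, 32), (23, 75)])) (.add (.mul (.pp [(1, 1628955)]) (.sq [(2, 71), (3, 18), (5, -53), (7, -10),
    (11, 30), (13, 51), (19, -100), (23, 20)])) (.mul (.pp [(1, 1982460)]) (.sq [(2, 16), (3, 31), (5,
    100), (7, -11), (11, 10), (13, -49), (19, 57), (23, -35)])))) (.add (.mul (.g 4) (.add (.add (.pp
    [(1, 7605900000)]) (.add (.mul (.g 6) (.pp [(1, 32204850000)])) (.mul (.g 9) (.pp [(1,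
    537562500)])))) (.add (.mul (.g 11) (.pp [(1, 25586850000)])) (.add (.mul (.g 14) (.pp [(1,
    1833750000)])) (.mul (.g 17) (.pp [(1, 22758600000)])))))) (.add (.mul (.g 6) (.add (.add (.mul
    (.g 2) (.pp [(1, 21590550000)])) (.mul (.g 9) (.pp [(1, 1283497500)]))) (.add (.mul (.g 19) (.pp
    [(1, 1491270000)])) (.mul (.g 20) (.pp [(1, 4711710000)]))))) (.mul (.g 17) (.add (.add (.pp [(1,
    13955100000)]) (.mul (.g 9) (.pp [(1, 738960000)]))) (.add (.mul (.g 11) (.pp [(1, 12936300000)]))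
    (.mul (.g 20) (.pp [(1, 500220000)])))))))) (.add (.add (.mul (.g 0) (.add (.mul (.g 9) (.pp [(1,
    101437500)])) (.add (.mul (.g 13) (.pp [(1, 20160000)])) (.mul (.g 16) (.pp [(1, 1356937500)])))))
    (.add (.mul (.g 18) (.add (.pp [(1, 2663940000)]) (.add (.mul (.g 15) (.pp [(1, 3508350000)]))
    (.mul (.g 16) (.pp [(1, 2306310000)]))))) (.mul (.g 2) (.mul (.g 20) (.pp [(1, 20664000000)])))))
    (.add (.mul (.g 3) (.mul (.g 16) (.pp [(1, 5039700000)]))) (.add (.mul (.g 11) (.mul (.g 13) (.pp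
    [(1, 23712300000)]))) (.mul (.g 12) (.pp [(1, 9811200000)]))))))) (.mul (.g 13) (.add (.add (.add
    (.mul (.pp [(1, 152340)]) (.sq [(2, -32), (3, 54), (5, -100), (7, -2), (11, -30), (13, -44), (19,
    51), (23, 19)])) (.add (.mul (.pp [(1, 43305)]) (.sq [(2, -15), (3, -57), (5, 39), (7, -6), (11,
    -37), (13, -18), (19, 61), (23, 100)])) (.mul (.pp [(1, 306450)]) (.sq [(2, 13), (3, 94), (5, 24),
    (7, -45), (11, 64), (13, -73), (19, 10), (23, 100)])))) (.add (.mul (.pp [(1, 256965)]) (.sq [(1,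
    7), (2, -28), (3, -11), (5, 100), (7, -93), (11, 21), (13, -12), (19, 43), (23, 3)])) (.add (.mul
    (.pp [(1, 362340)]) (.sq [(1, 15), (2, 14), (3, 100), (5, 7), (7, -22), (11, -38), (13, -12), (19,
    -43), (23, -4)])) (.mul (.pp [(1, 742665)]) (.sq [(1, -13), (2, 35), (3, 100), (5, 41), (7, -32),
    (11, -29), (13, 29), (19, -89), (23, -19)]))))) (.add (.add (.mul (.g 12) (.add (.add (.pp [(1,
    42497100000)]) (.mul (.g 11) (.pp [(1, 944250000)]))) (.add (.mul (.g 17) (.pp [(1, 5122650000)]))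
    (.mul (.g 18) (.pp [(1, 2484540000)]))))) (.add (.mul (.g 0) (.add (.pp [(1, 812242500)]) (.add
    (.mul (.g 14) (.pp [(1, 516472500)])) (.mul (.g 20) (.pp [(1, 234597000)]))))) (.mul (.g 17) (.add
    (.mul (.g 4) (.pp [(1, 4449150000)])) (.add (.mul (.g 18) (.pp [(1, 643140000)])) (.mul (.g 19)
    (.pp [(1, 2870100000)]))))))) (.add (.add (.mul (.g 11) (.add (.mul (.g 16) (.pp [(1,
    54745350000)])) (.mul (.g 18) (.pp [(1, 1266510000)])))) (.mul (.g 19) (.add (.pp [(1,
    1007280000)]) (.mul (.g 3) (.pp [(1, 3720690000)]))))) (.add (.mul (.g 4) (.pp [(1, 6600150000)]))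
    (.mul (.g 13) (.mul (.g 15) (.pp [(1, 7732650000)])))))))))) (.add (.add (.mul (.g 20) (.add (.add
    (.add (.mul (.pp [(1, 192591)]) (.sq [(1, -13), (2, 62), (3, -5), (5, -94), (7, -57), (11, -55),
    (13, -27), (19, 100), (23, -5)])) (.mul (.pp [(1, 123255)]) (.sq [(2, 82), (3, 25), (5, 4), (7,
    -13), (11, 4), (13, -3), (19, -9), (23, 100)]))) (.add (.mul (.pp [(1, 242028)]) (.sq [(1, -46),
    (2, -79), (3, -13), (5, -21), (7, -12), (11, 100), (13, 76), (19, 91), (23, 6)])) (.add (.mul (.pp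
    [(1, 32862)]) (.sq [(1, -25), (2, 13), (3, -2), (5, 17), (7, -5), (11, -63), (13, 100), (19, -9),
    (23, -61)])) (.mul (.g 7) (.add (.add (.mul (.g 3) (.pp [(1, 1602990000)])) (.mul (.g 15) (.pp
    [(1, 3809400000)]))) (.add (.mul (.g 17) (.pp [(1, 1432710000)])) (.mul (.g 19) (.pp [(1,
    380010000)])))))))) (.add (.add (.mul (.g 0) (.add (.pp [(1, 132187500)]) (.add (.mul (.g 19) (.pp
    [(1, 169529700)])) (.mul (.g 20) (.pp [(1, 10973100)]))))) (.add (.mul (.g 18) (.add (.pp [(1,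
    396324000)]) (.add (.mul (.g 3) (.pp [(1, 159324000)])) (.mul (.g 4) (.pp [(1, 246918000)])))))
    (.mul (.g 12) (.add (.pp [(1, 849480000)]) (.mul (.g 16) (.pp [(1, 2655000000)])))))) (.add (.mul
    (.g 17) (.add (.pp [(1, 1358940000)]) (.mul (.g 17) (.pp [(1, 3180360000)])))) (.add (.mul (.g 11)
    (.mul (.g 15) (.pp [(1, 3918150000)]))) (.mul (.g 16) (.mul (.g 19) (.pp [(1, 1073778000)]))))))))
    (.mul (.g 1) (.add (.add (.add (.mul (.pp [(1, 1432470)]) (.sq [(1, 17), (2, 93), (3, -77), (5,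
    12), (7, -100), (11, 18), (13, 25), (19, -68), (23, -22)])) (.mul (.pp [(1, 620340)]) (.sq [(2,
    79), (3, 7), (5, 52), (7, -13), (11, 7), (13, 62), (19, 21), (23, -100)]))) (.add (.mul (.pp [(1,
    717645)]) (.sq [(1, 25), (2, 12), (3, -47), (5, 100), (7, -90), (11, -33), (13, 28), (19, -57),
    (23, -54)])) (.add (.mul (.pp [(1, 854325)]) (.sq [(2, -64), (3, -5), (5, 36), (7, -17), (11, -5),
    (13, 81), (19, -50), (23, -100)])) (.mul (.pp [(1, 433200)]) (.sq [(1, -4), (2, 8), (3, 29), (5,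
    72), (7, 1), (11, 100), (13, -7), (19, 9), (23, 33)]))))) (.add (.add (.mul (.g 0) (.add (.add
    (.pp [(1, 144037500)]) (.mul (.g 9) (.pp [(1, 155588625)]))) (.add (.mul (.g 11) (.pp [(1,
    229192500)])) (.mul (.g 15) (.pp [(1, 969397500)]))))) (.mul (.g 16) (.add (.add (.mul (.g 3) (.pp
    [(1, 14463000000)])) (.mul (.g 17) (.pp [(1, 70306950000)]))) (.add (.mul (.g 18) (.pp [(1,
    1835280000)])) (.mul (.g 19) (.pp [(1, 9295230000)])))))) (.add (.mul (.g 17) (.add (.mul (.g 1)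
    (.pp [(1, 60788550000)])) (.mul (.g 4) (.pp [(1, 49187400000)])))) (.add (.mul (.g 19) (.add (.pp
    [(1, 4280040000)]) (.mul (.g 11) (.pp [(1, 628410000)])))) (.mul (.g 15) (.mul (.g 18) (.pp [(1,
    6967830000)]))))))))) (.add (.mul (.g 7) (.add (.add (.add (.mul (.pp [(1, 795495)]) (.sq [(2,
    42), (3, -67), (5, -1), (7, 23), (11, 85), (13, -2), (19, -100), (23, 31)])) (.mul (.pp [(1,
    1645260)]) (.sq [(2, -55), (3, 59), (5, -13), (7, 14), (11, 28), (13, -53), (19, 24), (23,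
    100)]))) (.add (.mul (.pp [(1, 910035)]) (.sq [(2, -21), (3, 100), (5, 24), (7, 7), (11, -33),
    (13, -23), (19, -37), (23, 23)])) (.mul (.g 4) (.add (.mul (.g 5) (.pp [(1, 4418250000)])) (.add
    (.mul (.g 7) (.pp [(1, 44907900000)])) (.mul (.g 15) (.pp [(1, 7693050000)]))))))) (.add (.add
    (.mul (.g 11) (.add (.mul (.g 3) (.pp [(1, 21238500000)])) (.add (.mul (.g 12) (.pp [(1,
    799050000)])) (.mul (.g 19) (.pp [(1, 4180080000)]))))) (.mul (.g 16) (.add (.mul (.g 2) (.pp [(1,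
    9211950000)])) (.add (.mul (.g 12) (.pp [(1, 6022500000)])) (.mul (.g 19) (.pp [(1,
    7234470000)])))))) (.add (.mul (.g 0) (.pp [(1, 114585000)])) (.mul (.g 12) (.mul (.g 15) (.pp
    [(1, 2094750000)]))))))) (.mul (.g 5) (.add (.add (.mul (.pp [(1, 317580)]) (.sq [(2, 44), (3,
    -13), (5, 5), (7, 64), (11, -100), (13, 26), (19, -72), (23, -50)])) (.mul (.g 0) (.add (.add (.pp
    [(1, 1228582500)]) (.mul (.g 2) (.pp [(1, 438060000)]))) (.add (.mul (.g 11) (.pp [(1,
    1592430000)])) (.mul (.g 15) (.pp [(1, 819255000)])))))) (.add (.mul (.g 15) (.add (.mul (.g 4)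
    (.pp [(1, 18840900000)])) (.add (.mul (.g 17) (.pp [(1, 22434150000)])) (.mul (.g 18) (.pp [(1,
    4301700000)]))))) (.mul (.g 16) (.mul (.g 19) (.pp [(1, 1614510000)]))))))))) (.add (.add (.add
    (.mul (.g 10) (.add (.add (.mul (.pp [(1, 1345440)]) (.sq [(1, -79), (11, 65), (13, 100)])) (.mul
    (.pp [(1, 287805)]) (.sq [(2, 45), (3, -46), (5, 34), (7, 45), (11, -100), (13, 15), (19, -35),
    (23, -68)]))) (.add (.mul (.pp [(1, 1553100)]) (.sq [(2, 100), (3, -1), (5, -2), (7, 8), (13, -3),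
    (19, -4), (23, -97)])) (.add (.mul (.pp [(1, 66045)]) (.sq [(1, -9), (2, -100), (3, -92), (5, 64),
    (7, -13), (11, 92), (13, 21), (19, -15), (23, 26)])) (.mul (.pp [(1, 281235)]) (.sq [(1, -1), (2,
    100), (3, -55), (5, -31), (7, 42), (11, -18), (13, -19), (19, 74), (23, 38)])))))) (.mul (.g 11)
    (.add (.mul (.pp [(1, 6765)]) (.sq [(1, -6), (2, 100), (3, -55), (5, -65), (7, 22), (11, -35),
    (13, 57), (19, 11), (23, -11)])) (.add (.mul (.pp [(1, 713325)]) (.sq [(1, -24), (2, 32), (3,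
    -45), (5, 100), (7, -31), (11, 15), (13, 38), (19, -17), (23, 8)])) (.mul (.pp [(1, 151065)]) (.sq
    [(2, -73), (3, -2), (5, 7), (7, 15), (11, 100), (13, 66), (19, -9), (23, 6)])))))) (.add (.mul (.g
    18) (.add (.mul (.pp [(1, 344931)]) (.sq [(1, -7), (2, 100), (3, -27), (5, -65), (7, 25), (11, 1),
    (13, -20), (19, 6), (23, 10)])) (.add (.mul (.pp [(1, 3159)]) (.sq [(2, -86), (3, -2), (5, 2), (7,
    1), (11, -4), (13, 100), (23, -33)])) (.mul (.pp [(1, 1212855)]) (.sq [(2, 100), (3, -75), (5, 6),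
    (7, 6), (11, -41), (13, 6), (19, 6), (23, 6)]))))) (.mul (.g 15) (.add (.mul (.pp [(1, 935670)])
    (.sq [(2, 48), (3, 100), (5, -13), (7, -13), (11, -74), (13, -13), (19, -13), (23, -13)])) (.mul
    (.pp [(1, 84885)]) (.sq [(1, -33), (2, 100), (3, 50), (5, 85), (7, -61), (11, -3), (13, 63), (19,
    28), (23, -43)])))))) (.add (.add (.mul (.g 16) (.add (.mul (.pp [(1, 318075)]) (.sq [(1, 20), (2,
    66), (3, 13), (5, 100), (7, -49), (11, 72), (13, -30), (19, -96), (23, 55)])) (.mul (.pp [(1,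
    432915)]) (.sq [(1, -45), (2, -33), (3, 100), (5, -22), (7, 14), (11, 9), (13, -18), (19, -4),
    (23, 28)])))) (.mul (.g 19) (.add (.mul (.pp [(1, 412917)]) (.sq [(1, -28), (2, -36), (3, 95), (5,
    38), (7, 30), (11, -1), (13, 100), (19, -35), (23, -6)])) (.mul (.pp [(1, 86682)]) (.sq [(1, 32),
    (2, 28), (3, 17), (5, 100), (7, -59), (11, 7), (13, -36), (19, -64), (23, 34)]))))) (.add (.mul
    (.g 4) (.mul (.pp [(1, 22993350000)]) (.sq [(19, -1), (23, 1)]))) (.mul (.g 14) (.mul (.pp [(1,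
    640785)]) (.sq [(1, 23), (2, 100), (3, -59), (5, 45), (7, -9), (11, 53), (13, -80), (19, -46),
    (23, 24)]))))))) (.pp [(1, 947179524), (2, 1569336), (3, 1421619), (4, 1529808), (5, 1538013), (6,
    1389936), (7, 1330689), (8, 1486140), (9, 1688511), (10, 1410588), (11, 1479558), (12, 1632285),
    (13, 1418886), (14, 1609908), (15, 1375500), (18, 1562520), (19, 1443396), (20, 1536930), (21,
    1620546), (22, 1515348), (23, 1363956), (25, 1525347), (26, 1394742), (27, 1374090), (28,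
    1542075), (30, 1475250), (33, 1367250), (35, 1492128), (38, 1478160), (39, 1361478), (42,
    1353330), (44, 1468780), (45, 1492980), (46, 1428510), (49, 1404384), (50, 1564560), (52,
    1654635), (55, 1682040), (57, 1625496), (63, 1455495), (65, 1541850), (66, 1482870), (69,
    1692690), (70, 1230210), (75, 1469310), (76, 1401240), (77, 1513932), (78, 1515360), (91,
    1533264), (92, 1418235), (95, 1471434), (98, 1770075), (99, 1474005), (105, 1530090), (110,
    1491420), (114, 1735980), (115, 1460502), (117, 1266360), (121, 1526901), (125, 1488110), (130,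
    1438800), (133, 1671834), (138, 1558080), (143, 1593534), (147, 1518450), (154, 1608870), (161,
    1599840), (165, 1564770), (169, 1563498), (171, 1631175), (175, 1413120), (182, 1357710), (190,
    1601730), (195, 1649490), (207, 1552305), (209, 1409166), (230, 1531050), (231, 1524810), (242,
    1570345), (245, 1535700), (247, 1596444), (253, 1601478), (266, 1280310), (273, 1484700), (275,
    1357380), (285, 1599960), (286, 1544430), (299, 1530570), (322, 1394340), (325, 1428420), (338,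
    1600275), (343, 1471700), (345, 1385640), (361, 1391316), (363, 1503435), (385, 1499970), (399,
    1286460), (418, 1449420), (429, 1511790), (437, 1338456), (455, 1515750), (475, 1563000), (483,
    1562310), (494, 1478730), (506, 1391160), (507, 1594455), (529, 1480050), (539, 1615530), (575,
    1484205), (598, 1591440), (605, 1483605), (627, 1436220), (637, 1501365), (665, 1301250), (715,
    1262040), (722, 1489980), (741, 1467660), (759, 1641450), (805, 1533630), (845, 1493130), (847,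
    1516275), (874, 1666590), (897, 1503870), (931, 1653780), (1001, 1530900), (1045, 1676940), (1058,
    1475640), (1083, 1493130), (1127, 1628085), (1183, 1335240), (1235, 1589970), (1265, 1458480),
    (1311, 1129200), (1331, 1357660), (1463, 1182000), (1495, 1479660), (1573, 1372005), (1587,
    1380615), (1729, 1619700), (1771, 1357110), (1805, 1614285), (1859, 1452030), (2093, 1641030),
    (2185, 1534080), (2197, 1484370), (2299, 1631460), (2527, 1489860), (2645, 1541265), (2717,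
    1392570), (2783, 1471485), (3059, 1446810), (3211, 1559580), (3289, 1533090), (3703, 1254810),
    (3887, 1528290), (3971, 1623150), (4693, 1519800), (4807, 1642260), (5681, 1375410), (5819,
    1505280), (6859, 1444010), (6877, 1510665), (8303, 1462590), (10051, 1758540), (12167, 1686140)]))
    (by norm_num) (by decide +kernel)

theorem r0_y0 : Ck (gY0 2)
    (pol2 2 nE WE (vY0 c1E c2E) (hA (Ex.v 11) (Ex.v 19))) :=
  Ck.mk' 500000 (.add (.add (.add (.add (.mul (.g 8) (.add (.add (.add (.mul (.pp [(1, 1736760)]) (.sq [(2, 100),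
    (3, -21), (5, -21), (7, -21), (11, 56), (19, -21), (23, -21)])) (.mul (.pp [(1, 178050)]) (.sq
    [(1, -1), (2, 51), (3, -100), (5, 81), (7, -14), (11, 6), (19, -11), (23, -40)]))) (.add (.mul
    (.pp [(1, 1171710)]) (.sq [(1, 8), (2, 59), (3, 89), (5, 18), (7, 8), (11, 38), (19, -25), (23,
    -100)])) (.add (.mul (.g 8) (.add (.add (.pp [(1, 33509700000)]) (.add (.mul (.g 2) (.pp [(1,
    58345800000)])) (.mul (.g 7) (.pp [(1, 27078900000)])))) (.add (.mul (.g 9) (.pp [(1,
    5355795000)])) (.add (.mul (.g 13) (.pp [(1, 25133400000)])) (.mul (.g 15) (.pp [(1,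
    13115400000)])))))) (.mul (.g 16) (.add (.add (.pp [(1, 32842260000)]) (.mul (.g 2) (.pp [(1,
    2738160000)]))) (.add (.mul (.g 7) (.pp [(1, 7562160000)])) (.mul (.g 14) (.pp [(1,
    32274000000)])))))))) (.add (.add (.mul (.g 0) (.pp [(1, 377310000)])) (.add (.mul (.g 6) (.mul
    (.g 6) (.pp [(1, 15587400000)]))) (.mul (.g 7) (.mul (.g 14) (.pp [(1, 9601200000)]))))) (.add
    (.mul (.g 9) (.mul (.g 12) (.pp [(1, 291870000)]))) (.add (.mul (.g 13) (.mul (.g 13) (.pp [(1,
    177485100000)]))) (.mul (.g 15) (.mul (.g 17) (.pp [(1, 5946300000)])))))))) (.add (.mul (.g 18)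
    (.add (.add (.add (.mul (.pp [(1, 42936)]) (.sq [(2, -47), (3, -20), (7, -61), (11, 74), (19,
    -15), (23, 100)])) (.mul (.pp [(1, 268116)]) (.sq [(1, -62), (2, 83), (3, -16), (5, 83), (11,
    -100), (19, -69), (23, 20)]))) (.add (.mul (.pp [(1, 217380)]) (.sq [(2, 64), (3, 34), (5, 100),
    (7, -43), (11, 40), (19, -21), (23, -6)])) (.add (.mul (.g 5) (.add (.add (.mul (.g 0) (.pp [(1,
    713568000)])) (.mul (.g 6) (.pp [(1, 4225560000)]))) (.add (.mul (.g 12) (.pp [(1, 9051240000)]))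
    (.add (.mul (.g 13) (.pp [(1, 4102740000)])) (.mul (.g 14) (.pp [(1, 2276640000)])))))) (.mul (.g
    15) (.add (.pp [(1, 1607700000)]) (.add (.mul (.g 15) (.pp [(1, 8268660000)])) (.mul (.g 16) (.pp
    [(1, 293688000)])))))))) (.add (.add (.mul (.g 0) (.add (.pp [(1, 2088438000)]) (.mul (.g 13) (.pp
    [(1, 21330000)])))) (.mul (.g 7) (.add (.mul (.g 7) (.pp [(1, 4926780000)])) (.mul (.g 13) (.pp
    [(1, 8700000)]))))) (.add (.mul (.g 9) (.add (.mul (.g 3) (.pp [(1, 103647000)])) (.mul (.g 14)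
    (.pp [(1, 184902000)])))) (.add (.mul (.g 11) (.pp [(1, 21743880000)])) (.mul (.g 14) (.pp [(1,
    5791620000)]))))))) (.mul (.g 11) (.add (.add (.add (.mul (.pp [(1, 550380)]) (.sq [(2, -11), (3,
    -78), (5, -13), (7, 57), (11, 100), (19, -6), (23, -42)])) (.add (.mul (.pp [(1, 101910)]) (.sq
    [(2, 100), (3, -65), (5, 50), (7, -25), (11, 2), (19, 26), (23, 42)])) (.mul (.pp [(1, 108780)])
    (.sq [(2, -91), (3, 77), (5, 100), (7, -50), (11, 68), (19, 30), (23, -58)])))) (.add (.add (.mul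
    (.pp [(1, 407310)]) (.sq [(5, 21), (7, -14), (11, -37), (19, 100), (23, -21)])) (.mul (.pp [(1,
    2722350)]) (.sq [(2, 3), (5, 100), (7, -46), (11, 48), (19, 14), (23, 17)]))) (.add (.mul (.pp
    [(1, 2164050)]) (.sq [(2, 100), (3, 26), (5, 53), (7, 35), (11, 61), (19, -76), (23, -29)])) (.mul
    (.pp [(1, 141510)]) (.sq [(5, 32), (7, 65), (11, 30), (19, 35), (23, 100)]))))) (.add (.add (.mul
    (.g 13) (.add (.pp [(1, 37347300000)]) (.add (.mul (.g 12) (.pp [(1, 17070000000)])) (.mul (.g 16)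
    (.pp [(1, 33609420000)]))))) (.add (.mul (.g 9) (.add (.pp [(1, 3904440000)]) (.mul (.g 15) (.pp
    [(1, 3336645000)])))) (.mul (.g 1) (.pp [(1, 24774600000)])))) (.add (.add (.mul (.g 5) (.pp [(1,
    34740900000)])) (.mul (.g 6) (.mul (.g 16) (.pp [(1, 11208000000)])))) (.add (.mul (.g 11) (.pp
    [(1, 7920300000)])) (.mul (.g 14) (.mul (.g 15) (.pp [(1, 14422800000)])))))))))) (.add (.add
    (.mul (.g 6) (.add (.add (.add (.mul (.pp [(1, 471150)]) (.sq [(1, -3), (2, -88), (3, 44), (5,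
    -27), (7, 100), (11, 7), (19, -78), (23, -12)])) (.mul (.pp [(1, 1809180)]) (.sq [(2, -9), (3,
    88), (5, 3), (7, -100), (11, 62), (19, 66), (23, 33)]))) (.add (.mul (.g 9) (.add (.add (.pp [(1,
    3990510000)]) (.mul (.g 1) (.pp [(1, 1163925000)]))) (.add (.mul (.g 7) (.pp [(1, 730485000)]))
    (.mul (.g 15) (.pp [(1, 138090000)]))))) (.mul (.g 7) (.add (.pp [(1, 9025800000)]) (.mul (.g 12)
    (.pp [(1, 61288200000)])))))) (.add (.add (.mul (.g 16) (.add (.mul (.g 16) (.pp [(1,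
    4347552000)])) (.mul (.g 17) (.pp [(1, 910500000)])))) (.mul (.g 0) (.mul (.g 15) (.pp [(1,
    5426775000)])))) (.add (.mul (.g 1) (.mul (.g 12) (.pp [(1, 34395300000)]))) (.add (.mul (.g 2)
    (.mul (.g 6) (.pp [(1, 146268300000)]))) (.mul (.g 14) (.mul (.g 17) (.pp [(1,
    2927220000)])))))))) (.mul (.g 5) (.add (.add (.add (.mul (.pp [(1, 1817640)]) (.sq [(2, -33), (3,
    31), (5, 14), (7, 3), (11, 43), (19, -100), (23, 38)])) (.mul (.pp [(1, 794010)]) (.sq [(2, -18),
    (3, -43), (5, -13), (7, -100), (11, 15), (19, 32), (23, 99)]))) (.add (.mul (.pp [(1, 349530)])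
    (.sq [(2, -100), (3, 86), (5, -77), (7, 20), (11, -44), (19, 16), (23, -39)])) (.add (.mul (.pp
    [(1, 2755440)]) (.sq [(1, -42), (2, -99), (3, -8), (11, 100), (23, 7)])) (.mul (.pp [(1, 82680)])
    (.sq [(2, 75), (3, 75), (5, 100), (7, 96), (11, 75), (19, 79), (23, 75)]))))) (.add (.add (.mul
    (.pp [(1, 363660)]) (.sq [(2, -21), (3, 39), (5, 3), (7, -89), (11, 100), (19, -35), (23, -56)]))
    (.mul (.g 2) (.add (.pp [(1, 100656300000)]) (.mul (.g 0) (.pp [(1, 4968915000)]))))) (.add (.mul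
    (.g 16) (.add (.mul (.g 9) (.pp [(1, 244095000)])) (.mul (.g 13) (.pp [(1, 35049660000)])))) (.add
    (.mul (.g 7) (.pp [(1, 14916300000)])) (.mul (.g 14) (.pp [(1, 63764100000)])))))))) (.add (.mul
    (.g 1) (.add (.add (.add (.mul (.pp [(1, 1715310)]) (.sq [(2, 34), (3, -10), (5, 3), (7, -91),
    (11, 100), (19, -10), (23, -21)])) (.mul (.pp [(1, 2848650)]) (.sq [(2, 50), (3, -20), (5, 2), (7,
    100), (11, 44), (19, 66), (23, 45)]))) (.add (.mul (.pp [(1, 557220)]) (.sq [(1, 1), (2, 7), (3,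
    72), (5, 100), (7, -78), (11, 15), (19, -12), (23, -46)])) (.add (.mul (.pp [(1, 251910)]) (.sq
    [(2, -28), (3, -100), (5, 75), (7, 9), (11, 15), (19, -32)])) (.mul (.pp [(1, 618930)]) (.sq [(2,
    -100), (3, 51), (5, 55), (7, 85), (11, 24), (19, 93), (23, 24)]))))) (.add (.add (.mul (.pp [(1,
    540690)]) (.sq [(2, -58), (3, 80), (5, -55), (7, 22), (11, 100), (19, -12), (23, 98)])) (.mul (.pp
    [(1, 220710)]) (.sq [(2, 53), (3, 59), (5, -21), (7, 48), (11, -11), (19, 100), (23, -15)])))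
    (.add (.mul (.g 7) (.add (.mul (.g 2) (.pp [(1, 124579500000)])) (.mul (.g 15) (.pp [(1,
    179611500000)])))) (.add (.mul (.g 13) (.mul (.g 16) (.pp [(1, 5201340000)]))) (.mul (.g 14) (.pp
    [(1, 23815500000)]))))))) (.mul (.g 14) (.add (.add (.add (.mul (.pp [(1, 60840)]) (.sq [(2, 71),
    (3, -18), (5, 48), (7, -65), (11, 43), (19, 100), (23, 81)])) (.mul (.pp [(1, 1225830)]) (.sq [(1,
    17), (2, -70), (3, -88), (5, -73), (7, 84), (11, 100), (19, -53), (23, 7)]))) (.add (.mul (.pp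
    [(1, 7703700)]) (.sq [(2, 100), (3, -13), (5, -13), (7, -13), (11, -13), (19, -13), (23, -13)]))
    (.mul (.pp [(1, 926100)]) (.sq [(2, 10), (3, -3), (5, 100), (11, 85), (19, -48), (23, -20)]))))
    (.add (.add (.mul (.g 13) (.add (.mul (.g 2) (.pp [(1, 4245300000)])) (.add (.mul (.g 4) (.pp [(1,
    4841100000)])) (.mul (.g 15) (.pp [(1, 19190400000)]))))) (.mul (.g 9) (.pp [(1, 2243040000)])))
    (.add (.mul (.g 14) (.pp [(1, 11383800000)])) (.mul (.g 16) (.pp [(1, 1780260000)]))))))))) (.add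
    (.add (.add (.mul (.g 7) (.add (.add (.mul (.pp [(1, 291270)]) (.sq [(1, -10), (2, 16), (3, 43),
    (5, 100), (7, -46), (11, -2), (19, 4), (23, -19)])) (.mul (.pp [(1, 680850)]) (.sq [(1, 70), (2,
    -30), (5, 1), (11, -33), (19, -1), (23, -100)]))) (.add (.mul (.g 7) (.add (.pp [(1,
    11459400000)]) (.mul (.g 16) (.pp [(1, 339420000)])))) (.mul (.g 15) (.mul (.g 16) (.pp [(1,
    1010340000)])))))) (.mul (.g 13) (.add (.mul (.pp [(1, 1487880)]) (.sq [(1, -17), (2, -24), (3,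
    100), (5, -38), (7, 40), (11, -9), (19, 57), (23, -25)])) (.add (.mul (.g 16) (.add (.pp [(1,
    8505240000)]) (.add (.mul (.g 2) (.pp [(1, 590040000)])) (.mul (.g 13) (.pp [(1,
    30172020000)]))))) (.mul (.g 0) (.mul (.g 3) (.pp [(1, 1227300000)]))))))) (.add (.mul (.g 10)
    (.add (.mul (.pp [(1, 1516710)]) (.sq [(2, -17), (3, -61), (5, -59), (7, -87), (11, 70), (19,
    100), (23, -9)])) (.mul (.pp [(1, 2197980)]) (.sq [(2, 100), (3, -54), (5, 15), (7, 14), (11, 30),
    (19, -13), (23, 32)])))) (.mul (.g 0) (.mul (.pp [(1, 67875)]) (.sq [(1, -17), (2, 43), (3, -27),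
    (5, -10), (7, -37), (11, 100), (19, 65), (23, 7)]))))) (.add (.add (.mul (.g 4) (.mul (.pp [(1,
    547860)]) (.sq [(1, -24), (2, 8), (3, 31), (5, 100), (7, -35), (11, -19), (19, 10), (23, -9)])))
    (.mul (.g 9) (.mul (.pp [(1, 1554)]) (.sq [(2, 36), (3, 100), (5, -3), (7, -31), (11, 32), (19,
    -24), (23, 46)])))) (.add (.mul (.g 15) (.mul (.pp [(1, 2977230)]) (.sq [(1, 98), (2, 62), (3,
    62), (5, 62), (11, -43), (19, -43), (23, -100)]))) (.mul (.g 17) (.mul (.pp [(1, 98778)]) (.sq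
    [(2, 4), (3, 100), (5, 50), (7, -73), (11, -75), (19, 32), (23, 22)]))))))) (.pp [(1, 6259028283),
    (2, 2944926), (3, 3435588), (4, 3200955), (5, 3088716), (6, 3340158), (7, 3380640), (8, 3081120),
    (9, 3286347), (10, 2973048), (11, 2971710), (12, 3259110), (14, 3143238), (15, 3537108), (18,
    3018600), (19, 2643192), (20, 3060900), (21, 3598650), (22, 3511320), (23, 2837550), (25,
    3303420), (27, 3036210), (28, 2641320), (30, 3111120), (33, 3062040), (35, 2777988), (38,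
    3236394), (42, 3592560), (44, 2984960), (45, 3311280), (46, 2820942), (49, 3045699), (50,
    3188280), (55, 3472344), (57, 3131526), (63, 2677830), (66, 3324060), (69, 2885550), (70,
    3475200), (75, 3007170), (76, 3220710), (77, 3670632), (92, 2932230), (95, 3536844), (98,
    3109860), (99, 3258810), (105, 3283260), (110, 2783940), (114, 2373180), (115, 2972652), (121,
    3042984), (125, 3083500), (133, 3213642), (138, 2529540), (147, 3102240), (154, 3601620), (161,
    3470742), (165, 2636040), (171, 3129120), (175, 3255180), (190, 2826300), (207, 2978850), (209,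
    3280872), (230, 2570880), (231, 3112680), (242, 3063800), (245, 3074580), (253, 3263232), (266,
    2778900), (275, 2710830), (285, 3058980), (322, 2610480), (343, 3148100), (345, 2417640), (361,
    3295479), (363, 3222570), (385, 3439860), (399, 2968980), (418, 2727480), (437, 3305874), (475,
    2852460), (483, 2765040), (506, 2401440), (529, 3110307), (539, 3270780), (575, 2562570), (605,
    3057690), (627, 2756760), (665, 3403140), (722, 2866320), (759, 3086580), (805, 2904600), (847,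
    2778990), (874, 3245460), (931, 2506050), (1045, 2834760), (1058, 3272220), (1083, 2796420),
    (1127, 2347590), (1265, 2822880), (1311, 2824140), (1331, 2887520), (1463, 2647860), (1587,
    3040500), (1771, 2279460), (1805, 2563050), (2185, 2600280), (2299, 3163740), (2527, 2572440),
    (2645, 3073200), (2783, 2867340), (3059, 3967200), (3703, 2922330), (3971, 2809200), (4807,
    2595000), (5819, 3019380), (6859, 3172600), (8303, 2591580), (10051, 2525010), (12167, 2879100)]))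
    (by norm_num) (by decide +kernel)

theorem r0_p12 : Ck (gP1 2)
    (pol2 2 nE WE (vP0 c1E c2E) (hM (Ex.v 11))) :=
  Ck.mk' 250000 (.add (.add (.add (.add (.mul (.g 14) (.add (.add (.add (.add (.mul (.pp [(1, 2273805)]) (.sq [(3,
    -58), (5, 27), (7, 100), (11, -13), (13, -6), (19, -23), (23, -20)])) (.mul (.pp [(1, 26025)])
    (.sq [(2, 22), (3, -100), (5, 1), (7, 71), (11, 42), (13, 11), (19, 91), (23, 38)]))) (.add (.mul
    (.pp [(1, 2211945)]) (.sq [(2, 100), (3, -30), (5, 32), (7, -42), (11, -94), (13, -29), (19, 6),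
    (23, 20)])) (.add (.mul (.pp [(1, 590025)]) (.sq [(2, -47), (3, -18), (5, 100), (7, -15), (11,
    -16), (13, 2), (19, -8), (23, 7)])) (.mul (.pp [(1, 241680)]) (.sq [(2, 16), (3, -43), (5, -48),
    (7, 100), (11, -41), (13, -7), (19, -54), (23, -43)]))))) (.add (.add (.mul (.pp [(1, 31080)])
    (.sq [(2, 100), (3, 10), (5, -14), (7, 22), (11, 14), (13, -75), (19, 37), (23, 36)])) (.mul (.pp
    [(1, 186300)]) (.sq [(2, -47), (3, -8), (5, 69), (7, -14), (11, -27), (13, -100), (19, 62), (23,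
    -9)]))) (.add (.mul (.pp [(1, 829995)]) (.sq [(2, 100), (3, -19), (5, -19), (7, -19), (11, -19),
    (13, -19), (19, -19), (23, -19)])) (.add (.mul (.pp [(1, 257355)]) (.sq [(2, 4), (3, -28), (5,
    -1), (7, 37), (11, 44), (13, -11), (19, -100), (23, 42)])) (.mul (.pp [(1, 1511160)]) (.sq [(2,
    -24), (3, -14), (5, -29), (7, -20), (11, 100), (13, 37), (19, 23), (23, 44)])))))) (.add (.add
    (.add (.mul (.pp [(1, 1173750)]) (.sq [(1, 100), (2, -72), (3, -45), (5, 26), (7, -24), (11, 52),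
    (13, -63), (19, 60), (23, -48)])) (.mul (.pp [(1, 1192050)]) (.sq [(3, 43), (5, 90), (7, -45),
    (11, -66), (13, 100), (19, -77), (23, -45)]))) (.add (.mul (.pp [(1, 216075)]) (.sq [(2, 16), (3,
    8), (5, 100), (7, -45), (11, 100), (13, -1), (19, -29), (23, 10)])) (.add (.mul (.g 12) (.add
    (.add (.mul (.g 3) (.pp [(1, 45991650000)])) (.mul (.g 12) (.pp [(1, 7478550000)]))) (.add (.mul
    (.g 14) (.pp [(1, 30453300000)])) (.mul (.g 15) (.pp [(1, 4584000000)]))))) (.mul (.g 19) (.add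
    (.add (.pp [(1, 597180000)]) (.mul (.g 7) (.pp [(1, 6147030000)]))) (.add (.mul (.g 11) (.pp [(1,
    1911990000)])) (.mul (.g 16) (.pp [(1, 3722190000)])))))))) (.add (.add (.mul (.g 14) (.add (.pp
    [(1, 44242650000)]) (.add (.mul (.g 3) (.pp [(1, 7890600000)])) (.mul (.g 11) (.pp [(1,
    2392500000)]))))) (.add (.mul (.g 17) (.add (.mul (.g 0) (.pp [(1, 1839202500)])) (.add (.mul (.g
    16) (.pp [(1, 17988600000)])) (.mul (.g 20) (.pp [(1, 63600000)]))))) (.mul (.g 18) (.add (.mul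
    (.g 8) (.pp [(1, 30307950000)])) (.add (.mul (.g 13) (.pp [(1, 13558050000)])) (.mul (.g 21) (.pp
    [(1, 5497860000)]))))))) (.add (.mul (.g 9) (.add (.mul (.g 8) (.pp [(1, 2523427500)])) (.mul (.g
    13) (.pp [(1, 371977500)])))) (.add (.mul (.g 20) (.add (.pp [(1, 10926120000)]) (.mul (.g 3) (.pp
    [(1, 3347100000)])))) (.mul (.g 7) (.pp [(1, 91972200000)])))))))) (.add (.mul (.g 21) (.add (.add
    (.add (.mul (.pp [(1, 15099)]) (.sq [(1, 27), (2, -22), (3, 100), (5, -35), (7, -74), (11, 80),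
    (13, 41), (19, -23), (23, -36)])) (.add (.mul (.pp [(1, 74091)]) (.sq [(2, -29), (3, 69), (5, 4),
    (7, 4), (11, -4), (13, -100), (19, -48), (23, 71)])) (.mul (.pp [(1, 26319)]) (.sq [(1, -36), (2,
    -61), (3, 71), (5, -98), (7, 100), (11, 13), (13, 14), (19, -44), (23, -9)])))) (.add (.add (.mul
    (.pp [(1, 52140)]) (.sq [(1, 34), (2, -61), (3, -70), (5, -53), (7, -6), (11, -54), (13, -24),
    (19, 2), (23, 100)])) (.mul (.pp [(1, 66648)]) (.sq [(2, 100), (3, 73), (5, -6), (7, -57), (11,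
    -33), (13, 36), (19, -11), (23, -30)]))) (.add (.mul (.pp [(1, 14289)]) (.sq [(2, 36), (3, 10),
    (5, -70), (7, 16), (11, -68), (13, 100), (19, 11), (23, 26)])) (.mul (.pp [(1, 135699)]) (.sq [(2,
    -9), (3, 1), (5, 100), (7, -16), (11, 25), (13, 25), (19, -61), (23, 8)]))))) (.add (.add (.add
    (.mul (.g 18) (.add (.add (.mul (.g 5) (.pp [(1, 3438180000)])) (.mul (.g 7) (.pp [(1,
    1613070000)]))) (.add (.mul (.g 11) (.pp [(1, 537030000)])) (.add (.mul (.g 18) (.pp [(1,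
    3151980000)])) (.mul (.g 19) (.pp [(1, 144096000)])))))) (.mul (.g 19) (.add (.add (.mul (.g 2)
    (.pp [(1, 234120000)])) (.mul (.g 8) (.pp [(1, 579306000)]))) (.add (.mul (.g 16) (.pp [(1,
    958746000)])) (.mul (.g 20) (.pp [(1, 4772400)])))))) (.add (.mul (.g 2) (.add (.mul (.g 6) (.pp
    [(1, 3219840000)])) (.mul (.g 12) (.pp [(1, 1061970000)])))) (.mul (.g 8) (.add (.mul (.g 7) (.pp
    [(1, 6326880000)])) (.mul (.g 9) (.pp [(1, 73174500)])))))) (.add (.add (.mul (.g 17) (.add (.mul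
    (.g 11) (.pp [(1, 577920000)])) (.mul (.g 20) (.pp [(1, 283686000)])))) (.mul (.g 0) (.pp [(1,
    756552000)]))) (.add (.mul (.g 1) (.mul (.g 10) (.pp [(1, 5731290000)]))) (.mul (.g 4) (.mul (.g
    20) (.pp [(1, 710202000)])))))))) (.mul (.g 10) (.add (.add (.add (.mul (.pp [(1, 421065)]) (.sq
    [(1, -1), (2, -51), (3, -61), (5, -9), (7, 34), (11, 100), (13, -3), (19, -27), (23, 38)])) (.add
    (.mul (.pp [(1, 1666485)]) (.sq [(2, -7), (3, -3), (5, -78), (7, 100), (11, 16), (13, -1), (19,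
    -90), (23, -8)])) (.mul (.pp [(1, 432915)]) (.sq [(1, 5), (2, -6), (3, 85), (5, -100), (7, 75),
    (11, -37), (13, 40), (19, 20), (23, -75)])))) (.add (.add (.mul (.pp [(1, 589800)]) (.sq [(1, 60),
    (2, 8), (3, -30), (5, 20), (7, 7), (11, -63), (13, -62), (19, 100), (23, -16)])) (.mul (.pp [(1,
    530265)]) (.sq [(1, -36), (2, 50), (3, 39), (5, 17), (7, -43), (11, 100), (13, -16), (19, -30),
    (23, -18)]))) (.add (.mul (.pp [(1, 46605)]) (.sq [(1, 22), (2, 100), (3, -43), (5, -85), (7,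
    -34), (13, 1), (19, -12), (23, 14)])) (.mul (.pp [(1, 147870)]) (.sq [(2, 12), (3, 8), (7, -1),
    (11, -37), (13, 100), (19, -9), (23, -19)]))))) (.add (.add (.add (.mul (.pp [(1, 181620)]) (.sq
    [(2, 100), (3, -46), (5, 31), (7, -53), (11, 82), (13, 50), (19, 66)])) (.mul (.pp [(1, 832845)])
    (.sq [(1, -4), (2, 4), (3, 100), (5, 84), (7, -50), (11, -82), (13, 43), (19, -60), (23, 37)])))
    (.add (.mul (.pp [(1, 361500)]) (.sq [(2, -60), (3, -24), (5, -12), (7, 20), (11, 65), (13, 57),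
    (19, -72), (23, -100)])) (.mul (.pp [(1, 163305)]) (.sq [(1, 1), (2, -55), (3, 91), (5, 24), (7,
    62), (11, 17), (13, -100), (19, -93), (23, -99)])))) (.add (.add (.mul (.g 2) (.add (.mul (.g 5)
    (.pp [(1, 11257650000)])) (.add (.mul (.g 15) (.pp [(1, 12662250000)])) (.mul (.g 19) (.pp [(1,
    5312040000)]))))) (.mul (.g 9) (.add (.pp [(1, 1422952500)]) (.add (.mul (.g 9) (.pp [(1,
    62572875)])) (.mul (.g 13) (.pp [(1, 996817500)])))))) (.add (.mul (.g 0) (.add (.pp [(1,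
    3309337500)]) (.mul (.g 12) (.pp [(1, 580087500)])))) (.mul (.g 4) (.add (.mul (.g 10) (.pp [(1,
    5214300000)])) (.mul (.g 17) (.pp [(1, 12180750000)]))))))))))) (.add (.mul (.g 8) (.add (.add
    (.add (.mul (.pp [(1, 29655)]) (.sq [(2, 53), (3, 100), (5, 60), (7, 30), (11, -81), (13, -23),
    (19, 46), (23, -9)])) (.add (.mul (.pp [(1, 355815)]) (.sq [(2, -100), (3, 51), (5, 67), (7, 27),
    (11, -4), (13, 9), (19, -96), (23, 43)])) (.mul (.pp [(1, 242970)]) (.sq [(1, -62), (2, -87), (3,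
    -71), (5, -69), (7, 92), (11, -40), (13, -2), (19, -59), (23, 100)])))) (.add (.add (.mul (.pp
    [(1, 287760)]) (.sq [(1, 5), (2, 100), (3, 2), (5, 9), (7, -62), (11, -38), (13, -40), (19, -63),
    (23, -3)])) (.mul (.pp [(1, 1306875)]) (.sq [(1, -23), (2, 100), (3, -1), (5, -36), (7, -24), (11,
    11), (13, 56), (19, 10), (23, -15)]))) (.add (.mul (.pp [(1, 5985)]) (.sq [(1, -100), (2, -30),
    (3, -12), (5, -21), (7, 85), (11, 76), (13, -99), (19, -50), (23, 85)])) (.mul (.pp [(1, 272415)])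
    (.sq [(1, -37), (2, 77), (3, -100), (5, 51), (7, 38), (11, 67), (13, 25), (19, 80), (23,
    -40)]))))) (.add (.add (.mul (.pp [(1, 2606070)]) (.sq [(2, 100), (3, -18), (5, -18), (7, -18),
    (11, 57), (13, -18), (19, -18), (23, -18)])) (.add (.mul (.g 2) (.add (.add (.mul (.g 8) (.pp [(1,
    44940000000)])) (.mul (.g 12) (.pp [(1, 41015250000)]))) (.add (.mul (.g 19) (.pp [(1,
    5271510000)])) (.mul (.g 20) (.pp [(1, 7221090000)]))))) (.mul (.g 7) (.add (.pp [(1,
    62880000000)]) (.mul (.g 12) (.pp [(1, 44449050000)])))))) (.add (.add (.mul (.g 9) (.add (.mul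
    (.g 8) (.pp [(1, 3100230000)])) (.mul (.g 20) (.pp [(1, 107959500)])))) (.mul (.g 19) (.add (.mul
    (.g 12) (.pp [(1, 14293800000)])) (.mul (.g 19) (.pp [(1, 582462000)]))))) (.add (.mul (.g 4)
    (.mul (.g 11) (.pp [(1, 17857050000)]))) (.mul (.g 13) (.mul (.g 17) (.pp [(1, 761250000)]))))))))
    (.add (.mul (.g 1) (.add (.add (.add (.mul (.pp [(1, 644280)]) (.sq [(2, -32), (3, -17), (5, -31),
    (7, -10), (11, 100), (13, -21), (19, -37), (23, -1)])) (.add (.mul (.pp [(1, 1738485)]) (.sq [(2,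
    47), (3, -9), (5, 100), (7, -41), (11, 47), (13, 5), (19, -57), (23, -7)])) (.mul (.pp [(1,
    37770)]) (.sq [(1, -36), (2, -100), (3, 66), (5, -77), (7, 70), (11, -2), (13, -47), (19, 10),
    (23, 83)])))) (.add (.mul (.pp [(1, 497220)]) (.sq [(2, -55), (3, 83), (5, 57), (7, 78), (11,
    -57), (13, -100), (19, -100), (23, -6)])) (.add (.mul (.pp [(1, 12675)]) (.sq [(2, -4), (3, 65),
    (5, 9), (7, 93), (11, 36), (13, 100), (19, -16), (23, 32)])) (.mul (.pp [(1, 1391910)]) (.sq [(1,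
    -27), (2, 25), (3, 10), (5, -83), (7, 100), (11, 26), (13, -37), (19, 69), (23, 64)]))))) (.add
    (.add (.mul (.pp [(1, 265905)]) (.sq [(2, -6), (3, 100), (5, -77), (7, -10), (11, 22), (13, -46),
    (19, 69), (23, -34)])) (.add (.mul (.g 18) (.add (.pp [(1, 30417300000)]) (.add (.mul (.g 4) (.pp
    [(1, 50356200000)])) (.mul (.g 12) (.pp [(1, 33937350000)]))))) (.mul (.g 19) (.add (.pp [(1,
    477270000)]) (.add (.mul (.g 16) (.pp [(1, 8398620000)])) (.mul (.g 17) (.pp [(1,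
    1600860000)]))))))) (.add (.mul (.g 2) (.add (.mul (.g 7) (.pp [(1, 49213650000)])) (.mul (.g 17)
    (.pp [(1, 42918450000)])))) (.add (.mul (.g 0) (.pp [(1, 6168937500)])) (.mul (.g 12) (.mul (.g
    20) (.pp [(1, 7196130000)])))))))) (.mul (.g 7) (.add (.add (.add (.mul (.pp [(1, 1605180)]) (.sq
    [(2, -61), (3, 39), (5, -6), (7, -5), (11, 100), (13, 68), (19, 64), (23, 9)])) (.add (.mul (.pp
    [(1, 1801200)]) (.sq [(2, 100), (3, 91), (5, -33), (7, -28), (11, -78), (13, 52), (19, -33), (23,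
    -41)])) (.mul (.pp [(1, 724275)]) (.sq [(2, -31), (3, -93), (5, -21), (7, 82), (11, 100), (13,
    -84), (19, 35), (23, -78)])))) (.add (.add (.mul (.pp [(1, 37125)]) (.sq [(1, -3), (2, 45), (3,
    -56), (5, 100), (7, 6), (11, -17), (13, -17), (19, -28), (23, 53)])) (.mul (.pp [(1, 1945260)])
    (.sq [(1, 1), (2, -68), (3, -6), (5, -59), (7, 49), (11, -45), (13, 100), (19, -58), (23, 14)])))
    (.add (.mul (.pp [(1, 23205)]) (.sq [(1, -45), (2, 100), (3, 6), (5, -3), (7, 95), (11, 83), (13,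
    -20), (19, 19), (23, -56)])) (.mul (.pp [(1, 93000)]) (.sq [(2, -12), (3, -43), (5, -38), (7, 80),
    (11, -29), (13, 17), (19, 13), (23, 100)]))))) (.add (.add (.mul (.pp [(1, 589740)]) (.sq [(2,
    -13), (3, 10), (5, 50), (7, 23), (11, 100), (13, 82), (19, -87), (23, -6)])) (.add (.mul (.g 6)
    (.add (.pp [(1, 30392100000)]) (.mul (.g 15) (.pp [(1, 54856350000)])))) (.mul (.g 7) (.pp [(1,
    54697650000)])))) (.add (.add (.mul (.g 12) (.mul (.g 13) (.pp [(1, 15199650000)]))) (.mul (.g 16)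
    (.mul (.g 17) (.pp [(1, 4575450000)])))) (.add (.mul (.g 18) (.pp [(1, 6641100000)])) (.mul (.g
    20) (.pp [(1, 16642200000)])))))))))) (.add (.add (.mul (.g 6) (.add (.add (.mul (.pp [(1,
    410610)]) (.sq [(2, -43), (3, 80), (5, 37), (7, -69), (11, 100), (13, -29), (19, 14), (23, -14)]))
    (.add (.mul (.pp [(1, 518520)]) (.sq [(2, -54), (3, -78), (5, 57), (7, 59), (11, 93), (13, 90),
    (19, -100), (23, -51)])) (.mul (.g 16) (.add (.mul (.g 9) (.pp [(1, 477202500)])) (.add (.mul (.g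
    17) (.pp [(1, 5242200000)])) (.mul (.g 19) (.pp [(1, 3167490000)]))))))) (.add (.mul (.g 2) (.add
    (.mul (.g 6) (.pp [(1, 70332900000)])) (.mul (.g 17) (.pp [(1, 15400650000)])))) (.add (.mul (.g
    0) (.mul (.g 18) (.pp [(1, 680947500)]))) (.mul (.g 17) (.mul (.g 20) (.pp [(1,
    2996280000)]))))))) (.add (.mul (.g 11) (.add (.add (.mul (.pp [(1, 63120)]) (.sq [(1, -31), (2,
    78), (3, -75), (5, -100), (7, 65), (11, -56), (13, -40), (19, -25), (23, 42)])) (.add (.mul (.pp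
    [(1, 91785)]) (.sq [(2, 10), (3, 16), (5, -96), (7, 42), (11, 100), (13, -94), (19, 88), (23,
    -47)])) (.mul (.g 20) (.add (.mul (.g 12) (.pp [(1, 456870000)])) (.mul (.g 17) (.pp [(1,
    1885620000)])))))) (.add (.mul (.g 0) (.mul (.g 9) (.pp [(1, 75684375)]))) (.add (.mul (.g 2)
    (.mul (.g 16) (.pp [(1, 4737300000)]))) (.mul (.g 11) (.mul (.g 19) (.pp [(1, 540360000)])))))))
    (.mul (.g 5) (.add (.add (.mul (.pp [(1, 402810)]) (.sq [(2, -19), (3, 100), (5, 5), (7, -72),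
    (11, 74), (13, -38), (19, 22), (23, 9)])) (.mul (.pp [(1, 652035)]) (.sq [(2, 12), (3, -7), (5,
    -3), (7, -1), (11, -37), (13, 100), (19, -12), (23, -17)]))) (.add (.mul (.pp [(1, 166920)]) (.sq
    [(1, 7), (2, 95), (3, 13), (5, 86), (7, -100), (11, 63), (13, 24), (19, -4), (23, -65)])) (.add
    (.mul (.pp [(1, 501375)]) (.sq [(2, -69), (3, 62), (5, -39), (7, 71), (11, -100), (13, -54), (19,
    -78), (23, -19)])) (.mul (.g 17) (.mul (.g 20) (.pp [(1, 3104730000)]))))))))) (.add (.add (.mul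
    (.g 16) (.add (.mul (.g 16) (.add (.mul (.g 4) (.pp [(1, 187500000)])) (.add (.mul (.g 12) (.pp
    [(1, 1092150000)])) (.mul (.g 19) (.pp [(1, 2521950000)]))))) (.mul (.g 20) (.add (.mul (.g 2)
    (.pp [(1, 809250000)])) (.mul (.g 19) (.pp [(1, 267348000)])))))) (.mul (.g 19) (.add (.mul (.pp
    [(1, 447810)]) (.sq [(1, -3), (2, 100), (3, -49), (5, 31), (7, -1), (11, -7), (13, -55), (19, -5),
    (23, -5)])) (.mul (.pp [(1, 800025)]) (.sq [(2, 100), (3, -75), (5, 6), (7, 6), (11, -41), (13,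
    6), (19, 6), (23, 6)]))))) (.add (.mul (.g 20) (.add (.mul (.pp [(1, 407955)]) (.sq [(1, -2), (2,
    -53), (3, 88), (5, -6), (7, -11), (11, 1), (13, 100), (19, 1), (23, -12)])) (.mul (.g 12) (.mul
    (.g 12) (.pp [(1, 634650000)]))))) (.mul (.g 17) (.mul (.pp [(1, 652290)]) (.sq [(2, 100), (3,
    -16), (5, -50), (7, -7), (11, -10), (13, 36), (19, 60), (23, -57)]))))))) (.pp [(1, 1157755230),
    (2, 1475142), (3, 1800744), (4, 1407303), (5, 1386633), (6, 1234536), (7, 1705272), (8, 1500000),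
    (9, 1802022), (10, 1405194), (11, 1487397), (12, 1363830), (13, 1355058), (14, 1557954), (15,
    1509930), (18, 1434555), (19, 1416543), (20, 1382745), (21, 1324416), (22, 1627158), (23,
    1385442), (25, 1784835), (26, 1808784), (27, 1530345), (28, 1580370), (30, 1508490), (33,
    1627686), (35, 1438158), (38, 1583598), (39, 1105230), (42, 1299240), (44, 1478560), (45,
    1496235), (46, 1563444), (49, 1687920), (50, 1422510), (52, 1649145), (55, 1537668), (57,
    1238436), (63, 1606770), (65, 1633986), (66, 1392120), (69, 1263600), (70, 1257600), (75,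
    1519440), (76, 1488510), (77, 902820), (78, 1627140), (91, 1184832), (92, 1643385), (95, 1472286),
    (98, 1557630), (99, 1407930), (105, 2006520), (110, 1436490), (114, 1682520), (115, 1661838),
    (117, 1551345), (121, 1629720), (125, 1480475), (130, 1455810), (133, 1491510), (138, 1685430),
    (143, 1401396), (147, 1452030), (154, 2025840), (161, 1393788), (165, 1413390), (169, 1907442),
    (171, 1281945), (175, 1465380), (182, 1523250), (190, 1698990), (195, 1378410), (207, 1214325),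
    (209, 2041134), (230, 1775670), (231, 1354770), (242, 1631155), (245, 1452300), (247, 1625034),
    (253, 1681914), (266, 1685910), (273, 1645980), (275, 1602315), (285, 1281900), (286, 1412280),
    (299, 1651668), (322, 1721490), (325, 1464150), (338, 1302030), (343, 1795405), (345, 1310190),
    (361, 1613010), (363, 1679445), (385, 1033920), (399, 948930), (418, 1307190), (429, 1531710),
    (437, 1441830), (455, 1652310), (475, 1379415), (483, 1842660), (494, 1422960), (506, 1229070),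
    (507, 1654725), (529, 1448328), (539, 1612890), (575, 1487715), (598, 1337520), (605, 1450980),
    (627, 1348800), (637, 1317675), (665, 1513020), (715, 1690500), (722, 1468110), (741, 1491750),
    (759, 1645410), (805, 1558650), (845, 1436940), (847, 1836060), (874, 1015170), (897, 1647180),
    (931, 1247910), (1001, 1134870), (1045, 1674780), (1058, 1352550), (1083, 1941405), (1127,
    401430), (1183, 1862340), (1235, 1374690), (1265, 1740870), (1311, 2022000), (1331, 1575145),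
    (1463, 1567980), (1495, 1507560), (1573, 1495920), (1587, 1251240), (1729, 1476000), (1771,
    1021710), (1805, 1497345), (1859, 1539600), (2093, 1809480), (2185, 1365120), (2197, 1405185),
    (2299, 1377285), (2527, 1821000), (2645, 1385520), (2717, 1486980), (2783, 1053075), (3059,
    2509740), (3211, 1326660), (3289, 1719360), (3703, 2358000), (3887, 1136250), (3971, 1280700),
    (4693, 1349640), (4807, 1549950), (5681, 1600380), (5819, 1735935), (6859, 1349540), (6877,
    1395000), (8303, 1003980), (10051, 1107840), (12167, 1428360)]))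
    (by norm_num) (by decide +kernel)

theorem r0_p13 : Ck (gP1 3)
    (pol2 3 nE WE (vP0 c1E c2E) (hM (Ex.v 11))) :=
  Ck.mk' 1000000 (.add (.add (.add (.add (.add (.mul (.g 21) (.add (.add (.add (.mul (.pp [(1, 4908)]) (.sq [(2,
    28), (3, 100), (5, -2), (7, -89), (11, -46), (13, -31), (19, -72), (23, 97)])) (.add (.mul (.pp
    [(1, 335256)]) (.sq [(1, -8), (2, 100), (3, 15), (5, 58), (7, 33), (11, -37), (13, -32), (19,
    -59), (23, 53)])) (.mul (.pp [(1, 154008)]) (.sq [(1, -25), (2, 61), (3, 87), (5, -39), (7, -83),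
    (11, 100), (13, 7), (19, -15), (23, 9)])))) (.add (.mul (.pp [(1, 311880)]) (.sq [(1, -3), (2,
    -3), (3, -20), (5, 100), (7, -9), (11, 100), (13, -4), (19, -22), (23, -13)])) (.add (.mul (.g 0)
    (.add (.add (.pp [(1, 2662716000)]) (.add (.mul (.g 1) (.pp [(1, 2480028000)])) (.mul (.g 5) (.pp
    [(1, 1270962000)])))) (.add (.mul (.g 7) (.pp [(1, 476124000)])) (.add (.mul (.g 9) (.pp [(1,
    8797800)])) (.mul (.g 19) (.pp [(1, 256430400)])))))) (.mul (.g 18) (.add (.add (.mul (.g 1) (.pp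
    [(1, 2273880000)])) (.add (.mul (.g 5) (.pp [(1, 2720640000)])) (.mul (.g 7) (.pp [(1,
    3755160000)])))) (.add (.mul (.g 12) (.pp [(1, 986640000)])) (.add (.mul (.g 16) (.pp [(1,
    1029840000)])) (.mul (.g 18) (.pp [(1, 15551880000)]))))))))) (.add (.add (.mul (.g 20) (.add
    (.add (.mul (.g 3) (.pp [(1, 668136000)])) (.mul (.g 15) (.pp [(1, 488136000)]))) (.add (.mul (.g
    17) (.pp [(1, 360096000)])) (.mul (.g 19) (.pp [(1, 272107200)]))))) (.add (.mul (.g 8) (.add
    (.mul (.g 4) (.pp [(1, 10754040000)])) (.add (.mul (.g 8) (.pp [(1, 278040000)])) (.mul (.g 12)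
    (.pp [(1, 3100920000)]))))) (.mul (.g 3) (.add (.mul (.g 10) (.pp [(1, 11814480000)])) (.mul (.g
    21) (.pp [(1, 813816000)])))))) (.add (.add (.mul (.g 13) (.add (.mul (.g 17) (.pp [(1,
    15501120000)])) (.mul (.g 19) (.pp [(1, 729096000)])))) (.mul (.g 9) (.mul (.g 10) (.pp [(1,
    84366000)])))) (.add (.mul (.g 14) (.mul (.g 14) (.pp [(1, 1872000000)]))) (.mul (.g 16) (.mul (.g
    19) (.pp [(1, 652200000)])))))))) (.mul (.g 1) (.add (.add (.add (.mul (.pp [(1, 2055900)]) (.sq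
    [(1, -45), (2, 7), (3, -63), (5, -61), (7, -32), (11, -20), (13, 100), (19, 53), (23, 20)])) (.add
    (.mul (.pp [(1, 1100700)]) (.sq [(2, 100), (3, -32), (5, 97), (7, 1), (11, 33), (13, -55), (19,
    -31), (23, 13)])) (.mul (.pp [(1, 2841660)]) (.sq [(1, -71), (2, 91), (3, 14), (5, -40), (7, 100),
    (11, 37), (13, -63), (19, 56), (23, 18)])))) (.add (.add (.mul (.pp [(1, 3645720)]) (.sq [(1, 38),
    (2, -46), (3, -4), (5, 33), (7, -71), (11, 100), (13, -8), (19, 6), (23, 36)])) (.mul (.pp [(1,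
    3051960)]) (.sq [(1, -59), (2, 79), (3, -4), (5, -24), (11, 42), (13, 98), (19, -69), (23,
    100)]))) (.add (.mul (.g 17) (.add (.add (.mul (.g 4) (.pp [(1, 35265600000)])) (.mul (.g 10) (.pp
    [(1, 19403400000)]))) (.add (.mul (.g 13) (.pp [(1, 99963600000)])) (.add (.mul (.g 18) (.pp [(1,
    86037000000)])) (.mul (.g 20) (.pp [(1, 7298760000)])))))) (.mul (.g 0) (.add (.add (.mul (.g 9)
    (.pp [(1, 73516500)])) (.mul (.g 12) (.pp [(1, 2949390000)]))) (.add (.mul (.g 15) (.pp [(1,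
    5464710000)])) (.mul (.g 16) (.pp [(1, 429960000)])))))))) (.add (.add (.mul (.g 8) (.add (.add
    (.mul (.g 3) (.pp [(1, 182609400000)])) (.mul (.g 4) (.pp [(1, 161916600000)]))) (.add (.mul (.g
    8) (.pp [(1, 92766600000)])) (.mul (.g 19) (.pp [(1, 39829920000)]))))) (.add (.mul (.g 16) (.add
    (.mul (.g 9) (.pp [(1, 1909890000)])) (.add (.mul (.g 18) (.pp [(1, 148004400000)])) (.mul (.g 19)
    (.pp [(1, 42294600000)]))))) (.mul (.g 4) (.add (.mul (.g 3) (.pp [(1, 29821800000)])) (.mul (.g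
    18) (.pp [(1, 97462800000)])))))) (.add (.add (.mul (.g 7) (.mul (.g 11) (.pp [(1,
    90964800000)]))) (.mul (.g 10) (.mul (.g 13) (.pp [(1, 14317800000)])))) (.add (.mul (.g 12) (.mul
    (.g 18) (.pp [(1, 702000000)]))) (.mul (.g 14) (.mul (.g 19) (.pp [(1, 957000000)]))))))))) (.add
    (.mul (.g 14) (.add (.add (.add (.mul (.pp [(1, 3020520)]) (.sq [(1, -39), (3, -8), (5, -23), (11,
    -42), (13, 100), (19, -26)])) (.add (.mul (.pp [(1, 14518320)]) (.sq [(1, -10), (2, 2), (3, 100),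
    (5, -3), (7, 3), (11, -15), (19, 16), (23, -27)])) (.mul (.pp [(1, 18000)]) (.sq [(1, 65), (2,
    -100), (3, -90), (5, 75), (7, 3), (11, -49), (13, -6), (19, -41), (23, 2)])))) (.add (.mul (.pp
    [(1, 3585840)]) (.sq [(2, 53), (3, 100), (5, 7), (7, -4), (11, 40), (13, 22), (19, -61), (23,
    12)])) (.add (.mul (.pp [(1, 1192740)]) (.sq [(2, -29), (3, -73), (5, 9), (7, 30), (11, 50), (13,
    100), (19, -97), (23, 48)])) (.mul (.g 3) (.add (.add (.mul (.g 2) (.pp [(1, 137233800000)]))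
    (.add (.mul (.g 7) (.pp [(1, 46580400000)])) (.mul (.g 8) (.pp [(1, 630600000)])))) (.add (.add
    (.mul (.g 14) (.pp [(1, 49993800000)])) (.mul (.g 18) (.pp [(1, 14623800000)]))) (.add (.mul (.g
    19) (.pp [(1, 15992880000)])) (.mul (.g 20) (.pp [(1, 47941560000)]))))))))) (.add (.add (.mul (.g
    19) (.add (.add (.mul (.g 8) (.pp [(1, 2635920000)])) (.add (.mul (.g 12) (.pp [(1, 4842840000)]))
    (.mul (.g 14) (.pp [(1, 6037320000)])))) (.add (.mul (.g 18) (.pp [(1, 3854760000)])) (.add (.mul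
    (.g 19) (.pp [(1, 1153896000)])) (.mul (.g 20) (.pp [(1, 224808000)])))))) (.add (.mul (.g 9)
    (.add (.mul (.g 16) (.pp [(1, 2145990000)])) (.mul (.g 18) (.pp [(1, 1534440000)])))) (.mul (.g
    13) (.add (.pp [(1, 3667200000)]) (.mul (.g 12) (.pp [(1, 50777400000)])))))) (.add (.mul (.g 20)
    (.add (.mul (.g 14) (.pp [(1, 38142720000)])) (.mul (.g 20) (.pp [(1, 406464000)])))) (.add (.mul
    (.g 7) (.pp [(1, 13504800000)])) (.mul (.g 8) (.mul (.g 17) (.pp [(1, 68009400000)])))))))) (.mul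
    (.g 7) (.add (.add (.add (.mul (.pp [(1, 514080)]) (.sq [(1, -9), (2, 11), (3, -54), (5, -17), (7,
    -32), (11, -15), (13, 86), (19, 100), (23, -56)])) (.mul (.pp [(1, 2078520)]) (.sq [(1, 19), (2,
    100), (3, -64), (5, 38), (7, -16), (11, -81), (13, 15), (19, -63), (23, 9)]))) (.add (.mul (.pp
    [(1, 2920200)]) (.sq [(1, -26), (2, 36), (3, -40), (5, -78), (7, 71), (11, -100), (13, 18), (19,
    -24), (23, 6)])) (.add (.mul (.pp [(1, 176400)]) (.sq [(2, -93), (3, -100), (5, 34), (7, 67), (11,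
    62), (13, 84), (19, -65), (23, -8)])) (.mul (.g 8) (.add (.add (.mul (.g 5) (.pp [(1,
    88620600000)])) (.mul (.g 12) (.pp [(1, 26263800000)]))) (.add (.mul (.g 16) (.pp [(1,
    172561200000)])) (.mul (.g 20) (.pp [(1, 25720080000)])))))))) (.add (.add (.mul (.g 7) (.add
    (.mul (.g 12) (.pp [(1, 19007400000)])) (.mul (.g 16) (.pp [(1, 2478000000)])))) (.mul (.g 10)
    (.add (.pp [(1, 13216200000)]) (.mul (.g 19) (.pp [(1, 12875040000)]))))) (.add (.mul (.g 11)
    (.add (.pp [(1, 26027400000)]) (.mul (.g 18) (.pp [(1, 18334200000)])))) (.add (.mul (.g 6) (.mul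
    (.g 6) (.pp [(1, 51246000000)]))) (.mul (.g 17) (.mul (.g 19) (.pp [(1, 2527680000)]))))))))))
    (.add (.add (.mul (.g 17) (.add (.add (.mul (.pp [(1, 6877500)]) (.sq [(2, 100), (3, -11), (5,
    -11), (7, -11), (11, -11), (13, -11), (19, -11), (23, -11)])) (.add (.mul (.pp [(1, 3613920)])
    (.sq [(1, 23), (2, -100), (3, -76), (5, -38), (7, 6), (11, 10), (13, 39), (19, 84), (23, -49)]))
    (.mul (.pp [(1, 1397040)]) (.sq [(1, -2), (2, -14), (3, -38), (5, -21), (7, -15), (11, 100), (13,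
    -12), (19, 52), (23, -26)])))) (.add (.add (.mul (.g 20) (.add (.add (.mul (.g 5) (.pp [(1,
    18632160000)])) (.mul (.g 6) (.pp [(1, 8805840000)]))) (.add (.mul (.g 8) (.pp [(1, 6006240000)]))
    (.mul (.g 12) (.pp [(1, 11332920000)]))))) (.mul (.g 19) (.add (.mul (.g 8) (.pp [(1,
    19818360000)])) (.add (.mul (.g 10) (.pp [(1, 8596920000)])) (.mul (.g 11) (.pp [(1,
    28093800000)])))))) (.add (.mul (.g 5) (.add (.mul (.g 0) (.pp [(1, 3196290000)])) (.mul (.g 13)
    (.pp [(1, 17683200000)])))) (.mul (.g 9) (.add (.mul (.g 10) (.pp [(1, 323940000)])) (.mul (.g 11)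
    (.pp [(1, 869610000)])))))))) (.mul (.g 10) (.add (.add (.mul (.pp [(1, 110700)]) (.sq [(2, -12),
    (3, 98), (5, 47), (7, -28), (11, -53), (13, -53), (19, 100), (23, -14)])) (.add (.mul (.pp [(1,
    1463640)]) (.sq [(2, 29), (3, 91), (5, 100), (7, 47), (11, -93), (13, -99), (19, 17), (23, 40)]))
    (.mul (.g 3) (.add (.add (.mul (.g 5) (.pp [(1, 2306400000)])) (.mul (.g 6) (.pp [(1,
    41829000000)]))) (.add (.mul (.g 10) (.pp [(1, 89919600000)])) (.mul (.g 12) (.pp [(1,
    17020200000)]))))))) (.add (.mul (.g 9) (.add (.pp [(1, 3750630000)]) (.add (.mul (.g 9) (.pp [(1,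
    186330000)])) (.mul (.g 16) (.pp [(1, 2439390000)]))))) (.add (.mul (.g 4) (.mul (.g 10) (.pp [(1,
    9876000000)]))) (.mul (.g 13) (.mul (.g 19) (.pp [(1, 2156760000)])))))))) (.add (.mul (.g 11)
    (.add (.add (.mul (.pp [(1, 2728500)]) (.sq [(2, 48), (3, 11), (5, 37), (7, -35), (11, 71), (13,
    28), (19, -70), (23, -100)])) (.add (.mul (.pp [(1, 1189260)]) (.sq [(1, -3), (2, -80), (3, 100),
    (5, 4), (7, -68), (11, 34), (13, 57), (19, 24), (23, -58)])) (.mul (.pp [(1, 3040860)]) (.sq [(1,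
    51), (2, -100), (3, 6), (5, 74), (7, 51), (11, -13), (13, -15), (19, -71), (23, 76)])))) (.add
    (.add (.mul (.g 3) (.add (.mul (.g 2) (.pp [(1, 48416400000)])) (.add (.mul (.g 3) (.pp [(1,
    31536000000)])) (.mul (.g 8) (.pp [(1, 170272800000)]))))) (.mul (.g 19) (.add (.mul (.g 4) (.pp
    [(1, 16004640000)])) (.add (.mul (.g 9) (.pp [(1, 819642000)])) (.mul (.g 13) (.pp [(1,
    1444200000)])))))) (.add (.mul (.g 9) (.mul (.g 11) (.pp [(1, 1510110000)]))) (.mul (.g 16) (.mul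
    (.g 16) (.pp [(1, 91034400000)]))))))) (.add (.mul (.g 5) (.add (.add (.mul (.pp [(1, 1615680)])
    (.sq [(1, 45), (2, -100), (3, -83), (5, -49), (7, 2), (11, 79), (13, 16), (19, -63), (23, -51)]))
    (.mul (.pp [(1, 1985580)]) (.sq [(1, -65), (2, 9), (3, -82), (5, 32), (7, -63), (11, 84), (13,
    100), (19, -2), (23, -52)]))) (.add (.mul (.pp [(1, 2274600)]) (.sq [(1, -81), (2, 15), (3, 39),
    (5, 4), (7, 35), (11, -100), (13, 96), (19, 23), (23, 24)])) (.add (.mul (.g 16) (.add (.mul (.g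
    4) (.pp [(1, 72312600000)])) (.mul (.g 19) (.pp [(1, 20862960000)])))) (.mul (.g 0) (.mul (.g 9)
    (.pp [(1, 423202500)]))))))) (.mul (.g 19) (.add (.add (.mul (.pp [(1, 829128)]) (.sq [(1, -32),
    (2, -100), (3, 28), (5, -1), (7, 2), (11, 75), (13, 74), (19, 48), (23, -31)])) (.mul (.pp [(1,
    3722784)]) (.sq [(2, 100), (3, -75), (5, 6), (7, 6), (11, -41), (13, 6), (19, 6), (23, 6)])))
    (.add (.mul (.pp [(1, 164796)]) (.sq [(1, -6), (2, 37), (3, -61), (5, -55), (7, 100), (11, 43),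
    (13, -4), (19, -68), (23, 11)])) (.add (.mul (.g 8) (.mul (.g 19) (.pp [(1, 789480000)]))) (.mul
    (.g 16) (.mul (.g 16) (.pp [(1, 15921360000)]))))))))))) (.add (.add (.add (.mul (.g 9) (.add
    (.mul (.pp [(1, 100365)]) (.sq [(1, 41), (2, -14), (3, 35), (5, -35), (7, -1), (11, 100), (13,
    -43), (19, -54), (23, 42)])) (.add (.mul (.pp [(1, 52635)]) (.sq [(1, -36), (2, -31), (3, 6), (5,
    -29), (7, -3), (11, 100), (13, 47), (19, 96), (23, -68)])) (.mul (.g 8) (.mul (.g 8) (.pp [(1,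
    7932990000)])))))) (.mul (.g 16) (.add (.mul (.pp [(1, 1289340)]) (.sq [(1, -17), (2, -4), (3,
    61), (5, -23), (7, 36), (11, 97), (13, -100), (19, -19), (23, 29)])) (.add (.mul (.pp [(1,
    2058660)]) (.sq [(1, -82), (3, -35), (5, -57), (7, 49), (13, 71), (19, 100), (23, -66)])) (.mul
    (.pp [(1, 1647240)]) (.sq [(1, -45), (2, 71), (3, 29), (5, 98), (7, -44), (11, 100), (13, 8), (19,
    -15), (23, -18)])))))) (.add (.mul (.g 4) (.add (.mul (.pp [(1, 2201220)]) (.sq [(1, 20), (2, 19),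
    (3, 19), (5, 55), (7, -36), (11, 100), (13, 12), (19, 8), (23, -47)])) (.mul (.pp [(1, 1235880)])
    (.sq [(1, -8), (2, -50), (3, -15), (5, -15), (7, -12), (11, 93), (13, 86), (19, 100), (23,
    -97)])))) (.add (.mul (.g 6) (.add (.mul (.pp [(1, 1224840)]) (.sq [(2, -29), (3, -61), (5, 29),
    (7, -59), (11, 67), (13, 100), (19, -48), (23, 55)])) (.mul (.pp [(1, 6064440)]) (.sq [(1, 1), (2,
    15), (3, -100), (5, -44), (7, 88), (11, -48), (13, 21), (19, -38), (23, -12)])))) (.mul (.g 13)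
    (.add (.mul (.pp [(1, 1384200)]) (.sq [(2, -11), (3, -100), (5, -20), (7, 42), (11, 45), (13, 16),
    (19, -90), (23, 80)])) (.mul (.pp [(1, 655980)]) (.sq [(1, -22), (2, -53), (3, 83), (5, 4), (7,
    -27), (11, 47), (13, 100), (19, 59), (23, -44)]))))))) (.add (.add (.mul (.g 20) (.add (.mul (.pp
    [(1, 1136988)]) (.sq [(2, 33), (3, -3), (5, -54), (7, -45), (11, 37), (13, -100), (19, 82), (23,
    1)])) (.mul (.pp [(1, 1041084)]) (.sq [(1, -35), (2, -44), (3, 77), (5, 14), (7, -12), (11, 17),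
    (13, 100), (19, 42), (23, -26)])))) (.mul (.g 2) (.mul (.pp [(1, 3374760)]) (.sq [(1, 14), (2,
    -15), (3, 28), (5, 18), (7, -39), (11, 100), (13, -24), (19, -10), (23, 25)])))) (.add (.mul (.g
    3) (.mul (.pp [(1, 2258520)]) (.sq [(1, -6), (2, -50), (3, -9), (5, -13), (7, -7), (11, 100), (13,
    83), (19, 90), (23, -97)]))) (.add (.mul (.g 8) (.mul (.pp [(1, 1173480)]) (.sq [(2, 100), (3,
    -18), (5, -18), (7, -18), (11, 57), (13, -18), (19, -18), (23, -18)]))) (.mul (.g 18) (.mul (.pp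
    [(1, 46860)]) (.sq [(1, 7), (2, 7), (3, -49), (5, -58), (7, 16), (11, -100), (13, 54), (19, 32),
    (23, -24)])))))))) (.pp [(1, 98395839), (2, 6496632), (3, 6517662), (4, 5390025), (5, 5159778),
    (6, 6487920), (7, 6725286), (8, 6062340), (9, 6401511), (10, 6008250), (11, 6110652), (12,
    5414640), (13, 5250414), (14, 5149998), (15, 5209470), (18, 4718100), (19, 6169548), (20,
    6099660), (21, 6201666), (22, 5420352), (23, 6077484), (25, 5891076), (26, 5976066), (27,
    5769720), (28, 6413280), (30, 6268680), (33, 5343120), (35, 6540960), (38, 6796128), (39,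
    4384038), (42, 5914560), (44, 5427700), (45, 6143220), (46, 5937648), (49, 5658852), (50,
    5905620), (52, 5925480), (55, 6154416), (57, 6902172), (63, 4567080), (65, 7567152), (66,
    5571720), (69, 4935348), (70, 6110040), (75, 6154200), (76, 5813280), (77, 6603984), (78,
    8180040), (91, 6158544), (92, 6484260), (95, 6126612), (98, 6047460), (99, 4945560), (105,
    5038680), (110, 5235000), (114, 5222280), (115, 6324612), (117, 5865240), (121, 6351216), (125,
    6097880), (130, 5352240), (133, 5126052), (138, 6776040), (143, 6445584), (147, 6258240), (154,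
    7432800), (161, 6263100), (165, 5920920), (169, 7051284), (171, 7198200), (175, 5628060), (182,
    5704440), (190, 6184080), (195, 6209760), (207, 6412920), (209, 4333176), (230, 5980080), (231,
    7184880), (242, 5793880), (245, 5646540), (247, 5870844), (253, 5847240), (266, 6688320), (273,
    7733520), (275, 5995260), (285, 6656160), (286, 7196880), (299, 7402020), (322, 6416640), (325,
    5724540), (338, 5941500), (343, 6826240), (345, 6903240), (361, 6115632), (363, 5858580), (385,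
    7662480), (399, 4500840), (418, 5903160), (429, 6093960), (437, 5104464), (455, 6688560), (475,
    6090900), (483, 5735880), (494, 6372720), (506, 5544960), (507, 5809860), (529, 6234468), (539,
    5932920), (575, 6474060), (598, 5200080), (605, 5571840), (627, 6485520), (637, 6569460), (665,
    5575800), (715, 5313840), (722, 5228940), (741, 5289720), (759, 6129360), (805, 5163480), (845,
    5806980), (847, 5377080), (874, 5536920), (897, 6411480), (931, 4820340), (1001, 4532400), (1045,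
    5920080), (1058, 5666880), (1083, 5964480), (1127, 4372980), (1183, 5313360), (1235, 5391120),
    (1265, 5715960), (1311, 5859960), (1331, 6305080), (1463, 5735040), (1495, 5160720), (1573,
    5853900), (1587, 6409800), (1729, 6002040), (1771, 5673480), (1805, 6222480), (1859, 5615640),
    (2093, 5979000), (2185, 5799840), (2197, 5549760), (2299, 6474060), (2527, 5909880), (2645,
    6721980), (2717, 6554640), (2783, 6833460), (3059, 9891960), (3211, 6100500), (3289, 7468680),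
    (3703, 6313800), (3887, 6267300), (3971, 6578940), (4693, 6505320), (4807, 5265360), (5681,
    4701120), (5819, 6495600), (6859, 6545460), (6877, 5648400), (8303, 5161860), (10051, 5540820),
    (12167, 5759780)]))
    (by norm_num) (by decide +kernel)

theorem r0_p14 : Ck (gP1 4)
    (pol2 4 nE WE (vP0 c1E c2E) (hM (Ex.v 11))) :=
  Ck.mk' 250000 (.add (.add (.add (.add (.mul (.g 1) (.add (.add (.add (.mul (.pp [(1, 84795)]) (.sq [(1, -6), (2,
    -43), (3, 20), (5, -67), (7, -3), (11, -75), (13, 99), (19, -100), (23, -70)])) (.mul (.pp [(1,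
    578235)]) (.sq [(1, -14), (2, 35), (3, -10), (5, 63), (11, -100), (13, 75), (19, 8), (23, -71)])))
    (.add (.mul (.pp [(1, 41670)]) (.sq [(1, -73), (2, -29), (3, 26), (5, -100), (7, 76), (11, 57),
    (13, 36), (19, 21), (23, 84)])) (.add (.mul (.pp [(1, 1236915)]) (.sq [(1, 69), (2, -11), (3, 28),
    (5, -15), (7, -100), (11, 79), (13, -4), (19, -53), (23, -21)])) (.mul (.g 0) (.add (.add (.pp
    [(1, 350655000)]) (.add (.mul (.g 2) (.pp [(1, 225517500)])) (.mul (.g 3) (.pp [(1,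
    252615000)])))) (.add (.mul (.g 9) (.pp [(1, 15255750)])) (.add (.mul (.g 15) (.pp [(1,
    953047500)])) (.mul (.g 21) (.pp [(1, 608484000)]))))))))) (.add (.add (.mul (.g 8) (.add (.add
    (.mul (.g 3) (.pp [(1, 10547400000)])) (.add (.mul (.g 4) (.pp [(1, 3013800000)])) (.mul (.g 8)
    (.pp [(1, 20382150000)])))) (.add (.mul (.g 12) (.pp [(1, 11020950000)])) (.add (.mul (.g 18) (.pp
    [(1, 38582700000)])) (.mul (.g 19) (.pp [(1, 66390000)])))))) (.mul (.g 17) (.add (.add (.pp [(1,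
    4193250000)]) (.add (.mul (.g 3) (.pp [(1, 37308000000)])) (.mul (.g 13) (.pp [(1,
    4676100000)])))) (.add (.mul (.g 18) (.pp [(1, 4404600000)])) (.add (.mul (.g 19) (.pp [(1,
    6472950000)])) (.mul (.g 20) (.pp [(1, 1091010000)]))))))) (.add (.mul (.g 4) (.add (.add (.pp
    [(1, 10273200000)]) (.mul (.g 4) (.pp [(1, 38338500000)]))) (.add (.mul (.g 16) (.pp [(1,
    8589000000)])) (.mul (.g 18) (.pp [(1, 37444650000)]))))) (.add (.mul (.g 16) (.add (.pp [(1,
    11869500000)]) (.add (.mul (.g 18) (.pp [(1, 8472900000)])) (.mul (.g 19) (.pp [(1,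
    1951830000)]))))) (.mul (.g 18) (.add (.mul (.g 2) (.pp [(1, 29923350000)])) (.mul (.g 14) (.pp
    [(1, 3985500000)]))))))))) (.add (.mul (.g 6) (.add (.add (.add (.mul (.pp [(1, 1108470)]) (.sq
    [(2, 57), (3, 8), (5, -54), (7, 15), (11, 100), (13, -15), (19, 18), (23, -93)])) (.add (.mul (.pp
    [(1, 1411380)]) (.sq [(2, 72), (3, 13), (5, -13), (11, -100), (13, 3), (23, 67)])) (.mul (.pp [(1,
    79110)]) (.sq [(1, 62), (2, 5), (3, 23), (5, -100), (7, -37), (11, 64), (13, -51), (19, -4), (23,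
    -74)])))) (.add (.mul (.pp [(1, 344565)]) (.sq [(1, -17), (2, 5), (3, -62), (5, 17), (7, 34), (11,
    100), (13, -50), (19, -91), (23, 54)])) (.add (.mul (.pp [(1, 472800)]) (.sq [(1, -43), (2, -100),
    (3, 61), (5, -56), (7, 33), (11, 90), (13, 16), (19, 47), (23, 34)])) (.mul (.g 9) (.add (.add
    (.pp [(1, 800745000)]) (.mul (.g 2) (.pp [(1, 1467652500)]))) (.add (.mul (.g 4) (.pp [(1,
    724132500)])) (.add (.mul (.g 8) (.pp [(1, 1527855000)])) (.mul (.g 18) (.pp [(1,
    921637500)]))))))))) (.add (.add (.mul (.g 12) (.add (.add (.mul (.g 0) (.pp [(1, 932940000)]))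
    (.mul (.g 14) (.pp [(1, 2292000000)]))) (.add (.mul (.g 19) (.pp [(1, 309000000)])) (.mul (.g 21)
    (.pp [(1, 652140000)]))))) (.add (.mul (.g 16) (.add (.add (.mul (.g 4) (.pp [(1, 15590700000)]))
    (.mul (.g 17) (.pp [(1, 30399450000)]))) (.add (.mul (.g 18) (.pp [(1, 8264250000)])) (.mul (.g
    19) (.pp [(1, 1364400000)]))))) (.mul (.g 2) (.add (.mul (.g 6) (.pp [(1, 6684000000)])) (.add
    (.mul (.g 18) (.pp [(1, 6711450000)])) (.mul (.g 19) (.pp [(1, 2111730000)]))))))) (.add (.add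
    (.mul (.g 20) (.add (.mul (.g 3) (.pp [(1, 9582960000)])) (.add (.mul (.g 14) (.pp [(1,
    2746980000)])) (.mul (.g 19) (.pp [(1, 578604000)]))))) (.mul (.g 4) (.add (.mul (.g 0) (.pp [(1,
    135165000)])) (.mul (.g 6) (.pp [(1, 10528650000)]))))) (.add (.mul (.g 17) (.add (.mul (.g 10)
    (.pp [(1, 2197050000)])) (.mul (.g 18) (.pp [(1, 14288550000)])))) (.mul (.g 18) (.mul (.g 21)
    (.pp [(1, 1457070000)])))))))) (.mul (.g 21) (.add (.add (.add (.mul (.pp [(1, 27258)]) (.sq [(2,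
    5), (3, 100), (5, -100), (7, 16), (11, -23), (13, 1), (19, -1), (23, 8)])) (.mul (.pp [(1,
    19152)]) (.sq [(2, -30), (3, 4), (5, 82), (7, 45), (11, 32), (13, -100), (19, -23), (23, 16)])))
    (.add (.mul (.pp [(1, 41685)]) (.sq [(1, 22), (2, -88), (3, -84), (5, 100), (7, 35), (11, -47),
    (13, 19), (19, 98), (23, -85)])) (.add (.mul (.g 18) (.add (.add (.mul (.g 7) (.pp [(1,
    78840000)])) (.mul (.g 11) (.pp [(1, 1404180000)]))) (.add (.mul (.g 14) (.pp [(1, 219900000)]))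
    (.add (.mul (.g 17) (.pp [(1, 2278170000)])) (.mul (.g 18) (.pp [(1, 4182090000)])))))) (.mul (.g
    19) (.add (.add (.mul (.g 3) (.pp [(1, 134580000)])) (.mul (.g 10) (.pp [(1, 91644000)]))) (.add
    (.mul (.g 13) (.pp [(1, 19122000)])) (.add (.mul (.g 16) (.pp [(1, 384900000)])) (.mul (.g 20)
    (.pp [(1, 102897600)]))))))))) (.add (.add (.mul (.g 8) (.add (.add (.mul (.g 2) (.pp [(1,
    4446840000)])) (.mul (.g 8) (.pp [(1, 356910000)]))) (.add (.mul (.g 16) (.pp [(1, 680130000)]))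
    (.mul (.g 20) (.pp [(1, 193230000)]))))) (.mul (.g 0) (.add (.mul (.g 9) (.pp [(1, 59716875)]))
    (.add (.mul (.g 11) (.pp [(1, 525436500)])) (.mul (.g 12) (.pp [(1, 64270500)])))))) (.add (.mul
    (.g 3) (.add (.mul (.g 7) (.pp [(1, 683760000)])) (.add (.mul (.g 14) (.pp [(1, 1971750000)]))
    (.mul (.g 20) (.pp [(1, 529104000)]))))) (.add (.mul (.g 17) (.add (.mul (.g 7) (.pp [(1,
    3569310000)])) (.add (.mul (.g 13) (.pp [(1, 58860000)])) (.mul (.g 20) (.pp [(1,
    1003860000)]))))) (.mul (.g 4) (.mul (.g 21) (.pp [(1, 480648000)])))))))))) (.add (.add (.mul (.g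
    14) (.add (.add (.add (.mul (.pp [(1, 244260)]) (.sq [(1, 42), (2, -100), (3, -69), (5, 85), (7,
    -45), (11, 69), (13, -5), (19, 14), (23, 100)])) (.mul (.pp [(1, 226875)]) (.sq [(1, -29), (3,
    -11), (5, 25), (11, -100), (13, 99), (19, -14)]))) (.add (.mul (.g 14) (.add (.add (.mul (.g 4)
    (.pp [(1, 15368100000)])) (.mul (.g 9) (.pp [(1, 727830000)]))) (.add (.mul (.g 11) (.pp [(1,
    5188200000)])) (.add (.mul (.g 12) (.pp [(1, 2228250000)])) (.mul (.g 17) (.pp [(1,
    3253350000)])))))) (.mul (.g 19) (.add (.add (.mul (.g 2) (.pp [(1, 1184100000)])) (.mul (.g 7)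
    (.pp [(1, 553680000)]))) (.add (.mul (.g 9) (.pp [(1, 43866000)])) (.add (.mul (.g 12) (.pp [(1,
    566940000)])) (.mul (.g 20) (.pp [(1, 496770000)])))))))) (.add (.add (.mul (.g 3) (.add (.add
    (.mul (.g 2) (.pp [(1, 9373800000)])) (.mul (.g 3) (.pp [(1, 23376450000)]))) (.add (.mul (.g 9)
    (.pp [(1, 917392500)])) (.mul (.g 20) (.pp [(1, 4005870000)]))))) (.mul (.g 13) (.add (.mul (.g 2)
    (.pp [(1, 1579800000)])) (.add (.mul (.g 18) (.pp [(1, 1946850000)])) (.mul (.g 20) (.pp [(1,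
    9745620000)])))))) (.add (.mul (.g 17) (.add (.mul (.g 2) (.pp [(1, 7060050000)])) (.add (.mul (.g
    8) (.pp [(1, 1887600000)])) (.mul (.g 16) (.pp [(1, 17145000000)]))))) (.mul (.g 9) (.mul (.g 18)
    (.pp [(1, 441780000)]))))))) (.mul (.g 8) (.add (.add (.mul (.pp [(1, 83280)]) (.sq [(2, 100), (3,
    -18), (5, -18), (7, -18), (11, 57), (13, -18), (19, -18), (23, -18)])) (.add (.mul (.pp [(1,
    158880)]) (.sq [(1, 48), (2, -27), (3, 100), (5, 32), (7, 5), (11, -82), (13, -72), (19, -56),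
    (23, 12)])) (.mul (.pp [(1, 562920)]) (.sq [(1, -4), (2, 100), (3, -29), (5, 29), (7, 7), (11,
    -30), (13, -41), (19, 11), (23, 10)])))) (.add (.add (.mul (.g 4) (.add (.add (.mul (.g 2) (.pp
    [(1, 7158300000)])) (.mul (.g 4) (.pp [(1, 5383800000)]))) (.add (.mul (.g 11) (.pp [(1,
    59590800000)])) (.add (.mul (.g 13) (.pp [(1, 4656450000)])) (.mul (.g 19) (.pp [(1,
    4687770000)])))))) (.mul (.g 9) (.add (.mul (.g 8) (.pp [(1, 2722770000)])) (.add (.mul (.g 19)
    (.pp [(1, 333837000)])) (.mul (.g 20) (.pp [(1, 15238500)])))))) (.add (.mul (.g 17) (.add (.mul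
    (.g 3) (.pp [(1, 10860750000)])) (.mul (.g 19) (.pp [(1, 10732710000)])))) (.mul (.g 19) (.mul (.g
    19) (.pp [(1, 1737678000)])))))))) (.add (.mul (.g 7) (.add (.add (.add (.mul (.pp [(1, 65820)])
    (.sq [(1, -19), (2, -60), (3, 51), (5, -100), (7, 85), (11, 8), (13, -45), (19, 65), (23, -39)]))
    (.mul (.pp [(1, 655530)]) (.sq [(1, -51), (2, -8), (3, -81), (5, -11), (7, 24), (11, -36), (13,
    100), (19, 53), (23, -22)]))) (.add (.mul (.pp [(1, 74880)]) (.sq [(1, 44), (2, 64), (3, 100), (5,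
    -99), (7, -23), (11, 45), (13, -44), (19, -60), (23, -61)])) (.mul (.pp [(1, 444930)]) (.sq [(1,
    -52), (2, 100), (3, -59), (5, -30), (7, 85), (11, 2), (13, -38), (19, 34), (23, -16)])))) (.add
    (.add (.mul (.pp [(1, 498225)]) (.sq [(1, -27), (2, 100), (3, -56), (5, 64), (7, 14), (11, -3),
    (13, 4), (19, -32), (23, 69)])) (.mul (.g 17) (.add (.add (.mul (.g 3) (.pp [(1, 41580450000)]))
    (.mul (.g 9) (.pp [(1, 6525000)]))) (.add (.mul (.g 13) (.pp [(1, 20319300000)])) (.mul (.g 19)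
    (.pp [(1, 8851080000)])))))) (.add (.mul (.g 4) (.add (.mul (.g 5) (.pp [(1, 30188550000)])) (.mul
    (.g 12) (.pp [(1, 8807700000)])))) (.mul (.g 9) (.add (.mul (.g 0) (.pp [(1, 128370375)])) (.mul
    (.g 16) (.pp [(1, 885390000)])))))))) (.mul (.g 19) (.add (.add (.mul (.pp [(1, 204750)]) (.sq
    [(1, -3), (2, 100), (3, -35), (5, 12), (7, 5), (11, -8), (13, -35), (19, -8), (23, -7)])) (.mul
    (.pp [(1, 1168350)]) (.sq [(2, 100), (3, -75), (5, 6), (7, 6), (11, -41), (13, 6), (19, 6), (23,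
    6)]))) (.add (.mul (.pp [(1, 80052)]) (.sq [(1, -41), (2, -27), (3, 99), (5, 100), (7, -44), (11,
    12), (13, 55), (19, 2), (23, 9)])) (.add (.mul (.g 16) (.add (.mul (.g 5) (.pp [(1, 4325610000)]))
    (.add (.mul (.g 13) (.pp [(1, 342210000)])) (.mul (.g 16) (.pp [(1, 1437960000)]))))) (.mul (.g
    10) (.mul (.g 17) (.pp [(1, 2110200000)])))))))))) (.add (.add (.mul (.g 11) (.add (.add (.mul
    (.pp [(1, 131490)]) (.sq [(1, -26), (2, 47), (3, -12), (5, 77), (7, 48), (11, -61), (13, -100),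
    (19, 32), (23, -4)])) (.mul (.pp [(1, 676770)]) (.sq [(1, 42), (2, 30), (3, -42), (5, 66), (7,
    -100), (11, 55), (13, -8), (19, -13), (23, -3)]))) (.add (.mul (.pp [(1, 367170)]) (.sq [(1, -90),
    (2, 87), (3, -63), (5, -70), (7, 100), (11, -14), (13, 65), (19, -37), (23, -38)])) (.add (.mul
    (.g 4) (.add (.pp [(1, 10480500000)]) (.mul (.g 12) (.pp [(1, 1879350000)])))) (.mul (.g 13) (.mul
    (.g 17) (.pp [(1, 21361950000)]))))))) (.add (.mul (.g 5) (.add (.add (.mul (.pp [(1, 145800)])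
    (.sq [(1, -44), (2, 47), (3, -76), (5, -100), (7, 95), (11, -89), (13, 84), (19, -11), (23, 54)]))
    (.mul (.pp [(1, 575430)]) (.sq [(1, -61), (2, 24), (3, -34), (5, 100), (7, -78), (11, 48), (13,
    98), (19, -18), (23, 33)]))) (.add (.mul (.pp [(1, 602415)]) (.sq [(2, -58), (3, 77), (5, 16), (7,
    -58), (11, 100), (13, -44), (19, -1), (23, 87)])) (.mul (.g 13) (.mul (.g 17) (.pp [(1,
    9713550000)])))))) (.mul (.g 10) (.add (.add (.mul (.pp [(1, 216375)]) (.sq [(1, -48), (2, 17),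
    (3, -47), (5, -14), (7, -32), (11, 79), (13, 100), (19, -44), (23, -11)])) (.mul (.pp [(1,
    114945)]) (.sq [(1, 36), (2, -10), (3, 97), (5, 80), (7, 31), (11, 21), (13, -63), (19, -100),
    (23, -17)]))) (.add (.mul (.pp [(1, 305745)]) (.sq [(2, -37), (3, 100), (5, 100), (7, -27), (11,
    -32), (13, 7), (19, -19), (23, -43)])) (.mul (.g 9) (.mul (.g 9) (.pp [(1, 110850000)]))))))))
    (.add (.add (.mul (.g 20) (.add (.mul (.pp [(1, 492234)]) (.sq [(1, -7), (2, -73), (3, 81), (5,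
    11), (7, -5), (11, -22), (13, 100), (19, -7), (23, -5)])) (.add (.mul (.pp [(1, 61791)]) (.sq [(1,
    -44), (2, -1), (3, 19), (5, -20), (7, 11), (11, 11), (13, 100), (19, 47), (23, -22)])) (.mul (.g
    16) (.mul (.g 20) (.pp [(1, 52020000)])))))) (.mul (.g 4) (.mul (.pp [(1, 39679200000)]) (.sq
    [(19, 1), (23, -1)])))) (.add (.mul (.g 16) (.mul (.pp [(1, 492630)]) (.sq [(2, 48), (3, 100), (5,
    -13), (7, -13), (11, -74), (13, -13), (19, -13), (23, -13)]))) (.mul (.g 17) (.mul (.pp [(1,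
    2100270)]) (.sq [(1, 9), (2, 96), (3, -75), (5, 48), (7, 15), (11, 13), (13, 6), (19, 54), (23,
    -100)]))))))) (.pp [(1, 1013901753), (2, 1515588), (3, 1417167), (4, 1367820), (5, 1349493), (6,
    1684662), (7, 1469016), (8, 1570020), (9, 1342863), (10, 1424742), (11, 1378182), (12, 1657605),
    (13, 1543425), (14, 1807980), (15, 1291260), (18, 1399050), (19, 1497981), (20, 1632690), (21,
    1491498), (22, 1395930), (23, 1601895), (25, 1545624), (26, 1684740), (27, 1526640), (28,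
    1408290), (30, 1374660), (33, 1456242), (35, 1497990), (38, 1331766), (39, 1511190), (42,
    1398330), (44, 1487380), (45, 1473150), (46, 1139304), (49, 1672737), (50, 1359330), (52,
    1430040), (55, 1583520), (57, 1437708), (63, 1737765), (65, 1808760), (66, 1344030), (69,
    1649748), (70, 1300500), (75, 1614675), (76, 1528845), (77, 1212114), (78, 1375860), (91,
    1161792), (92, 1476000), (95, 1227780), (98, 1438110), (99, 1325520), (105, 1637520), (110,
    1452000), (114, 1711620), (115, 1748646), (117, 1544085), (121, 1575720), (125, 1490240), (130,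
    1586760), (133, 1654242), (138, 1211130), (143, 1711224), (147, 1383195), (154, 1364280), (161,
    1433310), (165, 1677120), (169, 1390476), (171, 1358685), (175, 1651470), (182, 1439880), (190,
    1489410), (195, 1544580), (207, 1389030), (209, 1835232), (230, 1842840), (231, 1344930), (242,
    1453450), (245, 1400475), (247, 1816848), (253, 1929114), (266, 1519110), (273, 1237620), (275,
    1348590), (285, 1413720), (286, 1683540), (299, 1777386), (322, 1485510), (325, 1368375), (338,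
    1488780), (343, 1506065), (345, 1727250), (361, 1365273), (363, 1652265), (385, 1505310), (399,
    1704870), (418, 1628430), (429, 1646220), (437, 1381608), (455, 1703310), (475, 1706175), (483,
    1394880), (494, 1422690), (506, 1594470), (507, 1587555), (529, 1468890), (539, 1561110), (575,
    1270965), (598, 1635270), (605, 1503735), (627, 1599630), (637, 1244790), (665, 1783380), (715,
    1453890), (722, 1584210), (741, 1645890), (759, 1722840), (805, 1411590), (845, 1537965), (847,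
    1792035), (874, 1499970), (897, 1803420), (931, 1304730), (1001, 1720950), (1045, 1390080), (1058,
    1710840), (1083, 1378995), (1127, 1364100), (1183, 1766970), (1235, 1235040), (1265, 1488210),
    (1311, 1415760), (1331, 1417300), (1463, 1249800), (1495, 1201380), (1573, 1353180), (1587,
    1562460), (1729, 1554180), (1771, 1581930), (1805, 1619760), (1859, 1343910), (2093, 1704630),
    (2185, 1371900), (2197, 1458375), (2299, 1419720), (2527, 1703535), (2645, 1414365), (2717,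
    1411470), (2783, 1355985), (3059, 1622130), (3211, 1453380), (3289, 1170690), (3703, 1731060),
    (3887, 1270245), (3971, 1471680), (4693, 1508610), (4807, 1534200), (5681, 1471890), (5819,
    1285680), (6859, 1403105), (6877, 1365420), (8303, 1492770), (10051, 1553670), (12167, 1366715)]))
    (by norm_num) (by decide +kernel)

theorem r0_y1 : Ck (gY1 2)
    (pol2 2 nE WE (vY0 c1E c2E) (hM (Ex.v 11))) :=
  Ck.mk' 250000 (.add (.add (.add (.add (.mul (.g 12) (.add (.add (.add (.add (.mul (.pp [(1, 3686460)]) (.sq [(2,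
    15), (3, -5), (5, -61), (7, -90), (11, 25), (19, 100), (23, 13)])) (.mul (.pp [(1, 294300)]) (.sq
    [(2, -29), (3, 18), (5, -11), (7, 38), (11, 100), (19, 50), (23, -10)]))) (.add (.mul (.pp [(1,
    74265)]) (.sq [(2, 100), (3, 88), (5, 46), (7, 30), (11, 82), (19, -100), (23, -11)])) (.mul (.pp
    [(1, 552225)]) (.sq [(2, -2), (3, -14), (5, 8), (7, -54), (11, 100), (19, -65), (23, -21)]))))
    (.add (.add (.mul (.pp [(1, 95610)]) (.sq [(2, 100), (3, -71), (5, -51), (7, 25), (11, -30), (19,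
    -28), (23, 63)])) (.mul (.pp [(1, 33405)]) (.sq [(2, -74), (3, 100), (5, 83), (7, 4), (11, -89),
    (19, -25), (23, 53)]))) (.add (.mul (.pp [(1, 300420)]) (.sq [(5, 33), (7, 83), (11, 34), (19,
    17), (23, 100)])) (.mul (.g 19) (.add (.add (.pp [(1, 7736730000)]) (.mul (.g 5) (.pp [(1,
    424890000)]))) (.add (.mul (.g 11) (.pp [(1, 306330000)])) (.mul (.g 17) (.pp [(1,
    417102000)])))))))) (.add (.add (.add (.mul (.g 2) (.add (.mul (.g 6) (.pp [(1, 25186350000)]))
    (.mul (.g 16) (.pp [(1, 35734950000)])))) (.mul (.g 9) (.add (.pp [(1, 785047500)]) (.mul (.g 17)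
    (.pp [(1, 85572000)]))))) (.add (.mul (.g 12) (.add (.pp [(1, 11479500000)]) (.mul (.g 17) (.pp
    [(1, 773970000)])))) (.mul (.g 1) (.pp [(1, 18193950000)])))) (.add (.add (.mul (.g 3) (.pp [(1,
    42090900000)])) (.mul (.g 4) (.mul (.g 6) (.pp [(1, 15373650000)])))) (.add (.mul (.g 5) (.pp [(1,
    71113050000)])) (.add (.mul (.g 11) (.mul (.g 14) (.pp [(1, 14435850000)]))) (.mul (.g 18) (.pp
    [(1, 208860000)])))))))) (.mul (.g 15) (.add (.add (.add (.mul (.pp [(1, 8802345)]) (.sq [(2,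
    100), (3, -13), (5, -13), (7, -13), (11, -13), (19, -13), (23, -13)])) (.add (.mul (.pp [(1,
    949995)]) (.sq [(2, 100), (3, -1), (5, -23), (7, 91), (11, -8), (19, -92), (23, 69)])) (.mul (.pp
    [(1, 3795)]) (.sq [(1, -14), (2, 12), (3, 100), (5, -45), (7, -2), (11, 12), (19, 93), (23,
    -23)])))) (.add (.mul (.pp [(1, 716850)]) (.sq [(1, -7), (2, -2), (3, 4), (5, 100), (7, -5), (11,
    -4), (19, 36), (23, -9)])) (.add (.mul (.pp [(1, 1415685)]) (.sq [(2, -100), (3, -3), (5, -50),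
    (7, 11), (11, 47), (19, -60), (23, 67)])) (.mul (.pp [(1, 1112580)]) (.sq [(1, 20), (2, -85), (3,
    -11), (5, -9), (7, 5), (11, 100), (19, 6), (23, -10)]))))) (.add (.add (.mul (.g 2) (.add (.add
    (.mul (.g 7) (.pp [(1, 39936750000)])) (.mul (.g 10) (.pp [(1, 104552100000)]))) (.add (.mul (.g
    14) (.pp [(1, 41845350000)])) (.mul (.g 19) (.pp [(1, 4733610000)]))))) (.add (.mul (.g 11) (.add
    (.pp [(1, 12708600000)]) (.add (.mul (.g 10) (.pp [(1, 23018850000)])) (.mul (.g 18) (.pp [(1,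
    1070580000)]))))) (.mul (.g 18) (.add (.pp [(1, 1282890000)]) (.mul (.g 5) (.pp [(1,
    2950230000)])))))) (.add (.mul (.g 10) (.pp [(1, 7132650000)])) (.add (.mul (.g 14) (.mul (.g 16)
    (.pp [(1, 20236050000)]))) (.mul (.g 17) (.pp [(1, 17553420000)])))))))) (.add (.mul (.g 1) (.add
    (.add (.add (.mul (.pp [(1, 805965)]) (.sq [(2, -99), (3, 24), (5, 10), (7, -69), (11, 36), (19,
    100), (23, -53)])) (.add (.mul (.pp [(1, 1963410)]) (.sq [(2, 40), (3, 86), (7, 100), (11, 68),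
    (19, 52), (23, 35)])) (.mul (.pp [(1, 1144815)]) (.sq [(2, -79), (3, -43), (5, 43), (7, 61), (11,
    -100), (19, 28), (23, 41)])))) (.add (.add (.mul (.pp [(1, 302145)]) (.sq [(2, -32), (3, -100),
    (5, -81), (7, -35), (11, 76), (19, 72), (23, 1)])) (.mul (.pp [(1, 444240)]) (.sq [(1, -20), (2,
    -84), (3, -3), (5, -17), (7, 100), (11, 45), (19, 29), (23, 85)]))) (.add (.mul (.pp [(1,
    1405395)]) (.sq [(1, 1), (2, 98), (3, 5), (5, 55), (11, -100), (19, -55), (23, -3)])) (.mul (.pp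
    [(1, 896625)]) (.sq [(2, -3), (3, -50), (5, 100), (11, 81), (23, -29)]))))) (.add (.add (.mul (.pp
    [(1, 811905)]) (.sq [(2, 47), (3, -33), (5, 6), (7, 81), (11, -76), (19, 100), (23, 23)])) (.add
    (.mul (.g 7) (.add (.pp [(1, 78193500000)]) (.mul (.g 2) (.pp [(1, 93261600000)])))) (.mul (.g 16)
    (.add (.pp [(1, 22786200000)]) (.mul (.g 11) (.pp [(1, 24549750000)])))))) (.add (.add (.mul (.g
    17) (.add (.pp [(1, 2249010000)]) (.mul (.g 14) (.pp [(1, 8835060000)])))) (.mul (.g 4) (.pp [(1,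
    10506900000)]))) (.add (.mul (.g 6) (.mul (.g 13) (.pp [(1, 19658850000)]))) (.mul (.g 10) (.mul
    (.g 19) (.pp [(1, 9712290000)])))))))) (.add (.mul (.g 19) (.add (.add (.add (.mul (.pp [(1,
    996)]) (.sq [(2, 100), (3, 100), (5, 100), (7, 77), (11, 100), (19, 100), (23, 100)])) (.mul (.pp
    [(1, 167403)]) (.sq [(1, -56), (2, 74), (3, -18), (5, 74), (11, -100), (19, -41), (23, 10)])))
    (.add (.mul (.pp [(1, 84555)]) (.sq [(1, -20), (2, 50), (3, 8), (5, 26), (7, -75), (11, 100), (19,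
    45), (23, 9)])) (.add (.mul (.g 14) (.add (.mul (.g 2) (.pp [(1, 478920000)])) (.add (.mul (.g 17)
    (.pp [(1, 251628000)])) (.mul (.g 19) (.pp [(1, 360732000)]))))) (.mul (.g 0) (.add (.pp [(1,
    515176500)]) (.mul (.g 18) (.pp [(1, 100186800)]))))))) (.add (.add (.mul (.g 8) (.add (.mul (.g
    5) (.pp [(1, 2417010000)])) (.mul (.g 9) (.pp [(1, 122899500)])))) (.add (.mul (.g 16) (.add (.mul
    (.g 11) (.pp [(1, 2494470000)])) (.mul (.g 16) (.pp [(1, 4016460000)])))) (.mul (.g 2) (.pp [(1,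
    543930000)])))) (.add (.mul (.g 3) (.mul (.g 19) (.pp [(1, 23808000)]))) (.add (.mul (.g 9) (.pp
    [(1, 94192500)])) (.mul (.g 17) (.pp [(1, 486282000)]))))))) (.mul (.g 8) (.add (.add (.add (.mul
    (.pp [(1, 1526475)]) (.sq [(2, 100), (3, -21), (5, -21), (7, -21), (11, 56), (19, -21), (23,
    -21)])) (.mul (.pp [(1, 151515)]) (.sq [(1, -100), (3, -84), (5, 13), (7, 77), (19, -84), (23,
    77)]))) (.add (.mul (.pp [(1, 400260)]) (.sq [(1, -29), (2, 79), (3, -79), (5, 18), (7, -2), (11,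
    -34), (19, -100), (23, 9)])) (.add (.mul (.pp [(1, 316890)]) (.sq [(1, -6), (2, -93), (3, -38),
    (5, 70), (7, 87), (11, 100), (19, 18), (23, 44)])) (.mul (.g 8) (.add (.mul (.g 2) (.pp [(1,
    39750150000)])) (.add (.mul (.g 6) (.pp [(1, 23950650000)])) (.mul (.g 9) (.pp [(1,
    2921010000)])))))))) (.add (.add (.mul (.g 2) (.mul (.g 11) (.pp [(1, 1543500000)]))) (.mul (.g 6)
    (.mul (.g 10) (.pp [(1, 2247000000)])))) (.add (.mul (.g 7) (.pp [(1, 45520650000)])) (.add (.mul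
    (.g 14) (.mul (.g 14) (.pp [(1, 75885750000)]))) (.mul (.g 17) (.pp [(1, 14971920000)]))))))))))
    (.add (.add (.mul (.g 10) (.add (.add (.add (.mul (.pp [(1, 67620)]) (.sq [(2, 50), (3, 100), (5,
    -96), (7, -62), (11, -27), (19, 18), (23, -56)])) (.mul (.pp [(1, 1296375)]) (.sq [(2, 5), (3,
    100), (5, -27), (7, 78), (11, -51), (19, -86), (23, 5)]))) (.add (.mul (.pp [(1, 496950)]) (.sq
    [(2, -51), (3, -84), (5, 4), (7, 93), (11, 100), (19, -44), (23, -58)])) (.mul (.pp [(1, 136380)])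
    (.sq [(1, 7), (2, 95), (3, -100), (5, 63), (7, -37), (11, -5), (19, 57), (23, -48)])))) (.add
    (.add (.mul (.pp [(1, 515970)]) (.sq [(1, -86), (2, 42), (11, 65), (23, 100)])) (.mul (.pp [(1,
    64425)]) (.sq [(2, 5), (3, 54), (5, -13), (7, 93), (11, 100), (19, 70), (23, -6)]))) (.add (.mul
    (.g 4) (.add (.mul (.g 10) (.pp [(1, 3830100000)])) (.mul (.g 13) (.pp [(1, 2629950000)])))) (.add
    (.mul (.g 14) (.add (.mul (.g 10) (.pp [(1, 2212800000)])) (.mul (.g 16) (.pp [(1,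
    6590700000)])))) (.mul (.g 9) (.pp [(1, 6342802500)]))))))) (.add (.mul (.g 5) (.add (.add (.mul
    (.pp [(1, 74010)]) (.sq [(2, -64), (3, -64), (5, 100), (7, 71), (11, -64), (19, 30), (23, -64)]))
    (.add (.mul (.pp [(1, 62370)]) (.sq [(2, -61), (3, -74), (7, 3), (11, -100), (19, -86), (23,
    -75)])) (.mul (.pp [(1, 76830)]) (.sq [(2, 100), (3, -17), (5, -86), (7, 42), (11, -20), (19, 98),
    (23, -96)])))) (.add (.mul (.pp [(1, 434010)]) (.sq [(1, -15), (2, -9), (3, -11), (5, 100), (7,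
    -51), (11, 76), (19, -65), (23, -14)])) (.add (.mul (.pp [(1, 864555)]) (.sq [(2, 2), (3, 84), (5,
    100), (7, -15), (11, -50), (19, -15), (23, -1)])) (.mul (.g 2) (.add (.mul (.g 13) (.pp [(1,
    19041750000)])) (.add (.mul (.g 17) (.pp [(1, 1955070000)])) (.mul (.g 18) (.pp [(1,
    8713590000)]))))))))) (.mul (.g 14) (.add (.add (.mul (.pp [(1, 990435)]) (.sq [(1, 48), (2, 45),
    (3, -87), (5, -8), (7, -100), (11, 58), (19, 26), (23, -32)])) (.add (.mul (.pp [(1, 354540)])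
    (.sq [(2, 49), (3, 100), (5, -16), (7, -16), (11, -73), (19, -16), (23, -16)])) (.mul (.pp [(1,
    1130145)]) (.sq [(2, -13), (3, 100), (5, -32), (7, 6), (11, -21), (19, -57), (23, 64)])))) (.add
    (.mul (.pp [(1, 135465)]) (.sq [(2, 63), (3, 47), (5, -16), (7, 15), (11, 21), (19, 100), (23,
    39)])) (.add (.mul (.g 17) (.add (.pp [(1, 3384840000)]) (.mul (.g 14) (.pp [(1, 15717420000)]))))
    (.mul (.g 2) (.mul (.g 11) (.pp [(1, 13287750000)]))))))))) (.add (.mul (.g 7) (.add (.add (.mul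
    (.pp [(1, 570330)]) (.sq [(2, -71), (3, -100), (5, -59), (7, 43), (11, 86), (19, -55), (23,
    -10)])) (.mul (.pp [(1, 229305)]) (.sq [(2, -100), (3, -2), (5, -52), (7, 18), (11, -85), (19,
    71), (23, 4)]))) (.add (.mul (.pp [(1, 147150)]) (.sq [(1, -25), (2, -100), (3, -11), (5, 6), (7,
    25), (11, -18), (19, 43), (23, 62)])) (.mul (.g 11) (.mul (.g 17) (.pp [(1, 2229300000)]))))))
    (.add (.mul (.g 6) (.add (.mul (.pp [(1, 162315)]) (.sq [(2, -32), (3, -100), (5, 16), (7, -83),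
    (11, 69), (19, 58), (23, -3)])) (.mul (.g 2) (.mul (.g 6) (.pp [(1, 61339200000)]))))) (.mul (.g
    9) (.mul (.g 11) (.mul (.g 17) (.pp [(1, 101670000)])))))))) (.pp [(1, 3238250031), (2, 1269432),
    (3, 1499436), (4, 1604886), (5, 1666182), (6, 1308396), (7, 1535115), (8, 1563495), (9, 1752039),
    (10, 1578342), (11, 1465800), (12, 1557420), (14, 1424910), (15, 1554336), (18, 1391700), (19,
    1547112), (20, 1380360), (21, 1443510), (22, 1877490), (23, 1294890), (25, 1629516), (27,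
    1549725), (28, 1213290), (30, 1376460), (33, 1534380), (35, 1661130), (38, 1919232), (42,
    1365690), (44, 1504630), (45, 1516200), (46, 1594320), (49, 1770258), (50, 1405680), (55,
    1553310), (57, 1577646), (63, 1350135), (66, 1604010), (69, 1507710), (70, 1239030), (75,
    1387560), (76, 1551780), (77, 1637100), (92, 1604070), (95, 1452432), (98, 2148105), (99,
    1477785), (105, 1962840), (110, 1327200), (114, 1478340), (115, 1593720), (121, 1616040), (125,
    1390040), (133, 1609890), (138, 1665390), (147, 1920015), (154, 1356360), (161, 1662930), (165,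
    1383150), (171, 1463070), (175, 1156545), (190, 1349940), (207, 1567470), (209, 1311510), (230,
    1545120), (231, 1604070), (242, 1529710), (245, 1377435), (253, 1503600), (266, 1007250), (275,
    1331250), (285, 958950), (322, 1354140), (343, 1572520), (345, 1250880), (361, 1643196), (363,
    1557135), (385, 1006920), (399, 1121760), (418, 1532340), (437, 1634490), (475, 1448340), (483,
    1291200), (506, 1455900), (529, 1666815), (539, 1508730), (575, 1362135), (605, 1477440), (627,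
    1446570), (665, 1486350), (722, 1511355), (759, 1438140), (805, 1260630), (847, 1211505), (874,
    1571070), (931, 913065), (1045, 1634160), (1058, 1478625), (1083, 1683450), (1127, 799530), (1265,
    1619280), (1311, 1735080), (1331, 1573840), (1463, 1940130), (1587, 1431255), (1771, 1440240),
    (1805, 1388790), (2185, 1480350), (2299, 1584240), (2527, 1589565), (2645, 1440375), (2783,
    1554855), (3059, 2111850), (3703, 1709760), (3971, 1465545), (4807, 1350030), (5819, 1541790),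
    (6859, 1492325), (8303, 1331760), (10051, 1385385), (12167, 1500075)]))
    (by norm_num) (by decide +kernel)

theorem r0_b1 : Ck (gB1 3)
    (pol2 3 nE WE (vB1 c1E c2E) (hM (Ex.v 11))) :=
  Ck.mk' 1000000 (.add (.add (.add (.add (.add (.mul (.g 22) (.add (.add (.add (.mul (.pp [(1, 229560)]) (.sq [(1,
    -9), (2, 6), (3, 100), (5, 87), (7, -38), (11, 36), (13, -5), (19, 4), (23, -12)])) (.mul (.pp
    [(1, 226392)]) (.sq [(1, 17), (2, -76), (3, -15), (5, 100), (7, 17), (11, -75), (13, 29), (19,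
    -30), (23, -43)]))) (.add (.mul (.g 17) (.add (.add (.pp [(1, 549120000)]) (.add (.mul (.g 0) (.pp
    [(1, 986016000)])) (.mul (.g 7) (.pp [(1, 31137360000)])))) (.add (.add (.mul (.g 8) (.pp [(1,
    11574120000)])) (.mul (.g 13) (.pp [(1, 5693280000)]))) (.add (.mul (.g 18) (.pp [(1,
    19811880000)])) (.mul (.g 20) (.pp [(1, 16131168000)])))))) (.add (.mul (.g 11) (.add (.add (.pp
    [(1, 1407960000)]) (.add (.mul (.g 2) (.pp [(1, 1114200000)])) (.mul (.g 3) (.pp [(1,
    1468200000)])))) (.add (.mul (.g 8) (.pp [(1, 1439280000)])) (.add (.mul (.g 18) (.pp [(1,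
    2259480000)])) (.mul (.g 22) (.pp [(1, 5424000)])))))) (.mul (.g 19) (.add (.add (.mul (.g 10)
    (.pp [(1, 12732840000)])) (.add (.mul (.g 12) (.pp [(1, 2185320000)])) (.mul (.g 14) (.pp [(1,
    7646880000)])))) (.add (.mul (.g 15) (.pp [(1, 3051120000)])) (.add (.mul (.g 19) (.pp [(1,
    15999840000)])) (.mul (.g 20) (.pp [(1, 7309224000)]))))))))) (.add (.add (.mul (.g 14) (.add
    (.add (.mul (.g 1) (.pp [(1, 2639160000)])) (.mul (.g 6) (.pp [(1, 7736520000)]))) (.add (.mul (.g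
    15) (.pp [(1, 6996480000)])) (.mul (.g 18) (.pp [(1, 21520200000)]))))) (.add (.mul (.g 3) (.add
    (.mul (.g 15) (.pp [(1, 208800000)])) (.add (.mul (.g 21) (.pp [(1, 2932800000)])) (.mul (.g 22)
    (.pp [(1, 1058904000)]))))) (.mul (.g 10) (.add (.pp [(1, 22534200000)]) (.add (.mul (.g 1) (.pp
    [(1, 24088920000)])) (.mul (.g 20) (.pp [(1, 1500000000)]))))))) (.add (.mul (.g 13) (.add (.mul
    (.g 0) (.pp [(1, 473142000)])) (.add (.mul (.g 8) (.pp [(1, 792120000)])) (.mul (.g 22) (.pp [(1,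
    26520000)]))))) (.add (.mul (.g 18) (.add (.mul (.g 5) (.pp [(1, 5212680000)])) (.mul (.g 21) (.pp
    [(1, 480168000)])))) (.mul (.g 0) (.mul (.g 21) (.pp [(1, 404940000)])))))))) (.mul (.g 15) (.add
    (.add (.add (.mul (.pp [(1, 2297460)]) (.sq [(2, 100), (3, -23), (5, -23), (7, -10), (11, -23),
    (13, -23), (19, -23), (23, -10)])) (.add (.mul (.pp [(1, 2738520)]) (.sq [(2, 17), (3, 81), (5,
    -30), (7, 100), (11, -20), (13, -80), (19, -13), (23, 79)])) (.mul (.pp [(1, 489720)]) (.sq [(1,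
    -4), (2, 97), (3, 40), (5, 100), (7, -45), (11, 13), (13, -2), (19, 13), (23, 14)])))) (.add (.add
    (.mul (.pp [(1, 11782740)]) (.sq [(2, 20), (3, 34), (5, -5), (7, 8), (11, 31), (13, -6), (19, -5),
    (23, -100)])) (.mul (.pp [(1, 3676680)]) (.sq [(1, 25), (2, 61), (3, 4), (5, 100), (7, 38), (11,
    -66), (13, -47), (19, -55), (23, -13)]))) (.add (.mul (.pp [(1, 6174780)]) (.sq [(1, 36), (2,
    -50), (3, 38), (5, -22), (7, 61), (11, -60), (13, 65), (19, -100), (23, 6)])) (.mul (.g 3) (.add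
    (.add (.mul (.g 1) (.pp [(1, 233435400000)])) (.mul (.g 5) (.pp [(1, 142533600000)]))) (.add (.mul
    (.g 8) (.pp [(1, 108442800000)])) (.add (.mul (.g 12) (.pp [(1, 280835400000)])) (.mul (.g 17)
    (.pp [(1, 45280800000)]))))))))) (.add (.add (.add (.mul (.g 18) (.add (.add (.mul (.g 7) (.pp
    [(1, 10980600000)])) (.mul (.g 11) (.pp [(1, 24269400000)]))) (.add (.mul (.g 12) (.pp [(1,
    61408800000)])) (.add (.mul (.g 19) (.pp [(1, 71356800000)])) (.mul (.g 21) (.pp [(1,
    219360000)])))))) (.mul (.g 9) (.add (.mul (.g 5) (.pp [(1, 2554350000)])) (.add (.mul (.g 8) (.pp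
    [(1, 3007740000)])) (.mul (.g 20) (.pp [(1, 89100000)])))))) (.add (.mul (.g 17) (.add (.mul (.g
    0) (.pp [(1, 3367110000)])) (.add (.mul (.g 10) (.pp [(1, 45195600000)])) (.mul (.g 20) (.pp [(1,
    10379040000)]))))) (.mul (.g 19) (.add (.mul (.g 1) (.pp [(1, 74530800000)])) (.add (.mul (.g 8)
    (.pp [(1, 45554400000)])) (.mul (.g 20) (.pp [(1, 36862920000)]))))))) (.add (.add (.mul (.g 11)
    (.add (.pp [(1, 59908200000)]) (.mul (.g 4) (.pp [(1, 53812200000)])))) (.mul (.g 13) (.add (.mul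
    (.g 14) (.pp [(1, 44492400000)])) (.mul (.g 15) (.pp [(1, 11268000000)]))))) (.add (.mul (.g 1)
    (.pp [(1, 35473200000)])) (.mul (.g 14) (.mul (.g 21) (.pp [(1, 35780400000)]))))))))) (.add (.mul
    (.g 1) (.add (.add (.add (.mul (.pp [(1, 2080740)]) (.sq [(2, -26), (3, -48), (5, -1), (7, 2),
    (11, -44), (13, 99), (19, -69), (23, 100)])) (.mul (.pp [(1, 23317260)]) (.sq [(1, 9), (2, 5), (3,
    -7), (5, -17), (7, 100), (11, -65), (13, -41), (19, -48), (23, 30)]))) (.add (.mul (.pp [(1,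
    2665020)]) (.sq [(1, 48), (2, -59), (3, 18), (5, 59), (7, 9), (11, 89), (13, -100), (19, -3), (23,
    49)])) (.mul (.pp [(1, 1667400)]) (.sq [(1, -14), (2, -100), (3, 16), (5, -79), (7, -12), (11,
    -16), (13, -65), (19, 94), (23, -41)])))) (.add (.add (.mul (.g 18) (.add (.add (.mul (.g 3) (.pp
    [(1, 11888400000)])) (.add (.mul (.g 8) (.pp [(1, 171294600000)])) (.mul (.g 11) (.pp [(1,
    22387200000)])))) (.add (.mul (.g 14) (.pp [(1, 223984800000)])) (.add (.mul (.g 17) (.pp [(1,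
    73545000000)])) (.mul (.g 19) (.pp [(1, 194959800000)])))))) (.mul (.g 0) (.add (.add (.mul (.g 2)
    (.pp [(1, 8666310000)])) (.mul (.g 5) (.pp [(1, 372030000)]))) (.add (.mul (.g 13) (.pp [(1,
    4303320000)])) (.mul (.g 16) (.pp [(1, 704130000)])))))) (.add (.mul (.g 8) (.add (.add (.mul (.g
    2) (.pp [(1, 103737600000)])) (.mul (.g 3) (.pp [(1, 311418000000)]))) (.add (.mul (.g 8) (.pp
    [(1, 243933600000)])) (.mul (.g 14) (.pp [(1, 120636000000)]))))) (.add (.mul (.g 12) (.add (.add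
    (.mul (.g 11) (.pp [(1, 44356200000)])) (.mul (.g 12) (.pp [(1, 269624400000)]))) (.add (.mul (.g
    13) (.pp [(1, 131199000000)])) (.mul (.g 20) (.pp [(1, 73395240000)]))))) (.mul (.g 17) (.add
    (.mul (.g 1) (.pp [(1, 21091800000)])) (.mul (.g 19) (.pp [(1, 401137200000)]))))))))) (.mul (.g
    10) (.add (.add (.add (.mul (.pp [(1, 2278140)]) (.sq [(1, 70), (2, -96), (3, 100), (5, -44), (7,
    -25), (11, 13), (13, -66), (19, 2), (23, 43)])) (.add (.mul (.pp [(1, 4153440)]) (.sq [(1, -13),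
    (2, -100), (3, -8), (5, -72), (7, -8), (11, 35), (13, -5), (19, 42), (23, -5)])) (.mul (.pp [(1,
    1602960)]) (.sq [(1, -29), (2, 37), (3, 1), (5, -5), (7, 15), (11, 100), (13, 35), (19, -11), (23,
    -44)])))) (.add (.mul (.pp [(1, 2509680)]) (.sq [(1, 83), (2, 23), (3, -1), (5, 19), (7, 5), (11,
    -100), (13, -26), (19, -27), (23, 44)])) (.add (.mul (.pp [(1, 3889680)]) (.sq [(2, 26), (3, 100),
    (5, 46), (7, -44), (11, 96), (13, -4), (19, -2), (23, 41)])) (.mul (.pp [(1, 1153260)]) (.sq [(1,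
    75), (2, 38), (3, -21), (5, -100), (7, 70), (11, -57), (13, 26), (19, -86), (23, 11)]))))) (.add
    (.add (.mul (.g 3) (.add (.add (.mul (.g 0) (.pp [(1, 2249970000)])) (.mul (.g 9) (.pp [(1,
    6122910000)]))) (.add (.mul (.g 10) (.pp [(1, 157537800000)])) (.mul (.g 16) (.pp [(1,
    42823200000)]))))) (.add (.mul (.g 17) (.add (.pp [(1, 49969200000)]) (.add (.mul (.g 12) (.pp
    [(1, 6429600000)])) (.mul (.g 20) (.pp [(1, 16153560000)]))))) (.mul (.g 18) (.add (.mul (.g 4)
    (.pp [(1, 16037400000)])) (.add (.mul (.g 7) (.pp [(1, 56934600000)])) (.mul (.g 21) (.pp [(1,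
    18597840000)]))))))) (.add (.mul (.g 11) (.add (.pp [(1, 124024200000)]) (.mul (.g 19) (.pp [(1,
    30420000000)])))) (.add (.mul (.g 9) (.mul (.g 10) (.pp [(1, 4189290000)]))) (.mul (.g 13) (.mul
    (.g 14) (.pp [(1, 14238000000)])))))))))) (.add (.add (.mul (.g 8) (.add (.add (.mul (.g 8) (.add
    (.add (.mul (.g 8) (.pp [(1, 76525200000)])) (.mul (.g 11) (.pp [(1, 75842400000)]))) (.add (.mul
    (.g 13) (.pp [(1, 220791000000)])) (.mul (.g 17) (.pp [(1, 15649800000)]))))) (.mul (.g 20) (.add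
    (.mul (.g 3) (.pp [(1, 172080000)])) (.add (.mul (.g 13) (.pp [(1, 2083800000)])) (.mul (.g 17)
    (.pp [(1, 16014360000)])))))) (.add (.mul (.g 11) (.add (.pp [(1, 167839200000)]) (.mul (.g 13)
    (.pp [(1, 236601000000)])))) (.add (.mul (.g 21) (.add (.mul (.g 12) (.pp [(1, 1352040000)]))
    (.mul (.g 18) (.pp [(1, 5368440000)])))) (.mul (.g 3) (.mul (.g 7) (.pp [(1, 72725400000)])))))))
    (.mul (.g 11) (.add (.add (.mul (.pp [(1, 1470840)]) (.sq [(1, -28), (2, 41), (3, 41), (5, 73),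
    (7, -1), (11, 4), (13, -100), (19, 5), (23, -8)])) (.add (.mul (.pp [(1, 2099640)]) (.sq [(1, 31),
    (2, -93), (3, 100), (5, -19), (7, -4), (11, -2), (13, 2), (19, -21), (23, 3)])) (.mul (.g 3) (.add
    (.mul (.g 11) (.pp [(1, 27849600000)])) (.mul (.g 12) (.pp [(1, 116601000000)])))))) (.add (.add
    (.mul (.g 18) (.add (.mul (.g 11) (.pp [(1, 11194200000)])) (.mul (.g 21) (.pp [(1,
    20876880000)])))) (.mul (.g 2) (.mul (.g 5) (.pp [(1, 178275600000)])))) (.add (.mul (.g 6) (.mul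
    (.g 17) (.pp [(1, 5647200000)]))) (.mul (.g 12) (.mul (.g 13) (.pp [(1, 97123200000)]))))))))
    (.add (.mul (.g 20) (.add (.add (.mul (.pp [(1, 2461944)]) (.sq [(1, 4), (2, 100), (3, -43), (5,
    52), (7, -4), (11, -20), (13, -56), (19, -20), (23, 6)])) (.mul (.pp [(1, 3050568)]) (.sq [(1,
    44), (2, 97), (3, -63), (5, 100), (7, -31), (11, -19), (13, 52), (19, -85), (23, 5)]))) (.add
    (.mul (.pp [(1, 286524)]) (.sq [(1, 23), (2, 100), (3, -11), (5, -95), (7, 23), (11, -4), (13,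
    -78), (19, -29), (23, 62)])) (.add (.mul (.g 17) (.add (.add (.mul (.g 5) (.pp [(1,
    14927520000)])) (.mul (.g 14) (.pp [(1, 867840000)]))) (.add (.mul (.g 17) (.pp [(1,
    3813720000)])) (.mul (.g 21) (.pp [(1, 4438872000)]))))) (.mul (.g 18) (.add (.mul (.g 12) (.pp
    [(1, 31744560000)])) (.mul (.g 21) (.pp [(1, 1435632000)])))))))) (.add (.mul (.g 5) (.add (.add
    (.mul (.pp [(1, 5588220)]) (.sq [(1, 40), (2, -69), (3, 6), (5, 32), (7, 26), (11, 8), (13, -100),
    (19, 15), (23, -1)])) (.mul (.pp [(1, 1862520)]) (.sq [(1, 38), (2, 60), (3, 26), (5, 100), (7,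
    -37), (11, -24), (13, 39), (19, -80), (23, -35)]))) (.add (.mul (.g 3) (.add (.mul (.g 14) (.pp
    [(1, 17775000000)])) (.mul (.g 17) (.pp [(1, 90816600000)])))) (.mul (.g 18) (.add (.mul (.g 0)
    (.pp [(1, 6316050000)])) (.mul (.g 14) (.pp [(1, 80708400000)]))))))) (.mul (.g 3) (.add (.mul
    (.pp [(1, 3769680)]) (.sq [(1, -9), (2, -39), (3, -13), (5, 9), (7, -5), (11, 5), (13, 78), (19,
    91), (23, -100)])) (.add (.mul (.pp [(1, 1211040)]) (.sq [(1, -2), (2, -11), (3, -50), (5, -1),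
    (7, -7), (11, 16), (13, 15), (19, 90), (23, -100)])) (.mul (.pp [(1, 5841180)]) (.sq [(1, -15),
    (2, -1), (3, 14), (5, -17), (7, -12), (11, 100), (13, -16), (19, 24), (23, 13)]))))))))) (.add
    (.add (.add (.mul (.g 21) (.add (.mul (.pp [(1, 365772)]) (.sq [(1, 11), (3, 49), (5, -59), (7,
    -5), (11, -21), (13, 100), (19, 17), (23, -31)])) (.add (.mul (.pp [(1, 1844916)]) (.sq [(1, -22),
    (2, -24), (3, 67), (5, 43), (11, 17), (13, 100), (19, -2), (23, -26)])) (.mul (.g 12) (.mul (.g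
    12) (.pp [(1, 11160960000)])))))) (.mul (.g 0) (.add (.mul (.pp [(1, 596580)]) (.sq [(1, -34), (2,
    -31), (3, 5), (5, 8), (7, -18), (11, -65), (13, 30), (19, 100), (23, -60)])) (.mul (.pp [(1,
    870657)]) (.sq [(1, -100), (2, -2), (3, 32), (5, 44), (7, 27), (11, 89), (13, -29), (19, 37), (23,
    10)]))))) (.add (.mul (.g 7) (.add (.mul (.pp [(1, 1854540)]) (.sq [(1, -16), (2, 100), (3, -94),
    (5, -43), (7, 7), (11, -1), (13, 23), (19, 5), (23, 6)])) (.mul (.g 12) (.mul (.g 17) (.pp [(1,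
    134686200000)]))))) (.mul (.g 4) (.mul (.pp [(1, 834240)]) (.sq [(1, -30), (2, -1), (3, -68), (5,
    11), (7, -8), (11, 7), (13, 24), (19, 100), (23, -88)]))))) (.add (.add (.mul (.g 9) (.mul (.pp
    [(1, 271281)]) (.sq [(1, -41), (2, -33), (5, 14), (7, -14), (11, -11), (13, 38), (19, 100), (23,
    -62)]))) (.mul (.g 13) (.mul (.pp [(1, 280560)]) (.sq [(1, 32), (2, -42), (3, 100), (5, 13), (7,
    -10), (11, -82), (13, -93), (19, 2)])))) (.add (.mul (.g 14) (.mul (.pp [(1, 522420)]) (.sq [(1,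
    -10), (2, -41), (3, 6), (5, -5), (7, -4), (11, 3), (13, 96), (19, 95), (23, -100)]))) (.add (.mul
    (.g 16) (.mul (.pp [(1, 2915940)]) (.sq [(1, -48), (2, -27), (3, 11), (5, 22), (7, -25), (11,
    -51), (13, 20), (19, 100), (23, -48)]))) (.mul (.g 18) (.mul (.pp [(1, 2997480)]) (.sq [(1, -9),
    (2, 100), (3, 38), (5, -47), (7, -5), (11, -6), (13, -5), (19, -40), (23, 31)])))))))) (.pp [(1,
    1739032271), (2, 6630154), (3, 6238692), (4, 5448947), (5, 6397476), (6, 6034968), (7, 6635568),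
    (8, 5971560), (9, 5766720), (10, 6348828), (11, 6260166), (12, 5611560), (13, 5496180), (14,
    5501040), (15, 6334656), (18, 6266460), (19, 6892740), (20, 6725760), (21, 6589968), (22,
    6390198), (23, 6142980), (25, 5368512), (26, 6615576), (27, 6276660), (28, 6264360), (30,
    5906040), (33, 5182848), (35, 6870864), (38, 5696404), (39, 5454768), (42, 6836760), (44,
    5624340), (45, 6005280), (46, 6296484), (49, 5892873), (50, 5189580), (52, 6574140), (55,
    6279252), (57, 6029160), (63, 5514360), (65, 6030984), (66, 6252240), (69, 6299640), (70,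
    6865080), (75, 5330400), (76, 5819500), (77, 4656738), (78, 6039120), (91, 4678866), (92,
    5822040), (95, 5297088), (98, 5936340), (99, 5783520), (105, 5825280), (110, 5878320), (114,
    5759160), (115, 5771760), (117, 5282340), (121, 6108984), (125, 6498200), (130, 5396760), (133,
    5068206), (138, 5733120), (143, 6529602), (147, 7360200), (154, 6207480), (161, 6920436), (165,
    5956080), (169, 6367497), (171, 6769620), (175, 5144400), (182, 5413560), (190, 5318760), (195,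
    6241440), (207, 6115440), (209, 6283050), (230, 5927160), (231, 5796840), (242, 5786880), (245,
    6796200), (247, 6398646), (253, 5006280), (266, 5884200), (273, 6152160), (275, 5517120), (285,
    6006360), (286, 5908680), (299, 6257508), (322, 6712320), (325, 6614220), (338, 5683920), (343,
    5532160), (345, 5814720), (361, 5752581), (363, 6134880), (385, 4481400), (399, 3510600), (418,
    6015360), (429, 6848400), (437, 5692404), (455, 5594760), (475, 6525540), (483, 5102520), (494,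
    5834280), (506, 5972400), (507, 6615240), (529, 5585580), (539, 6762360), (575, 6405420), (598,
    6196800), (605, 5876040), (627, 6346320), (637, 5769780), (665, 5357040), (715, 6072840), (722,
    6384940), (741, 5688240), (759, 6036600), (805, 5967720), (845, 5966520), (847, 6950700), (874,
    5790240), (897, 5524200), (931, 7087800), (1001, 7202040), (1045, 6858360), (1058, 5280600),
    (1083, 6893100), (1127, 4196400), (1183, 6344160), (1235, 5954640), (1265, 7106640), (1311,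
    6992760), (1331, 5632020), (1463, 5015400), (1495, 6390600), (1573, 5695140), (1587, 5626620),
    (1729, 7011840), (1771, 5570880), (1805, 6205320), (1859, 5377320), (2093, 5618280), (2185,
    5720400), (2197, 5912760), (2299, 5834940), (2527, 5750820), (2645, 5973600), (2717, 5191920),
    (2783, 5496360), (3059, 7263480), (3211, 6080580), (3289, 5615880), (3703, 7299240), (3887,
    5856960), (3971, 6028680), (4693, 5795340), (4807, 7259520), (5681, 5408760), (5819, 6776760),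
    (6859, 5967040), (6877, 6906720), (8303, 5657700), (10051, 5811660), (12167, 5231120)]))
    (by norm_num) (by decide +kernel)

theorem r0_l : Ck (gL1)
    (poL1 nE WE (vP0 c1E c2E)) :=
  Ck.mk' 10000 (.add (.add (.add (.add (.mul (.g 8) (.add (.add (.mul (.g 2) (.add (.add (.mul (.g 1) (.pp [(1,
    60000)])) (.add (.mul (.g 3) (.pp [(1, 3000)])) (.mul (.g 4) (.pp [(1, 340794000)])))) (.add (.mul
    (.g 5) (.pp [(1, 340854000)])) (.add (.mul (.g 10) (.pp [(1, 768135600)])) (.mul (.g 11) (.pp [(1,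
    12000)])))))) (.add (.mul (.g 9) (.add (.add (.mul (.g 1) (.pp [(1, 60000)])) (.add (.mul (.g 3)
    (.pp [(1, 3000)])) (.mul (.g 4) (.pp [(1, 538986000)])))) (.add (.mul (.g 5) (.pp [(1,
    539052000)])) (.add (.mul (.g 11) (.pp [(1, 12000)])) (.mul (.g 12) (.pp [(1, 12000)])))))) (.mul
    (.g 5) (.add (.add (.pp [(1, 4146792000)]) (.mul (.g 4) (.pp [(1, 715728000)]))) (.add (.mul (.g
    7) (.pp [(1, 60000)])) (.mul (.g 8) (.pp [(1, 60000)]))))))) (.add (.add (.mul (.g 1) (.add (.mul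
    (.g 0) (.pp [(1, 3000)])) (.add (.mul (.g 4) (.pp [(1, 222000)])) (.mul (.g 8) (.pp [(1,
    60000)]))))) (.mul (.g 7) (.add (.mul (.g 3) (.pp [(1, 28661100)])) (.add (.mul (.g 7) (.pp [(1,
    1108674000)])) (.mul (.g 11) (.pp [(1, 12000)])))))) (.add (.mul (.g 11) (.add (.pp [(1,
    96247200)]) (.mul (.g 8) (.pp [(1, 12000)])))) (.mul (.g 10) (.mul (.g 10) (.pp [(1,
    132204240)]))))))) (.mul (.g 0) (.add (.add (.add (.pp [(1, 74636400)]) (.mul (.g 1) (.add (.add
    (.mul (.g 2) (.pp [(1, 3000)])) (.mul (.g 6) (.pp [(1, 100002900)]))) (.add (.mul (.g 7) (.pp [(1,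
    3000)])) (.mul (.g 12) (.pp [(1, 78853620)])))))) (.add (.mul (.g 5) (.add (.add (.mul (.g 2) (.pp
    [(1, 3000)])) (.mul (.g 6) (.pp [(1, 74990400)]))) (.add (.mul (.g 7) (.pp [(1, 3000)])) (.mul (.g
    11) (.pp [(1, 1620)]))))) (.mul (.g 4) (.add (.mul (.g 0) (.pp [(1, 3749370)])) (.add (.mul (.g 4)
    (.pp [(1, 24366900)])) (.mul (.g 12) (.pp [(1, 600)]))))))) (.add (.add (.mul (.g 3) (.add (.pp
    [(1, 645)]) (.mul (.g 2) (.pp [(1, 150)])))) (.mul (.g 7) (.add (.mul (.g 10) (.pp [(1, 600)]))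
    (.mul (.g 11) (.pp [(1, 600)]))))) (.add (.mul (.g 12) (.add (.mul (.g 6) (.pp [(1, 48854220)]))
    (.mul (.g 12) (.pp [(1, 1582260)])))) (.mul (.g 10) (.pp [(1, 3300)]))))))) (.add (.mul (.g 3)
    (.add (.add (.mul (.g 2) (.add (.add (.pp [(1, 25767000)]) (.mul (.g 2) (.pp [(1, 75003000)])))
    (.add (.mul (.g 4) (.pp [(1, 3000)])) (.add (.mul (.g 9) (.pp [(1, 3000)])) (.mul (.g 10) (.pp
    [(1, 7663260)])))))) (.mul (.g 7) (.add (.add (.mul (.g 3) (.pp [(1, 584040)])) (.mul (.g 4) (.pp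
    [(1, 3000)]))) (.add (.mul (.g 6) (.pp [(1, 3000)])) (.add (.mul (.g 9) (.pp [(1, 3000)])) (.mul
    (.g 10) (.pp [(1, 16748520)]))))))) (.add (.mul (.g 9) (.add (.mul (.g 4) (.pp [(1, 3000)])) (.add
    (.mul (.g 6) (.pp [(1, 3000)])) (.mul (.g 9) (.pp [(1, 7200)]))))) (.mul (.g 4) (.mul (.g 4) (.pp
    [(1, 6300)])))))) (.mul (.g 5) (.add (.mul (.g 5) (.add (.add (.mul (.g 1) (.pp [(1, 487398000)]))
    (.add (.mul (.g 2) (.pp [(1, 72000)])) (.mul (.g 5) (.pp [(1, 486186000)])))) (.add (.mul (.g 10)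
    (.pp [(1, 12000)])) (.add (.mul (.g 11) (.pp [(1, 456866400)])) (.mul (.g 12) (.pp [(1,
    12000)])))))) (.add (.mul (.g 7) (.add (.mul (.g 7) (.pp [(1, 60000)])) (.mul (.g 9) (.pp [(1,
    492000)])))) (.mul (.g 9) (.mul (.g 9) (.pp [(1, 60000)])))))))) (.add (.add (.mul (.g 10) (.add
    (.mul (.g 10) (.add (.mul (.g 2) (.pp [(1, 89521920)])) (.add (.mul (.g 10) (.pp [(1, 203328)]))
    (.mul (.g 12) (.pp [(1, 3590160)]))))) (.add (.mul (.g 12) (.add (.mul (.g 4) (.pp [(1, 17280)]))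
    (.mul (.g 12) (.pp [(1, 480)])))) (.mul (.g 7) (.mul (.g 7) (.pp [(1, 594928800)])))))) (.mul (.g
    9) (.add (.mul (.g 7) (.add (.mul (.g 1) (.pp [(1, 60000)])) (.add (.mul (.g 7) (.pp [(1,
    448710000)])) (.mul (.g 11) (.pp [(1, 12000)]))))) (.mul (.g 9) (.add (.mul (.g 1) (.pp [(1,
    791190000)])) (.mul (.g 12) (.pp [(1, 166188000)]))))))) (.add (.mul (.g 2) (.add (.mul (.g 7)
    (.mul (.g 7) (.pp [(1, 87036000)]))) (.mul (.g 12) (.mul (.g 12) (.pp [(1, 3360)]))))) (.add (.mul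
    (.g 4) (.mul (.g 4) (.mul (.g 4) (.pp [(1, 486126000)])))) (.mul (.g 12) (.mul (.g 12) (.mul (.g
    12) (.pp [(1, 1352928)])))))))) (.pp [(1, 620848293), (2, 60540), (3, 53940), (4, 57600), (5,
    58980), (6, 57900), (7, 59400), (8, 60000), (9, 60000), (10, 57000), (11, 57990), (12, 60000),
    (13, 57570), (14, 60000), (15, 57000), (18, 60000), (20, 60000), (21, 63000), (22, 61500), (25,
    62100), (26, 61200), (27, 60000), (28, 60000), (30, 60000), (33, 64200), (35, 60000), (39, 63300),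
    (42, 60000), (44, 64000), (45, 60000), (49, 60300), (50, 60000), (52, 60000), (55, 61800), (63,
    60000), (65, 61200), (66, 60000), (70, 60000), (75, 60000), (77, 60000), (78, 60000), (91, 62400),
    (98, 60000), (99, 60000), (105, 60000), (110, 60000), (117, 60000), (121, 57600), (125, 56000),
    (130, 60000), (143, 66000), (147, 60000), (154, 60000), (165, 60000), (169, 60600), (175, 60000),
    (182, 60000), (195, 66000), (231, 60000), (242, 58000), (245, 60000), (273, 60000), (275, 60000),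
    (286, 60000), (325, 60000), (338, 60000), (343, 58000), (363, 60000), (385, 60000), (429, 60000),
    (455, 60000), (507, 60000), (539, 60000), (605, 60000), (637, 60000), (715, 60000), (845, 60000),
    (847, 60000), (1001, 60000), (1183, 60000), (1331, 60000), (1573, 60000), (1859, 54000), (2197,
    60000)]))
    (by norm_num) (by decide +kernel)

end Pool.Agent.Helper20.TS.SA
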