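import Pool.Agent.Helper20.TS.TallSAD

/-!
# Column `b`, set A: certificates 3
-/

set_option autoImplicit false
set_option maxRecDepth 100000

namespace Pool.Agent.Helper20.TS.SA

open Pool.Agent.Helper83.Cert Pool.Agent.Helper83.TS Pool.Agent.Helper53.TT

theorem r1_p02 : Ck (gP0 2)
    (pol2 2 nE WE (vP0 d1E d2E) (hA (Ex.v 11) (Ex.v 19))) :=
  Ck.mk' 250000 (.add (.add (.add (.add (.mul (.g 13) (.add (.add (.add (.add (.mul (.pp [(1, 740505)]) (.sq [(2,
    39), (3, -22), (5, -3), (11, 100), (13, -63), (19, -39), (23, -11)])) (.mul (.pp [(1, 499140)])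
    (.sq [(2, 100), (3, -45), (5, 97), (7, -84), (11, 19), (13, -57), (19, -6), (23, 50)]))) (.add
    (.mul (.pp [(1, 610230)]) (.sq [(2, -12), (3, -51), (5, -15), (7, 25), (11, 17), (13, 100), (19,
    -100), (23, 12)])) (.add (.mul (.pp [(1, 504900)]) (.sq [(2, 87), (3, 43), (5, -75), (7, 100),
    (11, -13), (13, -70), (19, 1), (23, -1)])) (.mul (.pp [(1, 352455)]) (.sq [(2, 3), (3, 27), (5,
    96), (7, -17), (11, 24), (13, 6), (19, 100), (23, -56)]))))) (.add (.add (.mul (.pp [(1, 826230)])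
    (.sq [(2, 100), (3, -39), (5, -7), (7, 22), (11, -78), (13, -6), (19, 91), (23, 8)])) (.mul (.g
    11) (.add (.add (.mul (.g 0) (.pp [(1, 213720000)])) (.add (.mul (.g 4) (.pp [(1, 3736350000)]))
    (.mul (.g 8) (.pp [(1, 10164150000)])))) (.add (.mul (.g 12) (.pp [(1, 5273400000)])) (.add (.mul
    (.g 13) (.pp [(1, 5868900000)])) (.mul (.g 19) (.pp [(1, 238710000)]))))))) (.add (.mul (.g 20)
    (.add (.add (.mul (.g 8) (.pp [(1, 2469270000)])) (.mul (.g 13) (.pp [(1, 40980000)]))) (.add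
    (.mul (.g 14) (.pp [(1, 916380000)])) (.add (.mul (.g 16) (.pp [(1, 120720000)])) (.mul (.g 17)
    (.pp [(1, 845130000)])))))) (.add (.mul (.g 2) (.add (.mul (.g 5) (.pp [(1, 6321900000)])) (.add
    (.mul (.g 6) (.pp [(1, 13229250000)])) (.mul (.g 8) (.pp [(1, 34331400000)]))))) (.mul (.g 17)
    (.add (.pp [(1, 6263400000)]) (.add (.mul (.g 3) (.pp [(1, 6463800000)])) (.mul (.g 18) (.pp [(1,
    1313310000)]))))))))) (.add (.add (.add (.mul (.g 19) (.add (.pp [(1, 5188860000)]) (.add (.mul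
    (.g 8) (.pp [(1, 2465640000)])) (.mul (.g 13) (.pp [(1, 156660000)]))))) (.mul (.g 0) (.add (.mul
    (.g 14) (.pp [(1, 979927500)])) (.mul (.g 18) (.pp [(1, 118302000)]))))) (.add (.mul (.g 6) (.add
    (.mul (.g 14) (.pp [(1, 2865000000)])) (.mul (.g 15) (.pp [(1, 20982000000)])))) (.add (.mul (.g
    4) (.pp [(1, 11526600000)])) (.mul (.g 5) (.pp [(1, 48257700000)]))))) (.add (.add (.mul (.g 7)
    (.pp [(1, 56457600000)])) (.mul (.g 8) (.pp [(1, 2901000000)]))) (.add (.mul (.g 12) (.pp [(1,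
    5111400000)])) (.add (.mul (.g 13) (.pp [(1, 12420900000)])) (.mul (.g 18) (.pp [(1,
    1908330000)])))))))) (.add (.mul (.g 8) (.add (.add (.add (.mul (.pp [(1, 559575)]) (.sq [(2,
    -61), (3, -100), (5, 21), (7, -99), (11, 15), (13, -75), (19, -2), (23, 39)])) (.add (.mul (.pp
    [(1, 243510)]) (.sq [(1, 24), (2, 10), (3, 32), (5, -71), (7, 64), (11, -94), (13, 10), (19,
    -100), (23, -67)])) (.mul (.pp [(1, 472095)]) (.sq [(1, -4), (2, -81), (3, -44), (5, -1), (7,
    -18), (11, 86), (13, -28), (19, -43), (23, 100)])))) (.add (.add (.mul (.pp [(1, 444600)]) (.sq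
    [(2, 5), (3, 100), (5, 30), (7, -97), (11, -1), (13, -6), (19, 1), (23, 13)])) (.mul (.pp [(1,
    1767390)]) (.sq [(2, 100), (3, -18), (5, -18), (7, -18), (11, 57), (13, -18), (19, -18), (23,
    -18)]))) (.add (.mul (.g 2) (.add (.add (.mul (.g 2) (.pp [(1, 1172250000)])) (.mul (.g 6) (.pp
    [(1, 12821400000)]))) (.add (.mul (.g 8) (.pp [(1, 33981150000)])) (.add (.mul (.g 19) (.pp [(1,
    2506560000)])) (.mul (.g 20) (.pp [(1, 1601040000)])))))) (.mul (.g 8) (.add (.add (.mul (.g 9)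
    (.pp [(1, 3075667500)])) (.mul (.g 11) (.pp [(1, 9801000000)]))) (.add (.mul (.g 15) (.pp [(1,
    30248550000)])) (.mul (.g 17) (.pp [(1, 6719100000)])))))))) (.add (.add (.add (.mul (.g 18) (.add
    (.add (.pp [(1, 18008250000)]) (.mul (.g 1) (.pp [(1, 7275300000)]))) (.add (.mul (.g 4) (.pp [(1,
    2627280000)])) (.mul (.g 20) (.pp [(1, 142950000)]))))) (.mul (.g 11) (.add (.mul (.g 4) (.pp [(1,
    2619450000)])) (.add (.mul (.g 7) (.pp [(1, 3269700000)])) (.mul (.g 19) (.pp [(1,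
    2722860000)])))))) (.add (.mul (.g 17) (.add (.mul (.g 5) (.pp [(1, 12328050000)])) (.add (.mul
    (.g 7) (.pp [(1, 4138050000)])) (.mul (.g 16) (.pp [(1, 12703050000)]))))) (.mul (.g 19) (.add
    (.mul (.g 0) (.pp [(1, 43212000)])) (.mul (.g 14) (.pp [(1, 3157500000)])))))) (.add (.add (.mul
    (.g 1) (.pp [(1, 23440350000)])) (.mul (.g 6) (.mul (.g 6) (.pp [(1, 11902350000)])))) (.add (.mul
    (.g 9) (.mul (.g 12) (.pp [(1, 514372500)]))) (.mul (.g 15) (.mul (.g 15) (.pp [(1,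
    24579750000)])))))))) (.mul (.g 20) (.add (.add (.add (.mul (.pp [(1, 111819)]) (.sq [(1, -6), (2,
    -58), (3, -25), (5, -75), (7, 8), (11, 47), (13, 66), (19, 100), (23, -53)])) (.mul (.pp [(1,
    29082)]) (.sq [(2, 100), (3, -27), (5, -17), (7, -28), (11, -83), (13, -1), (19, 74), (23,
    -50)]))) (.add (.mul (.pp [(1, 138903)]) (.sq [(2, 27), (3, -26), (5, -93), (7, 100), (11, -77),
    (13, -15), (19, -36), (23, 14)])) (.add (.mul (.pp [(1, 65943)]) (.sq [(1, -40), (2, 100), (3,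
    -10), (5, -20), (7, -64), (11, -24), (13, 48), (19, 19), (23, 28)])) (.mul (.pp [(1, 16404)]) (.sq
    [(1, 46), (2, 100), (3, -84), (5, 2), (7, 7), (11, 19), (13, -22), (19, 10), (23, -67)]))))) (.add
    (.add (.mul (.pp [(1, 432)]) (.sq [(1, -6), (2, 30), (3, 54), (5, 59), (7, -13), (11, 83), (13,
    100), (19, -53), (23, -45)])) (.add (.mul (.g 17) (.add (.add (.pp [(1, 1212180000)]) (.mul (.g 2)
    (.pp [(1, 115650000)]))) (.add (.mul (.g 5) (.pp [(1, 468120000)])) (.add (.mul (.g 9) (.pp [(1,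
    43104000)])) (.mul (.g 17) (.pp [(1, 3133590000)])))))) (.mul (.g 0) (.add (.add (.pp [(1,
    850990500)]) (.mul (.g 1) (.pp [(1, 353536500)]))) (.add (.mul (.g 5) (.pp [(1, 312565500)]))
    (.mul (.g 20) (.pp [(1, 14022300)]))))))) (.add (.mul (.g 2) (.add (.mul (.g 5) (.pp [(1,
    170880000)])) (.add (.mul (.g 6) (.pp [(1, 2515470000)])) (.mul (.g 11) (.pp [(1, 299880000)])))))
    (.add (.mul (.g 18) (.add (.mul (.g 11) (.pp [(1, 95706000)])) (.mul (.g 12) (.pp [(1,
    829038000)])))) (.mul (.g 19) (.add (.mul (.g 7) (.pp [(1, 263352000)])) (.mul (.g 16) (.pp [(1,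
    248880000)]))))))))))) (.add (.mul (.g 7) (.add (.add (.add (.mul (.pp [(1, 115230)]) (.sq [(1,
    -74), (2, 50), (3, -74), (5, 69), (7, 100), (11, 50), (13, 49), (19, -20), (23, 95)])) (.add (.mul
    (.pp [(1, 233565)]) (.sq [(2, 28), (3, 100), (5, -59), (7, 25), (11, -20), (13, -22), (19, 48),
    (23, -94)])) (.mul (.pp [(1, 1280790)]) (.sq [(2, -97), (3, 27), (7, -52), (11, -100), (13, 14),
    (19, 26), (23, 55)])))) (.add (.mul (.pp [(1, 11970)]) (.sq [(2, 81), (3, 70), (5, 56), (7, -5),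
    (11, -20), (13, -100), (19, 3), (23, 5)])) (.add (.mul (.pp [(1, 983430)]) (.sq [(2, -12), (3,
    -13), (5, 100), (7, 22), (11, -75), (13, -34), (19, -2), (23, 7)])) (.mul (.g 6) (.add (.add (.pp
    [(1, 57609150000)]) (.mul (.g 3) (.pp [(1, 1733250000)]))) (.add (.mul (.g 14) (.pp [(1,
    38744250000)])) (.mul (.g 15) (.pp [(1, 10139700000)])))))))) (.add (.add (.mul (.g 11) (.add
    (.mul (.g 11) (.pp [(1, 5121300000)])) (.add (.mul (.g 18) (.pp [(1, 1223220000)])) (.mul (.g 19)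
    (.pp [(1, 1301370000)]))))) (.add (.mul (.g 12) (.add (.mul (.g 0) (.pp [(1, 804007500)])) (.add
    (.mul (.g 18) (.pp [(1, 174030000)])) (.mul (.g 19) (.pp [(1, 3614040000)]))))) (.mul (.g 2) (.add
    (.mul (.g 1) (.pp [(1, 46601850000)])) (.mul (.g 3) (.pp [(1, 1994700000)])))))) (.add (.mul (.g
    5) (.mul (.g 18) (.pp [(1, 4818870000)]))) (.add (.mul (.g 7) (.mul (.g 9) (.pp [(1,
    235162500)]))) (.mul (.g 14) (.mul (.g 16) (.pp [(1, 18258450000)])))))))) (.add (.mul (.g 5)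
    (.add (.add (.add (.mul (.pp [(1, 683760)]) (.sq [(2, 22), (3, -13), (5, 15), (7, -50), (11, 28),
    (13, -6), (19, 20), (23, 7)])) (.mul (.pp [(1, 252015)]) (.sq [(2, 32), (3, 100), (5, 97), (7,
    -15), (11, -32), (13, -54), (19, -31), (23, -64)]))) (.add (.mul (.pp [(1, 643965)]) (.sq [(2,
    -51), (3, -51), (5, 100), (7, 73), (11, -51), (13, -51), (19, 33), (23, -51)])) (.add (.mul (.pp
    [(1, 1214340)]) (.sq [(1, -11), (2, -19), (3, -11), (5, -7), (7, 38), (11, 100), (13, -11), (19,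
    -20), (23, -46)])) (.mul (.g 16) (.add (.add (.mul (.g 0) (.pp [(1, 42322500)])) (.mul (.g 11)
    (.pp [(1, 14568900000)]))) (.add (.mul (.g 17) (.pp [(1, 18226950000)])) (.mul (.g 19) (.pp [(1,
    1432470000)])))))))) (.add (.add (.mul (.g 2) (.add (.pp [(1, 5539050000)]) (.add (.mul (.g 3)
    (.pp [(1, 1526400000)])) (.mul (.g 14) (.pp [(1, 40647300000)]))))) (.add (.mul (.g 11) (.add (.pp
    [(1, 374250000)]) (.mul (.g 18) (.pp [(1, 4684050000)])))) (.mul (.g 0) (.pp [(1, 4551847500)]))))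
    (.add (.mul (.g 4) (.mul (.g 15) (.pp [(1, 800550000)]))) (.add (.mul (.g 9) (.pp [(1,
    396322500)])) (.mul (.g 12) (.mul (.g 18) (.pp [(1, 2847120000)])))))))) (.mul (.g 6) (.add (.add
    (.add (.mul (.pp [(1, 313350)]) (.sq [(2, 100), (3, -41), (5, 75), (7, -94), (11, 38), (13, -69),
    (19, 86), (23, 31)])) (.mul (.pp [(1, 1329645)]) (.sq [(2, 82), (3, -62), (5, 3), (7, 27), (11,
    -100), (13, 52), (19, -27), (23, 45)]))) (.add (.mul (.g 9) (.add (.pp [(1, 1365270000)]) (.add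
    (.mul (.g 15) (.pp [(1, 164235000)])) (.mul (.g 17) (.pp [(1, 907552500)]))))) (.mul (.g 19) (.add
    (.pp [(1, 4284390000)]) (.add (.mul (.g 11) (.pp [(1, 1578540000)])) (.mul (.g 16) (.pp [(1,
    892080000)]))))))) (.add (.add (.mul (.g 2) (.add (.mul (.g 6) (.pp [(1, 54899700000)])) (.mul (.g
    11) (.pp [(1, 13912050000)])))) (.mul (.g 18) (.add (.mul (.g 12) (.pp [(1, 1409460000)])) (.mul
    (.g 15) (.pp [(1, 1936200000)]))))) (.add (.mul (.g 0) (.mul (.g 16) (.pp [(1, 220260000)])))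
    (.mul (.g 1) (.pp [(1, 1075200000)]))))))))) (.add (.add (.mul (.g 1) (.add (.add (.add (.mul (.pp
    [(1, 1145520)]) (.sq [(2, -30), (3, 10), (5, -100), (7, 59), (11, -13), (13, -39), (19, 51), (23,
    -3)])) (.mul (.pp [(1, 589200)]) (.sq [(1, -57), (2, -45), (3, 23), (5, -20), (7, 100), (11, 64),
    (13, -19), (19, 65), (23, 85)]))) (.add (.mul (.pp [(1, 55875)]) (.sq [(1, -4), (2, 51), (3, -71),
    (5, -52), (11, 76), (13, -100), (19, 52), (23, 44)])) (.mul (.pp [(1, 624570)]) (.sq [(2, 36), (3,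
    100), (5, -23), (7, 51), (11, -16), (13, -22), (19, 95), (23, 24)])))) (.add (.add (.mul (.g 17)
    (.add (.mul (.g 1) (.pp [(1, 19620600000)])) (.mul (.g 4) (.pp [(1, 54682800000)])))) (.mul (.g 0)
    (.pp [(1, 272512500)]))) (.add (.mul (.g 11) (.mul (.g 18) (.pp [(1, 992910000)]))) (.mul (.g 16)
    (.mul (.g 19) (.pp [(1, 1061070000)]))))))) (.add (.mul (.g 18) (.add (.add (.mul (.pp [(1,
    3183624)]) (.sq [(2, 50), (3, -2), (5, -5), (7, -5), (11, -33), (13, -2), (19, -5), (23, -5)]))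
    (.mul (.pp [(1, 4996950000)]) (.sq [(3, 1), (13, -1)]))) (.add (.mul (.g 16) (.add (.mul (.g 18)
    (.pp [(1, 168642000)])) (.mul (.g 19) (.pp [(1, 1190556000)])))) (.mul (.g 15) (.mul (.g 15) (.pp
    [(1, 7041240000)])))))) (.mul (.g 19) (.add (.add (.mul (.pp [(1, 287142)]) (.sq [(1, 64), (2,
    -37), (3, -8), (5, 27), (7, -38), (11, 43), (13, 100), (19, -16), (23, -32)])) (.mul (.pp [(1,
    5429070000)]) (.sq [(2, 1), (13, -1)]))) (.add (.mul (.g 11) (.mul (.g 11) (.pp [(1,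
    7596060000)]))) (.mul (.g 16) (.mul (.g 16) (.pp [(1, 1112700000)])))))))) (.add (.add (.mul (.g
    10) (.add (.mul (.pp [(1, 278940)]) (.sq [(2, -93), (3, -42), (5, -1), (7, 1), (11, 11), (13,
    -100), (19, -1), (23, 49)])) (.mul (.pp [(1, 384720)]) (.sq [(2, 44), (3, -100), (5, -1), (7, -2),
    (11, 99), (13, 20), (19, 2), (23, 16)])))) (.mul (.g 11) (.add (.mul (.pp [(1, 1017705)]) (.sq
    [(2, 100), (3, 7), (5, 45), (7, -68), (11, -24), (13, 4), (19, -2), (23, -7)])) (.mul (.pp [(1,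
    493035)]) (.sq [(1, -99), (2, 100), (3, 57), (5, 31), (7, 20), (11, -5), (13, 64), (19, 81), (23,
    -88)]))))) (.add (.mul (.g 4) (.mul (.pp [(1, 901395)]) (.sq [(1, -100), (2, -18), (3, 26), (5,
    72), (7, 76), (11, -29), (13, 23), (19, 10), (23, -31)]))) (.mul (.g 16) (.mul (.pp [(1, 341715)])
    (.sq [(1, -39), (2, 100), (3, 55), (5, -5), (7, -10), (11, -5), (13, -17), (19, -34), (23,
    37)]))))))) (.pp [(1, 111967164), (2, 1380504), (3, 1323333), (4, 1457277), (5, 1496244), (6,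
    1560714), (7, 1285632), (8, 1500000), (9, 1640412), (10, 1837176), (11, 1449024), (12, 1371570),
    (13, 1319277), (14, 1269264), (15, 1734360), (18, 1477350), (19, 1491672), (20, 1431015), (21,
    1682616), (22, 1413108), (23, 1541712), (25, 1593432), (26, 2011182), (27, 1430790), (28,
    1419870), (30, 1705950), (33, 1576326), (35, 1661598), (38, 1363272), (39, 1390338), (42,
    1298550), (44, 1494130), (45, 1600455), (46, 1573872), (49, 1696773), (50, 1425570), (52,
    1617420), (55, 1529232), (57, 1708626), (63, 1415970), (65, 1266522), (66, 1548180), (69,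
    1676478), (70, 1480380), (75, 1450080), (76, 1623885), (77, 1563954), (78, 1515600), (91,
    1477974), (92, 1570185), (95, 1287120), (98, 1652550), (99, 1463670), (105, 1616880), (110,
    1405050), (114, 1459620), (115, 1273380), (117, 1454445), (121, 1455975), (125, 1476140), (130,
    1283640), (133, 1584708), (138, 1499250), (143, 1638210), (147, 1386945), (154, 1528740), (161,
    1756626), (165, 1533720), (169, 1540875), (171, 1517235), (175, 1291755), (182, 1558680), (190,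
    1663860), (195, 1247880), (207, 1432650), (209, 1812750), (230, 1227030), (231, 1419030), (242,
    1531270), (245, 1560930), (247, 1571202), (253, 1594128), (266, 1408140), (273, 1509000), (275,
    1533120), (285, 1521450), (286, 1433550), (299, 1526184), (322, 1773570), (325, 1656075), (338,
    1351290), (343, 1393420), (345, 1294710), (361, 1646106), (363, 1463805), (385, 1436790), (399,
    1288920), (418, 1582080), (429, 1619580), (437, 1413252), (455, 1506180), (475, 1634970), (483,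
    1331130), (494, 1359180), (506, 1413480), (507, 1551780), (529, 1511865), (539, 1605675), (575,
    1539435), (598, 1361670), (605, 1511970), (627, 1738290), (637, 1535835), (665, 1486800), (715,
    1466610), (722, 1573950), (741, 1593570), (759, 1642020), (805, 1586070), (845, 1565715), (847,
    1719990), (874, 1417590), (897, 1665720), (931, 1474215), (1001, 1405650), (1045, 1501530), (1058,
    1455060), (1083, 1426575), (1127, 1424370), (1183, 1423950), (1235, 1378320), (1265, 1435320),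
    (1311, 1410330), (1331, 1481935), (1463, 1409820), (1495, 1687110), (1573, 1548705), (1587,
    1637730), (1729, 1661580), (1771, 1238280), (1805, 1497855), (1859, 1427025), (2093, 1541790),
    (2185, 1589550), (2197, 1458225), (2299, 1355430), (2527, 1307865), (2645, 1472865), (2717,
    1335630), (2783, 1404900), (3059, 1412400), (3211, 1565250), (3289, 1412730), (3703, 1476585),
    (3887, 1461315), (3971, 1501995), (4693, 1479390), (4807, 1406010), (5681, 1554990), (5819,
    1473615), (6859, 1530425), (6877, 1387290), (8303, 1519665), (10051, 1544325), (12167, 1412055)]))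
    (by norm_num) (by decide +kernel)

theorem r1_p04 : Ck (gP0 4)
    (pol2 4 nE WE (vP0 d1E d2E) (hA (Ex.v 11) (Ex.v 19))) :=
  Ck.mk' 250000 (.add (.add (.add (.add (.mul (.g 13) (.add (.add (.add (.add (.mul (.pp [(1, 407160)]) (.sq [(1,
    -4), (2, -96), (3, 75), (5, 4), (7, -45), (11, 2), (13, 100), (19, -27), (23, -47)])) (.add (.mul
    (.pp [(1, 54750)]) (.sq [(1, -67), (2, 89), (3, -28), (5, 37), (7, 55), (11, 31), (13, 73), (19,
    -21), (23, -100)])) (.mul (.pp [(1, 4230)]) (.sq [(2, 12), (3, 4), (5, -60), (7, 53), (11, -100),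
    (13, 21), (19, 94), (23, 85)])))) (.add (.mul (.pp [(1, 849090)]) (.sq [(2, -80), (3, -6), (5,
    -56), (7, 100), (11, 17), (13, 62), (19, -36), (23, 13)])) (.add (.mul (.pp [(1, 70140)]) (.sq
    [(2, -42), (3, -38), (5, 42), (7, 100), (11, 14), (13, 99), (19, -4), (23, -28)])) (.mul (.pp [(1,
    53055)]) (.sq [(2, 37), (3, 80), (5, 58), (7, 66), (11, 28), (13, 86), (19, -100), (23, 40)])))))
    (.add (.add (.mul (.pp [(1, 18780)]) (.sq [(2, 50), (3, -40), (5, 100), (7, -3), (11, 55), (13,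
    2), (19, 28), (23, 59)])) (.add (.mul (.pp [(1, 190455)]) (.sq [(2, -100), (3, 14), (5, 43), (7,
    19), (11, 66), (13, 26), (19, -5), (23, 28)])) (.mul (.pp [(1, 509835)]) (.sq [(2, 93), (3, -100),
    (5, -26), (7, -14), (11, -26), (13, 49), (19, -26), (23, -14)])))) (.add (.mul (.pp [(1, 151395)])
    (.sq [(2, 100), (3, 4), (5, 47), (7, 94), (11, -16), (13, -54), (19, 76), (23, -8)])) (.add (.mul
    (.pp [(1, 25800)]) (.sq [(2, -24), (3, -33), (5, 51), (7, -27), (11, -79), (13, 50), (19, -11),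
    (23, 100)])) (.mul (.pp [(1, 38895)]) (.sq [(2, 22), (3, 89), (5, 11), (7, 38), (11, 2), (13, 37),
    (19, 100), (23, 34)])))))) (.add (.add (.add (.mul (.pp [(1, 745410)]) (.sq [(2, -43), (3, -3),
    (5, -35), (7, 46), (11, 100), (13, -30), (19, 20), (23, 12)])) (.add (.mul (.pp [(1, 700875)])
    (.sq [(1, -1), (2, 36), (3, -62), (5, 30), (7, 8), (11, 100), (13, 32), (19, -11), (23, 28)]))
    (.mul (.pp [(1, 6255)]) (.sq [(2, -4), (3, 32), (5, 100), (7, -15), (11, 24), (13, -81), (19,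
    -47), (23, 20)])))) (.add (.mul (.g 11) (.add (.mul (.g 12) (.pp [(1, 16960350000)])) (.add (.mul
    (.g 15) (.pp [(1, 13747350000)])) (.mul (.g 16) (.pp [(1, 18924750000)]))))) (.add (.mul (.g 1)
    (.add (.mul (.g 8) (.pp [(1, 24097650000)])) (.mul (.g 18) (.pp [(1, 1125030000)])))) (.mul (.g 9)
    (.add (.mul (.g 15) (.pp [(1, 82702500)])) (.mul (.g 20) (.pp [(1, 17109000)]))))))) (.add (.add
    (.mul (.g 19) (.add (.pp [(1, 1084020000)]) (.mul (.g 16) (.pp [(1, 3069000000)])))) (.add (.mul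
    (.g 4) (.pp [(1, 13115850000)])) (.mul (.g 6) (.pp [(1, 15248700000)])))) (.add (.add (.mul (.g 7)
    (.mul (.g 8) (.pp [(1, 12714000000)]))) (.mul (.g 12) (.pp [(1, 41794050000)]))) (.add (.mul (.g
    15) (.mul (.g 18) (.pp [(1, 1997160000)]))) (.mul (.g 17) (.mul (.g 20) (.pp [(1,
    69900000)]))))))))) (.add (.mul (.g 20) (.add (.add (.add (.add (.mul (.pp [(1, 2628)]) (.sq [(2,
    -100), (3, -94), (5, 15), (7, -33), (11, 49), (13, 79), (19, -13), (23, -34)])) (.mul (.pp [(1,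
    51342)]) (.sq [(1, -24), (2, 33), (3, -2), (5, 76), (7, -56), (11, 49), (13, 100), (19, -55), (23,
    -45)]))) (.add (.mul (.pp [(1, 3387)]) (.sq [(2, -88), (3, 26), (7, -86), (11, 1), (13, 100), (19,
    -1), (23, 62)])) (.mul (.pp [(1, 12117)]) (.sq [(1, 59), (2, -80), (3, 13), (5, -80), (11, 61),
    (13, 100), (19, 75), (23, -88)])))) (.add (.add (.mul (.pp [(1, 11646)]) (.sq [(2, 29), (3, 60),
    (5, 1), (7, 29), (11, 87), (13, -35), (19, 27), (23, -100)])) (.mul (.pp [(1, 18420)]) (.sq [(1,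
    -6), (2, -70), (3, 100), (5, -14), (7, 11), (11, 89), (13, -4), (19, -10), (23, 12)]))) (.add
    (.mul (.pp [(1, 147261)]) (.sq [(1, 19), (2, 91), (3, -4), (5, 66), (7, 2), (11, -1), (13, -44),
    (19, -100), (23, -10)])) (.mul (.pp [(1, 39738)]) (.sq [(2, -14), (3, 8), (5, 96), (7, 43), (11,
    -36), (13, -24), (19, 40), (23, -100)]))))) (.add (.add (.add (.mul (.g 17) (.add (.add (.pp [(1,
    1914450000)]) (.mul (.g 8) (.pp [(1, 1195770000)]))) (.add (.mul (.g 12) (.pp [(1, 603390000)]))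
    (.add (.mul (.g 17) (.pp [(1, 3614310000)])) (.mul (.g 18) (.pp [(1, 435792000)])))))) (.mul (.g
    19) (.add (.add (.pp [(1, 328386000)]) (.mul (.g 0) (.pp [(1, 30053100)]))) (.add (.mul (.g 6)
    (.pp [(1, 351228000)])) (.add (.mul (.g 11) (.pp [(1, 526674000)])) (.mul (.g 16) (.pp [(1,
    69282000)]))))))) (.add (.mul (.g 0) (.add (.pp [(1, 526455000)]) (.mul (.g 1) (.pp [(1,
    459007500)])))) (.mul (.g 8) (.add (.mul (.g 2) (.pp [(1, 1839600000)])) (.mul (.g 8) (.pp [(1,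
    2157090000)])))))) (.add (.add (.mul (.g 3) (.mul (.g 20) (.pp [(1, 383424000)]))) (.mul (.g 6)
    (.mul (.g 11) (.pp [(1, 2359530000)])))) (.add (.mul (.g 7) (.pp [(1, 1297620000)])) (.add (.mul
    (.g 15) (.mul (.g 16) (.pp [(1, 3347760000)]))) (.mul (.g 18) (.pp [(1, 159954000)])))))))) (.mul
    (.g 1) (.add (.add (.add (.add (.mul (.pp [(1, 106740)]) (.sq [(1, 11), (2, -81), (3, 10), (5,
    51), (7, -31), (11, 100), (13, -15), (19, 41), (23, 36)])) (.mul (.pp [(1, 47715)]) (.sq [(2,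
    -15), (3, -100), (5, 93), (11, -88), (13, 94), (23, -49)]))) (.add (.mul (.pp [(1, 741645)]) (.sq
    [(2, 54), (3, 100), (5, 69), (7, -58), (11, -84), (13, -21), (19, -60), (23, 55)])) (.add (.mul
    (.pp [(1, 279525)]) (.sq [(1, -24), (2, 1), (3, -19), (5, -10), (7, 47), (11, -74), (13, 41), (19,
    -5), (23, -100)])) (.mul (.pp [(1, 270525)]) (.sq [(1, -54), (2, 95), (3, 80), (5, -2), (7, 92),
    (11, -38), (13, -80), (19, 66), (23, 100)]))))) (.add (.add (.mul (.pp [(1, 124110)]) (.sq [(1,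
    -1), (2, -100), (3, 85), (5, -61), (7, 37), (11, -99), (13, -33), (19, 45), (23, 80)])) (.mul (.pp
    [(1, 394890)]) (.sq [(2, -100), (3, 94), (5, 57), (7, -1), (11, 84), (13, 96), (23, -18)]))) (.add
    (.mul (.pp [(1, 136470)]) (.sq [(2, 89), (3, -19), (5, -42), (7, -100), (11, 8), (13, 32), (19,
    -31), (23, 48)])) (.add (.mul (.pp [(1, 646935)]) (.sq [(1, -18), (2, -48), (3, -12), (5, -100),
    (7, 93), (11, -2), (13, -20), (19, 44), (23, 51)])) (.mul (.pp [(1, 251175)]) (.sq [(2, -89), (3,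
    86), (5, -42), (7, -86), (11, -78), (13, 64), (19, 4), (23, -100)])))))) (.add (.add (.add (.mul
    (.pp [(1, 337965)]) (.sq [(2, -10), (3, -90), (5, -45), (7, -100), (11, 41), (13, 99), (19, 1),
    (23, 68)])) (.mul (.pp [(1, 13260)]) (.sq [(2, 100), (3, 100), (5, 94), (7, 19), (11, 100), (13,
    100), (19, 94), (23, 94)]))) (.add (.mul (.pp [(1, 394770)]) (.sq [(2, 51), (3, -8), (5, -100),
    (7, 86), (11, 10), (13, 14), (19, 100), (23, 49)])) (.add (.mul (.pp [(1, 17895)]) (.sq [(1, 52),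
    (2, -75), (3, 100), (5, 50), (7, -49), (11, -17), (13, -37), (19, -2), (23, 30)])) (.mul (.g 17)
    (.add (.pp [(1, 63857850000)]) (.add (.mul (.g 4) (.pp [(1, 16968750000)])) (.mul (.g 11) (.pp
    [(1, 3273750000)])))))))) (.add (.add (.mul (.g 16) (.add (.mul (.g 14) (.pp [(1, 26286900000)]))
    (.mul (.g 19) (.pp [(1, 3606810000)])))) (.add (.mul (.g 18) (.add (.pp [(1, 6052350000)]) (.mul
    (.g 15) (.pp [(1, 1156230000)])))) (.mul (.g 0) (.pp [(1, 3405210000)])))) (.add (.mul (.g 3)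
    (.mul (.g 4) (.pp [(1, 11903850000)]))) (.add (.mul (.g 6) (.mul (.g 7) (.pp [(1, 24464850000)])))
    (.mul (.g 8) (.pp [(1, 28510950000)])))))))))) (.add (.add (.mul (.g 8) (.add (.add (.add (.mul
    (.pp [(1, 56850)]) (.sq [(2, -82), (3, -6), (5, 16), (7, -63), (11, 12), (13, 3), (19, -100), (23,
    75)])) (.add (.mul (.pp [(1, 638730)]) (.sq [(1, -18), (2, 34), (3, 9), (5, 83), (7, -2), (11,
    100), (19, 46), (23, -11)])) (.mul (.pp [(1, 484875)]) (.sq [(2, 1), (3, -83), (5, -20), (7, 100),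
    (13, 58)])))) (.add (.mul (.pp [(1, 60420)]) (.sq [(1, 1), (2, -6), (3, 94), (5, -100), (7, -10),
    (13, 24), (19, -25), (23, -8)])) (.add (.mul (.pp [(1, 760335)]) (.sq [(1, -2), (2, 18), (3, -50),
    (5, 16), (7, 21), (11, 100), (13, 74), (19, -2), (23, -12)])) (.mul (.pp [(1, 124755)]) (.sq [(2,
    94), (3, 86), (5, -39), (7, 10), (11, -2), (13, 100), (19, -12), (23, -12)]))))) (.add (.add (.mul
    (.pp [(1, 154020)]) (.sq [(2, 100), (3, 38), (5, 14), (7, 16), (11, 2), (13, -37), (19, -58), (23,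
    61)])) (.add (.mul (.g 18) (.add (.add (.pp [(1, 7897980000)]) (.add (.mul (.g 2) (.pp [(1,
    1742310000)])) (.mul (.g 9) (.pp [(1, 344913000)])))) (.add (.mul (.g 11) (.pp [(1, 5543760000)]))
    (.add (.mul (.g 18) (.pp [(1, 1842336000)])) (.mul (.g 19) (.pp [(1, 525960000)])))))) (.mul (.g
    8) (.add (.add (.mul (.g 3) (.pp [(1, 19838250000)])) (.mul (.g 4) (.pp [(1, 7784700000)]))) (.add
    (.mul (.g 9) (.pp [(1, 3200070000)])) (.mul (.g 19) (.pp [(1, 1960170000)]))))))) (.add (.add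
    (.mul (.g 4) (.add (.pp [(1, 24979950000)]) (.mul (.g 16) (.pp [(1, 5857200000)])))) (.mul (.g 7)
    (.mul (.g 11) (.pp [(1, 17385300000)])))) (.add (.mul (.g 14) (.mul (.g 19) (.pp [(1,
    1900920000)]))) (.mul (.g 15) (.mul (.g 17) (.pp [(1, 847650000)])))))))) (.mul (.g 5) (.add (.add
    (.add (.mul (.pp [(1, 22350)]) (.sq [(2, 63), (3, -65), (5, 100), (7, -38), (11, 35), (13, -17),
    (19, 62), (23, -61)])) (.add (.mul (.pp [(1, 30825)]) (.sq [(1, 14), (2, 100), (3, -72), (5, 9),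
    (7, -53), (11, 61), (13, -35), (19, -10), (23, -27)])) (.mul (.pp [(1, 113415)]) (.sq [(1, 43),
    (2, -48), (3, -100), (5, -13), (7, -39), (11, -14), (13, 64), (19, -83), (23, 95)])))) (.add (.mul
    (.pp [(1, 124170)]) (.sq [(2, 37), (3, -38), (5, 18), (7, -60), (11, -71), (13, 100), (19, 53),
    (23, -17)])) (.add (.mul (.pp [(1, 26685)]) (.sq [(2, 91), (3, 90), (5, -29), (7, -25), (11, -65),
    (13, 100), (19, 2), (23, 33)])) (.mul (.pp [(1, 308100)]) (.sq [(1, -20), (2, 39), (3, -39), (5,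
    68), (7, -70), (11, -28), (13, 100), (19, -62), (23, -66)]))))) (.add (.add (.mul (.pp [(1,
    90825)]) (.sq [(2, -35), (3, -2), (5, 100), (7, -32), (11, 14), (13, 15), (19, -43), (23, -27)]))
    (.add (.mul (.pp [(1, 38040)]) (.sq [(1, -10), (2, 81), (3, 100), (5, 21), (7, 68), (11, 82), (13,
    -16), (19, -66), (23, 24)])) (.mul (.pp [(1, 55740)]) (.sq [(2, -62), (3, -62), (5, 100), (7, 55),
    (11, -62), (13, -62), (19, 25), (23, 25)])))) (.add (.mul (.g 0) (.add (.mul (.g 2) (.pp [(1,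
    989820000)])) (.add (.mul (.g 11) (.pp [(1, 1133070000)])) (.mul (.g 18) (.pp [(1, 61356000)])))))
    (.add (.mul (.g 16) (.add (.mul (.g 4) (.pp [(1, 562200000)])) (.add (.mul (.g 12) (.pp [(1,
    12146100000)])) (.mul (.g 19) (.pp [(1, 1750230000)]))))) (.mul (.g 11) (.mul (.g 12) (.pp [(1,
    1103400000)]))))))))) (.add (.mul (.g 7) (.add (.add (.add (.mul (.pp [(1, 130605)]) (.sq [(2,
    49), (3, 100), (5, -85), (7, -4), (11, -84), (13, 100), (19, 2), (23, 5)])) (.add (.mul (.pp [(1,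
    29670)]) (.sq [(1, -8), (2, -100), (3, 50), (5, -44), (7, 38), (11, -71), (13, 72), (19, 4), (23,
    57)])) (.mul (.pp [(1, 154080)]) (.sq [(2, 30), (3, -18), (5, -3), (7, 38), (11, 12), (13, -100),
    (19, -84), (23, 45)])))) (.add (.mul (.pp [(1, 288930)]) (.sq [(2, -86), (3, 55), (5, 100), (7,
    -3), (11, 16), (13, 42), (19, -3), (23, 38)])) (.add (.mul (.pp [(1, 63000)]) (.sq [(2, -93), (3,
    30), (5, 35), (7, 100), (11, -4), (13, -45), (19, 16), (23, -50)])) (.mul (.pp [(1, 194535)]) (.sq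
    [(1, -35), (2, 34), (3, 15), (5, 67), (7, 50), (11, 100), (13, -77), (19, 2), (23, 49)]))))) (.add
    (.add (.mul (.pp [(1, 349950)]) (.sq [(2, 81), (3, 86), (5, -69), (7, 57), (11, 100), (13, -48),
    (19, -62), (23, 64)])) (.add (.mul (.g 4) (.add (.pp [(1, 22287900000)]) (.add (.mul (.g 7) (.pp
    [(1, 33055200000)])) (.mul (.g 11) (.pp [(1, 5783850000)]))))) (.mul (.g 18) (.add (.mul (.g 15)
    (.pp [(1, 2101020000)])) (.mul (.g 19) (.pp [(1, 225714000)])))))) (.add (.mul (.g 0) (.pp [(1,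
    2948002500)])) (.add (.mul (.g 11) (.pp [(1, 3698400000)])) (.mul (.g 16) (.mul (.g 17) (.pp [(1,
    9106800000)])))))))) (.mul (.g 6) (.add (.add (.add (.mul (.pp [(1, 169035)]) (.sq [(2, 100), (3,
    70), (5, 12), (7, 1), (11, -26), (13, 86), (23, 46)])) (.mul (.pp [(1, 1018845)]) (.sq [(2, -55),
    (3, 23), (5, -30), (7, -48), (11, 100), (13, -2), (19, 26), (23, 11)]))) (.add (.mul (.pp [(1,
    326340)]) (.sq [(1, -4), (2, 19), (3, 7), (5, 100), (7, 10), (11, 52), (13, -2), (19, -86), (23,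
    9)])) (.add (.mul (.pp [(1, 327240)]) (.sq [(2, 97), (3, -41), (5, 73), (7, -100), (11, 1), (13,
    21), (19, -63), (23, 15)])) (.mul (.g 4) (.add (.pp [(1, 35445450000)]) (.add (.mul (.g 6) (.pp
    [(1, 34230600000)])) (.mul (.g 11) (.pp [(1, 6293400000)])))))))) (.add (.add (.mul (.g 0) (.add
    (.mul (.g 11) (.pp [(1, 5330407500)])) (.mul (.g 12) (.pp [(1, 4917150000)])))) (.mul (.g 18)
    (.add (.pp [(1, 4217790000)]) (.mul (.g 15) (.pp [(1, 3240960000)]))))) (.add (.mul (.g 3) (.mul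
    (.g 3) (.pp [(1, 6610500000)]))) (.add (.mul (.g 9) (.pp [(1, 1882365000)])) (.mul (.g 19) (.pp
    [(1, 2280720000)])))))))))) (.add (.add (.mul (.g 19) (.add (.mul (.pp [(1, 130026)]) (.sq [(1,
    -16), (2, -18), (3, 33), (5, 100), (7, -24), (11, -14), (13, 92), (23, -41)])) (.add (.mul (.pp
    [(1, 5366070000)]) (.sq [(2, 1), (13, -1)])) (.mul (.g 11) (.add (.mul (.g 11) (.pp [(1,
    4868670000)])) (.add (.mul (.g 16) (.pp [(1, 5370450000)])) (.mul (.g 18) (.pp [(1,
    669936000)])))))))) (.add (.mul (.g 10) (.add (.add (.mul (.pp [(1, 53640)]) (.sq [(1, -7), (2,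
    100), (3, 32), (5, -40), (7, -26), (11, 7), (13, 12), (19, -85), (23, 9)])) (.mul (.pp [(1,
    336915)]) (.sq [(1, -2), (2, 18), (3, 100), (5, -9), (7, 4), (11, 7), (13, 19), (19, 2), (23,
    -42)]))) (.add (.mul (.pp [(1, 170805)]) (.sq [(2, 74), (3, -49), (5, 100), (7, -50), (11, 37),
    (13, -8), (19, 88), (23, -26)])) (.mul (.pp [(1, 1212795)]) (.sq [(1, 12), (2, -100), (3, -11),
    (5, -7), (7, -32), (11, 10), (13, 72), (19, -27), (23, -6)]))))) (.mul (.g 18) (.add (.mul (.pp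
    [(1, 3025944)]) (.sq [(2, 50), (3, -2), (5, -5), (7, -5), (11, -33), (13, -2), (19, -5), (23,
    -5)])) (.mul (.g 15) (.mul (.g 15) (.pp [(1, 7435440000)]))))))) (.add (.add (.mul (.g 4) (.mul
    (.pp [(1, 25536900000)]) (.sq [(19, -1), (23, 1)]))) (.mul (.g 11) (.mul (.pp [(1, 995250)]) (.sq
    [(1, -31), (2, 100), (3, 1), (5, 31), (7, -22), (11, 73), (13, -22), (19, -22), (23, 16)]))))
    (.add (.mul (.g 12) (.mul (.pp [(1, 539280)]) (.sq [(1, 52), (2, -74), (3, 9), (5, -33), (7, 12),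
    (11, 19), (13, 100), (19, -3), (23, -29)]))) (.mul (.g 16) (.mul (.pp [(1, 1398675)]) (.sq [(1,
    -46), (2, 100), (3, 60), (5, 15), (7, -12), (11, -9), (13, 57), (19, -13), (23, -23)]))))))) (.pp
    [(1, 44830092), (2, 1318302), (3, 1608549), (4, 1573710), (5, 1318344), (6, 1332522), (7,
    1299750), (8, 1500000), (9, 1306383), (10, 1698966), (11, 1613664), (12, 1496370), (13, 1423323),
    (14, 1272966), (15, 1612164), (18, 1557960), (19, 1725525), (20, 1532205), (21, 1314240), (22,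
    1424946), (23, 1725693), (25, 1706439), (26, 1826592), (27, 1483185), (28, 1643205), (30,
    1667340), (33, 1563294), (35, 1217952), (38, 1734696), (39, 1631256), (42, 919860), (44, 1349005),
    (45, 1500195), (46, 1354554), (49, 1686828), (50, 1478640), (52, 1455030), (55, 1762374), (57,
    1339146), (63, 1339545), (65, 1666116), (66, 1648650), (69, 1763694), (70, 2121870), (75,
    1559400), (76, 1302915), (77, 1424778), (78, 1743030), (91, 1748958), (92, 1472295), (95,
    1380918), (98, 1197030), (99, 1426935), (105, 814590), (110, 1398150), (114, 1688070), (115,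
    1608870), (117, 1684905), (121, 1655853), (125, 1588910), (130, 1277040), (133, 1214868), (138,
    1771260), (143, 1795290), (147, 1667880), (154, 1718280), (161, 1270374), (165, 1579500), (169,
    1640349), (171, 1437735), (175, 1553220), (182, 1350150), (190, 1292970), (195, 1699530), (207,
    1668300), (209, 1577274), (230, 1086780), (231, 1209510), (242, 1575760), (245, 1213650), (247,
    1440786), (253, 1505796), (266, 1487790), (273, 1157370), (275, 1412955), (285, 1538340), (286,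
    1331820), (299, 1635000), (322, 1490820), (325, 1334295), (338, 1479570), (343, 1671215), (345,
    1708710), (361, 1673151), (363, 1573605), (385, 1152300), (399, 1369920), (418, 1498830), (429,
    1770750), (437, 1567278), (455, 1868520), (475, 1477155), (483, 1553400), (494, 1477290), (506,
    1282230), (507, 1409790), (529, 1580685), (539, 1354185), (575, 1449780), (598, 1525380), (605,
    1411785), (627, 1324380), (637, 1227060), (665, 1733220), (715, 1168740), (722, 1616070), (741,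
    1669500), (759, 1544010), (805, 1324650), (845, 1404180), (847, 1493910), (874, 1680900), (897,
    1560390), (931, 1175880), (1001, 1606380), (1045, 1611930), (1058, 1746090), (1083, 1487280),
    (1127, 1870215), (1183, 1536240), (1235, 1570410), (1265, 1696260), (1311, 1540320), (1331,
    1448500), (1463, 1300050), (1495, 1397430), (1573, 1374870), (1587, 1504725), (1729, 1593180),
    (1771, 1486260), (1805, 1438380), (1859, 1376430), (2093, 904920), (2185, 1631850), (2197,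
    1471725), (2299, 1410030), (2527, 1554045), (2645, 1777560), (2717, 1776000), (2783, 1414740),
    (3059, 1817940), (3211, 1447545), (3289, 1307910), (3703, 1248750), (3887, 1405440), (3971,
    1365540), (4693, 1560465), (4807, 1747860), (5681, 1701120), (5819, 1516920), (6859, 1427225),
    (6877, 1616790), (8303, 1253355), (10051, 1354035), (12167, 1407080)]))
    (by norm_num) (by decide +kernel)

theorem r1_y0 : Ck (gY0 2)
    (pol2 2 nE WE (vY0 d1E d2E) (hA (Ex.v 11) (Ex.v 19))) :=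
  Ck.mk' 1000000 (.add (.add (.add (.add (.mul (.g 14) (.add (.add (.add (.mul (.pp [(1, 52892100)]) (.sq [(2, -4),
    (3, 1), (5, -100), (7, 89), (11, -3), (19, -45), (23, -35)])) (.add (.mul (.pp [(1, 4073820)])
    (.sq [(1, -1), (2, -31), (3, -69), (5, -6), (7, -81), (11, 100), (19, 78), (23, 49)])) (.mul (.pp
    [(1, 557460)]) (.sq [(1, -35), (2, -14), (3, -46), (5, -29), (7, 100), (11, 19), (19, -45), (23,
    91)])))) (.add (.add (.mul (.pp [(1, 1229520)]) (.sq [(1, 8), (2, -17), (3, -38), (5, 12), (7,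
    100), (11, 32), (19, 69), (23, -98)])) (.mul (.g 5) (.add (.add (.pp [(1, 33204000000)]) (.add
    (.mul (.g 2) (.pp [(1, 16719000000)])) (.mul (.g 4) (.pp [(1, 445813200000)])))) (.add (.mul (.g
    6) (.pp [(1, 72310200000)])) (.add (.mul (.g 15) (.pp [(1, 189900000000)])) (.mul (.g 17) (.pp
    [(1, 47493120000)]))))))) (.add (.mul (.g 2) (.add (.add (.mul (.g 7) (.pp [(1, 125571000000)]))
    (.mul (.g 11) (.pp [(1, 413149200000)]))) (.add (.mul (.g 13) (.pp [(1, 712200000)])) (.mul (.g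
    18) (.pp [(1, 40130760000)]))))) (.mul (.g 14) (.add (.mul (.g 7) (.pp [(1, 209987400000)])) (.add
    (.mul (.g 13) (.pp [(1, 94353600000)])) (.mul (.g 14) (.pp [(1, 3820800000)])))))))) (.add (.add
    (.mul (.g 18) (.add (.mul (.g 4) (.pp [(1, 8592360000)])) (.add (.mul (.g 9) (.pp [(1,
    1431744000)])) (.mul (.g 15) (.pp [(1, 65733240000)]))))) (.add (.mul (.g 1) (.add (.pp [(1,
    57637200000)]) (.mul (.g 11) (.pp [(1, 141826800000)])))) (.mul (.g 6) (.add (.mul (.g 16) (.pp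
    [(1, 36464400000)])) (.mul (.g 17) (.pp [(1, 50167320000)])))))) (.add (.add (.mul (.g 4) (.mul
    (.g 13) (.pp [(1, 12703800000)]))) (.mul (.g 7) (.mul (.g 11) (.pp [(1, 444664200000)])))) (.add
    (.mul (.g 9) (.mul (.g 9) (.pp [(1, 136644000)]))) (.mul (.g 17) (.mul (.g 17) (.pp [(1,
    2041680000)])))))))) (.add (.mul (.g 5) (.add (.add (.add (.mul (.pp [(1, 4795080)]) (.sq [(2,
    -64), (3, -64), (5, 100), (7, 71), (11, -64), (19, 30), (23, -64)])) (.add (.mul (.pp [(1,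
    6029040)]) (.sq [(2, 37), (3, 100), (5, 2), (7, 22), (11, -28), (19, -66), (23, -11)])) (.mul (.pp
    [(1, 4074900)]) (.sq [(1, -42), (2, -99), (3, -8), (11, 100), (23, 7)])))) (.add (.add (.mul (.pp
    [(1, 4605480)]) (.sq [(2, -39), (3, 20), (7, -76), (11, 100), (19, -62), (23, 26)])) (.mul (.pp
    [(1, 1581900)]) (.sq [(2, 28), (3, -47), (7, -97), (11, -34), (19, 72), (23, 100)]))) (.add (.mul
    (.pp [(1, 238320)]) (.sq [(2, -19), (3, -22), (7, 100), (11, -34), (19, 2), (23, 78)])) (.mul (.pp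
    [(1, 618300)]) (.sq [(1, -2), (2, -79), (3, 23), (5, -15), (7, -58), (11, -19), (19, 37), (23,
    100)]))))) (.add (.add (.mul (.g 2) (.add (.add (.mul (.g 0) (.pp [(1, 760230000)])) (.mul (.g 6)
    (.pp [(1, 369695400000)]))) (.add (.mul (.g 8) (.pp [(1, 71983800000)])) (.mul (.g 12) (.pp [(1,
    148407600000)]))))) (.add (.mul (.g 18) (.add (.mul (.g 9) (.pp [(1, 1501140000)])) (.add (.mul
    (.g 11) (.pp [(1, 16509240000)])) (.mul (.g 17) (.pp [(1, 9392160000)]))))) (.mul (.g 0) (.add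
    (.pp [(1, 6841260000)]) (.mul (.g 4) (.pp [(1, 7337880000)])))))) (.add (.add (.mul (.g 15) (.add
    (.mul (.g 7) (.pp [(1, 183099000000)])) (.mul (.g 16) (.pp [(1, 6289200000)])))) (.mul (.g 9) (.pp
    [(1, 3159390000)]))) (.add (.mul (.g 11) (.pp [(1, 226691400000)])) (.mul (.g 16) (.pp [(1,
    21793560000)]))))))) (.mul (.g 11) (.add (.add (.add (.mul (.pp [(1, 11203140)]) (.sq [(2, 20),
    (3, -34), (5, -100), (7, -68), (19, 28), (23, 39)])) (.add (.mul (.pp [(1, 3306180)]) (.sq [(1,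
    -1), (2, 8), (3, -39), (7, -58), (11, 100), (19, 51), (23, 26)])) (.mul (.pp [(1, 776520)]) (.sq
    [(1, -11), (2, 25), (3, -7), (5, 17), (7, 12), (11, -8), (19, -5), (23, 100)])))) (.add (.mul (.pp
    [(1, 39055800000)]) (.sq [(2, 1), (3, -1)])) (.add (.mul (.pp [(1, 1998060)]) (.sq [(2, 5), (3,
    100), (7, 4), (11, -46), (19, -16), (23, 19)])) (.mul (.g 1) (.add (.pp [(1, 166558800000)]) (.mul
    (.g 18) (.pp [(1, 10460400000)]))))))) (.add (.add (.mul (.g 6) (.add (.mul (.g 2) (.pp [(1,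
    194772600000)])) (.mul (.g 15) (.pp [(1, 24828000000)])))) (.add (.mul (.g 9) (.add (.pp [(1,
    7113360000)]) (.mul (.g 9) (.pp [(1, 28942500)])))) (.mul (.g 13) (.add (.pp [(1, 129303000000)])
    (.mul (.g 17) (.pp [(1, 61120800000)])))))) (.add (.add (.mul (.g 7) (.mul (.g 8) (.pp [(1,
    21154800000)]))) (.mul (.g 11) (.pp [(1, 170701200000)]))) (.add (.mul (.g 15) (.mul (.g 15) (.pp
    [(1, 42072000000)]))) (.mul (.g 18) (.pp [(1, 21270480000)]))))))))) (.add (.add (.mul (.g 8)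
    (.add (.add (.add (.mul (.pp [(1, 1097220)]) (.sq [(2, -4), (3, -89), (5, 60), (7, -40), (11,
    100), (19, -13), (23, 8)])) (.mul (.pp [(1, 1954200)]) (.sq [(2, 100), (3, -38), (7, 1), (11, 21),
    (19, 84), (23, -98)]))) (.add (.mul (.pp [(1, 2267580)]) (.sq [(1, 17), (2, 100), (3, -3), (5,
    -79), (7, 17), (11, -1), (19, 17), (23, -49)])) (.mul (.pp [(1, 10962780)]) (.sq [(2, 100), (3,
    -21), (5, -21), (7, -21), (11, 56), (19, -21), (23, -21)])))) (.add (.add (.mul (.g 2) (.add (.mul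
    (.g 6) (.pp [(1, 122352600000)])) (.add (.mul (.g 8) (.pp [(1, 163871400000)])) (.mul (.g 16) (.pp
    [(1, 32231760000)]))))) (.mul (.g 1) (.add (.pp [(1, 159065400000)]) (.mul (.g 15) (.pp [(1,
    35317200000)]))))) (.add (.mul (.g 8) (.add (.mul (.g 9) (.pp [(1, 12311070000)])) (.mul (.g 15)
    (.pp [(1, 24298200000)])))) (.add (.mul (.g 13) (.add (.mul (.g 0) (.pp [(1, 8200290000)])) (.mul
    (.g 13) (.pp [(1, 320761800000)])))) (.mul (.g 16) (.pp [(1, 105823560000)]))))))) (.mul (.g 18)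
    (.add (.add (.add (.mul (.pp [(1, 2395560)]) (.sq [(1, -7), (2, 100), (3, 26), (5, -27), (7, -1),
    (11, -11), (19, -30)])) (.mul (.pp [(1, 878472)]) (.sq [(1, -62), (2, 83), (3, -16), (5, 83), (11,
    -100), (19, -69), (23, 20)]))) (.add (.mul (.pp [(1, 2055312)]) (.sq [(1, 2), (2, 17), (3, 74),
    (5, 100), (7, 16), (11, 15), (19, -35), (23, -14)])) (.mul (.g 0) (.add (.mul (.g 7) (.pp [(1,
    1770258000)])) (.mul (.g 17) (.pp [(1, 777870000)])))))) (.add (.add (.mul (.g 6) (.add (.mul (.g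
    16) (.pp [(1, 4078200000)])) (.mul (.g 17) (.pp [(1, 502368000)])))) (.mul (.g 7) (.mul (.g 16)
    (.pp [(1, 6560736000)])))) (.add (.mul (.g 9) (.pp [(1, 419880000)])) (.add (.mul (.g 13) (.mul
    (.g 13) (.pp [(1, 31830480000)]))) (.mul (.g 15) (.pp [(1, 15075960000)])))))))) (.add (.mul (.g
    1) (.add (.add (.mul (.pp [(1, 1445040)]) (.sq [(1, -42), (2, -67), (3, 55), (5, -19), (7, 100),
    (11, 9), (19, 79), (23, 83)])) (.add (.mul (.pp [(1, 3086520)]) (.sq [(1, -2), (2, 19), (3, -81),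
    (5, -1), (7, 91), (11, 100), (19, 64), (23, 35)])) (.mul (.g 3) (.add (.mul (.g 9) (.pp [(1,
    2427360000)])) (.mul (.g 13) (.pp [(1, 847200000)])))))) (.add (.mul (.g 7) (.add (.mul (.g 2)
    (.pp [(1, 67470600000)])) (.mul (.g 15) (.pp [(1, 84179400000)])))) (.add (.mul (.g 6) (.mul (.g
    12) (.pp [(1, 251928600000)]))) (.mul (.g 15) (.mul (.g 17) (.pp [(1, 101749800000)]))))))) (.mul
    (.g 7) (.add (.add (.mul (.pp [(1, 1396500)]) (.sq [(1, 42), (2, -16), (3, -20), (5, 27), (7, 25),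
    (11, 66), (19, -86), (23, -100)])) (.mul (.pp [(1, 1570860)]) (.sq [(1, -30), (2, 5), (3, 29), (5,
    -12), (7, 39), (11, 100), (19, -30), (23, 55)]))) (.add (.mul (.pp [(1, 2414220)]) (.sq [(5, -71),
    (7, 100), (19, -71)])) (.add (.mul (.pp [(1, 7044240)]) (.sq [(2, -14), (3, 12), (5, -11), (7,
    -47), (11, 100), (19, 30)])) (.mul (.g 13) (.mul (.g 15) (.pp [(1, 7021200000)])))))))))) (.add
    (.add (.add (.mul (.g 15) (.add (.add (.mul (.pp [(1, 352020)]) (.sq [(2, -8), (3, 100), (7, 63),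
    (11, -16), (19, -87), (23, 24)])) (.mul (.pp [(1, 10861140)]) (.sq [(1, 98), (2, 62), (3, 62), (5,
    62), (11, -43), (19, -43), (23, -100)]))) (.add (.mul (.pp [(1, 11935380)]) (.sq [(2, -73), (3,
    94), (7, -100), (11, -36), (19, 64), (23, 47)])) (.mul (.g 6) (.mul (.g 9) (.pp [(1,
    7270680000)])))))) (.mul (.g 16) (.add (.mul (.pp [(1, 4054440)]) (.sq [(1, 10), (2, 100), (3,
    26), (5, -51), (7, -5), (11, -8), (19, 21), (23, 4)])) (.add (.mul (.pp [(1, 1945680)]) (.sq [(2,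
    100), (3, -79), (7, 19), (11, 54), (19, -49), (23, -6)])) (.mul (.g 6) (.mul (.g 13) (.pp [(1,
    6489240000)]))))))) (.add (.mul (.g 0) (.add (.mul (.pp [(1, 316344)]) (.sq [(1, -4), (2, -4), (3,
    6), (5, -1), (7, -21), (11, -5), (19, 100), (23, -72)])) (.mul (.pp [(1, 393447)]) (.sq [(1, 9),
    (2, 44), (3, 100), (5, 5), (7, 15), (11, -19), (19, -14), (23, -16)])))) (.mul (.g 10) (.add (.mul
    (.pp [(1, 17332980)]) (.sq [(2, -3), (3, 12), (7, -100), (11, -44), (19, 80), (23, 61)])) (.mul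
    (.pp [(1, 3097260)]) (.sq [(2, -22), (3, -40), (7, 100), (11, -62), (19, -23), (23, 20)]))))))
    (.add (.add (.mul (.g 2) (.mul (.pp [(1, 6565560)]) (.sq [(1, 27), (2, 9), (3, -59), (5, 22), (7,
    62), (11, 44), (19, -3), (23, -100)]))) (.mul (.g 4) (.mul (.pp [(1, 3849840)]) (.sq [(2, 100),
    (3, 34), (7, -8), (11, 33), (19, 6), (23, -13)])))) (.add (.mul (.g 6) (.mul (.g 9) (.pp [(1,
    339450000)]))) (.mul (.g 17) (.mul (.pp [(1, 437412)]) (.sq [(1, -78), (2, -65), (3, 10), (5, 55),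
    (7, 19), (11, -1), (19, -66), (23, 100)]))))))) (.pp [(1, 3129567411), (2, 5660520), (3, 6488304),
    (4, 5523120), (5, 5851398), (6, 6084144), (7, 5955246), (8, 6000000), (9, 4826460), (10, 5448648),
    (11, 5740962), (12, 5168460), (14, 6195792), (15, 5340552), (18, 6311400), (19, 5895276), (20,
    6462420), (21, 6594408), (22, 6090168), (23, 5043120), (25, 6167643), (27, 6523740), (28,
    5729400), (30, 6193800), (33, 5662800), (35, 6184914), (38, 6497592), (42, 5060640), (44,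
    6244480), (45, 6061920), (46, 6312960), (49, 5327955), (50, 5667960), (55, 5383470), (57,
    6029472), (63, 5955180), (66, 6029640), (69, 6527544), (70, 5336040), (75, 6042840), (76,
    6067140), (77, 5590698), (92, 6392280), (95, 5784324), (98, 6078240), (99, 5635740), (105,
    6749280), (110, 6054480), (114, 6894360), (115, 6303888), (121, 6337395), (125, 6162080), (133,
    5775108), (138, 6534720), (147, 5524260), (154, 6279720), (161, 5452896), (165, 6416160), (171,
    5802240), (175, 6143520), (190, 6410280), (207, 6787680), (209, 5735820), (230, 6840480), (231,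
    6025560), (242, 5951200), (245, 6877860), (253, 6229848), (266, 5991720), (275, 6370920), (285,
    5286960), (322, 5765280), (343, 5848600), (345, 6069360), (361, 6509724), (363, 6751140), (385,
    6102240), (399, 6611160), (418, 5714520), (437, 5568168), (475, 5925660), (483, 5069160), (506,
    5850600), (529, 5982948), (539, 5741400), (575, 5934180), (605, 5863260), (627, 5763600), (665,
    5397240), (722, 5946960), (759, 5855160), (805, 4617480), (847, 6146160), (874, 5805720), (931,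
    7520580), (1045, 6081120), (1058, 5939400), (1083, 5947740), (1127, 6783180), (1265, 5804520),
    (1311, 5982960), (1331, 5852140), (1463, 7082040), (1587, 5851620), (1771, 6517680), (1805,
    5982600), (2185, 6614880), (2299, 6223140), (2527, 5370420), (2645, 6289260), (2783, 5744580),
    (3059, 5456400), (3703, 6286740), (3971, 5744460), (4807, 5565240), (5819, 6233880), (6859,
    5949200), (8303, 6149220), (10051, 6208200), (12167, 6147240)]))
    (by norm_num) (by decide +kernel)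

theorem r1_p12 : Ck (gP1 2)
    (pol2 2 nE WE (vP0 d1E d2E) (hM (Ex.v 11))) :=
  Ck.mk' 250000 (.add (.add (.add (.add (.mul (.g 14) (.add (.add (.add (.add (.mul (.pp [(1, 75000)]) (.sq [(2,
    -78), (3, 34), (5, 60), (7, -100), (11, 75), (13, -16), (19, -16), (23, -35)])) (.mul (.pp [(1,
    69810)]) (.sq [(1, -17), (2, -57), (3, 100), (5, -34), (7, 19), (11, -73), (13, 57), (19, 44),
    (23, 18)]))) (.add (.mul (.pp [(1, 940710)]) (.sq [(2, 100), (3, -4), (5, 69), (7, 2), (11, -22),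
    (13, -15), (19, 26), (23, -22)])) (.mul (.pp [(1, 1168005)]) (.sq [(2, -1), (3, 100), (5, -2), (7,
    -7), (11, -28), (13, 51), (19, -26), (23, 44)])))) (.add (.add (.mul (.pp [(1, 440295)]) (.sq [(2,
    -23), (3, 72), (5, -96), (7, 100), (11, 28), (13, 9), (19, -8), (23, -94)])) (.mul (.pp [(1,
    1185435)]) (.sq [(2, -10), (3, 13), (5, -100), (7, 47), (11, 42), (13, -38), (19, 71), (23,
    42)]))) (.add (.mul (.pp [(1, 171585)]) (.sq [(1, 32), (2, -7), (3, 86), (5, 100), (7, -75), (11,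
    -48), (13, -52), (19, -64), (23, -76)])) (.add (.mul (.pp [(1, 249525)]) (.sq [(1, 3), (2, -28),
    (3, -27), (5, 59), (7, -53), (11, 48), (13, 100), (19, 68), (23, -53)])) (.mul (.pp [(1, 600135)])
    (.sq [(1, 40), (2, -37), (3, -86), (5, 16), (7, 1), (11, -24), (13, -100), (19, 23), (23,
    -1)])))))) (.add (.add (.add (.mul (.pp [(1, 808665)]) (.sq [(2, 100), (3, -46), (5, -38), (7,
    -15), (11, -79), (13, -67), (19, 7), (23, 16)])) (.mul (.pp [(1, 1266555)]) (.sq [(2, 99), (3,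
    -100), (5, -22), (7, -22), (11, -22), (13, 55), (19, -22), (23, -22)]))) (.add (.mul (.g 12) (.add
    (.add (.mul (.g 7) (.pp [(1, 114595200000)])) (.add (.mul (.g 8) (.pp [(1, 3464400000)])) (.mul
    (.g 12) (.pp [(1, 16389300000)])))) (.add (.mul (.g 14) (.pp [(1, 64361100000)])) (.add (.mul (.g
    19) (.pp [(1, 627810000)])) (.mul (.g 20) (.pp [(1, 15485040000)])))))) (.add (.mul (.g 16) (.add
    (.add (.mul (.g 0) (.pp [(1, 475237500)])) (.mul (.g 10) (.pp [(1, 3179550000)]))) (.add (.mul (.g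
    18) (.pp [(1, 12029400000)])) (.add (.mul (.g 19) (.pp [(1, 5947650000)])) (.mul (.g 20) (.pp [(1,
    308160000)])))))) (.mul (.g 14) (.add (.add (.pp [(1, 17276700000)]) (.mul (.g 7) (.pp [(1,
    75250050000)]))) (.add (.mul (.g 14) (.pp [(1, 26308350000)])) (.mul (.g 20) (.pp [(1,
    7151910000)])))))))) (.add (.add (.mul (.g 20) (.add (.mul (.g 9) (.pp [(1, 786676500)])) (.add
    (.mul (.g 11) (.pp [(1, 8625090000)])) (.mul (.g 18) (.pp [(1, 8607390000)]))))) (.mul (.g 7)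
    (.add (.mul (.g 4) (.pp [(1, 7049850000)])) (.mul (.g 7) (.pp [(1, 25383450000)]))))) (.add (.mul
    (.g 10) (.pp [(1, 17078700000)])) (.add (.mul (.g 15) (.mul (.g 17) (.pp [(1, 19114200000)])))
    (.mul (.g 18) (.mul (.g 21) (.pp [(1, 4228020000)]))))))))) (.add (.mul (.g 8) (.add (.add (.add
    (.mul (.pp [(1, 633615)]) (.sq [(1, 10), (2, 73), (3, -19), (5, 43), (7, -25), (11, -8), (13, 54),
    (19, 100), (23, -77)])) (.mul (.g 19) (.add (.add (.add (.mul (.g 1) (.pp [(1, 8988930000)]))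
    (.mul (.g 4) (.pp [(1, 8601810000)]))) (.add (.mul (.g 6) (.pp [(1, 5214150000)])) (.mul (.g 7)
    (.pp [(1, 179130000)])))) (.add (.add (.mul (.g 12) (.pp [(1, 5591490000)])) (.mul (.g 19) (.pp
    [(1, 2179302000)]))) (.add (.mul (.g 20) (.pp [(1, 1598232000)])) (.mul (.g 21) (.pp [(1,
    82230000)]))))))) (.add (.mul (.g 2) (.add (.add (.mul (.g 1) (.pp [(1, 38645250000)])) (.add
    (.mul (.g 6) (.pp [(1, 13723350000)])) (.mul (.g 8) (.pp [(1, 40980450000)])))) (.add (.mul (.g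
    10) (.pp [(1, 19017300000)])) (.add (.mul (.g 15) (.pp [(1, 5137800000)])) (.mul (.g 20) (.pp [(1,
    4234650000)])))))) (.mul (.g 17) (.add (.add (.mul (.g 0) (.pp [(1, 3962872500)])) (.mul (.g 7)
    (.pp [(1, 34092900000)]))) (.add (.mul (.g 9) (.pp [(1, 27930000)])) (.add (.mul (.g 20) (.pp [(1,
    5066010000)])) (.mul (.g 21) (.pp [(1, 3529200000)])))))))) (.add (.add (.mul (.g 21) (.add (.add
    (.mul (.g 4) (.pp [(1, 802530000)])) (.mul (.g 9) (.pp [(1, 63229500)]))) (.add (.mul (.g 12) (.pp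
    [(1, 201060000)])) (.mul (.g 18) (.pp [(1, 234210000)]))))) (.mul (.g 8) (.add (.mul (.g 9) (.pp
    [(1, 2512492500)])) (.add (.mul (.g 12) (.pp [(1, 10044300000)])) (.mul (.g 16) (.pp [(1,
    12767700000)])))))) (.add (.mul (.g 7) (.add (.pp [(1, 23121900000)]) (.mul (.g 18) (.pp [(1,
    37730550000)])))) (.add (.mul (.g 20) (.add (.mul (.g 12) (.pp [(1, 1197840000)])) (.mul (.g 18)
    (.pp [(1, 4810860000)])))) (.mul (.g 1) (.mul (.g 4) (.pp [(1, 144869550000)])))))))) (.mul (.g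
    21) (.add (.add (.add (.mul (.pp [(1, 131991)]) (.sq [(2, -12), (3, -98), (5, -8), (7, 35), (11,
    46), (13, 69), (19, 55), (23, -100)])) (.mul (.pp [(1, 127623)]) (.sq [(1, 46), (2, -35), (3,
    -87), (5, -76), (7, 100), (11, -74), (13, 35), (19, -31), (23, -41)]))) (.add (.mul (.g 19) (.add
    (.add (.mul (.g 6) (.pp [(1, 149916000)])) (.add (.mul (.g 12) (.pp [(1, 405510000)])) (.mul (.g
    15) (.pp [(1, 231672000)])))) (.add (.mul (.g 18) (.pp [(1, 123540000)])) (.add (.mul (.g 19) (.pp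
    [(1, 36518400)])) (.mul (.g 20) (.pp [(1, 222608400)])))))) (.mul (.g 0) (.add (.add (.mul (.g 1)
    (.pp [(1, 628081500)])) (.mul (.g 4) (.pp [(1, 74596500)]))) (.add (.mul (.g 5) (.pp [(1,
    444145500)])) (.add (.mul (.g 12) (.pp [(1, 421875000)])) (.mul (.g 21) (.pp [(1,
    21413100)])))))))) (.add (.add (.mul (.g 18) (.add (.add (.pp [(1, 361890000)]) (.mul (.g 6) (.pp
    [(1, 5375310000)]))) (.add (.mul (.g 18) (.pp [(1, 4254720000)])) (.mul (.g 20) (.pp [(1,
    1667586000)]))))) (.mul (.g 12) (.add (.mul (.g 13) (.pp [(1, 1972530000)])) (.mul (.g 20) (.pp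
    [(1, 997878000)]))))) (.add (.mul (.g 2) (.mul (.g 6) (.pp [(1, 7566960000)]))) (.add (.mul (.g 3)
    (.mul (.g 17) (.pp [(1, 4884930000)]))) (.mul (.g 9) (.mul (.g 20) (.pp [(1, 66669000)]))))))))))
    (.add (.add (.mul (.g 7) (.add (.add (.add (.mul (.pp [(1, 2277300)]) (.sq [(1, 3), (2, 15), (3,
    5), (5, -63), (7, -3), (11, 100), (13, 6), (19, 32), (23, -18)])) (.add (.mul (.pp [(1, 862485)])
    (.sq [(2, 91), (3, 21), (5, -31), (7, 40), (11, 65), (13, -100), (19, 2), (23, 5)])) (.mul (.pp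
    [(1, 8231340)]) (.sq [(2, -27), (3, 50), (5, -4), (7, 25), (11, 23), (13, -26), (23, -25)]))))
    (.add (.add (.mul (.pp [(1, 2526420)]) (.sq [(5, 71), (7, -100), (19, 71)])) (.mul (.pp [(1,
    2546850)]) (.sq [(1, -1), (2, -100), (3, -35), (5, -28), (7, 17), (11, -2), (13, -42), (19, 16),
    (23, 10)]))) (.add (.mul (.pp [(1, 1079700)]) (.sq [(2, -58), (3, 100), (5, -32), (7, -35), (11,
    51), (13, 66), (19, -40), (23, 61)])) (.mul (.pp [(1, 641760)]) (.sq [(2, 100), (3, -4), (5, 41),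
    (7, 30), (11, -30), (13, -64), (19, -80), (23, -34)]))))) (.add (.add (.mul (.pp [(1, 284655)])
    (.sq [(1, 12), (2, -11), (3, 7), (5, 4), (7, -5), (11, 68), (13, 100), (19, -4), (23, -83)]))
    (.add (.mul (.g 7) (.add (.mul (.g 2) (.pp [(1, 15194550000)])) (.add (.mul (.g 17) (.pp [(1,
    71275200000)])) (.mul (.g 19) (.pp [(1, 2252640000)]))))) (.mul (.g 20) (.add (.mul (.g 5) (.pp
    [(1, 23204010000)])) (.add (.mul (.g 12) (.pp [(1, 22461090000)])) (.mul (.g 18) (.pp [(1,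
    22074390000)]))))))) (.add (.add (.mul (.g 16) (.add (.mul (.g 15) (.pp [(1, 7379850000)])) (.mul
    (.g 19) (.pp [(1, 5834400000)])))) (.mul (.g 17) (.add (.mul (.g 0) (.pp [(1, 4544115000)])) (.mul
    (.g 10) (.pp [(1, 99520800000)]))))) (.add (.mul (.g 1) (.pp [(1, 26742450000)])) (.mul (.g 2)
    (.mul (.g 6) (.pp [(1, 86280150000)])))))))) (.mul (.g 10) (.add (.add (.add (.mul (.pp [(1,
    185640)]) (.sq [(1, 7), (2, -5), (3, 13), (5, 89), (7, 49), (11, -100), (13, -9), (19, 98), (23,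
    15)])) (.mul (.pp [(1, 759660)]) (.sq [(1, 1), (2, 100), (3, -29), (5, 95), (7, -27), (11, -22),
    (13, 51), (19, 21), (23, -73)]))) (.add (.mul (.pp [(1, 892800)]) (.sq [(1, 18), (2, 100), (3,
    -20), (5, -71), (11, -55), (13, -26), (19, -3), (23, 17)])) (.add (.mul (.pp [(1, 2148825)]) (.sq
    [(2, -4), (3, 100), (5, -59), (7, 41), (11, 34), (13, 1), (19, -12), (23, -70)])) (.mul (.pp [(1,
    22230)]) (.sq [(1, -100), (3, 30), (11, 92), (13, 79), (23, 92)]))))) (.add (.add (.mul (.g 0)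
    (.add (.add (.mul (.g 2) (.pp [(1, 1994220000)])) (.mul (.g 4) (.pp [(1, 716640000)]))) (.add
    (.mul (.g 11) (.pp [(1, 194190000)])) (.mul (.g 17) (.pp [(1, 1887292500)]))))) (.mul (.g 2) (.add
    (.pp [(1, 14213400000)]) (.mul (.g 10) (.pp [(1, 30572550000)]))))) (.add (.mul (.g 20) (.add
    (.mul (.g 12) (.pp [(1, 16984440000)])) (.mul (.g 18) (.pp [(1, 11058660000)])))) (.add (.mul (.g
    4) (.mul (.g 17) (.pp [(1, 4510200000)]))) (.mul (.g 9) (.pp [(1, 204240000)])))))))) (.add (.mul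
    (.g 1) (.add (.add (.mul (.pp [(1, 1295610)]) (.sq [(1, -25), (2, 66), (3, -66), (5, -33), (11,
    50), (13, -100), (19, 33), (23, 49)])) (.add (.mul (.pp [(1, 254805)]) (.sq [(2, -100), (3, 11),
    (5, 23), (7, 2), (11, -23), (13, 78), (19, 67), (23, -17)])) (.mul (.pp [(1, 590415)]) (.sq [(2,
    91), (3, 23), (5, -19), (7, 7), (11, -100), (13, 60), (19, 56), (23, -66)])))) (.add (.add (.mul
    (.pp [(1, 948315)]) (.sq [(2, 81), (3, 11), (5, -59), (7, -87), (11, 66), (13, 100), (19, -25),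
    (23, -8)])) (.mul (.g 18) (.add (.mul (.g 4) (.pp [(1, 66877500000)])) (.add (.mul (.g 13) (.pp
    [(1, 102750000)])) (.mul (.g 16) (.pp [(1, 14064600000)])))))) (.add (.mul (.g 0) (.add (.pp [(1,
    4474537500)]) (.mul (.g 2) (.pp [(1, 2178667500)])))) (.mul (.g 17) (.add (.mul (.g 16) (.pp [(1,
    3768450000)])) (.mul (.g 20) (.pp [(1, 11526300000)])))))))) (.mul (.g 19) (.add (.add (.mul (.pp
    [(1, 2485536)]) (.sq [(2, 50), (3, -2), (5, -5), (7, -5), (11, -33), (13, -2), (19, -5), (23,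
    -5)])) (.add (.mul (.pp [(1, 686397)]) (.sq [(1, 3), (2, 100), (3, -26), (5, -1), (7, -2), (11,
    -3), (13, -28), (19, -5), (23, -2)])) (.mul (.g 6) (.add (.mul (.g 2) (.pp [(1, 971010000)]))
    (.add (.mul (.g 16) (.pp [(1, 2212080000)])) (.mul (.g 20) (.pp [(1, 231060000)]))))))) (.add
    (.add (.mul (.g 12) (.add (.mul (.g 16) (.pp [(1, 3286770000)])) (.mul (.g 20) (.pp [(1,
    173832000)])))) (.mul (.g 9) (.mul (.g 11) (.pp [(1, 263901000)])))) (.add (.mul (.g 16) (.mul (.g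
    16) (.pp [(1, 2065500000)]))) (.mul (.g 17) (.mul (.g 20) (.pp [(1, 1553514000)])))))))))) (.add
    (.add (.add (.mul (.g 5) (.add (.add (.add (.mul (.pp [(1, 33765)]) (.sq [(1, 10), (2, 80), (3,
    -47), (5, -9), (7, -28), (11, -100), (13, -87), (19, 98), (23, 11)])) (.mul (.pp [(1, 1915095)])
    (.sq [(2, 19), (3, 100), (5, 27), (7, -41), (11, -65), (13, 23), (19, 2), (23, 42)]))) (.add (.mul
    (.pp [(1, 100290)]) (.sq [(1, 42), (2, 14), (3, 2), (5, 90), (7, -25), (11, -22), (13, -35), (19,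
    100), (23, -32)])) (.mul (.pp [(1, 305940)]) (.sq [(1, 10), (2, 100), (3, -37), (5, -67), (7, 49),
    (11, -75), (13, -59), (19, -36), (23, 32)])))) (.add (.add (.mul (.pp [(1, 1019115)]) (.sq [(2,
    -46), (3, 5), (5, 4), (7, -78), (11, 100), (13, -34), (19, -28), (23, 39)])) (.mul (.pp [(1,
    348255)]) (.sq [(2, 100), (3, 15), (5, -70), (7, 50), (11, -32), (13, 33), (19, -4), (23, -54)])))
    (.add (.mul (.g 0) (.mul (.g 9) (.pp [(1, 411133875)]))) (.mul (.g 2) (.mul (.g 6) (.pp [(1,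
    15741150000)]))))))) (.mul (.g 11) (.add (.mul (.pp [(1, 4483620)]) (.sq [(2, 3), (3, -50), (5,
    -35), (7, 34), (13, 15), (23, 1)])) (.add (.mul (.pp [(1, 519660)]) (.sq [(1, -74), (2, -11), (3,
    -11), (5, -48), (7, 16), (11, 20), (13, 100), (19, -69), (23, 42)])) (.mul (.g 17) (.mul (.g 18)
    (.pp [(1, 30854850000)]))))))) (.add (.mul (.g 20) (.add (.mul (.pp [(1, 2588070000)]) (.sq [(2,
    1), (13, -1)])) (.add (.mul (.pp [(1, 1446690)]) (.sq [(1, 36), (2, -26), (3, -45), (5, 68), (7,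
    -49), (11, -38), (13, 100), (19, 21), (23, -48)])) (.mul (.pp [(1, 222627)]) (.sq [(1, -5), (2,
    -65), (3, 100), (5, -51), (7, 17), (11, 22), (13, 90), (23, 17)]))))) (.mul (.g 6) (.mul (.g 9)
    (.add (.mul (.g 9) (.pp [(1, 31911750)])) (.mul (.g 16) (.pp [(1, 99960000)]))))))) (.add (.add
    (.mul (.g 2) (.mul (.pp [(1, 567135)]) (.sq [(1, -1), (2, 100), (3, -3), (5, 2), (7, -5), (11,
    -1), (13, 1), (19, -3), (23, -6)]))) (.mul (.g 4) (.mul (.pp [(1, 1112505)]) (.sq [(1, 22), (2,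
    2), (3, -29), (5, -84), (7, -17), (11, 50), (13, 30), (19, 100), (23, -55)])))) (.add (.mul (.g
    15) (.mul (.pp [(1, 238140)]) (.sq [(1, 4), (2, -3), (3, 40), (5, 6), (7, 36), (11, -100), (13,
    -42), (19, -86), (23, 43)]))) (.mul (.g 16) (.mul (.pp [(1, 323610)]) (.sq [(2, -47), (3, 1), (5,
    48), (7, -2), (11, 34), (13, 100), (19, 3), (23, -26)]))))))) (.pp [(1, 619781382), (2, 1515915),
    (3, 1249302), (4, 1506528), (5, 1612254), (6, 1544664), (7, 1366137), (8, 1695510), (9, 1312689),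
    (10, 1420194), (11, 1451490), (12, 1353030), (13, 1725723), (14, 1573110), (15, 1659018), (18,
    1704510), (19, 1589838), (20, 1415715), (21, 1102656), (22, 1624872), (23, 1694910), (25,
    1445052), (26, 1600398), (27, 1327110), (28, 1270395), (30, 1451340), (33, 1465302), (35,
    1536930), (38, 1271400), (39, 1786452), (42, 1573020), (44, 1406785), (45, 1671585), (46,
    1482390), (49, 1455957), (50, 1509705), (52, 1497885), (55, 1503414), (57, 1526574), (63,
    1452975), (65, 1244886), (66, 1466490), (69, 2052180), (70, 1232100), (75, 1421760), (76,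
    1586115), (77, 1633020), (78, 1770150), (91, 1550598), (92, 1569000), (95, 1410282), (98,
    1608720), (99, 1401765), (105, 1578990), (110, 1522920), (114, 1404510), (115, 1302642), (117,
    1469580), (121, 1585578), (125, 1589360), (130, 1560810), (133, 1515300), (138, 1430520), (143,
    1502592), (147, 1394565), (154, 1449030), (161, 1843404), (165, 1598130), (169, 1347021), (171,
    1375125), (175, 1398240), (182, 1157040), (190, 1723710), (195, 1288560), (207, 1510290), (209,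
    1485348), (230, 1696830), (231, 1231680), (242, 1450945), (245, 1431645), (247, 1753920), (253,
    1492158), (266, 1290720), (273, 1402140), (275, 1555365), (285, 1396380), (286, 1513620), (299,
    1030518), (322, 1682250), (325, 1545255), (338, 1439370), (343, 1562005), (345, 1289460), (361,
    1492806), (363, 1473825), (385, 1296660), (399, 1768590), (418, 1692540), (429, 1439370), (437,
    1433502), (455, 1572900), (475, 1473585), (483, 1795170), (494, 1620120), (506, 1460610), (507,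
    1285680), (529, 1269153), (539, 1458015), (575, 1558875), (598, 1497990), (605, 1506840), (627,
    1521720), (637, 1574310), (665, 1687230), (715, 1405320), (722, 1566675), (741, 1626270), (759,
    1751580), (805, 1904160), (845, 1574670), (847, 1528815), (874, 1612650), (897, 1686510), (931,
    1597860), (1001, 1565580), (1045, 1668270), (1058, 1385730), (1083, 1484325), (1127, 1456920),
    (1183, 1434705), (1235, 1556190), (1265, 1536450), (1311, 1401690), (1331, 1434640), (1463,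
    1601730), (1495, 1780170), (1573, 1520115), (1587, 1398975), (1729, 1432200), (1771, 1409970),
    (1805, 1410810), (1859, 1556730), (2093, 1554630), (2185, 1396740), (2197, 1627380), (2299,
    1464180), (2527, 1383180), (2645, 1355325), (2717, 1435530), (2783, 1552185), (3059, 1579830),
    (3211, 1408035), (3289, 1513320), (3703, 1202880), (3887, 1718280), (3971, 1587870), (4693,
    1503885), (4807, 1398390), (5681, 1215210), (5819, 1488795), (6859, 1505585), (6877, 1493370),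
    (8303, 1516455), (10051, 1401705), (12167, 1688115)]))
    (by norm_num) (by decide +kernel)

theorem r1_p13 : Ck (gP1 3)
    (pol2 3 nE WE (vP0 d1E d2E) (hM (Ex.v 11))) :=
  Ck.mk' 250000 (.add (.add (.add (.add (.add (.mul (.pp [(1, 512385)]) (.sq [(1, -66), (2, -22), (3, -17), (5,
    -2), (7, -40), (11, 54), (13, 16), (19, 100), (23, 3)])) (.mul (.g 21) (.add (.add (.add (.mul
    (.pp [(1, 12621)]) (.sq [(2, 11), (3, -8), (5, 100), (11, -29), (13, 1), (19, 2), (23, -1)]))
    (.add (.mul (.pp [(1, 3516)]) (.sq [(1, -12), (2, 100), (3, 13), (5, 30), (7, -16), (11, -25),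
    (13, -16), (19, -36), (23, 13)])) (.mul (.pp [(1, 51102)]) (.sq [(1, -48), (2, -100), (3, 31), (5,
    -9), (7, -34), (11, 43), (13, 19), (19, 98), (23, -7)])))) (.add (.mul (.g 20) (.add (.add (.add
    (.mul (.g 0) (.pp [(1, 81368700)])) (.mul (.g 3) (.pp [(1, 56040000)]))) (.add (.mul (.g 7) (.pp
    [(1, 241038000)])) (.mul (.g 9) (.pp [(1, 2784000)])))) (.add (.add (.mul (.g 12) (.pp [(1,
    321366000)])) (.mul (.g 17) (.pp [(1, 232722000)]))) (.add (.mul (.g 18) (.pp [(1, 311046000)]))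
    (.mul (.g 19) (.pp [(1, 85232400)])))))) (.add (.mul (.g 0) (.add (.add (.mul (.g 1) (.pp [(1,
    532347000)])) (.add (.mul (.g 4) (.pp [(1, 563718000)])) (.mul (.g 5) (.pp [(1, 879672000)]))))
    (.add (.mul (.g 7) (.pp [(1, 342390000)])) (.add (.mul (.g 9) (.pp [(1, 336750)])) (.mul (.g 16)
    (.pp [(1, 66085500)])))))) (.mul (.g 13) (.add (.add (.mul (.g 6) (.pp [(1, 1037430000)])) (.add
    (.mul (.g 7) (.pp [(1, 1770000)])) (.mul (.g 8) (.pp [(1, 476940000)])))) (.add (.mul (.g 17) (.pp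
    [(1, 2800380000)])) (.add (.mul (.g 18) (.pp [(1, 9150000)])) (.mul (.g 19) (.pp [(1,
    43746000)]))))))))) (.add (.add (.mul (.g 3) (.add (.add (.mul (.g 8) (.pp [(1, 615720000)]))
    (.mul (.g 10) (.pp [(1, 5144820000)]))) (.add (.mul (.g 12) (.pp [(1, 1968630000)])) (.add (.mul
    (.g 19) (.pp [(1, 544764000)])) (.mul (.g 21) (.pp [(1, 6288000)])))))) (.add (.mul (.g 18) (.add
    (.add (.mul (.g 10) (.pp [(1, 960810000)])) (.mul (.g 11) (.pp [(1, 381330000)]))) (.add (.mul (.g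
    18) (.pp [(1, 3447420000)])) (.mul (.g 19) (.pp [(1, 31134000)]))))) (.mul (.g 4) (.add (.mul (.g
    10) (.pp [(1, 55710000)])) (.mul (.g 19) (.pp [(1, 10440000)])))))) (.add (.add (.mul (.g 8) (.add
    (.mul (.g 9) (.pp [(1, 7764000)])) (.mul (.g 19) (.pp [(1, 268050000)])))) (.mul (.g 14) (.add
    (.mul (.g 11) (.pp [(1, 556140000)])) (.mul (.g 14) (.pp [(1, 542970000)]))))) (.add (.mul (.g 9)
    (.mul (.g 10) (.pp [(1, 38484000)]))) (.mul (.g 21) (.mul (.g 21) (.pp [(1, 56774400)])))))))))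
    (.add (.mul (.g 14) (.add (.add (.add (.mul (.pp [(1, 404055)]) (.sq [(1, -48), (2, -21), (3, 27),
    (5, -18), (7, 100), (11, -15), (13, -17), (19, 52)])) (.add (.mul (.pp [(1, 54765)]) (.sq [(1,
    -5), (2, -66), (3, 100), (5, -6), (7, -47), (11, 6), (13, 73), (19, -7), (23, -10)])) (.mul (.pp
    [(1, 9195)]) (.sq [(1, -75), (2, -39), (3, -71), (5, -31), (7, 94), (11, -37), (13, 100), (19,
    87), (23, -28)])))) (.add (.add (.mul (.pp [(1, 172470)]) (.sq [(1, -12), (2, 68), (3, 100), (5,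
    56), (7, -73), (11, 25), (13, -54), (19, 37), (23, -82)])) (.mul (.pp [(1, 498795)]) (.sq [(1,
    -51), (2, 100), (3, 57), (5, -11), (7, 32), (11, -3), (13, -4), (19, 10), (23, -9)]))) (.add (.mul
    (.pp [(1, 288435)]) (.sq [(2, -77), (3, 28), (5, -11), (7, -35), (11, 100), (13, 25), (19, -82),
    (23, -10)])) (.mul (.g 9) (.add (.add (.mul (.g 0) (.pp [(1, 40866375)])) (.mul (.g 3) (.pp [(1,
    312112500)]))) (.add (.mul (.g 8) (.pp [(1, 376132500)])) (.add (.mul (.g 17) (.pp [(1,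
    220222500)])) (.mul (.g 19) (.pp [(1, 5323500)]))))))))) (.add (.add (.mul (.g 13) (.add (.add
    (.pp [(1, 4150950000)]) (.mul (.g 18) (.pp [(1, 2753100000)]))) (.add (.mul (.g 19) (.pp [(1,
    823590000)])) (.mul (.g 20) (.pp [(1, 8813220000)]))))) (.add (.mul (.g 17) (.add (.add (.mul (.g
    7) (.pp [(1, 5653050000)])) (.mul (.g 10) (.pp [(1, 13053450000)]))) (.add (.mul (.g 17) (.pp [(1,
    6570150000)])) (.mul (.g 19) (.pp [(1, 9184860000)]))))) (.mul (.g 3) (.add (.mul (.g 6) (.pp [(1,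
    17926200000)])) (.add (.mul (.g 7) (.pp [(1, 4012500000)])) (.mul (.g 20) (.pp [(1,
    1656270000)]))))))) (.add (.add (.mul (.g 4) (.add (.mul (.g 2) (.pp [(1, 23617350000)])) (.add
    (.mul (.g 16) (.pp [(1, 8645100000)])) (.mul (.g 18) (.pp [(1, 2377050000)]))))) (.mul (.g 11)
    (.add (.mul (.g 11) (.pp [(1, 3948600000)])) (.mul (.g 19) (.pp [(1, 1221030000)]))))) (.add (.mul
    (.g 14) (.add (.pp [(1, 4661850000)]) (.mul (.g 8) (.pp [(1, 2023800000)])))) (.mul (.g 7) (.mul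
    (.g 18) (.pp [(1, 11729250000)])))))))) (.mul (.g 1) (.add (.add (.add (.mul (.pp [(1, 115395)])
    (.sq [(2, 100), (3, 54), (5, -63), (7, 38), (11, 35), (13, -48), (19, -11), (23, 88)])) (.add
    (.mul (.pp [(1, 20250)]) (.sq [(2, 100), (3, 100), (5, 85), (7, 53), (11, 100), (13, 100), (19,
    100), (23, 85)])) (.mul (.pp [(1, 218745)]) (.sq [(2, -27), (3, -42), (5, -1), (7, 21), (11, -78),
    (13, 100), (19, -39), (23, 100)])))) (.add (.mul (.pp [(1, 3491295)]) (.sq [(2, -53), (3, -100),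
    (5, -2), (7, -1), (11, 71), (13, 45), (19, 6), (23, -8)])) (.add (.mul (.pp [(1, 326340)]) (.sq
    [(1, -39), (2, 28), (3, 63), (5, 4), (7, 100), (11, 47), (13, -91), (19, 28), (23, 15)])) (.mul
    (.pp [(1, 416475)]) (.sq [(1, -56), (2, 82), (3, -86), (5, 19), (7, 73), (11, -100), (13, 11),
    (19, -14), (23, -48)]))))) (.add (.add (.mul (.g 18) (.add (.add (.mul (.g 1) (.pp [(1,
    18999300000)])) (.mul (.g 3) (.pp [(1, 14492550000)]))) (.add (.mul (.g 11) (.pp [(1,
    4294500000)])) (.add (.mul (.g 16) (.pp [(1, 9978450000)])) (.mul (.g 17) (.pp [(1,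
    47424000000)])))))) (.add (.mul (.g 0) (.add (.add (.mul (.g 2) (.pp [(1, 404152500)])) (.mul (.g
    15) (.pp [(1, 1760040000)]))) (.add (.mul (.g 17) (.pp [(1, 1482817500)])) (.mul (.g 19) (.pp [(1,
    103594500)]))))) (.mul (.g 3) (.add (.mul (.g 4) (.pp [(1, 24857250000)])) (.add (.mul (.g 8) (.pp
    [(1, 27391200000)])) (.mul (.g 16) (.pp [(1, 2254050000)]))))))) (.add (.add (.mul (.g 7) (.add
    (.mul (.g 11) (.pp [(1, 22653150000)])) (.mul (.g 17) (.pp [(1, 23196300000)])))) (.mul (.g 8)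
    (.add (.mul (.g 4) (.pp [(1, 51137100000)])) (.mul (.g 8) (.pp [(1, 60835650000)]))))) (.add (.mul
    (.g 6) (.mul (.g 10) (.pp [(1, 300150000)]))) (.mul (.g 17) (.mul (.g 20) (.pp [(1,
    6371880000)])))))))))) (.add (.add (.mul (.g 11) (.add (.add (.add (.mul (.pp [(1, 230940)]) (.sq
    [(2, 100), (3, 48), (5, 47), (7, -99), (13, 41), (23, -5)])) (.mul (.pp [(1, 80475)]) (.sq [(2,
    -1), (3, 53), (5, 100), (7, 1), (11, -15), (13, -94), (19, 15), (23, -30)]))) (.add (.mul (.g 19)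
    (.add (.add (.mul (.g 3) (.pp [(1, 2468550000)])) (.add (.mul (.g 9) (.pp [(1, 316465500)])) (.mul
    (.g 11) (.pp [(1, 709560000)])))) (.add (.mul (.g 12) (.pp [(1, 2209800000)])) (.add (.mul (.g 18)
    (.pp [(1, 2044290000)])) (.mul (.g 19) (.pp [(1, 153756000)])))))) (.mul (.g 4) (.add (.add (.pp
    [(1, 872850000)]) (.mul (.g 13) (.pp [(1, 21118800000)]))) (.add (.mul (.g 15) (.pp [(1,
    20500500000)])) (.mul (.g 18) (.pp [(1, 7045350000)]))))))) (.add (.add (.mul (.g 7) (.add (.add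
    (.pp [(1, 18918450000)]) (.mul (.g 2) (.pp [(1, 2700300000)]))) (.add (.mul (.g 3) (.pp [(1,
    256650000)])) (.mul (.g 16) (.pp [(1, 12831750000)]))))) (.mul (.g 9) (.add (.mul (.g 0) (.pp [(1,
    52587750)])) (.add (.mul (.g 8) (.pp [(1, 2500980000)])) (.mul (.g 12) (.pp [(1, 35962500)]))))))
    (.add (.mul (.g 3) (.mul (.g 8) (.pp [(1, 36541650000)]))) (.add (.mul (.g 13) (.mul (.g 18) (.pp
    [(1, 5394150000)]))) (.mul (.g 17) (.mul (.g 17) (.pp [(1, 6372750000)])))))))) (.mul (.g 10)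
    (.add (.add (.add (.mul (.pp [(1, 186420)]) (.sq [(3, -54), (5, -100), (7, 3), (11, -42), (13,
    90), (19, 16), (23, 34)])) (.mul (.pp [(1, 640185)]) (.sq [(1, -37), (2, 85), (3, 33), (5, 14),
    (7, -8), (11, 64), (13, -64), (19, 20), (23, -100)]))) (.add (.mul (.pp [(1, 489525)]) (.sq [(1,
    -42), (2, -15), (3, 79), (5, 40), (7, 60), (11, -100), (13, 41), (19, 4), (23, 1)])) (.add (.mul
    (.pp [(1, 482940)]) (.sq [(1, -26), (2, 98), (3, 77), (5, 44), (7, -40), (11, 25), (13, -43), (19,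
    1), (23, 100)])) (.mul (.pp [(1, 97095)]) (.sq [(1, 29), (2, 73), (3, 37), (5, 99), (7, 30), (11,
    22), (13, -88), (19, -100), (23, -80)]))))) (.add (.add (.mul (.g 9) (.add (.add (.pp [(1,
    31492500)]) (.mul (.g 0) (.pp [(1, 1116750)]))) (.add (.mul (.g 9) (.pp [(1, 119674125)])) (.mul
    (.g 16) (.pp [(1, 484282500)]))))) (.mul (.g 3) (.add (.mul (.g 10) (.pp [(1, 26971350000)]))
    (.mul (.g 13) (.pp [(1, 6457800000)]))))) (.add (.mul (.g 17) (.add (.mul (.g 0) (.pp [(1,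
    538222500)])) (.mul (.g 4) (.pp [(1, 13555800000)])))) (.add (.mul (.g 6) (.mul (.g 7) (.pp [(1,
    6640650000)]))) (.mul (.g 16) (.mul (.g 19) (.pp [(1, 1419780000)]))))))))) (.add (.mul (.g 5)
    (.add (.add (.mul (.pp [(1, 514290)]) (.sq [(1, -40), (2, 59), (3, -100), (5, -53), (7, -1), (11,
    -17), (13, 71), (19, -6), (23, -100)])) (.mul (.pp [(1, 2162610)]) (.sq [(1, 26), (2, 100), (3,
    -11), (5, 23), (7, 6), (11, -52), (13, -28), (19, -51), (23, 39)]))) (.add (.mul (.g 17) (.add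
    (.mul (.g 13) (.pp [(1, 9339000000)])) (.add (.mul (.g 16) (.pp [(1, 24823650000)])) (.mul (.g 20)
    (.pp [(1, 5856900000)]))))) (.add (.mul (.g 19) (.add (.mul (.g 7) (.pp [(1, 366570000)])) (.add
    (.mul (.g 16) (.pp [(1, 4199280000)])) (.mul (.g 20) (.pp [(1, 510012000)]))))) (.mul (.g 0) (.mul
    (.g 9) (.pp [(1, 79403250)]))))))) (.mul (.g 20) (.add (.add (.mul (.pp [(1, 292422)]) (.sq [(1,
    -8), (2, -100), (3, 80), (5, -13), (7, -3), (11, 26), (13, 86), (19, 37), (23, -7)])) (.mul (.pp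
    [(1, 141477)]) (.sq [(1, -38), (2, -1), (3, -54), (5, -28), (7, -14), (11, 28), (13, -12), (19,
    100), (23, -32)]))) (.add (.mul (.pp [(1, 12987)]) (.sq [(1, -2), (2, -49), (3, 46), (5, -19), (7,
    2), (11, -13), (13, 100), (19, 4), (23, 22)])) (.add (.mul (.pp [(1, 442692)]) (.sq [(1, -14), (2,
    -46), (3, 18), (5, 60), (7, -5), (11, -4), (13, 100), (19, 23), (23, -47)])) (.mul (.g 19) (.add
    (.mul (.g 12) (.pp [(1, 868392000)])) (.add (.mul (.g 16) (.pp [(1, 50352000)])) (.mul (.g 17)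
    (.pp [(1, 571932000)])))))))))))) (.add (.add (.add (.mul (.g 3) (.add (.mul (.pp [(1, 633255)])
    (.sq [(1, 21), (2, -1), (3, 100), (5, -18), (7, -99), (11, 95), (13, -95), (19, 24), (23, 66)]))
    (.add (.mul (.pp [(1, 710385)]) (.sq [(1, -20), (2, -17), (3, -36), (5, -46), (7, -6), (11, -18),
    (13, 27), (19, -32), (23, 100)])) (.mul (.pp [(1, 693390)]) (.sq [(1, -2), (2, -65), (3, -8), (5,
    1), (7, -4), (11, 100), (13, 62), (19, 92), (23, -83)]))))) (.mul (.g 7) (.add (.mul (.g 7) (.add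
    (.mul (.g 13) (.pp [(1, 4482750000)])) (.mul (.g 16) (.pp [(1, 3414900000)])))) (.mul (.g 8) (.mul
    (.g 17) (.pp [(1, 9266700000)])))))) (.add (.mul (.g 19) (.add (.mul (.pp [(1, 1362582)]) (.sq
    [(1, -2), (2, 100), (3, -7), (5, -1), (7, -6), (11, -4), (13, -4), (19, -5), (23, -4)])) (.add
    (.mul (.pp [(1, 549792)]) (.sq [(2, 50), (3, -2), (5, -5), (7, -5), (11, -33), (13, -2), (19, -5),
    (23, -5)])) (.mul (.g 8) (.mul (.g 19) (.pp [(1, 3172932000)])))))) (.mul (.g 4) (.add (.mul (.pp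
    [(1, 813345)]) (.sq [(1, -4), (2, -62), (3, -18), (5, -5), (7, 1), (11, 100), (13, 68), (19, 95),
    (23, -86)])) (.mul (.pp [(1, 618900)]) (.sq [(1, -21), (2, -9), (3, -82), (5, 47), (7, 29), (11,
    -80), (13, 58), (19, 61), (23, -100)])))))) (.add (.add (.mul (.g 12) (.add (.mul (.pp [(1,
    180000)]) (.sq [(1, -53), (2, 100), (3, 5), (5, 20), (7, -1), (11, -13), (13, 49), (19, -27), (23,
    1)])) (.mul (.pp [(1, 553680)]) (.sq [(1, -50), (2, -15), (3, -28), (5, -32), (11, -42), (13, 37),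
    (19, 100), (23, -34)])))) (.mul (.g 6) (.mul (.g 6) (.mul (.g 9) (.pp [(1, 657577500)]))))) (.add
    (.mul (.g 8) (.mul (.g 8) (.mul (.g 13) (.pp [(1, 988500000)])))) (.mul (.g 17) (.mul (.pp [(1,
    517845)]) (.sq [(1, -22), (2, 19), (3, -49), (5, -4), (7, -26), (11, 65), (13, 49), (19, 100),
    (23, -95)]))))))) (.pp [(1, 1075484022), (2, 1437270), (3, 1313088), (4, 1433859), (5, 1154730),
    (6, 1448064), (7, 1531146), (8, 1500000), (9, 1466961), (10, 1394712), (11, 1588962), (12,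
    1477050), (13, 1670310), (14, 1707168), (15, 1310328), (18, 1527840), (19, 1488663), (20,
    1473705), (21, 1825836), (22, 1165968), (23, 1633356), (25, 1677879), (26, 1438530), (27,
    1330230), (28, 1595280), (30, 1406850), (33, 1601988), (35, 1438950), (38, 1589286), (39,
    1486908), (42, 1712490), (44, 1423525), (45, 1354230), (46, 1792794), (49, 1598586), (50,
    1415910), (52, 1614585), (55, 1177236), (57, 1583952), (63, 1886880), (65, 1831608), (66,
    1370250), (69, 1770678), (70, 1547130), (75, 1475760), (76, 1459650), (77, 1604328), (78,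
    1656810), (91, 1353498), (92, 1466490), (95, 1824588), (98, 1177740), (99, 1535385), (105,
    1742610), (110, 1572090), (114, 1527810), (115, 1861428), (117, 1635225), (121, 1333008), (125,
    1468310), (130, 1658370), (133, 1301214), (138, 1373100), (143, 1540146), (147, 1371000), (154,
    1790940), (161, 1112808), (165, 1418130), (169, 1382238), (171, 1244460), (175, 1447200), (182,
    1367400), (190, 1520550), (195, 1731630), (207, 1613100), (209, 1699554), (230, 1498560), (231,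
    1730850), (242, 1459750), (245, 1331550), (247, 1402974), (253, 1420158), (266, 1687320), (273,
    1087560), (275, 1609800), (285, 1468260), (286, 1541280), (299, 1202904), (322, 1561260), (325,
    1483965), (338, 1465500), (343, 1547500), (345, 1689060), (361, 1476957), (363, 1370925), (385,
    1621590), (399, 1298580), (418, 1566900), (429, 1355070), (437, 1489536), (455, 1371420), (475,
    1439790), (483, 1121340), (494, 1527420), (506, 1668990), (507, 1378410), (529, 1512819), (539,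
    1305315), (575, 1529265), (598, 1439370), (605, 1521795), (627, 1668990), (637, 1805010), (665,
    1802880), (715, 1472070), (722, 1404720), (741, 1799370), (759, 1390650), (805, 2167560), (845,
    1321605), (847, 1655370), (874, 1411140), (897, 1523580), (931, 1363320), (1001, 1289550), (1045,
    1575900), (1058, 1324830), (1083, 1392030), (1127, 1510260), (1183, 1692450), (1235, 1503390),
    (1265, 1647630), (1311, 1552920), (1331, 1493125), (1463, 1678650), (1495, 1148490), (1573,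
    1753755), (1587, 1482570), (1729, 1482390), (1771, 1155090), (1805, 1314990), (1859, 1546470),
    (2093, 1722390), (2185, 985980), (2197, 1571775), (2299, 1411995), (2527, 1485555), (2645,
    1104525), (2717, 1281030), (2783, 1477530), (3059, 1659360), (3211, 1398225), (3289, 1547430),
    (3703, 1805550), (3887, 1497810), (3971, 1321095), (4693, 1618170), (4807, 1309650), (5681,
    1413240), (5819, 1770390), (6859, 1567260), (6877, 1613145), (8303, 1595715), (10051, 1447755),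
    (12167, 1376300)]))
    (by norm_num) (by decide +kernel)

theorem r1_p14 : Ck (gP1 4)
    (pol2 4 nE WE (vP0 d1E d2E) (hM (Ex.v 11))) :=
  Ck.mk' 250000 (.add (.add (.add (.add (.mul (.g 21) (.add (.add (.add (.mul (.pp [(1, 287493)]) (.sq [(1, -54),
    (2, -100), (3, -27), (5, 2), (7, 16), (11, 21), (13, 83), (19, 86), (23, -18)])) (.add (.mul (.pp
    [(1, 454152)]) (.sq [(1, -13), (2, -34), (3, 38), (5, 1), (7, 18), (11, 100), (13, 11), (19, -49),
    (23, -3)])) (.mul (.pp [(1, 195327)]) (.sq [(1, -3), (2, 17), (3, 21), (5, -68), (7, -30), (11,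
    -49), (13, 52), (19, -100), (23, 88)])))) (.add (.mul (.g 0) (.add (.add (.mul (.g 1) (.pp [(1,
    1088197500)])) (.add (.mul (.g 3) (.pp [(1, 10486500)])) (.mul (.g 4) (.pp [(1, 152952000)]))))
    (.add (.add (.mul (.g 9) (.pp [(1, 4908150)])) (.mul (.g 11) (.pp [(1, 20067000)]))) (.add (.mul
    (.g 16) (.pp [(1, 457200000)])) (.mul (.g 21) (.pp [(1, 95197800)])))))) (.add (.mul (.g 18) (.add
    (.add (.mul (.g 5) (.pp [(1, 910350000)])) (.add (.mul (.g 6) (.pp [(1, 3363930000)])) (.mul (.g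
    9) (.pp [(1, 92491500)])))) (.add (.add (.mul (.g 11) (.pp [(1, 1867740000)])) (.mul (.g 14) (.pp
    [(1, 999840000)]))) (.add (.mul (.g 18) (.pp [(1, 4095510000)])) (.mul (.g 19) (.pp [(1,
    605850000)])))))) (.mul (.g 6) (.add (.add (.mul (.g 2) (.pp [(1, 7498200000)])) (.mul (.g 9) (.pp
    [(1, 186648000)]))) (.add (.mul (.g 10) (.pp [(1, 464670000)])) (.mul (.g 13) (.pp [(1,
    430110000)])))))))) (.add (.add (.mul (.g 12) (.add (.add (.mul (.g 7) (.pp [(1, 361800000)]))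
    (.mul (.g 13) (.pp [(1, 980940000)]))) (.add (.mul (.g 16) (.pp [(1, 786150000)])) (.mul (.g 20)
    (.pp [(1, 146304000)]))))) (.add (.mul (.g 8) (.add (.mul (.g 4) (.pp [(1, 591720000)])) (.add
    (.mul (.g 9) (.pp [(1, 272346000)])) (.mul (.g 19) (.pp [(1, 90750000)]))))) (.mul (.g 9) (.add
    (.mul (.g 10) (.pp [(1, 20361000)])) (.mul (.g 13) (.pp [(1, 10291500)])))))) (.add (.add (.mul
    (.g 19) (.add (.mul (.g 16) (.pp [(1, 2574804000)])) (.mul (.g 20) (.pp [(1, 140413200)])))) (.mul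
    (.g 3) (.mul (.g 7) (.pp [(1, 2760990000)])))) (.add (.mul (.g 4) (.mul (.g 4) (.pp [(1,
    2730000)]))) (.mul (.g 13) (.mul (.g 17) (.pp [(1, 2091270000)])))))))) (.add (.mul (.g 14) (.add
    (.add (.add (.add (.mul (.pp [(1, 78330)]) (.sq [(1, 21), (2, -100), (3, 22), (5, -72), (7, 13),
    (11, -3), (13, 42), (19, -41), (23, 55)])) (.mul (.pp [(1, 2442345)]) (.sq [(2, 78), (3, -100),
    (5, 33), (7, 27), (11, 20), (13, -26), (19, -40), (23, 30)]))) (.add (.mul (.pp [(1, 377700)])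
    (.sq [(1, 47), (2, -19), (3, 52), (5, 100), (7, -68), (11, 18), (13, 5), (19, -36), (23, -31)]))
    (.mul (.pp [(1, 34455)]) (.sq [(1, 17), (2, 75), (3, -61), (5, 25), (7, -18), (11, 15), (13, -18),
    (19, -100), (23, 71)])))) (.add (.add (.mul (.pp [(1, 215565)]) (.sq [(2, 93), (3, -100), (5,
    -26), (7, -14), (11, -26), (13, 49), (19, -26), (23, -14)])) (.mul (.pp [(1, 3825)]) (.sq [(1,
    -70), (2, -66), (3, -19), (5, 19), (7, 14), (11, 73), (13, 100), (19, 17), (23, -26)]))) (.add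
    (.mul (.pp [(1, 540090)]) (.sq [(1, -30), (2, -23), (3, -22), (5, 22), (7, 56), (11, 56), (13,
    -68), (19, 67), (23, 100)])) (.mul (.pp [(1, 1351185)]) (.sq [(2, -100), (3, 11), (5, 48), (7,
    37), (11, 31), (13, -6), (19, -11), (23, 7)]))))) (.add (.add (.add (.mul (.pp [(1, 514200)]) (.sq
    [(1, -27), (2, -18), (3, 78), (5, 1), (7, 3), (11, -22), (13, 100), (19, -37), (23, -6)])) (.mul
    (.pp [(1, 513285)]) (.sq [(2, -28), (3, -9), (5, -44), (7, -21), (11, 100), (13, 17), (19, -12),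
    (23, 40)]))) (.add (.mul (.g 9) (.add (.add (.mul (.g 0) (.pp [(1, 76615500)])) (.mul (.g 3) (.pp
    [(1, 134122500)]))) (.add (.mul (.g 10) (.pp [(1, 276540000)])) (.add (.mul (.g 13) (.pp [(1,
    753705000)])) (.mul (.g 20) (.pp [(1, 33151500)])))))) (.mul (.g 17) (.add (.add (.mul (.g 4) (.pp
    [(1, 10098000000)])) (.mul (.g 6) (.pp [(1, 19789200000)]))) (.add (.mul (.g 11) (.pp [(1,
    9285450000)])) (.add (.mul (.g 18) (.pp [(1, 9368700000)])) (.mul (.g 20) (.pp [(1,
    3895440000)])))))))) (.add (.add (.mul (.g 3) (.add (.mul (.g 7) (.pp [(1, 7298100000)])) (.add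
    (.mul (.g 13) (.pp [(1, 4225800000)])) (.mul (.g 16) (.pp [(1, 4434900000)]))))) (.mul (.g 4)
    (.add (.pp [(1, 10015650000)]) (.mul (.g 16) (.pp [(1, 19516200000)]))))) (.add (.mul (.g 12)
    (.add (.mul (.g 6) (.pp [(1, 5703300000)])) (.mul (.g 14) (.pp [(1, 10200450000)])))) (.add (.mul
    (.g 1) (.mul (.g 13) (.pp [(1, 29938500000)]))) (.mul (.g 16) (.mul (.g 19) (.pp [(1,
    10434540000)]))))))))) (.mul (.g 1) (.add (.add (.add (.mul (.pp [(1, 602640)]) (.sq [(2, 31), (3,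
    -22), (5, 25), (7, -61), (11, 40), (13, 100), (19, -45), (23, -35)])) (.mul (.pp [(1, 357690)])
    (.sq [(2, 45), (3, 63), (5, 21), (7, 11), (11, 100), (13, -67), (19, 5), (23, -24)]))) (.add (.mul
    (.pp [(1, 4497750)]) (.sq [(2, -12), (3, 3), (5, 100), (7, 19), (11, -5), (13, -10), (19, -20),
    (23, 17)])) (.add (.mul (.g 17) (.add (.add (.mul (.g 0) (.pp [(1, 640785000)])) (.add (.mul (.g
    4) (.pp [(1, 36671850000)])) (.mul (.g 9) (.pp [(1, 489540000)])))) (.add (.mul (.g 16) (.pp [(1,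
    11495400000)])) (.add (.mul (.g 18) (.pp [(1, 15702300000)])) (.mul (.g 20) (.pp [(1,
    2447310000)])))))) (.mul (.g 4) (.add (.add (.pp [(1, 7266750000)]) (.mul (.g 3) (.pp [(1,
    21791850000)]))) (.add (.mul (.g 4) (.pp [(1, 18139950000)])) (.mul (.g 8) (.pp [(1,
    99337050000)])))))))) (.add (.add (.mul (.g 0) (.add (.mul (.g 2) (.pp [(1, 682110000)])) (.add
    (.mul (.g 15) (.pp [(1, 1461337500)])) (.mul (.g 16) (.pp [(1, 648997500)]))))) (.add (.mul (.g
    18) (.add (.pp [(1, 19825650000)]) (.add (.mul (.g 11) (.pp [(1, 4618800000)])) (.mul (.g 13) (.pp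
    [(1, 2359350000)]))))) (.mul (.g 19) (.add (.mul (.g 8) (.pp [(1, 8347530000)])) (.add (.mul (.g
    12) (.pp [(1, 2584200000)])) (.mul (.g 20) (.pp [(1, 1597572000)]))))))) (.add (.mul (.g 8) (.mul
    (.g 20) (.pp [(1, 1510890000)]))) (.add (.mul (.g 9) (.mul (.g 16) (.pp [(1, 2719515000)]))) (.mul
    (.g 12) (.mul (.g 13) (.pp [(1, 1102950000)])))))))))) (.add (.mul (.g 6) (.add (.add (.add (.mul
    (.pp [(1, 717480)]) (.sq [(1, -7), (2, 47), (3, -37), (5, 100), (7, 25), (11, -86), (13, -30),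
    (19, -71), (23, 47)])) (.mul (.g 16) (.add (.add (.mul (.g 0) (.pp [(1, 2403285000)])) (.add (.mul
    (.g 3) (.pp [(1, 11626350000)])) (.mul (.g 4) (.pp [(1, 7999200000)])))) (.add (.mul (.g 9) (.pp
    [(1, 793230000)])) (.add (.mul (.g 13) (.pp [(1, 1474950000)])) (.mul (.g 19) (.pp [(1,
    18955140000)]))))))) (.add (.mul (.g 4) (.add (.mul (.g 6) (.pp [(1, 27622800000)])) (.add (.mul
    (.g 18) (.pp [(1, 29419950000)])) (.mul (.g 20) (.pp [(1, 3102420000)]))))) (.mul (.g 2) (.add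
    (.mul (.g 9) (.pp [(1, 1292392500)])) (.mul (.g 10) (.pp [(1, 7834200000)])))))) (.add (.add (.mul
    (.g 0) (.mul (.g 20) (.pp [(1, 86895000)]))) (.mul (.g 7) (.mul (.g 19) (.pp [(1, 1339590000)]))))
    (.add (.mul (.g 9) (.mul (.g 9) (.pp [(1, 26174625)]))) (.add (.mul (.g 12) (.mul (.g 13) (.pp
    [(1, 18123600000)]))) (.mul (.g 17) (.mul (.g 18) (.pp [(1, 11171100000)])))))))) (.add (.mul (.g
    8) (.add (.add (.mul (.pp [(1, 36120)]) (.sq [(1, -62), (2, 35), (3, 66), (5, -28), (7, -17), (11,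
    100), (13, 36), (19, -14), (23, -3)])) (.add (.mul (.pp [(1, 1163220)]) (.sq [(1, -1), (2, 100),
    (3, -22), (5, -62), (7, 18), (11, -24), (13, -55), (19, -16), (23, 9)])) (.mul (.pp [(1,
    4274190)]) (.sq [(2, 100), (3, -18), (5, -18), (7, -18), (11, 57), (13, -18), (19, -18), (23,
    -18)])))) (.add (.add (.mul (.g 4) (.add (.add (.pp [(1, 24169500000)]) (.add (.mul (.g 8) (.pp
    [(1, 26451300000)])) (.mul (.g 11) (.pp [(1, 43165500000)])))) (.add (.mul (.g 12) (.pp [(1,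
    7534800000)])) (.add (.mul (.g 19) (.pp [(1, 3375030000)])) (.mul (.g 20) (.pp [(1,
    506220000)])))))) (.mul (.g 13) (.add (.mul (.g 9) (.pp [(1, 173707500)])) (.add (.mul (.g 17)
    (.pp [(1, 16849950000)])) (.mul (.g 19) (.pp [(1, 2558550000)])))))) (.add (.mul (.g 8) (.add
    (.mul (.g 9) (.pp [(1, 3622447500)])) (.mul (.g 19) (.pp [(1, 6527880000)])))) (.mul (.g 19) (.mul
    (.g 20) (.pp [(1, 1158336000)]))))))) (.mul (.g 7) (.add (.add (.mul (.pp [(1, 556230)]) (.sq [(1,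
    -34), (2, 34), (3, 66), (5, 48), (7, -76), (11, 100), (13, 12), (19, -29), (23, 25)])) (.add (.mul
    (.g 17) (.add (.add (.mul (.g 2) (.pp [(1, 3616950000)])) (.mul (.g 3) (.pp [(1, 541500000)])))
    (.add (.mul (.g 13) (.pp [(1, 25691850000)])) (.add (.mul (.g 16) (.pp [(1, 5672550000)])) (.mul
    (.g 20) (.pp [(1, 3939450000)])))))) (.mul (.g 9) (.add (.mul (.g 9) (.pp [(1, 30299250)])) (.add
    (.mul (.g 12) (.pp [(1, 284242500)])) (.mul (.g 19) (.pp [(1, 43129500)]))))))) (.add (.mul (.g 4)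
    (.add (.mul (.g 5) (.pp [(1, 36490650000)])) (.mul (.g 12) (.pp [(1, 3721200000)])))) (.add (.mul
    (.g 3) (.mul (.g 12) (.pp [(1, 3202500000)]))) (.mul (.g 19) (.mul (.g 20) (.pp [(1,
    1687812000)])))))))))) (.add (.add (.mul (.g 10) (.add (.add (.mul (.pp [(1, 1348455)]) (.sq [(2,
    100), (3, 28), (5, -40), (7, -30), (11, -63), (13, -46), (19, 80), (23, -32)])) (.add (.mul (.pp
    [(1, 1031490)]) (.sq [(2, -49), (3, 92), (5, -23), (7, -29), (11, 100), (13, -71), (19, 48), (23,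
    7)])) (.mul (.pp [(1, 1088520)]) (.sq [(1, -41), (2, -53), (3, -17), (5, -39), (7, 34), (11, 100),
    (13, 50), (19, -23), (23, -63)])))) (.add (.add (.mul (.pp [(1, 936165)]) (.sq [(1, -72), (2, 81),
    (3, 88), (5, 16), (7, -28), (11, -51), (13, 100), (19, 21), (23, 12)])) (.mul (.pp [(1, 1650915)])
    (.sq [(1, -8), (2, -100), (3, 4), (5, -32), (7, -24), (11, -30), (13, 58), (19, 43), (23, 95)])))
    (.add (.mul (.g 0) (.add (.mul (.g 9) (.pp [(1, 58614375)])) (.mul (.g 19) (.pp [(1,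
    71176500)])))) (.mul (.g 19) (.mul (.g 20) (.pp [(1, 79962000)]))))))) (.add (.mul (.g 5) (.add
    (.add (.mul (.pp [(1, 239055)]) (.sq [(1, 2), (2, -86), (3, -10), (5, 100), (7, -73), (11, 24),
    (19, 74), (23, 36)])) (.mul (.pp [(1, 51045)]) (.sq [(1, -11), (2, -76), (3, 2), (5, -18), (7,
    89), (11, -100), (13, -8), (19, 91), (23, 43)]))) (.add (.mul (.g 17) (.add (.mul (.g 13) (.pp
    [(1, 16134150000)])) (.add (.mul (.g 18) (.pp [(1, 8295750000)])) (.mul (.g 20) (.pp [(1,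
    5513130000)]))))) (.add (.mul (.g 0) (.mul (.g 9) (.pp [(1, 177980250)]))) (.mul (.g 4) (.mul (.g
    18) (.pp [(1, 355050000)]))))))) (.mul (.g 19) (.add (.add (.mul (.pp [(1, 715119)]) (.sq [(1,
    49), (2, -100), (3, 42), (5, -71), (7, 11), (11, 6), (13, -39), (19, -14), (23, 29)])) (.mul (.pp
    [(1, 613959)]) (.sq [(1, 2), (2, 100), (3, -29), (5, -6), (7, -2), (11, -2), (13, -28), (19, -1),
    (23, -6)]))) (.add (.mul (.g 16) (.add (.mul (.g 12) (.pp [(1, 1851000000)])) (.mul (.g 16) (.pp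
    [(1, 1709520000)])))) (.add (.mul (.g 11) (.mul (.g 19) (.pp [(1, 1261512000)]))) (.mul (.g 17)
    (.mul (.g 20) (.pp [(1, 1714842000)]))))))))) (.add (.add (.mul (.g 20) (.add (.add (.mul (.pp
    [(1, 136314)]) (.sq [(1, 1), (2, -37), (3, -36), (5, 68), (7, 3), (11, -53), (13, 100), (19, 26),
    (23, -69)])) (.mul (.pp [(1, 95679)]) (.sq [(2, 54), (3, -100), (5, 93), (7, -11), (11, 3), (13,
    -91), (19, -18), (23, -25)]))) (.add (.mul (.pp [(1, 176298)]) (.sq [(1, -31), (2, -27), (3, 84),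
    (5, 46), (7, -32), (11, 13), (13, 100), (19, 26), (23, 10)])) (.mul (.pp [(1, 4983660000)]) (.sq
    [(2, 1), (13, -1)]))))) (.mul (.g 11) (.add (.mul (.pp [(1, 842955)]) (.sq [(1, -49), (2, 100),
    (3, 12), (5, 5), (7, -50), (11, 80), (13, 47), (19, -50), (23, -18)])) (.add (.mul (.pp [(1,
    213450)]) (.sq [(1, 4), (2, 21), (3, -50), (5, 77), (7, -97), (11, 100), (13, 24), (19, -11), (23,
    13)])) (.mul (.g 9) (.mul (.g 13) (.pp [(1, 212415000)]))))))) (.add (.mul (.g 4) (.mul (.pp [(1,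
    37071150000)]) (.sq [(19, 1), (23, -1)]))) (.mul (.g 16) (.mul (.g 17) (.mul (.g 17) (.pp [(1,
    5785050000)])))))))) (.pp [(1, 776760657), (2, 1475415), (3, 1651311), (4, 1577409), (5, 1425747),
    (6, 1310166), (7, 1203192), (8, 1500000), (9, 1406763), (10, 1698522), (11, 1627269), (12,
    1523070), (13, 1631997), (14, 1423182), (15, 1471104), (18, 1507245), (19, 1572414), (20,
    1491075), (21, 1352964), (22, 1679892), (23, 1493349), (25, 1646010), (26, 1565826), (27,
    1491930), (28, 1528920), (30, 1491780), (33, 1644456), (35, 1691766), (38, 1432320), (39,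
    1613142), (42, 1647360), (44, 1539550), (45, 1603140), (46, 1423002), (49, 1777191), (50,
    1459215), (52, 1432290), (55, 1578102), (57, 1403478), (63, 1295760), (65, 1513416), (66,
    1445370), (69, 1386720), (70, 1544370), (75, 1531530), (76, 1427205), (77, 1248348), (78,
    1494780), (91, 1437018), (92, 1465605), (95, 1332108), (98, 1689495), (99, 1534350), (105,
    1508760), (110, 1478130), (114, 1560090), (115, 1412172), (117, 1642560), (121, 1739898), (125,
    1530860), (130, 1390260), (133, 1430556), (138, 1448880), (143, 1253856), (147, 1633320), (154,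
    1978020), (161, 1489716), (165, 1471230), (169, 1436172), (171, 1503360), (175, 1324050), (182,
    1250490), (190, 1488960), (195, 1531800), (207, 1484730), (209, 1415664), (230, 1350480), (231,
    1394280), (242, 1480600), (245, 1252380), (247, 1415106), (253, 1542216), (266, 1106700), (273,
    1429320), (275, 1552455), (285, 1424370), (286, 1428450), (299, 1269678), (322, 913710), (325,
    1413705), (338, 1510065), (343, 1476440), (345, 1491540), (361, 1653882), (363, 1518120), (385,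
    1631220), (399, 1492890), (418, 1253130), (429, 1373520), (437, 1855416), (455, 1449210), (475,
    1617315), (483, 1678620), (494, 1622100), (506, 1119240), (507, 1394655), (529, 1705605), (539,
    1306470), (575, 1404435), (598, 1697730), (605, 1495860), (627, 1595160), (637, 1503945), (665,
    1893600), (715, 1500540), (722, 1641645), (741, 1639020), (759, 1604820), (805, 1577970), (845,
    1475205), (847, 1114830), (874, 2043030), (897, 1370400), (931, 1814250), (1001, 1609950), (1045,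
    1341420), (1058, 1815405), (1083, 1486230), (1127, 1497285), (1183, 1512120), (1235, 1483800),
    (1265, 1433340), (1311, 1628790), (1331, 1479970), (1463, 1675140), (1495, 1641630), (1573,
    1450815), (1587, 1631235), (1729, 1534470), (1771, 1911510), (1805, 1396440), (1859, 1586085),
    (2093, 1688040), (2185, 1413090), (2197, 1535010), (2299, 1647240), (2527, 1181985), (2645,
    1589430), (2717, 1578420), (2783, 1622895), (3059, 1307400), (3211, 1510125), (3289, 1459860),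
    (3703, 1374525), (3887, 1680240), (3971, 1533240), (4693, 1461090), (4807, 1381410), (5681,
    1263270), (5819, 1352970), (6859, 1533095), (6877, 1481910), (8303, 1431765), (10051, 1292610),
    (12167, 1381490)]))
    (by norm_num) (by decide +kernel)

theorem r1_y1 : Ck (gY1 2)
    (pol2 2 nE WE (vY0 d1E d2E) (hM (Ex.v 11))) :=
  Ck.mk' 1000000 (.add (.add (.add (.add (.mul (.g 12) (.add (.add (.add (.mul (.pp [(1, 4140000)]) (.sq [(2, 100),
    (3, 12), (5, 96), (7, 39), (11, -61), (19, -24), (23, -14)])) (.add (.mul (.pp [(1, 4048260)])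
    (.sq [(2, 1), (3, -22), (5, -65), (7, 100), (11, -8), (19, -78), (23, 22)])) (.mul (.pp [(1,
    59844600000)]) (.sq [(2, -1), (3, 1)])))) (.add (.add (.mul (.pp [(1, 10765980)]) (.sq [(2, -100),
    (3, 45), (5, 80), (7, 35), (11, 15), (19, -55), (23, -46)])) (.mul (.g 8) (.add (.add (.pp [(1,
    155075400000)]) (.mul (.g 2) (.pp [(1, 5469000000)]))) (.add (.mul (.g 7) (.pp [(1,
    90992400000)])) (.mul (.g 13) (.pp [(1, 104201400000)])))))) (.add (.mul (.g 15) (.add (.add (.pp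
    [(1, 515807400000)]) (.mul (.g 2) (.pp [(1, 4576800000)]))) (.add (.mul (.g 3) (.pp [(1,
    54169200000)])) (.mul (.g 4) (.pp [(1, 61951800000)]))))) (.mul (.g 14) (.add (.pp [(1,
    30840000000)]) (.add (.mul (.g 6) (.pp [(1, 15007200000)])) (.mul (.g 18) (.pp [(1,
    19833600000)])))))))) (.add (.add (.mul (.g 16) (.add (.mul (.g 3) (.pp [(1, 187956000000)]))
    (.add (.mul (.g 7) (.pp [(1, 24747000000)])) (.mul (.g 19) (.pp [(1, 1270200000)]))))) (.add (.mul
    (.g 12) (.add (.pp [(1, 127212600000)]) (.mul (.g 9) (.pp [(1, 2691720000)])))) (.mul (.g 0) (.mul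
    (.g 7) (.pp [(1, 2725050000)]))))) (.add (.add (.mul (.g 1) (.pp [(1, 105235800000)])) (.mul (.g
    2) (.mul (.g 17) (.pp [(1, 19534320000)])))) (.add (.mul (.g 5) (.pp [(1, 393537000000)])) (.mul
    (.g 19) (.pp [(1, 35923560000)]))))))) (.add (.mul (.g 19) (.add (.add (.add (.mul (.pp [(1,
    2225964)]) (.sq [(2, 100), (3, 67), (5, 10), (7, 22), (11, 7), (19, 43), (23, -70)])) (.mul (.pp
    [(1, 732648)]) (.sq [(1, -56), (2, 74), (3, -18), (5, 74), (11, -100), (19, -41), (23, 10)])))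
    (.add (.mul (.g 17) (.add (.add (.mul (.g 2) (.pp [(1, 3998088000)])) (.add (.mul (.g 5) (.pp [(1,
    5085552000)])) (.mul (.g 10) (.pp [(1, 3364560000)])))) (.add (.mul (.g 14) (.pp [(1,
    4160592000)])) (.add (.mul (.g 16) (.pp [(1, 2555088000)])) (.mul (.g 18) (.pp [(1,
    248966400)])))))) (.mul (.g 8) (.add (.add (.pp [(1, 13783320000)]) (.mul (.g 7) (.pp [(1,
    23099400000)]))) (.add (.mul (.g 16) (.pp [(1, 16979160000)])) (.mul (.g 18) (.pp [(1,
    4600704000)]))))))) (.add (.add (.mul (.g 2) (.add (.mul (.g 11) (.pp [(1, 5316360000)])) (.mul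
    (.g 19) (.pp [(1, 2106216000)])))) (.mul (.g 9) (.add (.mul (.g 6) (.pp [(1, 315192000)])) (.mul
    (.g 11) (.pp [(1, 186246000)]))))) (.add (.mul (.g 16) (.add (.mul (.g 3) (.pp [(1,
    22274400000)])) (.mul (.g 16) (.pp [(1, 6604320000)])))) (.add (.mul (.g 0) (.pp [(1,
    1374642000)])) (.mul (.g 19) (.mul (.g 19) (.pp [(1, 366489600)])))))))) (.mul (.g 1) (.add (.add
    (.add (.mul (.pp [(1, 8332860)]) (.sq [(2, 18), (3, -11), (5, -78), (7, 41), (11, 10), (19, 46),
    (23, 100)])) (.add (.mul (.pp [(1, 20602380)]) (.sq [(2, 64), (3, -100), (5, 2), (7, -4), (11,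
    -71), (19, -37), (23, -11)])) (.mul (.pp [(1, 5943600)]) (.sq [(2, -19), (3, 1), (5, 8), (7, -53),
    (11, 100), (19, -28), (23, -9)])))) (.add (.mul (.pp [(1, 1696200)]) (.sq [(2, 14), (3, 14), (5,
    -59), (7, 100), (11, 14), (19, -59), (23, 14)])) (.add (.mul (.pp [(1, 410160)]) (.sq [(1, 1), (2,
    98), (3, 5), (5, 55), (11, -100), (19, -55), (23, -3)])) (.mul (.g 16) (.add (.add (.pp [(1,
    408222600000)]) (.mul (.g 4) (.pp [(1, 21080400000)]))) (.add (.mul (.g 7) (.pp [(1,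
    254451000000)])) (.mul (.g 16) (.pp [(1, 33918600000)])))))))) (.add (.add (.mul (.g 15) (.add
    (.pp [(1, 582549600000)]) (.add (.mul (.g 5) (.pp [(1, 60111600000)])) (.mul (.g 6) (.pp [(1,
    252816000000)]))))) (.add (.mul (.g 2) (.add (.pp [(1, 31713000000)]) (.mul (.g 4) (.pp [(1,
    181543200000)])))) (.mul (.g 4) (.mul (.g 4) (.pp [(1, 28114200000)]))))) (.add (.mul (.g 6) (.mul
    (.g 10) (.pp [(1, 92632800000)]))) (.add (.mul (.g 8) (.pp [(1, 247003200000)])) (.mul (.g 17)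
    (.mul (.g 17) (.pp [(1, 7402296000)])))))))))) (.add (.add (.mul (.g 15) (.add (.add (.add (.mul
    (.pp [(1, 5712120)]) (.sq [(2, 83), (3, 1), (5, -100), (7, -31), (11, -84), (19, 56), (23, 37)]))
    (.add (.mul (.pp [(1, 9371760)]) (.sq [(1, 20), (2, 16), (3, 56), (5, 89), (7, -100), (11, 2),
    (19, 19), (23, -34)])) (.mul (.pp [(1, 7098240)]) (.sq [(1, -4), (2, 8), (3, 71), (5, 15), (7,
    99), (11, 2), (19, 60), (23, -100)])))) (.add (.mul (.pp [(1, 4658400)]) (.sq [(3, 100), (5, 2),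
    (7, 39), (11, 38), (19, 40), (23, 29)])) (.add (.mul (.pp [(1, 3146760)]) (.sq [(3, 100), (5, 72),
    (7, 16), (11, -13), (19, -19), (23, 29)])) (.mul (.pp [(1, 34576740)]) (.sq [(2, -86), (5, -6),
    (7, -100), (11, 87), (19, 77), (23, 51)]))))) (.add (.add (.mul (.pp [(1, 4083960)]) (.sq [(2,
    -96), (3, 18), (5, -19), (7, -35), (11, -92), (19, -100), (23, 76)])) (.add (.mul (.g 4) (.add
    (.mul (.g 8) (.pp [(1, 8922600000)])) (.mul (.g 11) (.pp [(1, 57255000000)])))) (.mul (.g 10)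
    (.add (.mul (.g 8) (.pp [(1, 626537400000)])) (.mul (.g 17) (.pp [(1, 126963720000)])))))) (.add
    (.mul (.g 14) (.add (.mul (.g 5) (.pp [(1, 48683400000)])) (.mul (.g 11) (.pp [(1,
    137458800000)])))) (.add (.mul (.g 2) (.mul (.g 17) (.pp [(1, 31806480000)]))) (.mul (.g 18) (.pp
    [(1, 3311640000)]))))))) (.mul (.g 8) (.add (.add (.mul (.pp [(1, 4973700)]) (.sq [(1, 7), (2,
    100), (3, 20), (5, 14), (7, -49), (11, -29), (19, -58), (23, 17)])) (.add (.mul (.g 9) (.add (.pp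
    [(1, 9102900000)]) (.add (.mul (.g 8) (.pp [(1, 5900580000)])) (.mul (.g 11) (.pp [(1,
    4611720000)]))))) (.mul (.g 2) (.add (.mul (.g 11) (.pp [(1, 97142400000)])) (.mul (.g 16) (.pp
    [(1, 144272400000)])))))) (.add (.mul (.g 7) (.add (.pp [(1, 68340600000)]) (.mul (.g 18) (.pp
    [(1, 12558000000)])))) (.add (.mul (.g 14) (.add (.mul (.g 8) (.pp [(1, 172593000000)])) (.mul (.g
    14) (.pp [(1, 173332200000)])))) (.mul (.g 17) (.pp [(1, 50746560000)]))))))) (.add (.mul (.g 10)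
    (.add (.add (.add (.mul (.pp [(1, 2580360)]) (.sq [(2, 69), (3, 7), (5, -100), (7, 8), (11, 56),
    (19, 93), (23, 8)])) (.mul (.pp [(1, 1133280)]) (.sq [(2, 57), (3, 100), (5, -29), (7, 5), (11,
    -82), (19, -4), (23, 36)]))) (.add (.mul (.pp [(1, 6357300)]) (.sq [(1, 11), (2, 24), (3, -30),
    (5, -3), (7, -22), (11, -100), (19, 16), (23, -9)])) (.mul (.pp [(1, 7674840)]) (.sq [(1, -14),
    (2, 3), (3, 53), (5, 8), (7, -40), (11, 1), (19, 100), (23, 51)])))) (.add (.add (.mul (.pp [(1,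
    344100)]) (.sq [(1, -86), (2, 42), (11, 65), (23, 100)])) (.mul (.pp [(1, 20835900)]) (.sq [(1,
    -4), (2, 100), (3, -1), (5, -25), (7, -2), (11, -10), (23, -4)]))) (.add (.mul (.g 9) (.add (.pp
    [(1, 25094700000)]) (.mul (.g 18) (.pp [(1, 90762000)])))) (.mul (.g 4) (.mul (.g 14) (.pp [(1,
    26082600000)]))))))) (.mul (.g 5) (.add (.add (.mul (.pp [(1, 3975240)]) (.sq [(1, -1), (2, 4),
    (3, -36), (5, -28), (7, -49), (11, 100), (19, -57), (23, 3)])) (.mul (.pp [(1, 1241040)]) (.sq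
    [(1, -18), (2, -94), (3, -11), (11, 100), (23, 5)]))) (.add (.mul (.g 6) (.add (.mul (.g 2) (.pp
    [(1, 255781200000)])) (.mul (.g 14) (.pp [(1, 27344400000)])))) (.add (.mul (.g 4) (.mul (.g 14)
    (.pp [(1, 66734400000)]))) (.mul (.g 7) (.mul (.g 16) (.pp [(1, 45888000000)])))))))))) (.add
    (.add (.mul (.g 17) (.add (.add (.mul (.pp [(1, 2485260)]) (.sq [(2, 100), (3, -4), (5, -11), (7,
    -11), (11, -66), (19, -11), (23, -11)])) (.mul (.g 6) (.add (.mul (.g 4) (.pp [(1, 29141760000)]))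
    (.mul (.g 14) (.pp [(1, 44780880000)]))))) (.add (.mul (.g 9) (.mul (.g 11) (.pp [(1,
    280086000)]))) (.mul (.g 14) (.mul (.g 14) (.pp [(1, 35148600000)])))))) (.add (.mul (.g 7) (.add
    (.mul (.pp [(1, 10768680)]) (.sq [(2, 6), (3, -90), (5, 47), (7, 3), (11, 100), (19, -17), (23,
    -6)])) (.add (.mul (.pp [(1, 1730520)]) (.sq [(2, 42), (3, -87), (5, 42), (7, 2), (11, -100), (19,
    -43), (23, -2)])) (.mul (.g 2) (.mul (.g 14) (.pp [(1, 53350800000)])))))) (.mul (.g 11) (.add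
    (.mul (.pp [(1, 2760900)]) (.sq [(1, -4), (2, 2), (3, 100), (5, -57), (7, 19), (11, 2), (19, 9),
    (23, -4)])) (.mul (.pp [(1, 2418240)]) (.sq [(2, -73), (3, 100), (5, 96), (7, 13), (11, 50), (19,
    -50), (23, -13)])))))) (.add (.add (.mul (.g 18) (.add (.mul (.pp [(1, 12064560000)]) (.sq [(2,
    1), (3, -1)])) (.mul (.pp [(1, 6906876)]) (.sq [(2, 47), (3, -1), (5, -29), (7, -77), (11, -100),
    (19, 12), (23, 78)])))) (.mul (.g 0) (.mul (.pp [(1, 715173)]) (.sq [(1, -21), (2, 26), (3, 100),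
    (5, 53), (7, 2), (11, -18), (19, -6), (23, -8)])))) (.add (.mul (.g 2) (.mul (.pp [(1, 6501540)])
    (.sq [(1, 2), (2, 17), (3, 76), (5, 38), (7, -22), (11, -9), (19, -100), (23, 96)]))) (.mul (.g 6)
    (.mul (.pp [(1, 5359980)]) (.sq [(1, 26), (2, 10), (3, -42), (5, 1), (7, -62), (11, 100), (19,
    -13), (23, -12)]))))))) (.pp [(1, 843343665), (2, 6579564), (3, 5500536), (4, 5115588), (5,
    5634798), (6, 5933928), (7, 5422104), (8, 6000000), (9, 6325368), (10, 5636964), (11, 6396144),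
    (12, 5056680), (14, 5758320), (15, 6425712), (18, 6004920), (19, 6505800), (20, 5442240), (21,
    6011832), (22, 7499016), (23, 6451884), (25, 6743289), (27, 5979360), (28, 6163200), (30,
    5717520), (33, 6659424), (35, 5795220), (38, 6235080), (42, 5769240), (44, 5795440), (45,
    5479140), (46, 5487360), (49, 5983776), (50, 5826780), (55, 6670188), (57, 5544144), (63,
    6593580), (66, 5679120), (69, 5607648), (70, 5688600), (75, 5386920), (76, 6062220), (77,
    6067416), (92, 6806700), (95, 5941596), (98, 6031500), (99, 6769800), (105, 5403240), (110,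
    5960640), (114, 6072960), (115, 5300400), (121, 4902648), (125, 5684240), (133, 5376624), (138,
    6139920), (147, 5770320), (154, 5988480), (161, 6739608), (165, 6274920), (171, 5894340), (175,
    6068400), (190, 6744840), (207, 5559240), (209, 5913120), (230, 6619200), (231, 7237800), (242,
    5887600), (245, 5972400), (253, 5129712), (266, 5785320), (275, 6513660), (285, 6063600), (322,
    6329880), (343, 5868460), (345, 6489720), (361, 6431760), (363, 5792880), (385, 5046840), (399,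
    6621480), (418, 6085320), (437, 5924808), (475, 5624640), (483, 6245880), (506, 5182320), (529,
    6057024), (539, 6465480), (575, 5904900), (605, 6186780), (627, 4545120), (665, 5518560), (722,
    5733420), (759, 4759440), (805, 6837360), (847, 5679900), (874, 5945160), (931, 5808780), (1045,
    5295120), (1058, 5909340), (1083, 6116400), (1127, 5851860), (1265, 6316560), (1311, 5851440),
    (1331, 6474700), (1463, 6652800), (1587, 6321180), (1771, 5994120), (1805, 6334980), (2185,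
    6244200), (2299, 6370680), (2527, 6776280), (2645, 6099960), (2783, 6651480), (3059, 6174480),
    (3703, 5474700), (3971, 5446140), (4807, 5571000), (5819, 6318780), (6859, 5559200), (8303,
    5599860), (10051, 6106980), (12167, 6045540)]))
    (by norm_num) (by decide +kernel)

theorem r1_b1 : Ck (gB1 3)
    (pol2 3 nE WE (vB1 d1E d2E) (hM (Ex.v 11))) :=
  Ck.mk' 250000 (.add (.add (.add (.add (.add (.mul (.g 15) (.add (.add (.add (.add (.mul (.pp [(1, 460890)]) (.sq
    [(1, -27), (2, -71), (3, 10), (5, 97), (7, -27), (11, -57), (13, 17), (19, 16), (23, -100)]))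
    (.mul (.pp [(1, 48900)]) (.sq [(2, -12), (3, -29), (5, -100), (7, -16), (11, 12), (13, 56), (19,
    25), (23, 87)]))) (.add (.mul (.pp [(1, 1795245)]) (.sq [(2, -1), (3, 65), (5, -100), (7, 28),
    (11, 84), (13, 7), (19, -31), (23, -74)])) (.mul (.pp [(1, 134115)]) (.sq [(1, 3), (2, 29), (3,
    27), (5, 28), (7, -22), (11, -86), (13, 100), (19, -53), (23, 73)])))) (.add (.add (.mul (.pp [(1,
    948150)]) (.sq [(2, 100), (3, -46), (5, -3), (7, -5), (11, 83), (13, -39), (19, 5), (23, 6)]))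
    (.mul (.pp [(1, 237750)]) (.sq [(1, -12), (2, -17), (3, -48), (5, -56), (7, 29), (11, 100), (13,
    100), (19, -49), (23, 46)]))) (.add (.mul (.pp [(1, 940995)]) (.sq [(2, -100), (3, 4), (5, -28),
    (7, 63), (11, 33), (13, -19), (19, -16), (23, 100)])) (.add (.mul (.pp [(1, 114225)]) (.sq [(2,
    -9), (3, -41), (5, -47), (7, -45), (11, 3), (13, 100), (19, -39), (23, -50)])) (.mul (.pp [(1,
    724050)]) (.sq [(2, 93), (3, -100), (5, -26), (7, -14), (11, -26), (13, 49), (19, -26), (23,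
    -14)])))))) (.add (.add (.add (.mul (.g 17) (.add (.add (.mul (.g 3) (.pp [(1, 17438700000)]))
    (.add (.mul (.g 9) (.pp [(1, 208597500)])) (.mul (.g 11) (.pp [(1, 2737350000)])))) (.add (.mul
    (.g 13) (.pp [(1, 571800000)])) (.add (.mul (.g 20) (.pp [(1, 3178410000)])) (.mul (.g 21) (.pp
    [(1, 525480000)])))))) (.mul (.g 21) (.add (.add (.mul (.g 7) (.pp [(1, 859710000)])) (.mul (.g
    12) (.pp [(1, 931440000)]))) (.add (.mul (.g 14) (.pp [(1, 4332390000)])) (.add (.mul (.g 18) (.pp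
    [(1, 3999060000)])) (.mul (.g 22) (.pp [(1, 480078000)]))))))) (.add (.mul (.g 3) (.add (.add
    (.mul (.g 5) (.pp [(1, 38748900000)])) (.mul (.g 7) (.pp [(1, 47570550000)]))) (.add (.mul (.g 12)
    (.pp [(1, 47043750000)])) (.mul (.g 13) (.pp [(1, 14437950000)]))))) (.add (.mul (.g 9) (.add
    (.mul (.g 6) (.pp [(1, 43972500)])) (.add (.mul (.g 8) (.pp [(1, 2352870000)])) (.mul (.g 15) (.pp
    [(1, 234735000)]))))) (.mul (.g 19) (.add (.mul (.g 12) (.pp [(1, 21804150000)])) (.add (.mul (.g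
    18) (.pp [(1, 5397000000)])) (.mul (.g 22) (.pp [(1, 3414150000)])))))))) (.add (.add (.mul (.g
    10) (.add (.mul (.g 0) (.pp [(1, 330735000)])) (.mul (.g 11) (.pp [(1, 1902300000)])))) (.mul (.g
    11) (.mul (.g 22) (.pp [(1, 8934600000)])))) (.add (.mul (.g 13) (.mul (.g 14) (.pp [(1,
    11740350000)]))) (.add (.mul (.g 15) (.pp [(1, 14008350000)])) (.mul (.g 18) (.mul (.g 20) (.pp
    [(1, 881100000)]))))))))) (.mul (.g 1) (.add (.add (.add (.mul (.pp [(1, 252105)]) (.sq [(1, 22),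
    (2, 80), (3, -100), (5, -14), (7, -47), (11, -74), (13, 9), (19, -51), (23, 90)])) (.add (.mul
    (.pp [(1, 563130)]) (.sq [(1, 29), (2, -100), (3, -14), (5, 100), (7, -47), (11, -15), (13, 65),
    (19, -18), (23, -56)])) (.mul (.pp [(1, 1307340)]) (.sq [(1, 15), (2, 46), (5, 100), (7, -77),
    (11, 50), (13, 40), (19, -39), (23, -53)])))) (.add (.add (.mul (.pp [(1, 1926915)]) (.sq [(1,
    27), (2, 25), (3, 3), (5, -14), (7, 100), (11, -9), (13, -45), (19, -58), (23, 15)])) (.mul (.pp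
    [(1, 184740)]) (.sq [(1, 8), (2, 100), (3, 44), (5, 9), (7, -16), (11, 47), (13, 20), (19, -61),
    (23, 56)]))) (.add (.mul (.pp [(1, 764085)]) (.sq [(1, 100), (2, -17), (3, -8), (5, 44), (7, -62),
    (11, -28), (13, 25), (19, -81), (23, 51)])) (.mul (.g 18) (.add (.add (.mul (.g 0) (.pp [(1,
    593340000)])) (.add (.mul (.g 10) (.pp [(1, 9028050000)])) (.mul (.g 14) (.pp [(1,
    40420050000)])))) (.add (.mul (.g 18) (.pp [(1, 2163900000)])) (.add (.mul (.g 19) (.pp [(1,
    1505400000)])) (.mul (.g 20) (.pp [(1, 5566740000)]))))))))) (.add (.add (.add (.mul (.g 0) (.add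
    (.pp [(1, 4567897500)]) (.add (.mul (.g 10) (.pp [(1, 96727500)])) (.mul (.g 13) (.pp [(1,
    1128007500)]))))) (.mul (.g 8) (.add (.mul (.g 2) (.pp [(1, 2729550000)])) (.add (.mul (.g 4) (.pp
    [(1, 12691950000)])) (.mul (.g 12) (.pp [(1, 26570700000)])))))) (.add (.mul (.g 19) (.add (.mul
    (.g 7) (.pp [(1, 38846550000)])) (.add (.mul (.g 19) (.pp [(1, 16062150000)])) (.mul (.g 20) (.pp
    [(1, 1038690000)]))))) (.mul (.g 20) (.add (.mul (.g 11) (.pp [(1, 15801840000)])) (.mul (.g 16)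
    (.pp [(1, 1149300000)])))))) (.add (.add (.mul (.g 3) (.mul (.g 17) (.pp [(1, 14188800000)])))
    (.mul (.g 10) (.mul (.g 22) (.pp [(1, 2397690000)])))) (.add (.mul (.g 12) (.mul (.g 12) (.pp [(1,
    69826200000)]))) (.mul (.g 14) (.pp [(1, 2133450000)])))))))) (.add (.mul (.g 10) (.add (.add
    (.add (.mul (.pp [(1, 536820)]) (.sq [(2, -12), (3, -100), (5, 94), (7, 8), (11, -10), (13, 46),
    (19, -10), (23, 23)])) (.add (.mul (.pp [(1, 446025)]) (.sq [(1, 2), (2, 43), (3, -31), (5, 100),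
    (7, -16), (11, -65), (13, -28), (19, -3), (23, -67)])) (.mul (.pp [(1, 3161700)]) (.sq [(1, 49),
    (2, -10), (3, -43), (5, -31), (7, 16), (11, -100), (13, 2), (19, -2), (23, 62)])))) (.add (.add
    (.mul (.pp [(1, 443400)]) (.sq [(2, 2), (3, -96), (5, -49), (7, 27), (11, 100), (13, 56), (19,
    -64), (23, 10)])) (.mul (.pp [(1, 9270)]) (.sq [(2, 100), (3, 46), (5, -13), (7, -9), (11, -76),
    (13, -26), (19, 1), (23, 14)]))) (.add (.mul (.g 11) (.add (.add (.pp [(1, 49021050000)]) (.mul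
    (.g 7) (.pp [(1, 25624200000)]))) (.add (.mul (.g 8) (.pp [(1, 50666550000)])) (.add (.mul (.g 19)
    (.pp [(1, 14318850000)])) (.mul (.g 20) (.pp [(1, 9302910000)])))))) (.mul (.g 10) (.add (.add
    (.mul (.g 3) (.pp [(1, 26282400000)])) (.mul (.g 4) (.pp [(1, 6514200000)]))) (.add (.mul (.g 18)
    (.pp [(1, 8186250000)])) (.mul (.g 19) (.pp [(1, 108600000)])))))))) (.add (.add (.mul (.g 5)
    (.add (.mul (.g 3) (.pp [(1, 7838850000)])) (.mul (.g 9) (.pp [(1, 1495335000)])))) (.add (.mul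
    (.g 14) (.add (.mul (.g 8) (.pp [(1, 3528150000)])) (.mul (.g 22) (.pp [(1, 3303630000)])))) (.mul
    (.g 18) (.add (.mul (.g 20) (.pp [(1, 2994750000)])) (.mul (.g 21) (.pp [(1, 4738380000)]))))))
    (.add (.add (.mul (.g 0) (.mul (.g 17) (.pp [(1, 1108200000)]))) (.mul (.g 9) (.mul (.g 13) (.pp
    [(1, 113775000)])))) (.add (.mul (.g 20) (.mul (.g 20) (.pp [(1, 172950000)]))) (.mul (.g 22) (.pp
    [(1, 3081900000)]))))))) (.mul (.g 11) (.add (.add (.add (.mul (.pp [(1, 1357155)]) (.sq [(1, 42),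
    (2, 100), (3, -69), (5, -63), (7, -9), (11, 27), (13, -39), (19, -10), (23, -32)])) (.mul (.g 8)
    (.add (.add (.mul (.g 3) (.pp [(1, 15741900000)])) (.mul (.g 9) (.pp [(1, 98287500)]))) (.add
    (.mul (.g 13) (.pp [(1, 18966150000)])) (.add (.mul (.g 19) (.pp [(1, 2196450000)])) (.mul (.g 21)
    (.pp [(1, 3415440000)]))))))) (.add (.mul (.g 11) (.add (.pp [(1, 8283900000)]) (.add (.mul (.g 3)
    (.pp [(1, 7735350000)])) (.mul (.g 9) (.pp [(1, 338790000)]))))) (.mul (.g 12) (.add (.mul (.g 5)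
    (.pp [(1, 47780100000)])) (.add (.mul (.g 17) (.pp [(1, 10393800000)])) (.mul (.g 19) (.pp [(1,
    28504050000)]))))))) (.add (.add (.mul (.g 18) (.add (.mul (.g 5) (.pp [(1, 26976450000)])) (.add
    (.mul (.g 20) (.pp [(1, 17160000)])) (.mul (.g 22) (.pp [(1, 1318050000)]))))) (.mul (.g 20) (.add
    (.pp [(1, 4659720000)]) (.mul (.g 14) (.pp [(1, 892950000)]))))) (.add (.mul (.g 3) (.mul (.g 7)
    (.pp [(1, 223800000)]))) (.mul (.g 13) (.mul (.g 22) (.pp [(1, 1714140000)]))))))))) (.add (.add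
    (.mul (.g 22) (.add (.add (.mul (.pp [(1, 368451)]) (.sq [(1, 7), (2, 100), (3, 17), (5, 42), (7,
    -73), (11, 8), (13, -52), (19, 32), (23, -18)])) (.add (.mul (.g 19) (.add (.add (.mul (.g 6) (.pp
    [(1, 5728080000)])) (.mul (.g 12) (.pp [(1, 719280000)]))) (.add (.mul (.g 18) (.pp [(1,
    918600000)])) (.add (.mul (.g 19) (.pp [(1, 4350360000)])) (.mul (.g 20) (.pp [(1,
    941580000)])))))) (.mul (.g 0) (.add (.add (.mul (.g 9) (.pp [(1, 17760525)])) (.mul (.g 17) (.pp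
    [(1, 529726500)]))) (.add (.mul (.g 18) (.pp [(1, 22831500)])) (.mul (.g 22) (.pp [(1,
    40567500)]))))))) (.add (.add (.mul (.g 14) (.add (.mul (.g 3) (.pp [(1, 3476940000)])) (.add
    (.mul (.g 8) (.pp [(1, 208380000)])) (.mul (.g 20) (.pp [(1, 965496000)]))))) (.mul (.g 21) (.add
    (.mul (.g 12) (.pp [(1, 1677864000)])) (.mul (.g 18) (.pp [(1, 20898000)]))))) (.add (.mul (.g 3)
    (.mul (.g 8) (.pp [(1, 1918980000)]))) (.mul (.g 20) (.mul (.g 20) (.pp [(1, 33210000)])))))))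
    (.mul (.g 20) (.add (.add (.add (.mul (.pp [(1, 580473)]) (.sq [(1, -5), (2, 100), (3, 32), (5,
    -49), (11, -10), (13, -2), (19, -21), (23, 28)])) (.mul (.pp [(1, 606021)]) (.sq [(1, -1), (2,
    100), (3, -12), (5, 4), (7, -4), (11, 2), (13, -15), (19, -6), (23, -1)]))) (.add (.mul (.pp [(1,
    213672)]) (.sq [(1, 22), (2, 100), (3, -14), (5, 27), (7, -4), (11, -2), (13, -16), (19, 20), (23,
    -82)])) (.mul (.pp [(1, 540096)]) (.sq [(1, -20), (2, -43), (3, 23), (5, 10), (7, 80), (11, -100),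
    (13, -5), (19, -45), (23, -13)])))) (.add (.add (.mul (.g 8) (.add (.add (.mul (.g 5) (.pp [(1,
    3803370000)])) (.mul (.g 9) (.pp [(1, 268747500)]))) (.add (.mul (.g 18) (.pp [(1, 7511370000)]))
    (.mul (.g 20) (.pp [(1, 746376000)]))))) (.mul (.g 18) (.add (.mul (.g 20) (.pp [(1, 354510000)]))
    (.mul (.g 21) (.pp [(1, 1302708000)]))))) (.add (.mul (.g 5) (.mul (.g 17) (.pp [(1,
    11683980000)]))) (.add (.mul (.g 7) (.mul (.g 9) (.pp [(1, 41506500)]))) (.mul (.g 12) (.mul (.g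
    20) (.pp [(1, 1386780000)]))))))))) (.add (.mul (.g 5) (.add (.add (.mul (.pp [(1, 658695)]) (.sq
    [(1, -8), (2, -12), (3, 30), (5, -100), (7, 49), (11, 89), (13, -14), (19, -11), (23, 82)])) (.mul
    (.pp [(1, 836430)]) (.sq [(1, -65), (2, -28), (3, -68), (5, -91), (7, -39), (11, 43), (13, 48),
    (19, 100), (23, -55)]))) (.add (.mul (.pp [(1, 2553015)]) (.sq [(2, 100), (3, 31), (5, 5), (7,
    -10), (11, -93), (13, -19), (19, 3), (23, 14)])) (.add (.mul (.g 3) (.add (.mul (.g 14) (.pp [(1,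
    17722200000)])) (.mul (.g 18) (.pp [(1, 51600150000)])))) (.mul (.g 9) (.mul (.g 18) (.pp [(1,
    534907500)]))))))) (.mul (.g 8) (.add (.add (.mul (.pp [(1, 557700)]) (.sq [(2, 42), (3, -12), (5,
    1), (7, 13), (11, 100), (13, -48), (19, -9), (23, 29)])) (.mul (.pp [(1, 175095)]) (.sq [(2, 1),
    (3, 98), (5, 22), (7, 25), (11, -2), (13, 99), (19, -100), (23, 98)]))) (.add (.mul (.pp [(1,
    1207560)]) (.sq [(1, 23), (2, 100), (3, -4), (5, -71), (7, -13), (11, 13), (13, 1), (19, -14),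
    (23, -1)])) (.add (.mul (.pp [(1, 45045)]) (.sq [(1, -27), (2, 35), (3, 80), (5, 100), (7, 51),
    (11, -19), (13, -34), (19, -44)])) (.mul (.g 14) (.add (.mul (.g 7) (.pp [(1, 16081350000)]))
    (.mul (.g 13) (.pp [(1, 2248200000)]))))))))))) (.add (.add (.add (.mul (.g 7) (.add (.mul (.pp
    [(1, 293655)]) (.sq [(1, 26), (2, -11), (3, -57), (5, 58), (7, 13), (11, -1), (13, 88), (19,
    -100), (23, 25)])) (.add (.mul (.pp [(1, 658320)]) (.sq [(1, 46), (2, -69), (3, -4), (5, -57), (7,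
    100), (11, -61), (13, -13), (19, -69), (23, 3)])) (.mul (.g 7) (.mul (.g 14) (.pp [(1,
    63150000)])))))) (.mul (.g 21) (.add (.mul (.pp [(1, 96825)]) (.sq [(1, -33), (2, -46), (3, 72),
    (5, 15), (7, 1), (11, -20), (13, 100), (19, 78), (23, -59)])) (.add (.mul (.pp [(1, 179508)]) (.sq
    [(1, 3), (2, 100), (3, -51), (5, -30), (7, 6), (11, -14), (13, -50), (19, -32), (23, 19)])) (.mul
    (.pp [(1, 1283670)]) (.sq [(1, -26), (2, -42), (3, -8), (5, -8), (7, -3), (11, -3), (13, 100),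
    (19, 27), (23, 4)])))))) (.add (.mul (.g 3) (.add (.mul (.pp [(1, 904740)]) (.sq [(1, -3), (2,
    -37), (3, -48), (5, 12), (7, -1), (11, 19), (13, 49), (19, 94), (23, -100)])) (.mul (.pp [(1,
    39270)]) (.sq [(1, -2), (2, -77), (3, 19), (5, -34), (7, 15), (11, 47), (13, 89), (19, 100), (23,
    -91)])))) (.mul (.g 4) (.add (.mul (.pp [(1, 971895)]) (.sq [(1, -13), (2, -38), (3, -48), (5,
    26), (7, -5), (11, 27), (13, 44), (19, 100), (23, -97)])) (.mul (.pp [(1, 520395)]) (.sq [(1, 42),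
    (2, 26), (3, 7), (5, 93), (7, 2), (11, -41), (13, -35), (19, -100), (23, 2)])))))) (.add (.add
    (.mul (.g 18) (.add (.mul (.pp [(1, 1367205)]) (.sq [(1, -3), (2, 42), (3, -68), (5, -14), (7,
    -16), (11, 27), (13, 100), (19, 46), (23, -62)])) (.mul (.pp [(1, 1202295)]) (.sq [(1, -10), (2,
    32), (3, 31), (5, 14), (7, -21), (11, 19), (13, 15), (19, 81), (23, -100)])))) (.mul (.g 0) (.mul
    (.pp [(1, 16914)]) (.sq [(1, 6), (2, -35), (3, -53), (5, 5), (11, 13), (13, 55), (19, 89), (23,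
    -100)])))) (.add (.mul (.g 6) (.mul (.pp [(1, 1680090)]) (.sq [(1, -20), (2, 100), (3, 32), (5,
    33), (7, -87), (11, 53), (13, -25), (19, 33), (23, -6)]))) (.add (.mul (.g 12) (.mul (.pp [(1,
    2176095)]) (.sq [(2, 94), (3, -65), (5, 100), (7, 6), (11, 9), (13, -10), (19, -53), (23, -47)])))
    (.mul (.g 14) (.mul (.pp [(1, 592395)]) (.sq [(1, -5), (2, -35), (3, -27), (5, 2), (7, -1), (11,
    -7), (13, 71), (19, 95), (23, -100)])))))))) (.pp [(1, 802391822), (2, 1366120), (3, 1424907), (4,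
    1527788), (5, 1468122), (6, 1561764), (7, 1394244), (8, 1487520), (9, 1434471), (10, 1541580),
    (11, 1735527), (12, 1410285), (13, 1600098), (14, 1659870), (15, 1275474), (18, 1597350), (19,
    1094649), (20, 1438200), (21, 1263564), (22, 1887060), (23, 1312692), (25, 1706757), (26,
    1092750), (27, 1395120), (28, 1620645), (30, 1476930), (33, 1503114), (35, 1249248), (38,
    1737460), (39, 1672458), (42, 1653330), (44, 1507980), (45, 1315365), (46, 1270986), (49,
    1595850), (50, 1384485), (52, 1521750), (55, 1457574), (57, 1712346), (63, 1309260), (65,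
    1753404), (66, 1709310), (69, 1288536), (70, 1440420), (75, 1608240), (76, 1475110), (77,
    1744548), (78, 1302990), (91, 1358736), (92, 1434930), (95, 1463718), (98, 1424790), (99,
    1439715), (105, 1637910), (110, 1397520), (114, 1580850), (115, 1353474), (117, 1511700), (121,
    1365036), (125, 1537820), (130, 1552050), (133, 1582338), (138, 1260870), (143, 1722252), (147,
    1428060), (154, 1436400), (161, 1326204), (165, 1364220), (169, 1434861), (171, 1606140), (175,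
    1109520), (182, 1597980), (190, 1535850), (195, 1659150), (207, 1573770), (209, 948360), (230,
    1672830), (231, 1698000), (242, 1591590), (245, 1663995), (247, 1478118), (253, 1417086), (266,
    1238520), (273, 1837830), (275, 1479915), (285, 1480620), (286, 1223310), (299, 1481088), (322,
    1652520), (325, 1398165), (338, 1663305), (343, 1279270), (345, 1626180), (361, 1607352), (363,
    1521600), (385, 1693890), (399, 1476210), (418, 1469640), (429, 1690470), (437, 2062998), (455,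
    1461870), (475, 1656225), (483, 1820100), (494, 1521840), (506, 1265640), (507, 1362495), (529,
    1652424), (539, 1449765), (575, 1558275), (598, 1723230), (605, 1508130), (627, 1312440), (637,
    1526235), (665, 1623180), (715, 1592580), (722, 1575715), (741, 1344270), (759, 1455120), (805,
    1489530), (845, 1425300), (847, 1443810), (874, 1519020), (897, 1457760), (931, 1966350), (1001,
    1353240), (1045, 1406670), (1058, 1460445), (1083, 1527360), (1127, 2160390), (1183, 1331265),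
    (1235, 1459260), (1265, 1477770), (1311, 1428450), (1331, 1376730), (1463, 1559160), (1495,
    1407120), (1573, 1443045), (1587, 1621950), (1729, 1673220), (1771, 1493430), (1805, 1478130),
    (1859, 1237320), (2093, 1420470), (2185, 1480380), (2197, 1607205), (2299, 1757430), (2527,
    1119210), (2645, 1616280), (2717, 1813410), (2783, 1489995), (3059, 806130), (3211, 1511985),
    (3289, 1181190), (3703, 785400), (3887, 1617030), (3971, 1426020), (4693, 1527570), (4807,
    1891860), (5681, 1191570), (5819, 1314180), (6859, 1520050), (6877, 1687575), (8303, 1637640),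
    (10051, 1773870), (12167, 1592585)]))
    (by norm_num) (by decide +kernel)

theorem r1_l : Ck (gL1)
    (poL1 nE WE (vP0 d1E d2E)) :=
  Ck.mk' 10000 (.add (.add (.add (.add (.mul (.g 8) (.add (.add (.mul (.g 5) (.add (.add (.mul (.g 1) (.pp [(1,
    4025160000)])) (.add (.mul (.g 3) (.pp [(1, 10500)])) (.mul (.g 4) (.pp [(1, 1458174000)]))))
    (.add (.add (.mul (.g 6) (.pp [(1, 4025220000)])) (.mul (.g 8) (.pp [(1, 60000)]))) (.add (.mul
    (.g 9) (.pp [(1, 123054000)])) (.mul (.g 10) (.pp [(1, 272812800)])))))) (.add (.mul (.g 9) (.add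
    (.add (.mul (.g 1) (.pp [(1, 60000)])) (.add (.mul (.g 3) (.pp [(1, 3000)])) (.mul (.g 4) (.pp
    [(1, 122994000)])))) (.add (.mul (.g 7) (.pp [(1, 693264000)])) (.add (.mul (.g 11) (.pp [(1,
    12000)])) (.mul (.g 12) (.pp [(1, 12000)])))))) (.mul (.g 7) (.add (.add (.mul (.g 1) (.pp [(1,
    60000)])) (.mul (.g 4) (.pp [(1, 1039506000)]))) (.add (.mul (.g 10) (.pp [(1, 12000)])) (.mul (.g
    11) (.pp [(1, 12000)]))))))) (.add (.add (.mul (.g 2) (.add (.mul (.g 3) (.pp [(1, 3000)])) (.add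
    (.mul (.g 10) (.pp [(1, 12000)])) (.mul (.g 11) (.pp [(1, 12000)]))))) (.mul (.g 1) (.add (.mul
    (.g 0) (.pp [(1, 3000)])) (.mul (.g 8) (.pp [(1, 60000)]))))) (.add (.mul (.g 11) (.add (.pp [(1,
    96247200)]) (.mul (.g 8) (.pp [(1, 12000)])))) (.mul (.g 3) (.mul (.g 4) (.pp [(1, 13500)])))))))
    (.mul (.g 0) (.add (.add (.add (.pp [(1, 83871900)]) (.mul (.g 12) (.add (.add (.pp [(1,
    42695280)]) (.add (.mul (.g 1) (.pp [(1, 29999400)])) (.mul (.g 2) (.pp [(1, 600)])))) (.add (.mul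
    (.g 4) (.pp [(1, 600)])) (.add (.mul (.g 7) (.pp [(1, 600)])) (.mul (.g 12) (.pp [(1,
    2608692)]))))))) (.add (.mul (.g 4) (.add (.add (.mul (.g 0) (.pp [(1, 3749280)])) (.mul (.g 3)
    (.pp [(1, 150)]))) (.add (.mul (.g 4) (.pp [(1, 24362100)])) (.mul (.g 10) (.pp [(1, 600)])))))
    (.mul (.g 1) (.add (.mul (.g 2) (.pp [(1, 3000)])) (.add (.mul (.g 6) (.pp [(1, 100002900)]))
    (.mul (.g 10) (.pp [(1, 780)]))))))) (.add (.add (.mul (.g 11) (.add (.pp [(1, 2220)]) (.mul (.g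
    2) (.pp [(1, 600)])))) (.mul (.g 3) (.pp [(1, 765)]))) (.add (.mul (.g 5) (.mul (.g 6) (.pp [(1,
    74988600)]))) (.mul (.g 7) (.mul (.g 10) (.pp [(1, 600)])))))))) (.add (.mul (.g 10) (.add (.add
    (.mul (.g 2) (.add (.add (.mul (.g 1) (.pp [(1, 306868800)])) (.add (.mul (.g 3) (.pp [(1,
    9999420)])) (.mul (.g 4) (.pp [(1, 12000)])))) (.add (.mul (.g 6) (.pp [(1, 306880800)])) (.add
    (.mul (.g 10) (.pp [(1, 165111360)])) (.mul (.g 12) (.pp [(1, 13200)])))))) (.add (.mul (.g 12)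
    (.add (.add (.pp [(1, 4909200)]) (.mul (.g 10) (.pp [(1, 480)]))) (.add (.mul (.g 11) (.pp [(1,
    5546592)])) (.mul (.g 12) (.pp [(1, 480)]))))) (.mul (.g 4) (.add (.mul (.g 4) (.pp [(1,
    143962800)])) (.mul (.g 11) (.pp [(1, 80408160)])))))) (.add (.mul (.g 10) (.add (.mul (.g 5) (.pp
    [(1, 2400)])) (.mul (.g 10) (.pp [(1, 11822880)])))) (.add (.mul (.g 6) (.mul (.g 6) (.pp [(1,
    27600)]))) (.mul (.g 7) (.mul (.g 7) (.pp [(1, 304440000)]))))))) (.mul (.g 3) (.add (.add (.mul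
    (.g 2) (.add (.add (.mul (.g 1) (.pp [(1, 18756600)])) (.mul (.g 2) (.pp [(1, 75003000)]))) (.add
    (.mul (.g 4) (.pp [(1, 3000)])) (.add (.mul (.g 6) (.pp [(1, 18759600)])) (.mul (.g 9) (.pp [(1,
    3000)])))))) (.mul (.g 7) (.add (.mul (.g 7) (.pp [(1, 6392100)])) (.mul (.g 9) (.pp [(1,
    19500)]))))) (.add (.mul (.g 4) (.mul (.g 4) (.pp [(1, 7200)]))) (.mul (.g 9) (.mul (.g 9) (.pp
    [(1, 3000)])))))))) (.add (.add (.mul (.g 5) (.add (.mul (.g 5) (.add (.add (.mul (.g 1) (.pp [(1,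
    487302000)])) (.add (.mul (.g 2) (.pp [(1, 90000)])) (.mul (.g 5) (.pp [(1, 490722000)])))) (.add
    (.mul (.g 7) (.pp [(1, 719754000)])) (.add (.mul (.g 9) (.pp [(1, 48000)])) (.mul (.g 11) (.pp
    [(1, 308377200)])))))) (.mul (.g 9) (.add (.mul (.g 2) (.pp [(1, 60000)])) (.add (.mul (.g 7) (.pp
    [(1, 60000)])) (.mul (.g 9) (.pp [(1, 60000)]))))))) (.mul (.g 12) (.add (.mul (.g 4) (.mul (.g 4)
    (.pp [(1, 21600)]))) (.add (.mul (.g 9) (.mul (.g 9) (.pp [(1, 196117200)]))) (.mul (.g 12) (.mul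
    (.g 12) (.pp [(1, 155808)]))))))) (.add (.mul (.g 1) (.mul (.g 9) (.mul (.g 9) (.pp [(1,
    1304406000)])))) (.mul (.g 4) (.mul (.g 4) (.mul (.g 4) (.pp [(1, 490662000)]))))))) (.pp [(1,
    683401989), (2, 62340), (3, 60840), (4, 59700), (5, 61440), (6, 57600), (7, 62220), (8, 60000),
    (9, 60000), (10, 59100), (11, 56280), (12, 60000), (13, 65190), (14, 56700), (15, 60600), (18,
    60000), (20, 60000), (21, 63000), (22, 65100), (25, 55500), (26, 59400), (27, 60000), (28, 60000),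
    (30, 60000), (33, 60000), (35, 64200), (39, 55800), (42, 60000), (44, 58000), (45, 60000), (49,
    60300), (50, 60000), (52, 60000), (55, 60000), (63, 60000), (65, 57000), (66, 60000), (70, 60000),
    (75, 60000), (77, 60000), (78, 66000), (91, 58800), (98, 60000), (99, 60000), (105, 60000), (110,
    60000), (117, 60000), (121, 58200), (125, 62000), (130, 60000), (143, 66000), (147, 60000), (154,
    60000), (165, 60000), (169, 60900), (175, 60000), (182, 60000), (195, 60000), (231, 60000), (242,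
    58000), (245, 60000), (273, 60000), (275, 60000), (286, 60000), (325, 60000), (338, 60000), (343,
    58000), (363, 60000), (385, 60000), (429, 60000), (455, 60000), (507, 60000), (539, 60000), (605,
    60000), (637, 60000), (715, 60000), (845, 60000), (847, 60000), (1001, 60000), (1183, 60000),
    (1331, 60000), (1573, 60000), (1859, 54000), (2197, 60000)]))
    (by norm_num) (by decide +kernel)

end Pool.Agent.Helper20.TS.SA
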