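import Pool.Agent.Helper20.TS.TallSA1
import Pool.Agent.Helper20.TS.TallSA2
import Pool.Agent.Helper20.TS.TallSA3

/-!
# Column `b`, set A: the structure `SA`
-/

set_option autoImplicit false

namespace Pool.Agent.Helper20.TS

open Pool.Agent.Helper83.Cert Pool.Agent.Helper83.TS Pool.Agent.Helper53.TT
open Pool.Agent.Helper20.TS.SA

theorem wb_comm (x y z : ℝ) : TallA.wb x y z = TallA.wb y x z := by
  unfold TallA.wb
  ring

/-- **the inequalities of the column `b`, set A** (order `u_l ≤ u_c`) -/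
theorem sA {x y z : ℝ} (hb : Bd x y z) :
    SA (TallA.n1 x - TallA.k12 x y) x (TallA.n1 y) y (TallA.n3 z) z (TallA.wb x y z) := by
  have b0 : ∀ {x y z : ℝ}, Bd x y z → ∀ g ∈ bE, 0 ≤ exVal (yv x y z 0 0 0 0 0 0) g :=
    fun h => bE_nn h 0 0 0 0 0 0
  have hy : ∀ k, 0 ≤ yv x y z 0 0 0 0 0 0 k :=
    yv_nonneg hb.x0 hb.y0 hb.z0 le_rfl le_rfl le_rfl le_rfl le_rfl le_rfl
  have hb' : Bd y x z := ⟨hb.y0, hb.x0, hb.z0, hb.y1, hb.x1, hb.z1⟩
  have K : KSA c1E c2E nE WE := ⟨p1, p2, p3, p4, yc, yl, g004, g012, g014, g103, g104, g112, g113,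
    g114, l0, l2⟩
  have K0 : KGA c1E c2E nE WE := ⟨r0_p02, r0_p04, r0_y0, r0_p12, r0_p13, r0_p14, r0_y1, r0_b1, r0_l⟩
  have K1 : KGA d1E d2E nE WE := ⟨r1_p02, r1_p04, r1_y0, r1_p12, r1_p13, r1_p14, r1_y1, r1_b1, r1_l⟩
  refine sa_of hb (c1E_val ..) (c2E_val ..) (nE_val ..) (WE_val ..) K ?_ ?_ ?_ ?_ ?_
  · have h := s3.nn hy (b0 hb)
    rw [(nE_val x y z).h] at h
    linarith
  · have h := s1.nn hy (b0 hb)
    rw [exsub, (c1E_val x y z).h] at h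
    simp only [exsub, exmul, exc, exv2] at h
    push_cast at h
    nlinarith
  · have h := s2.nn hy (b0 hb)
    rw [exsub, (c2E_val x y z).h] at h
    simp only [exsub, exmul, exc, exv3] at h
    push_cast at h
    nlinarith
  · exact ga_of hb (c1E_val ..) (c2E_val ..) (nE_val ..) (WE_val ..) K0
  · have h := ga_of hb' (d1E_val ..) (d2E_val ..) (nE_val ..) (WE_val ..) K1
    rw [TallA.k12_comm y x, wb_comm y x] at h
    exact h

/-- the form of `caseOneTall_of_cert` -/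
theorem sA' (x y z : ℝ) (x0 : 0 ≤ x) (x1 : x ≤ 3 / 5) (y0 : 0 ≤ y) (y1 : y ≤ 3 / 5) (z0 : 0 ≤ z)
    (z1 : z ≤ 3 / 5) :
    SA (TallA.n1 x - TallA.k12 x y) x (TallA.n1 y) y (TallA.n3 z) z (TallA.wb x y z) :=
  sA ⟨x0, y0, z0, x1, y1, z1⟩

end Pool.Agent.Helper20.TS
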