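import Pool.Agent.Helper20.TS.TallSAD

/-!
# Column `b`, set A: certificates 1
-/

set_option autoImplicit false
set_option maxRecDepth 100000

namespace Pool.Agent.Helper20.TS.SA

open Pool.Agent.Helper83.Cert Pool.Agent.Helper83.TS Pool.Agent.Helper53.TT

theorem p1 : Ck (gP 1)
    (pol 1 nE WE (vP c1E c2E)) :=
  Ck.mk' 500000 (.add (.add (.add (.add (.add (.mul (.g 13) (.add (.add (.add (.add (.mul (.pp [(1, 856350)]) (.sq
    [(2, 14), (3, -65), (5, 100), (7, -76), (13, 70), (17, -14), (19, -65), (23, 26)])) (.add (.mul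
    (.pp [(1, 3684150)]) (.sq [(2, -67), (3, -100), (5, -63), (7, 28), (13, 25), (17, -41), (19, 22),
    (23, 63)])) (.mul (.pp [(1, 1074960)]) (.sq [(1, 13), (2, -76), (3, -43), (5, 17), (7, 23), (13,
    -44), (17, 4), (19, -100), (23, 10)])))) (.add (.mul (.pp [(1, 197160)]) (.sq [(2, 3), (3, 84),
    (5, 34), (7, -30), (13, 83), (17, 100), (19, -31)])) (.add (.mul (.pp [(1, 24900)]) (.sq [(2,
    100), (3, 77), (5, 77), (7, 77), (13, 100), (17, 77), (19, 77), (23, 77)])) (.mul (.pp [(1,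
    643440)]) (.sq [(2, 100), (3, -44), (5, -43), (7, -43), (13, 100), (17, -44), (19, -43), (23,
    -43)]))))) (.add (.add (.mul (.pp [(1, 316950)]) (.sq [(2, -35), (3, 21), (5, 100), (7, -1), (13,
    -20), (17, -18), (19, 55), (23, -45)])) (.add (.mul (.pp [(1, 427380)]) (.sq [(1, 6), (2, -99),
    (3, 100), (5, -8), (7, -19), (13, -45), (17, 60), (19, -45), (23, 14)])) (.mul (.pp [(1,
    1410720)]) (.sq [(3, -27), (5, 65), (7, 26), (17, -100), (19, -47), (23, 84)])))) (.add (.mul (.pp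
    [(1, 576270)]) (.sq [(1, 49), (2, 8), (3, 44), (5, -86), (7, -77), (13, -54), (17, -56), (19,
    100), (23, -36)])) (.add (.mul (.pp [(1, 1295340)]) (.sq [(2, -4), (3, 81), (5, 19), (7, -27),
    (13, -62), (17, -9), (19, 100), (23, -12)])) (.mul (.pp [(1, 2622390)]) (.sq [(2, 1), (3, -15),
    (5, -20), (7, -4), (13, -29), (17, 100), (19, -37), (23, 66)])))))) (.add (.add (.add (.mul (.pp
    [(1, 1349400)]) (.sq [(2, -1), (3, -76), (5, 100), (7, 44), (13, 10), (17, 12), (19, 57), (23,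
    -43)])) (.add (.mul (.pp [(1, 123120)]) (.sq [(2, -98), (3, -24), (5, 11), (7, 100), (13, 75),
    (17, 6), (19, -7), (23, 27)])) (.mul (.g 7) (.add (.add (.pp [(1, 83424900000)]) (.mul (.g 6) (.pp
    [(1, 125473500000)]))) (.add (.mul (.g 9) (.pp [(1, 20487300000)])) (.add (.mul (.g 15) (.pp [(1,
    26652000000)])) (.mul (.g 17) (.pp [(1, 28617000000)])))))))) (.add (.mul (.g 19) (.add (.add
    (.mul (.g 2) (.pp [(1, 25108260000)])) (.mul (.g 5) (.pp [(1, 6535020000)]))) (.add (.mul (.g 10)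
    (.pp [(1, 9703680000)])) (.add (.mul (.g 12) (.pp [(1, 3781980000)])) (.mul (.g 16) (.pp [(1,
    7752600000)])))))) (.add (.mul (.g 0) (.add (.add (.pp [(1, 2626590000)]) (.mul (.g 11) (.pp [(1,
    3515580000)]))) (.add (.mul (.g 13) (.pp [(1, 2687835000)])) (.mul (.g 14) (.pp [(1,
    288285000)]))))) (.mul (.g 5) (.add (.mul (.g 3) (.pp [(1, 47852400000)])) (.add (.mul (.g 6) (.pp
    [(1, 48773100000)])) (.mul (.g 13) (.pp [(1, 3901200000)])))))))) (.add (.add (.mul (.g 12) (.add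
    (.mul (.g 11) (.pp [(1, 54841500000)])) (.add (.mul (.g 15) (.pp [(1, 4143000000)])) (.mul (.g 20)
    (.pp [(1, 10980000)]))))) (.add (.mul (.g 9) (.add (.mul (.g 13) (.pp [(1, 10204800000)])) (.mul
    (.g 18) (.pp [(1, 90360000)])))) (.mul (.g 6) (.mul (.g 8) (.pp [(1, 3259800000)]))))) (.add (.mul
    (.g 11) (.mul (.g 16) (.pp [(1, 29538300000)]))) (.add (.mul (.g 13) (.pp [(1, 87670200000)]))
    (.mul (.g 17) (.mul (.g 20) (.pp [(1, 9356880000)]))))))))) (.mul (.g 10) (.add (.add (.add (.add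
    (.mul (.pp [(1, 1269180)]) (.sq [(1, -3), (2, -9), (3, -8), (5, 89), (7, -100), (13, 60), (17,
    -83), (19, 73), (23, 98)])) (.mul (.pp [(1, 308760)]) (.sq [(2, 56), (5, 5), (7, -9), (13, 56),
    (17, -100), (19, -37), (23, 28)]))) (.add (.mul (.pp [(1, 3883020)]) (.sq [(2, -100), (3, -11),
    (5, -22), (7, 66), (13, 7), (17, -25), (19, 18), (23, 29)])) (.add (.mul (.pp [(1, 4411320)]) (.sq
    [(2, -15), (5, -24), (7, 100), (13, -22), (17, 29), (19, -50), (23, 14)])) (.mul (.pp [(1,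
    185430)]) (.sq [(2, -55), (3, -28), (5, -6), (7, -25), (13, 44), (17, 62), (19, 40), (23,
    100)]))))) (.add (.add (.mul (.pp [(1, 699270)]) (.sq [(1, -29), (2, -69), (3, 41), (5, 67), (7,
    100), (13, 22), (17, -17), (19, -94), (23, 90)])) (.mul (.pp [(1, 698910)]) (.sq [(2, -29), (3,
    -19), (5, 100), (7, 22), (13, 27), (17, 67), (19, 37), (23, -52)]))) (.add (.mul (.pp [(1,
    1113240)]) (.sq [(1, 1), (2, -39), (3, 56), (5, 88), (7, -26), (13, -100), (17, 32), (19, -37),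
    (23, 11)])) (.add (.mul (.pp [(1, 113400)]) (.sq [(2, 76), (3, 70), (5, -9), (7, -4), (13, 42),
    (17, 100), (19, -19), (23, 12)])) (.mul (.g 17) (.add (.add (.mul (.g 1) (.pp [(1, 29899200000)]))
    (.mul (.g 6) (.pp [(1, 2438400000)]))) (.add (.mul (.g 11) (.pp [(1, 6283200000)])) (.add (.mul
    (.g 19) (.pp [(1, 4586700000)])) (.mul (.g 20) (.pp [(1, 3780540000)])))))))))) (.add (.add (.add
    (.mul (.g 0) (.add (.add (.mul (.g 8) (.pp [(1, 168285000)])) (.mul (.g 11) (.pp [(1,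
    5028330000)]))) (.add (.mul (.g 12) (.pp [(1, 3651735000)])) (.mul (.g 16) (.pp [(1,
    2490105000)]))))) (.mul (.g 18) (.add (.add (.mul (.g 2) (.pp [(1, 11564220000)])) (.mul (.g 9)
    (.pp [(1, 1293780000)]))) (.add (.mul (.g 15) (.pp [(1, 4183140000)])) (.mul (.g 16) (.pp [(1,
    19694400000)])))))) (.add (.mul (.g 7) (.add (.mul (.g 9) (.pp [(1, 21962100000)])) (.add (.mul
    (.g 11) (.pp [(1, 18552600000)])) (.mul (.g 20) (.pp [(1, 3312420000)]))))) (.add (.mul (.g 8)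
    (.add (.mul (.g 10) (.pp [(1, 14717400000)])) (.add (.mul (.g 15) (.pp [(1, 60927900000)])) (.mul
    (.g 16) (.pp [(1, 32577000000)]))))) (.mul (.g 6) (.add (.pp [(1, 84736800000)]) (.mul (.g 11)
    (.pp [(1, 43933500000)]))))))) (.add (.add (.mul (.g 10) (.add (.pp [(1, 88161000000)]) (.mul (.g
    2) (.pp [(1, 23147400000)])))) (.mul (.g 1) (.mul (.g 14) (.pp [(1, 31068900000)])))) (.add (.mul
    (.g 3) (.mul (.g 5) (.pp [(1, 17610300000)]))) (.add (.mul (.g 12) (.mul (.g 20) (.pp [(1,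
    5165100000)]))) (.mul (.g 15) (.mul (.g 19) (.pp [(1, 4997820000)])))))))))) (.add (.mul (.g 5)
    (.add (.add (.add (.mul (.pp [(1, 74520)]) (.sq [(1, 15), (2, -32), (3, 100), (5, -7), (7, 6),
    (13, 22), (17, 80), (19, -52), (23, -51)])) (.add (.mul (.pp [(1, 136350)]) (.sq [(2, -41), (3,
    62), (5, -100), (7, 30), (13, -8), (17, 14), (19, 1), (23, 69)])) (.mul (.pp [(1, 394920)]) (.sq
    [(1, 3), (2, 2), (3, 100), (5, -16), (7, -12), (13, 13), (17, -65), (19, -3), (23, 10)])))) (.add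
    (.add (.mul (.pp [(1, 467250)]) (.sq [(1, 2), (2, 10), (3, 89), (5, 100), (7, -23), (13, -35),
    (17, -14), (19, -20), (23, -33)])) (.mul (.pp [(1, 109590)]) (.sq [(1, -6), (2, -5), (3, 14), (5,
    16), (7, -3), (13, 18), (17, 1), (19, 88), (23, -100)]))) (.add (.mul (.pp [(1, 883800)]) (.sq
    [(2, -70), (3, -17), (5, -63), (7, 100), (13, 91), (17, -29), (19, 19), (23, -6)])) (.mul (.pp
    [(1, 20490)]) (.sq [(1, -4), (2, 9), (3, 79), (5, -57), (7, 37), (13, -82), (17, -5), (19, 100),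
    (23, 44)]))))) (.add (.add (.add (.mul (.g 0) (.add (.add (.pp [(1, 7229250000)]) (.add (.mul (.g
    2) (.pp [(1, 6389895000)])) (.mul (.g 7) (.pp [(1, 3455595000)])))) (.add (.add (.mul (.g 11) (.pp
    [(1, 982380000)])) (.mul (.g 14) (.pp [(1, 4863405000)]))) (.add (.mul (.g 15) (.pp [(1,
    10243455000)])) (.mul (.g 20) (.pp [(1, 452493000)])))))) (.mul (.g 15) (.add (.add (.mul (.g 6)
    (.pp [(1, 38512500000)])) (.mul (.g 9) (.pp [(1, 11556000000)]))) (.add (.mul (.g 16) (.pp [(1,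
    10929000000)])) (.add (.mul (.g 17) (.pp [(1, 37112700000)])) (.mul (.g 18) (.pp [(1,
    11876640000)]))))))) (.add (.mul (.g 7) (.add (.mul (.g 8) (.pp [(1, 15814500000)])) (.add (.mul
    (.g 14) (.pp [(1, 37008600000)])) (.mul (.g 17) (.pp [(1, 2751600000)]))))) (.mul (.g 11) (.add
    (.mul (.g 5) (.pp [(1, 82200000)])) (.add (.mul (.g 8) (.pp [(1, 20267400000)])) (.mul (.g 11)
    (.pp [(1, 731400000)]))))))) (.add (.add (.mul (.g 16) (.add (.mul (.g 2) (.pp [(1,
    12424500000)])) (.add (.mul (.g 3) (.pp [(1, 19589100000)])) (.mul (.g 19) (.pp [(1,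
    10619640000)]))))) (.mul (.g 20) (.add (.mul (.g 2) (.pp [(1, 866400000)])) (.mul (.g 17) (.pp
    [(1, 2458440000)]))))) (.add (.mul (.g 8) (.mul (.g 9) (.pp [(1, 12016800000)]))) (.mul (.g 18)
    (.mul (.g 19) (.pp [(1, 1492296000)])))))))) (.mul (.g 0) (.add (.add (.mul (.pp [(1, 12690)])
    (.sq [(2, 39), (3, 81), (5, 40), (7, -71), (13, 38), (17, 47), (19, 69), (23, -100)])) (.add (.mul
    (.pp [(1, 391353)]) (.sq [(2, 100), (3, -39), (5, 29), (7, -53), (13, -45), (17, -29), (19, 91),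
    (23, -44)])) (.mul (.g 20) (.add (.add (.pp [(1, 1874982000)]) (.add (.mul (.g 6) (.pp [(1,
    1604295000)])) (.mul (.g 7) (.pp [(1, 697035000)])))) (.add (.mul (.g 18) (.pp [(1, 81817200)]))
    (.add (.mul (.g 19) (.pp [(1, 168602400)])) (.mul (.g 20) (.pp [(1, 15633600)])))))))) (.add (.mul
    (.g 1) (.add (.mul (.g 0) (.pp [(1, 111834000)])) (.add (.mul (.g 12) (.pp [(1, 400620000)]))
    (.mul (.g 16) (.pp [(1, 371145000)]))))) (.add (.mul (.g 6) (.add (.mul (.g 11) (.pp [(1,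
    1134870000)])) (.add (.mul (.g 16) (.pp [(1, 6095955000)])) (.mul (.g 18) (.pp [(1,
    341547000)]))))) (.mul (.g 7) (.add (.mul (.g 7) (.pp [(1, 1137660000)])) (.add (.mul (.g 12) (.pp
    [(1, 3701625000)])) (.mul (.g 15) (.pp [(1, 7341255000)]))))))))))) (.add (.add (.mul (.g 18)
    (.add (.add (.add (.mul (.pp [(1, 778038)]) (.sq [(1, 15), (2, 67), (3, -30), (5, 31), (7, -27),
    (13, 100), (17, -12), (19, -16), (23, 3)])) (.mul (.pp [(1, 8970)]) (.sq [(1, -21), (2, -54), (3,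
    35), (5, 98), (7, -2), (13, -21), (17, 100), (19, -15), (23, -64)]))) (.add (.mul (.pp [(1,
    1649520000)]) (.sq [(3, 1), (13, -1)])) (.mul (.pp [(1, 460578)]) (.sq [(1, -27), (2, -1), (3,
    32), (5, 41), (7, -14), (13, -100), (17, 75), (19, 71), (23, -69)])))) (.add (.add (.mul (.pp [(1,
    201006)]) (.sq [(1, 51), (2, 100), (3, 85), (5, 64), (7, -47), (13, 24), (17, -77), (19, 38), (23,
    -93)])) (.mul (.g 15) (.add (.mul (.g 1) (.pp [(1, 5004360000)])) (.add (.mul (.g 19) (.pp [(1,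
    3590928000)])) (.mul (.g 20) (.pp [(1, 1139004000)])))))) (.add (.mul (.g 16) (.add (.mul (.g 6)
    (.pp [(1, 1913100000)])) (.mul (.g 19) (.pp [(1, 217872000)])))) (.mul (.g 8) (.mul (.g 20) (.pp
    [(1, 52596000)]))))))) (.mul (.g 16) (.add (.add (.mul (.pp [(1, 2182560)]) (.sq [(1, -1), (2,
    12), (3, -22), (5, -33), (7, 52), (13, -45), (17, 44), (19, 69), (23, -100)])) (.mul (.pp [(1,
    977970)]) (.sq [(1, -100), (2, 76), (3, 86), (5, -89), (7, 91), (13, 7), (17, -25), (19, -32),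
    (23, 31)]))) (.add (.mul (.g 19) (.add (.mul (.g 1) (.pp [(1, 3447000000)])) (.add (.mul (.g 7)
    (.pp [(1, 2738400000)])) (.mul (.g 16) (.pp [(1, 4865880000)]))))) (.mul (.g 17) (.add (.mul (.g
    1) (.pp [(1, 16218000000)])) (.mul (.g 7) (.pp [(1, 23892300000)])))))))) (.add (.mul (.g 17)
    (.add (.mul (.pp [(1, 169560)]) (.sq [(1, 5), (2, 15), (3, -6), (5, -85), (7, 9), (13, -100), (19,
    16), (23, 24)])) (.add (.mul (.g 15) (.add (.mul (.g 6) (.pp [(1, 35538000000)])) (.mul (.g 7)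
    (.pp [(1, 48363900000)])))) (.mul (.g 17) (.mul (.g 20) (.pp [(1, 7186320000)])))))) (.mul (.g 19)
    (.add (.add (.mul (.pp [(1, 67116)]) (.sq [(1, -10), (2, 2), (3, 90), (5, -100), (7, 7), (13,
    -63), (17, 74), (19, 7), (23, 16)])) (.mul (.pp [(1, 272526)]) (.sq [(1, -1), (2, -29), (3, 83),
    (5, 37), (7, -23), (13, -20), (17, 100), (19, -11), (23, -11)]))) (.add (.mul (.pp [(1, 320538)])
    (.sq [(1, 49), (2, -69), (3, 9), (5, 40), (7, -44), (13, 95), (17, -36), (19, -100), (23, 78)]))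
    (.mul (.pp [(1, 1054260)]) (.sq [(1, -9), (2, 17), (3, 18), (5, -15), (7, 36), (13, -4), (17,
    100), (19, 13), (23, -59)])))))))) (.add (.add (.add (.mul (.g 2) (.add (.mul (.pp [(1, 88770)])
    (.sq [(1, -2), (2, -100), (3, 51), (5, -86), (7, 35), (13, -19), (17, -19), (19, 64), (23, -19)]))
    (.mul (.pp [(1, 910530)]) (.sq [(1, -42), (2, 52), (3, 3), (5, 22), (7, 31), (13, -68), (17, 90),
    (19, 80), (23, -100)])))) (.mul (.g 8) (.add (.mul (.pp [(1, 867210)]) (.sq [(1, 10), (2, 14), (3,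
    9), (5, 100), (7, -81), (13, 57), (17, 81), (19, -26), (23, -27)])) (.mul (.pp [(1, 1192860)])
    (.sq [(1, -27), (2, -13), (3, 24), (5, -70), (7, 45), (13, 49), (17, -63), (19, -86), (23,
    100)]))))) (.add (.mul (.g 20) (.add (.mul (.pp [(1, 55992)]) (.sq [(1, 9), (2, -31), (3, -8), (5,
    100), (7, 3), (13, 10), (17, -34), (19, -30), (23, 40)])) (.mul (.pp [(1, 249936)]) (.sq [(1, -9),
    (2, 14), (3, 34), (5, 100), (7, -1), (13, 10), (17, -14), (19, -7), (23, -9)])))) (.mul (.g 3)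
    (.mul (.pp [(1, 101280)]) (.sq [(1, -55), (2, 52), (3, 8), (5, -70), (7, 82), (13, -100), (17,
    52), (19, 96), (23, -90)]))))) (.add (.add (.mul (.g 6) (.mul (.pp [(1, 772590)]) (.sq [(1, -19),
    (2, 45), (3, -15), (5, 100), (7, -14), (13, -11), (17, 83), (19, 34), (23, -73)]))) (.mul (.g 7)
    (.mul (.pp [(1, 632340)]) (.sq [(1, 30), (2, -46), (3, 5), (5, 83), (7, -50), (13, 100), (17, 35),
    (19, -67), (23, 9)])))) (.add (.mul (.g 11) (.mul (.pp [(1, 141390)]) (.sq [(1, 3), (3, 25), (5,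
    100), (7, -48), (13, 58), (17, 3), (19, -59), (23, 35)]))) (.add (.mul (.g 12) (.mul (.pp [(1,
    108330)]) (.sq [(1, -16), (2, 50), (3, 11), (5, 30), (7, 10), (13, -23), (17, 97), (19, 58), (23,
    -100)]))) (.mul (.g 15) (.mul (.pp [(1, 186990)]) (.sq [(1, -62), (2, 67), (3, 51), (5, 6), (7,
    33), (13, -60), (17, 100), (19, 63), (23, -95)])))))))) (.pp [(1, 1283043300), (2, 2630082), (3,
    2684562), (4, 2742672), (5, 2929824), (6, 3119364), (7, 3170310), (8, 2758380), (9, 3092775), (10,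
    3019740), (12, 2743530), (13, 3054126), (14, 3294576), (15, 2602650), (17, 2590500), (18,
    2997690), (19, 2803104), (20, 3129300), (21, 3621714), (23, 3035286), (25, 3207981), (26,
    3564816), (27, 2913750), (28, 3397980), (30, 2936340), (34, 3584040), (35, 3203946), (38,
    3100524), (39, 2709510), (42, 2746560), (45, 2885100), (46, 2990316), (49, 2968269), (50,
    2561070), (51, 3208362), (52, 3581670), (57, 3038838), (63, 2727210), (65, 2866254), (68,
    3415410), (69, 2962860), (70, 2977440), (75, 3082650), (76, 2705610), (78, 2977020), (85,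
    3419526), (91, 2485554), (92, 3304680), (95, 2788242), (98, 2872800), (102, 3144720), (105,
    3625020), (114, 2520720), (115, 2383944), (117, 3085950), (119, 2618610), (125, 2929000), (130,
    2814540), (133, 3151254), (138, 3324240), (147, 3305520), (153, 2915070), (161, 3122652), (169,
    3027135), (170, 2888340), (171, 2447370), (175, 3139350), (182, 2894160), (190, 2467380), (195,
    2782980), (207, 3138450), (221, 3290130), (230, 3609120), (238, 2854020), (245, 3115260), (247,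
    2309034), (255, 3507360), (266, 2926140), (273, 2898360), (285, 3152700), (289, 3514935), (299,
    3148560), (322, 2993760), (323, 3196242), (325, 3056250), (338, 2431380), (343, 2981730), (345,
    3072720), (357, 2396400), (361, 3190407), (391, 3317184), (399, 2847000), (425, 2897910), (437,
    2854932), (442, 3337020), (455, 3579000), (475, 3142260), (483, 2861640), (494, 2868780), (507,
    2925060), (529, 2902332), (575, 2711700), (578, 2383800), (595, 2405940), (598, 2392680), (637,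
    2681820), (646, 2734020), (663, 3087060), (665, 2809860), (722, 3020460), (741, 3118680), (782,
    3791220), (805, 2533500), (833, 2835360), (845, 3221880), (867, 2967600), (874, 3293340), (897,
    3003180), (931, 3302100), (969, 3273300), (1058, 2693520), (1083, 2425680), (1105, 2997240),
    (1127, 2578950), (1173, 3545940), (1183, 3162780), (1235, 3225240), (1311, 3412200), (1445,
    2793660), (1495, 2593980), (1547, 2995560), (1587, 2640720), (1615, 2782800), (1729, 2841720),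
    (1805, 3375120), (1955, 3180540), (2023, 3003750), (2093, 3546960), (2185, 3408840), (2197,
    3026220), (2261, 3232560), (2527, 2689410), (2645, 3270180), (2737, 3616800), (2873, 2958810),
    (3059, 3187800), (3211, 2894400), (3703, 3232530), (3757, 2775990), (3887, 2886510), (4199,
    3298620), (4693, 3158910), (4913, 2747490), (5083, 2501100), (5491, 3075000), (5681, 3922680),
    (6137, 3135480), (6647, 3069570), (6859, 2961120), (6877, 2973930), (7429, 2567640), (8303,
    2725560), (8993, 2714430), (10051, 3121860), (12167, 2977980)]))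
    (by norm_num) (by decide +kernel)

theorem p2 : Ck (gP 2)
    (pol 2 nE WE (vP c1E c2E)) :=
  Ck.mk' 250000 (.add (.add (.add (.add (.add (.mul (.g 13) (.add (.add (.add (.add (.mul (.pp [(1, 606285)]) (.sq
    [(2, -23), (3, 32), (5, -100), (7, 72), (13, -63), (17, -18), (19, 41), (23, -55)])) (.mul (.pp
    [(1, 741645)]) (.sq [(2, -100), (3, -38), (5, -19), (7, 5), (13, 16), (17, 76), (19, 7), (23,
    24)]))) (.add (.mul (.pp [(1, 542385)]) (.sq [(2, 35), (3, 92), (5, 7), (7, 32), (13, -3), (17,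
    49), (19, 100), (23, -16)])) (.add (.mul (.pp [(1, 768645)]) (.sq [(2, 10), (3, 12), (5, -10), (7,
    100), (13, 25), (17, -21), (19, -55), (23, 13)])) (.mul (.pp [(1, 177705)]) (.sq [(2, 100), (3,
    36), (5, -36), (7, -55), (13, -94), (17, -21), (19, 75), (23, -25)]))))) (.add (.add (.mul (.pp
    [(1, 174540)]) (.sq [(2, 100), (3, -44), (5, -43), (7, -43), (13, 100), (17, -44), (19, -44), (23,
    -43)])) (.mul (.pp [(1, 364065)]) (.sq [(2, 81), (3, -100), (5, 59), (7, -27), (13, -34), (17,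
    -36), (19, 16), (23, 9)]))) (.add (.mul (.pp [(1, 683115)]) (.sq [(2, -32), (3, 49), (7, -43),
    (13, 100), (17, -37), (19, -7), (23, 31)])) (.add (.mul (.pp [(1, 263820)]) (.sq [(2, -47), (3,
    -15), (5, 72), (7, -9), (13, -63), (17, -100), (19, 99), (23, 36)])) (.mul (.g 19) (.add (.add
    (.pp [(1, 10093830000)]) (.add (.mul (.g 2) (.pp [(1, 3974700000)])) (.mul (.g 3) (.pp [(1,
    981060000)])))) (.add (.mul (.g 6) (.pp [(1, 1846620000)])) (.add (.mul (.g 12) (.pp [(1,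
    464220000)])) (.mul (.g 13) (.pp [(1, 1751580000)])))))))))) (.add (.add (.add (.mul (.g 11) (.add
    (.add (.mul (.g 4) (.pp [(1, 7564350000)])) (.mul (.g 8) (.pp [(1, 3545100000)]))) (.add (.mul (.g
    10) (.pp [(1, 13167000000)])) (.add (.mul (.g 12) (.pp [(1, 2821950000)])) (.mul (.g 13) (.pp [(1,
    5672100000)])))))) (.mul (.g 0) (.add (.add (.pp [(1, 593572500)]) (.mul (.g 2) (.pp [(1,
    92122500)]))) (.add (.mul (.g 8) (.pp [(1, 143152500)])) (.mul (.g 14) (.pp [(1, 93345000)]))))))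
    (.add (.mul (.g 17) (.add (.add (.mul (.g 13) (.pp [(1, 1052400000)])) (.mul (.g 16) (.pp [(1,
    1790700000)]))) (.add (.mul (.g 18) (.pp [(1, 115290000)])) (.mul (.g 20) (.pp [(1,
    2173650000)]))))) (.add (.mul (.g 4) (.add (.pp [(1, 13337100000)]) (.mul (.g 6) (.pp [(1,
    8487300000)])))) (.mul (.g 8) (.add (.mul (.g 3) (.pp [(1, 4571700000)])) (.mul (.g 15) (.pp [(1,
    7534350000)]))))))) (.add (.add (.mul (.g 7) (.pp [(1, 21333150000)])) (.mul (.g 9) (.mul (.g 18)
    (.pp [(1, 4182570000)])))) (.add (.mul (.g 10) (.pp [(1, 25453800000)])) (.add (.mul (.g 13) (.pp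
    [(1, 33982800000)])) (.mul (.g 15) (.mul (.g 20) (.pp [(1, 326430000)]))))))))) (.mul (.g 10)
    (.add (.add (.add (.mul (.pp [(1, 375435)]) (.sq [(1, -17), (2, -18), (3, 63), (5, -46), (7, 21),
    (13, -43), (17, 57), (19, 16), (23, 100)])) (.add (.mul (.pp [(1, 348900)]) (.sq [(1, -14), (2,
    49), (5, -42), (13, 49), (17, -100), (23, 44)])) (.mul (.pp [(1, 1125690)]) (.sq [(2, -10), (3,
    -16), (5, 10), (7, -12), (13, 84), (17, -3), (19, 100), (23, -37)])))) (.add (.add (.mul (.pp [(1,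
    193995)]) (.sq [(2, 100), (3, -93), (5, 26), (7, 14), (13, -49), (17, 26), (19, 14), (23, 26)]))
    (.mul (.pp [(1, 63165)]) (.sq [(2, -30), (3, 8), (5, -93), (7, -49), (13, 30), (17, 100), (19,
    -8), (23, -35)]))) (.add (.mul (.g 17) (.add (.add (.pp [(1, 1823550000)]) (.add (.mul (.g 2) (.pp
    [(1, 2407650000)])) (.mul (.g 7) (.pp [(1, 3238050000)])))) (.add (.mul (.g 9) (.pp [(1,
    2129700000)])) (.add (.mul (.g 12) (.pp [(1, 2590950000)])) (.mul (.g 20) (.pp [(1,
    545040000)])))))) (.mul (.g 0) (.add (.add (.mul (.g 1) (.pp [(1, 249720000)])) (.mul (.g 8) (.pp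
    [(1, 77310000)]))) (.add (.mul (.g 11) (.pp [(1, 167400000)])) (.mul (.g 18) (.pp [(1,
    248970000)])))))))) (.add (.add (.add (.mul (.g 2) (.add (.add (.mul (.g 4) (.pp [(1,
    26395500000)])) (.mul (.g 6) (.pp [(1, 37629750000)]))) (.add (.mul (.g 7) (.pp [(1,
    8798700000)])) (.mul (.g 9) (.pp [(1, 6916650000)]))))) (.mul (.g 19) (.add (.add (.mul (.g 7)
    (.pp [(1, 1407660000)])) (.mul (.g 11) (.pp [(1, 2152770000)]))) (.add (.mul (.g 15) (.pp [(1,
    3644220000)])) (.mul (.g 16) (.pp [(1, 500400000)])))))) (.add (.mul (.g 9) (.add (.pp [(1,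
    12533850000)]) (.add (.mul (.g 10) (.pp [(1, 3160050000)])) (.mul (.g 18) (.pp [(1,
    4774710000)]))))) (.mul (.g 7) (.add (.pp [(1, 26114700000)]) (.mul (.g 15) (.pp [(1,
    2357250000)])))))) (.add (.add (.mul (.g 8) (.add (.mul (.g 10) (.pp [(1, 14855850000)])) (.mul
    (.g 16) (.pp [(1, 463350000)])))) (.mul (.g 4) (.mul (.g 15) (.pp [(1, 4227450000)])))) (.add
    (.mul (.g 10) (.mul (.g 10) (.pp [(1, 856950000)]))) (.mul (.g 11) (.mul (.g 12) (.pp [(1,
    4814700000)]))))))))) (.add (.mul (.g 20) (.add (.add (.add (.mul (.pp [(1, 29880)]) (.sq [(1,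
    -4), (2, -21), (3, -28), (5, -54), (7, -63), (13, 59), (17, 100), (19, -16), (23, -28)])) (.mul
    (.pp [(1, 43269)]) (.sq [(1, -15), (2, -44), (3, -33), (7, -10), (13, 100), (17, 30), (19, 25),
    (23, -36)]))) (.add (.mul (.pp [(1, 176487)]) (.sq [(1, 11), (2, -33), (3, -53), (5, 100), (7,
    -6), (13, 4), (17, 23), (19, -14), (23, -7)])) (.mul (.pp [(1, 9006)]) (.sq [(1, -12), (2, 2), (3,
    -21), (5, 100), (7, -8), (13, 12), (17, -58), (19, 5), (23, 12)])))) (.add (.add (.mul (.g 0)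
    (.add (.add (.add (.pp [(1, 845268000)]) (.mul (.g 1) (.pp [(1, 579105000)]))) (.add (.mul (.g 4)
    (.pp [(1, 65865000)])) (.mul (.g 7) (.pp [(1, 18211500)])))) (.add (.add (.mul (.g 9) (.pp [(1,
    7627500)])) (.mul (.g 11) (.pp [(1, 26452500)]))) (.add (.mul (.g 18) (.pp [(1, 63840600)])) (.add
    (.mul (.g 19) (.pp [(1, 26736900)])) (.mul (.g 20) (.pp [(1, 10892400)]))))))) (.mul (.g 6) (.add
    (.add (.mul (.g 2) (.pp [(1, 862470000)])) (.mul (.g 8) (.pp [(1, 1110840000)]))) (.add (.mul (.g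
    17) (.pp [(1, 14400000)])) (.add (.mul (.g 18) (.pp [(1, 516138000)])) (.mul (.g 19) (.pp [(1,
    249600000)]))))))) (.add (.mul (.g 19) (.add (.mul (.g 7) (.pp [(1, 337542000)])) (.add (.mul (.g
    16) (.pp [(1, 453312000)])) (.mul (.g 20) (.pp [(1, 13568400)]))))) (.mul (.g 17) (.mul (.g 17)
    (.pp [(1, 3062160000)]))))))) (.mul (.g 5) (.add (.add (.add (.mul (.pp [(1, 65475)]) (.sq [(1,
    -28), (2, 7), (3, -58), (5, 54), (7, -17), (13, 100), (17, 81), (19, 10), (23, -82)])) (.mul (.pp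
    [(1, 46155)]) (.sq [(1, 4), (2, -3), (3, 47), (5, 64), (7, -49), (13, 45), (17, 100), (19, -18),
    (23, -95)]))) (.add (.mul (.pp [(1, 238050)]) (.sq [(1, 5), (2, 2), (3, 35), (5, -15), (7, 33),
    (13, -38), (17, 100), (19, 32), (23, -58)])) (.add (.mul (.pp [(1, 16155)]) (.sq [(1, 9), (2, 33),
    (3, -11), (5, 9), (7, 26), (13, -87), (17, 23), (19, 100), (23, -30)])) (.mul (.pp [(1, 473730)])
    (.sq [(2, 1), (3, -5), (5, -58), (7, -8), (13, -29), (19, 7), (23, 100)]))))) (.add (.add (.mul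
    (.g 2) (.add (.add (.mul (.g 0) (.pp [(1, 2380927500)])) (.mul (.g 6) (.pp [(1, 32745150000)])))
    (.add (.mul (.g 9) (.pp [(1, 1799700000)])) (.mul (.g 16) (.pp [(1, 7947150000)]))))) (.add (.mul
    (.g 7) (.add (.pp [(1, 10195200000)]) (.add (.mul (.g 3) (.pp [(1, 2060400000)])) (.mul (.g 19)
    (.pp [(1, 1224510000)]))))) (.mul (.g 15) (.add (.mul (.g 0) (.pp [(1, 2293342500)])) (.add (.mul
    (.g 9) (.pp [(1, 46802700000)])) (.mul (.g 18) (.pp [(1, 2081040000)]))))))) (.add (.mul (.g 0)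
    (.pp [(1, 5265915000)])) (.add (.mul (.g 8) (.mul (.g 9) (.pp [(1, 2899950000)]))) (.mul (.g 16)
    (.mul (.g 17) (.pp [(1, 11157150000)])))))))))) (.add (.add (.mul (.g 1) (.add (.add (.mul (.pp
    [(1, 234135)]) (.sq [(1, -31), (2, 79), (3, 100), (5, 92), (7, 46), (13, -93), (17, -14), (19,
    10), (23, -11)])) (.add (.mul (.pp [(1, 669255)]) (.sq [(1, -29), (2, -32), (3, 3), (5, -77), (7,
    92), (13, -40), (17, -100), (19, -5), (23, 75)])) (.mul (.g 17) (.add (.add (.mul (.g 7) (.pp [(1,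
    10814550000)])) (.mul (.g 15) (.pp [(1, 24817950000)]))) (.add (.mul (.g 16) (.pp [(1,
    14594100000)])) (.mul (.g 17) (.pp [(1, 2468400000)]))))))) (.add (.add (.mul (.g 0) (.add (.mul
    (.g 3) (.pp [(1, 1325617500)])) (.add (.mul (.g 8) (.pp [(1, 494655000)])) (.mul (.g 15) (.pp [(1,
    878970000)]))))) (.mul (.g 6) (.add (.mul (.g 11) (.pp [(1, 2634300000)])) (.mul (.g 16) (.pp [(1,
    7000200000)]))))) (.add (.mul (.g 19) (.add (.mul (.g 7) (.pp [(1, 575760000)])) (.mul (.g 16)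
    (.pp [(1, 217830000)])))) (.mul (.g 15) (.mul (.g 18) (.pp [(1, 7180950000)]))))))) (.mul (.g 6)
    (.add (.add (.mul (.pp [(1, 290595)]) (.sq [(2, 67), (3, 30), (5, -33), (7, 100), (13, -5), (17,
    -85), (19, -20), (23, -14)])) (.add (.mul (.pp [(1, 689745)]) (.sq [(1, -47), (2, 100), (3, 15),
    (5, -25), (7, -15), (13, 39), (17, 100), (19, 4), (23, -9)])) (.mul (.g 7) (.add (.add (.mul (.g
    11) (.pp [(1, 11706300000)])) (.mul (.g 14) (.pp [(1, 45107850000)]))) (.add (.mul (.g 15) (.pp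
    [(1, 24617250000)])) (.mul (.g 17) (.pp [(1, 7324950000)]))))))) (.add (.mul (.g 19) (.add (.mul
    (.g 0) (.pp [(1, 16902000)])) (.add (.mul (.g 2) (.pp [(1, 1439460000)])) (.mul (.g 18) (.pp [(1,
    197910000)]))))) (.add (.mul (.g 8) (.add (.mul (.g 0) (.pp [(1, 94222500)])) (.mul (.g 15) (.pp
    [(1, 1120350000)])))) (.mul (.g 2) (.mul (.g 6) (.pp [(1, 18662700000)])))))))) (.add (.mul (.g
    18) (.add (.add (.mul (.pp [(1, 104457)]) (.sq [(1, 27), (2, 44), (3, -32), (5, 55), (7, -76),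
    (13, 100), (17, -90), (19, -51), (23, 93)])) (.add (.mul (.pp [(1, 1233450000)]) (.sq [(3, 1),
    (13, -1)])) (.mul (.pp [(1, 38418)]) (.sq [(2, 3), (3, 2), (5, 79), (7, -85), (13, -66), (17,
    100), (19, -22), (23, 36)])))) (.add (.mul (.pp [(1, 566619)]) (.sq [(1, 1), (2, 38), (3, -21),
    (5, -13), (7, 5), (13, 100), (17, -37), (19, 16), (23, -9)])) (.add (.mul (.pp [(1, 46752)]) (.sq
    [(2, 1), (3, 64), (5, 100), (7, -76), (13, 90), (17, -62), (19, 45), (23, -36)])) (.mul (.g 19)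
    (.add (.mul (.g 8) (.pp [(1, 197856000)])) (.mul (.g 15) (.pp [(1, 689202000)])))))))) (.mul (.g
    7) (.add (.add (.mul (.pp [(1, 917625)]) (.sq [(1, -3), (2, 3), (3, 17), (5, -2), (7, -46), (13,
    -4), (17, 100), (19, -4), (23, -7)])) (.mul (.g 7) (.add (.mul (.g 2) (.pp [(1, 4662900000)]))
    (.mul (.g 11) (.pp [(1, 4966500000)]))))) (.add (.mul (.g 8) (.mul (.g 19) (.pp [(1,
    657120000)]))) (.mul (.g 15) (.mul (.g 17) (.pp [(1, 13237800000)]))))))))) (.add (.add (.add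
    (.mul (.g 15) (.add (.add (.mul (.pp [(1, 327330)]) (.sq [(1, -45), (2, 5), (3, 100), (5, -21),
    (7, 11), (13, 18), (17, 93), (19, -58), (23, 8)])) (.mul (.pp [(1, 3195)]) (.sq [(1, 39), (2, -4),
    (3, -90), (5, -100), (7, 43), (13, -72), (17, -48), (19, 95), (23, -37)]))) (.add (.mul (.pp [(1,
    87225)]) (.sq [(1, 18), (2, 25), (3, -46), (5, 63), (7, -23), (13, -18), (17, 100), (19, 34), (23,
    -79)])) (.mul (.pp [(1, 696420)]) (.sq [(1, 9), (2, 40), (3, 57), (5, 14), (7, -59), (13, -37),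
    (17, 100), (19, 40), (23, -48)]))))) (.mul (.g 19) (.add (.add (.mul (.pp [(1, 3346500000)]) (.sq
    [(2, 1), (13, -1)])) (.mul (.pp [(1, 141318)]) (.sq [(1, -34), (2, 66), (3, -15), (5, -90), (7,
    63), (13, -54), (17, 9), (19, 100), (23, -67)]))) (.add (.mul (.pp [(1, 349812)]) (.sq [(1, -10),
    (2, -2), (3, 44), (5, 16), (7, -10), (13, 7), (17, 100), (19, -7), (23, -26)])) (.mul (.g 11)
    (.mul (.g 11) (.pp [(1, 7585680000)]))))))) (.add (.mul (.g 11) (.add (.mul (.pp [(1, 807675)])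
    (.sq [(1, -6), (2, -33), (3, 39), (5, 29), (7, 8), (13, 100), (17, -55), (19, -90), (23, 47)]))
    (.mul (.pp [(1, 8850)]) (.sq [(1, 53), (2, -63), (3, -55), (5, 66), (7, -20), (13, -38), (17, 80),
    (19, 59), (23, -100)])))) (.mul (.g 3) (.mul (.pp [(1, 1238790)]) (.sq [(1, -66), (2, -39), (3,
    -25), (5, 6), (7, -18), (13, 61), (17, -16), (19, -9), (23, 100)]))))) (.add (.add (.mul (.g 4)
    (.mul (.pp [(1, 160770)]) (.sq [(2, -15), (3, 20), (7, -43), (13, -28), (17, 100), (19, 34), (23,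
    -13)]))) (.mul (.g 9) (.mul (.pp [(1, 84300)]) (.sq [(1, -98), (2, -36), (3, 82), (5, 94), (7,
    84), (13, -100), (17, 84), (23, -41)])))) (.add (.mul (.g 12) (.mul (.pp [(1, 75315)]) (.sq [(1,
    37), (2, 33), (3, -41), (5, 3), (7, 4), (13, 100), (17, -74), (19, -48), (23, 23)]))) (.add (.mul
    (.g 14) (.mul (.pp [(1, 26595)]) (.sq [(1, -53), (2, -36), (3, 94), (5, 82), (7, 23), (13, -86),
    (17, 100), (19, 31), (23, -61)]))) (.mul (.g 17) (.mul (.pp [(1, 8175)]) (.sq [(1, -87), (2, -9),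
    (3, 26), (5, 49), (7, -29), (13, 100), (17, -52), (19, 12), (23, 71)])))))))) (.pp [(1,
    661434147), (2, 1345104), (3, 1585446), (4, 1538313), (5, 1400547), (6, 1526004), (7, 1418826),
    (8, 1406175), (9, 1449846), (10, 1094724), (12, 1678845), (13, 1541913), (14, 1164966), (15,
    1495296), (17, 1479009), (18, 1338405), (19, 1541043), (20, 1472670), (21, 1310280), (23,
    1464048), (25, 1379337), (26, 1858584), (27, 1476435), (28, 1407750), (30, 1243380), (34,
    1712250), (35, 1621140), (38, 1650372), (39, 1313886), (42, 1589460), (45, 1532370), (46,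
    1605882), (49, 1399809), (50, 1428780), (51, 1319148), (52, 1671300), (57, 1611084), (63,
    1321515), (65, 1699368), (68, 1429665), (69, 1382484), (70, 1596000), (75, 1448565), (76,
    1606860), (78, 1462140), (85, 1488246), (91, 1548120), (92, 1482135), (95, 1623960), (98,
    1551075), (102, 1539330), (105, 1599630), (114, 1511610), (115, 1486182), (117, 1575030), (119,
    1252872), (125, 1472225), (130, 1643340), (133, 1263630), (138, 1215720), (147, 1421700), (153,
    1448595), (161, 1750614), (169, 1499970), (170, 1596360), (171, 1571295), (175, 1536120), (182,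
    1436190), (190, 1676730), (195, 1341690), (207, 1558020), (221, 1554870), (230, 1785090), (238,
    1710660), (245, 1669995), (247, 1381794), (255, 1600320), (266, 1477470), (273, 1635180), (285,
    1417860), (289, 1547643), (299, 1483410), (322, 1543140), (323, 1385622), (325, 1506765), (338,
    1428990), (343, 1384450), (345, 1570350), (357, 1610940), (361, 1557096), (391, 1616826), (399,
    1190310), (425, 1623855), (437, 1555578), (442, 1090290), (455, 1444680), (475, 1487250), (483,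
    1724910), (494, 1413870), (507, 1675485), (529, 1528569), (575, 1532010), (578, 1633560), (595,
    1191000), (598, 1376100), (637, 1532400), (646, 1538880), (663, 1551270), (665, 1527750), (722,
    1505430), (741, 1411110), (782, 1382100), (805, 1364190), (833, 1752060), (845, 1372380), (867,
    1740420), (874, 1420680), (897, 1468440), (931, 1536945), (969, 1452900), (1058, 1600305), (1083,
    1687665), (1105, 1754970), (1127, 1603530), (1173, 1510620), (1183, 1478565), (1235, 1446330),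
    (1311, 1707810), (1445, 1337175), (1495, 1409970), (1547, 1503810), (1587, 1514025), (1615,
    1452390), (1729, 1761570), (1805, 1515915), (1955, 1545840), (2023, 1419675), (2093, 1397010),
    (2185, 1449750), (2197, 1537350), (2261, 1526130), (2527, 1629150), (2645, 1519230), (2737,
    1536360), (2873, 1324185), (3059, 1618080), (3211, 1515990), (3703, 1424310), (3757, 1637985),
    (3887, 1372905), (4199, 1588770), (4693, 1275480), (4913, 1424775), (5083, 1591650), (5491,
    1387140), (5681, 1565700), (6137, 1502685), (6647, 1502520), (6859, 1378430), (6877, 1568565),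
    (7429, 1654470), (8303, 1484055), (8993, 1359645), (10051, 1389645), (12167, 1423515)]))
    (by norm_num) (by decide +kernel)

theorem p3 : Ck (gP 3)
    (pol 3 nE WE (vP c1E c2E)) :=
  Ck.mk' 250000 (.add (.add (.add (.add (.add (.mul (.g 10) (.add (.add (.add (.add (.mul (.pp [(1, 31845)]) (.sq
    [(2, 56), (3, 89), (5, 78), (7, 78), (13, 100), (17, 78), (19, 78), (23, 78)])) (.mul (.pp [(1,
    277605)]) (.sq [(2, 100), (3, -99), (5, 22), (7, 22), (13, -55), (17, 22), (19, 22), (23, 22)])))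
    (.add (.mul (.pp [(1, 247230)]) (.sq [(2, 64), (3, -1), (5, 31), (7, -43), (13, -27), (17, 100),
    (19, 3), (23, -71)])) (.add (.mul (.pp [(1, 354915)]) (.sq [(2, 6), (3, -8), (5, -41), (7, -75),
    (13, 10), (17, 3), (19, 1), (23, 100)])) (.mul (.pp [(1, 121890)]) (.sq [(2, 2), (3, 100), (5,
    -10), (7, -54), (13, -3), (19, 15), (23, -13)]))))) (.add (.add (.mul (.pp [(1, 19245)]) (.sq [(2,
    -60), (3, -18), (5, 53), (7, 26), (13, 39), (17, -32), (19, 13), (23, 100)])) (.add (.mul (.pp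
    [(1, 621345)]) (.sq [(2, -24), (3, 9), (5, 49), (7, 21), (13, -100), (17, 57), (19, -16), (23,
    15)])) (.mul (.pp [(1, 18600)]) (.sq [(2, -15), (5, -13), (7, -10), (13, -15), (17, 100), (19, 2),
    (23, -48)])))) (.add (.mul (.pp [(1, 146100)]) (.sq [(2, -76), (3, -75), (5, 100), (7, -39), (13,
    48), (17, -22), (19, 13), (23, -49)])) (.add (.mul (.pp [(1, 1590390)]) (.sq [(1, -3), (2, 69),
    (3, -100), (5, -11), (7, 32), (13, 74), (17, -5), (19, -26)])) (.mul (.pp [(1, 236955)]) (.sq [(2,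
    -8), (3, 91), (5, 2), (7, -27), (13, -82), (17, 38), (19, -67), (23, 100)])))))) (.add (.add (.add
    (.mul (.pp [(1, 162540)]) (.sq [(2, -100), (3, -36), (5, -55), (7, 100), (13, -68), (19, -37),
    (23, 87)])) (.mul (.g 7) (.add (.add (.pp [(1, 33228300000)]) (.add (.mul (.g 1) (.pp [(1,
    12773850000)])) (.mul (.g 3) (.pp [(1, 33053400000)])))) (.add (.mul (.g 11) (.pp [(1,
    285900000)])) (.add (.mul (.g 17) (.pp [(1, 2830650000)])) (.mul (.g 18) (.pp [(1,
    843900000)]))))))) (.add (.mul (.g 8) (.add (.add (.mul (.g 0) (.pp [(1, 128490000)])) (.mul (.g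
    6) (.pp [(1, 1748400000)]))) (.add (.mul (.g 9) (.pp [(1, 18704550000)])) (.add (.mul (.g 16) (.pp
    [(1, 32941350000)])) (.mul (.g 17) (.pp [(1, 5613000000)])))))) (.add (.mul (.g 3) (.add (.add
    (.mul (.g 3) (.pp [(1, 14248350000)])) (.mul (.g 10) (.pp [(1, 8177850000)]))) (.add (.mul (.g 17)
    (.pp [(1, 11623800000)])) (.mul (.g 18) (.pp [(1, 2392920000)]))))) (.mul (.g 10) (.add (.pp [(1,
    27070650000)]) (.add (.mul (.g 2) (.pp [(1, 6991200000)])) (.mul (.g 12) (.pp [(1,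
    3832200000)])))))))) (.add (.add (.mul (.g 13) (.add (.pp [(1, 18498150000)]) (.add (.mul (.g 16)
    (.pp [(1, 8968650000)])) (.mul (.g 17) (.pp [(1, 7602900000)]))))) (.add (.mul (.g 18) (.add (.pp
    [(1, 4215060000)]) (.add (.mul (.g 11) (.pp [(1, 226050000)])) (.mul (.g 14) (.pp [(1,
    4571580000)]))))) (.mul (.g 19) (.add (.pp [(1, 1086840000)]) (.add (.mul (.g 15) (.pp [(1,
    1883700000)])) (.mul (.g 16) (.pp [(1, 5199990000)]))))))) (.add (.mul (.g 20) (.add (.pp [(1,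
    1527780000)]) (.mul (.g 11) (.pp [(1, 704970000)])))) (.add (.mul (.g 0) (.pp [(1, 1990590000)]))
    (.mul (.g 2) (.mul (.g 5) (.pp [(1, 1438650000)]))))))))) (.mul (.g 13) (.add (.add (.add (.mul
    (.pp [(1, 84120)]) (.sq [(1, 3), (2, -15), (3, 33), (5, -79), (7, -42), (13, 61), (17, -5), (19,
    4), (23, -100)])) (.add (.mul (.pp [(1, 372195)]) (.sq [(2, -100), (3, 41), (5, 81), (7, -100),
    (13, 6), (17, 7), (19, 70), (23, 25)])) (.mul (.pp [(1, 2669250)]) (.sq [(1, 7), (3, 4), (5, 12),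
    (17, -20), (19, 4)])))) (.add (.mul (.pp [(1, 834765)]) (.sq [(1, -60), (2, 43), (3, 41), (5, 42),
    (7, 22), (13, 100), (17, -17), (19, -15), (23, 24)])) (.add (.mul (.pp [(1, 171000)]) (.sq [(1,
    4), (2, 75), (3, 35), (5, -53), (7, 100), (13, -49), (17, -73), (19, 8), (23, -26)])) (.mul (.g 3)
    (.add (.add (.pp [(1, 17246550000)]) (.add (.mul (.g 7) (.pp [(1, 7141050000)])) (.mul (.g 11)
    (.pp [(1, 1491750000)])))) (.add (.mul (.g 13) (.pp [(1, 15599100000)])) (.add (.mul (.g 17) (.pp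
    [(1, 3948450000)])) (.mul (.g 19) (.pp [(1, 5450610000)]))))))))) (.add (.add (.mul (.g 16) (.add
    (.add (.mul (.g 7) (.pp [(1, 15318600000)])) (.mul (.g 8) (.pp [(1, 7519200000)]))) (.add (.mul
    (.g 13) (.pp [(1, 3393450000)])) (.add (.mul (.g 16) (.pp [(1, 38771250000)])) (.mul (.g 20) (.pp
    [(1, 359670000)])))))) (.add (.mul (.g 12) (.add (.add (.mul (.g 7) (.pp [(1, 17342400000)]))
    (.mul (.g 11) (.pp [(1, 782550000)]))) (.add (.mul (.g 18) (.pp [(1, 10080000)])) (.mul (.g 19)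
    (.pp [(1, 12326280000)]))))) (.mul (.g 0) (.add (.pp [(1, 1526812500)]) (.add (.mul (.g 15) (.pp
    [(1, 82500)])) (.mul (.g 20) (.pp [(1, 33060000)]))))))) (.add (.add (.mul (.g 4) (.add (.mul (.g
    14) (.pp [(1, 3538050000)])) (.mul (.g 18) (.pp [(1, 2804160000)])))) (.mul (.g 7) (.add (.mul (.g
    8) (.pp [(1, 9642150000)])) (.mul (.g 15) (.pp [(1, 19655700000)]))))) (.add (.mul (.g 6) (.mul
    (.g 13) (.pp [(1, 2022150000)]))) (.mul (.g 9) (.mul (.g 18) (.pp [(1, 917070000)]))))))))) (.add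
    (.mul (.g 5) (.add (.add (.add (.mul (.pp [(1, 68355)]) (.sq [(1, 100), (2, -30), (3, -46), (5,
    -95), (7, -59), (13, -50), (17, -14), (19, -19), (23, 60)])) (.add (.mul (.pp [(1, 643770)]) (.sq
    [(1, -29), (2, -4), (3, -4), (5, 9), (7, -38), (13, -41), (17, 100), (19, 34), (23, -37)])) (.mul
    (.pp [(1, 257925)]) (.sq [(1, 7), (2, -43), (3, -67), (5, 100), (7, -63), (13, 71), (17, 29), (19,
    -35), (23, 11)])))) (.add (.add (.mul (.pp [(1, 5059185)]) (.sq [(1, -16), (2, -10), (3, 9), (5,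
    -7), (7, 100), (13, 11), (17, -26), (19, -27), (23, -24)])) (.mul (.pp [(1, 1669125)]) (.sq [(1,
    -15), (2, 100), (3, 19), (5, 26), (7, 16), (13, -64), (17, 30), (19, -53), (23, 83)]))) (.add
    (.mul (.pp [(1, 256140)]) (.sq [(2, -57), (3, -22), (5, -8), (7, -57), (13, 100), (17, 93), (19,
    -39), (23, -43)])) (.mul (.pp [(1, 127215)]) (.sq [(2, 63), (3, -42), (5, 14), (7, 4), (13, -24),
    (17, 100), (19, -7), (23, -37)]))))) (.add (.add (.add (.mul (.pp [(1, 22410)]) (.sq [(2, -39),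
    (3, 20), (5, -29), (7, 79), (13, -100), (17, -11), (19, 3), (23, -58)])) (.mul (.g 0) (.add (.add
    (.add (.pp [(1, 1057717500)]) (.mul (.g 2) (.pp [(1, 1544692500)]))) (.add (.mul (.g 3) (.pp [(1,
    3071437500)])) (.mul (.g 4) (.pp [(1, 265057500)])))) (.add (.add (.mul (.g 8) (.pp [(1,
    782047500)])) (.mul (.g 11) (.pp [(1, 1983322500)]))) (.add (.mul (.g 15) (.pp [(1, 518250000)]))
    (.mul (.g 20) (.pp [(1, 37432500)]))))))) (.add (.mul (.g 16) (.add (.pp [(1, 486900000)]) (.add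
    (.mul (.g 12) (.pp [(1, 32699400000)])) (.mul (.g 19) (.pp [(1, 9594450000)]))))) (.mul (.g 15)
    (.add (.mul (.g 11) (.pp [(1, 7109250000)])) (.mul (.g 18) (.pp [(1, 6510480000)])))))) (.add
    (.add (.mul (.g 17) (.add (.mul (.g 3) (.pp [(1, 1409100000)])) (.mul (.g 20) (.pp [(1,
    1269360000)])))) (.mul (.g 4) (.mul (.g 6) (.pp [(1, 27535200000)])))) (.add (.mul (.g 7) (.mul
    (.g 7) (.pp [(1, 3909600000)]))) (.mul (.g 18) (.mul (.g 20) (.pp [(1, 133008000)])))))))) (.mul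
    (.g 20) (.add (.add (.add (.mul (.pp [(1, 143502)]) (.sq [(1, -5), (2, -68), (3, 26), (5, 100),
    (7, 39), (13, 39), (17, -30), (19, -28), (23, -14)])) (.mul (.pp [(1, 345660)]) (.sq [(2, 1), (5,
    100), (7, 11), (13, -22), (17, 6), (19, 2), (23, -7)]))) (.add (.mul (.pp [(1, 75264)]) (.sq [(1,
    -10), (2, 37), (3, -59), (5, -38), (7, -15), (13, 46), (17, 100), (19, -20), (23, -42)])) (.mul
    (.g 0) (.add (.add (.pp [(1, 830740500)]) (.add (.mul (.g 1) (.pp [(1, 761050500)])) (.mul (.g 11)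
    (.pp [(1, 81709500)])))) (.add (.mul (.g 18) (.pp [(1, 14525700)])) (.add (.mul (.g 19) (.pp [(1,
    42667800)])) (.mul (.g 20) (.pp [(1, 23701800)])))))))) (.add (.add (.mul (.g 17) (.add (.mul (.g
    9) (.pp [(1, 285090000)])) (.add (.mul (.g 12) (.pp [(1, 59460000)])) (.mul (.g 19) (.pp [(1,
    99318000)]))))) (.mul (.g 6) (.add (.mul (.g 3) (.pp [(1, 4098840000)])) (.mul (.g 7) (.pp [(1,
    2446710000)]))))) (.add (.mul (.g 8) (.mul (.g 15) (.pp [(1, 359160000)]))) (.mul (.g 12) (.mul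
    (.g 16) (.pp [(1, 1541760000)]))))))))) (.add (.add (.mul (.g 7) (.add (.add (.mul (.g 6) (.add
    (.add (.mul (.g 3) (.pp [(1, 10478400000)])) (.mul (.g 11) (.pp [(1, 10845150000)]))) (.add (.mul
    (.g 14) (.pp [(1, 33595650000)])) (.mul (.g 15) (.pp [(1, 23661000000)]))))) (.mul (.g 16) (.add
    (.add (.mul (.g 0) (.pp [(1, 381532500)])) (.mul (.g 17) (.pp [(1, 3849450000)]))) (.add (.mul (.g
    18) (.pp [(1, 2899470000)])) (.mul (.g 19) (.pp [(1, 10397490000)])))))) (.add (.mul (.g 7) (.add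
    (.mul (.g 0) (.pp [(1, 495037500)])) (.add (.mul (.g 8) (.pp [(1, 3774750000)])) (.mul (.g 17)
    (.pp [(1, 132750000)]))))) (.mul (.g 11) (.mul (.g 17) (.pp [(1, 4991850000)])))))) (.mul (.g 18)
    (.add (.add (.add (.mul (.pp [(1, 140322)]) (.sq [(1, 5), (2, 4), (3, 96), (5, 83), (7, -68), (13,
    33), (17, -100), (19, 89), (23, -73)])) (.mul (.pp [(1, 100170)]) (.sq [(1, -29), (2, 58), (3,
    36), (5, -71), (7, -8), (13, -81), (17, 7), (19, 100), (23, -34)]))) (.add (.mul (.pp [(1,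
    107898)]) (.sq [(1, -3), (2, -95), (3, 39), (5, 80), (7, -22), (13, -100), (17, 67), (19, -2),
    (23, -34)])) (.mul (.pp [(1, 103380)]) (.sq [(1, 51), (2, 43), (3, -11), (5, 100), (7, -14), (13,
    6), (17, -24), (19, -85), (23, -1)])))) (.add (.add (.mul (.pp [(1, 4603590000)]) (.sq [(3, 1),
    (13, -1)])) (.mul (.pp [(1, 188475)]) (.sq [(2, 100), (3, 7), (5, 3), (7, -5), (13, -21), (19,
    -9)]))) (.add (.mul (.g 8) (.add (.mul (.g 8) (.pp [(1, 5122290000)])) (.mul (.g 19) (.pp [(1,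
    234942000)])))) (.add (.mul (.g 15) (.add (.mul (.g 1) (.pp [(1, 6125550000)])) (.mul (.g 19) (.pp
    [(1, 1114470000)])))) (.mul (.g 6) (.mul (.g 16) (.pp [(1, 3265140000)]))))))))) (.add (.mul (.g
    1) (.add (.add (.mul (.g 16) (.add (.mul (.g 8) (.pp [(1, 2027400000)])) (.add (.mul (.g 12) (.pp
    [(1, 12146250000)])) (.mul (.g 17) (.pp [(1, 17141550000)]))))) (.mul (.g 0) (.add (.mul (.g 14)
    (.pp [(1, 1467165000)])) (.mul (.g 15) (.pp [(1, 220845000)]))))) (.add (.mul (.g 6) (.add (.mul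
    (.g 3) (.pp [(1, 13864500000)])) (.mul (.g 6) (.pp [(1, 21689250000)])))) (.mul (.g 15) (.mul (.g
    17) (.pp [(1, 29853900000)])))))) (.mul (.g 19) (.add (.add (.mul (.pp [(1, 748566)]) (.sq [(2,
    -20), (3, 100), (5, -9), (13, 16), (17, -2), (19, 6), (23, -13)])) (.mul (.pp [(1, 242058)]) (.sq
    [(1, -2), (2, -29), (3, 70), (5, 29), (7, -23), (13, -26), (17, 100), (19, 3), (23, -20)]))) (.add
    (.mul (.pp [(1, 3222)]) (.sq [(1, 25), (2, -36), (3, 42), (5, -7), (7, -17), (13, 31), (17, 100),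
    (19, -47), (23, -7)])) (.add (.mul (.pp [(1, 141039)]) (.sq [(1, -68), (2, 39), (3, -47), (5,
    -39), (7, 100), (13, -33), (17, 82), (19, 17), (23, -32)])) (.mul (.g 6) (.mul (.g 16) (.pp [(1,
    650820000)])))))))))) (.add (.add (.add (.mul (.g 6) (.add (.mul (.pp [(1, 470040)]) (.sq [(2,
    38), (3, -20), (5, -9), (7, 14), (13, -38), (17, 100), (19, -6), (23, -14)])) (.add (.mul (.g 3)
    (.mul (.g 6) (.pp [(1, 23164350000)]))) (.mul (.g 16) (.mul (.g 17) (.pp [(1, 4702500000)]))))))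
    (.mul (.g 4) (.add (.mul (.pp [(1, 723990)]) (.sq [(1, -46), (2, 39), (3, 2), (5, -7), (7, -26),
    (13, -89), (17, 51), (19, 100), (23, -47)])) (.mul (.pp [(1, 287970)]) (.sq [(1, 6), (2, 20), (3,
    -38), (5, 38), (7, -24), (13, -29), (17, 100), (19, 59), (23, -87)]))))) (.add (.mul (.g 8) (.add
    (.mul (.pp [(1, 68895)]) (.sq [(1, -36), (2, 37), (3, 100), (5, 12), (7, -26), (13, 60), (17, 71),
    (19, -43), (23, -10)])) (.mul (.pp [(1, 16230)]) (.sq [(1, -23), (2, 43), (3, -19), (5, -82), (7,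
    -10), (13, -60), (17, 100), (19, 89), (23, -57)])))) (.mul (.g 15) (.add (.mul (.pp [(1, 59325)])
    (.sq [(1, -36), (2, 20), (3, -40), (5, 94), (7, -27), (13, -11), (17, 17), (19, 100), (23, -81)]))
    (.mul (.pp [(1, 252975)]) (.sq [(1, -22), (2, 100), (3, 61), (5, -22), (7, -42), (13, -15), (17,
    27), (19, 5), (23, 8)])))))) (.add (.add (.mul (.g 0) (.mul (.pp [(1, 12942)]) (.sq [(1, -37), (2,
    25), (3, 9), (5, -14), (7, 11), (13, 21), (17, -38), (19, -66), (23, 100)]))) (.mul (.g 11) (.mul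
    (.pp [(1, 307365)]) (.sq [(1, -14), (2, 34), (3, -44), (5, 97), (7, -100), (13, 60), (17, 76),
    (19, 6), (23, 22)])))) (.add (.mul (.g 12) (.mul (.pp [(1, 984360)]) (.sq [(1, -16), (2, -30), (3,
    -41), (5, -55), (7, 28), (13, 15), (17, -18), (19, -47), (23, 100)]))) (.add (.mul (.g 16) (.mul
    (.pp [(1, 54885)]) (.sq [(1, -51), (2, 70), (3, 86), (5, -21), (7, 10), (13, 100), (17, -23), (19,
    -43), (23, 30)]))) (.mul (.g 17) (.mul (.pp [(1, 122535)]) (.sq [(1, 13), (2, -6), (3, 10), (7,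
    23), (13, 97), (17, -100), (19, -90), (23, 74)])))))))) (.pp [(1, 594618744), (2, 1790334), (3,
    1294551), (4, 1676340), (5, 1261287), (6, 1384386), (7, 1281810), (8, 1518780), (9, 1657371), (10,
    1739838), (12, 1296480), (13, 1261434), (14, 1514688), (15, 1612020), (17, 1531524), (18,
    1641390), (19, 1418478), (20, 1626240), (21, 1366128), (23, 1342590), (25, 1579296), (26,
    1293660), (27, 1595895), (28, 1581840), (30, 1396890), (34, 1125828), (35, 1555398), (38,
    1117230), (39, 1700262), (42, 1678680), (45, 1517220), (46, 1304034), (49, 1523850), (50,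
    1454670), (51, 1431198), (52, 1462365), (57, 1707288), (63, 1526145), (65, 1203258), (68,
    1497045), (69, 1154352), (70, 1423290), (75, 1529925), (76, 1398690), (78, 1291500), (85,
    1647258), (91, 1297698), (92, 1350465), (95, 1598196), (98, 1413975), (102, 1325040), (105,
    1570470), (114, 1545540), (115, 1618872), (117, 1470300), (119, 1335156), (125, 1506080), (130,
    1138320), (133, 1540608), (138, 1286550), (147, 1659810), (153, 1496040), (161, 1612362), (169,
    1828878), (170, 1722240), (171, 1218315), (175, 1539390), (182, 1385430), (190, 1266750), (195,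
    1306020), (207, 1308765), (221, 1505310), (230, 1467870), (238, 1023540), (245, 1571865), (247,
    1753044), (255, 1432050), (266, 1606980), (273, 1336920), (285, 1408200), (289, 1336323), (299,
    1447776), (322, 1477590), (323, 1591764), (325, 1557285), (338, 1554525), (343, 1547410), (345,
    1686210), (357, 1454970), (361, 1512249), (391, 1493364), (399, 1569000), (425, 1460490), (437,
    1493682), (442, 1499550), (455, 1729080), (475, 1483335), (483, 1296210), (494, 1426770), (507,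
    1620555), (529, 1608639), (575, 1436985), (578, 1606020), (595, 1414920), (598, 1853280), (637,
    1610535), (646, 1874280), (663, 1451490), (665, 1407330), (722, 1566615), (741, 1757790), (782,
    1552080), (805, 1386870), (833, 1465290), (845, 1792065), (867, 1522095), (874, 1492290), (897,
    1682190), (931, 1479855), (969, 1605990), (1058, 1477680), (1083, 1472805), (1105, 1448400),
    (1127, 1269660), (1173, 1654290), (1183, 1666800), (1235, 1564980), (1311, 1635630), (1445,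
    1508550), (1495, 1508940), (1547, 1970190), (1587, 1921575), (1615, 1434360), (1729, 1303650),
    (1805, 1605900), (1955, 1304640), (2023, 1398795), (2093, 1559790), (2185, 1691310), (2197,
    1391370), (2261, 1556460), (2527, 1512615), (2645, 1349430), (2737, 1733520), (2873, 1479060),
    (3059, 1744290), (3211, 1338600), (3703, 1586895), (3757, 1453275), (3887, 1375020), (4199,
    1457610), (4693, 1798620), (4913, 1589040), (5083, 1465680), (5491, 1473225), (5681, 1464150),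
    (6137, 1520685), (6647, 1660635), (6859, 1505940), (6877, 1678545), (7429, 1605300), (8303,
    1408080), (8993, 1161495), (10051, 1509090), (12167, 1379690)]))
    (by norm_num) (by decide +kernel)

theorem p4 : Ck (gP 4)
    (pol 4 nE WE (vP c1E c2E)) :=
  Ck.mk' 250000 (.add (.add (.add (.add (.mul (.g 10) (.add (.add (.add (.add (.mul (.pp [(1, 676185)]) (.sq [(1,
    2), (2, 87), (3, -64), (5, -100), (7, -6), (13, 23), (17, 23), (19, -40), (23, 2)])) (.mul (.pp
    [(1, 698865)]) (.sq [(1, -44), (2, 34), (3, 100), (5, -39), (7, 14), (13, 54), (17, 8), (19, -51),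
    (23, -34)]))) (.add (.mul (.pp [(1, 165000)]) (.sq [(1, -6), (2, -44), (3, 58), (5, -100), (7,
    100), (13, -64), (17, 19), (19, 19), (23, 46)])) (.add (.mul (.pp [(1, 40920)]) (.sq [(2, 70), (3,
    -29), (5, -6), (7, -1), (13, 95), (17, 8), (19, -100), (23, 1)])) (.mul (.pp [(1, 372210)]) (.sq
    [(1, 100), (2, -17), (3, 42), (5, 45), (7, -74), (13, -36), (17, -44), (19, -62)]))))) (.add (.add
    (.mul (.pp [(1, 19920)]) (.sq [(2, -26), (3, -18), (5, -89), (13, -1), (17, -100), (19, 27), (23,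
    79)])) (.mul (.pp [(1, 650220)]) (.sq [(2, 100), (3, -93), (5, 26), (7, 14), (13, -49), (17, 26),
    (19, 14), (23, 26)]))) (.add (.mul (.pp [(1, 456015)]) (.sq [(1, 7), (2, -61), (3, 100), (5, -26),
    (7, 4), (13, -67), (17, 83), (19, 50), (23, -20)])) (.add (.mul (.pp [(1, 1488975)]) (.sq [(2,
    -3), (3, 100), (5, 18), (7, 22), (13, -23), (17, -16), (19, -55), (23, -22)])) (.mul (.pp [(1,
    164355)]) (.sq [(1, 29), (2, -14), (3, 29), (5, 94), (7, -100), (13, 92), (17, -96), (19, 27),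
    (23, -29)])))))) (.add (.add (.add (.mul (.g 16) (.add (.add (.mul (.g 3) (.pp [(1, 7026750000)]))
    (.mul (.g 4) (.pp [(1, 5971050000)]))) (.add (.mul (.g 8) (.pp [(1, 6470700000)])) (.add (.mul (.g
    18) (.pp [(1, 35910000)])) (.mul (.g 19) (.pp [(1, 7725930000)])))))) (.mul (.g 0) (.add (.add
    (.mul (.g 1) (.pp [(1, 913830000)])) (.mul (.g 4) (.pp [(1, 274650000)]))) (.add (.mul (.g 8) (.pp
    [(1, 556867500)])) (.mul (.g 18) (.pp [(1, 213069000)])))))) (.add (.mul (.g 2) (.add (.mul (.g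
    10) (.pp [(1, 6237600000)])) (.add (.mul (.g 17) (.pp [(1, 9634500000)])) (.mul (.g 18) (.pp [(1,
    1115040000)]))))) (.add (.mul (.g 7) (.add (.mul (.g 3) (.pp [(1, 2548050000)])) (.add (.mul (.g
    8) (.pp [(1, 3579000000)])) (.mul (.g 15) (.pp [(1, 21817200000)]))))) (.mul (.g 9) (.add (.pp
    [(1, 13891800000)]) (.add (.mul (.g 1) (.pp [(1, 2085000000)])) (.mul (.g 8) (.pp [(1,
    9708750000)])))))))) (.add (.add (.mul (.g 10) (.add (.pp [(1, 2703150000)]) (.mul (.g 18) (.pp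
    [(1, 2865780000)])))) (.add (.mul (.g 17) (.add (.mul (.g 6) (.pp [(1, 16127700000)])) (.mul (.g
    20) (.pp [(1, 3024300000)])))) (.mul (.g 4) (.pp [(1, 23168100000)])))) (.add (.mul (.g 12) (.mul
    (.g 20) (.pp [(1, 2207670000)]))) (.add (.mul (.g 13) (.pp [(1, 11556300000)])) (.mul (.g 15)
    (.mul (.g 15) (.pp [(1, 2086050000)]))))))))) (.add (.mul (.g 13) (.add (.add (.add (.mul (.pp
    [(1, 51705)]) (.sq [(2, -13), (3, -26), (5, -39), (7, -100), (13, 99), (17, 7), (19, 47), (23,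
    -35)])) (.add (.mul (.pp [(1, 736725)]) (.sq [(2, 100), (3, 59), (5, 39), (7, -29), (13, 41), (17,
    -20), (19, -9), (23, -2)])) (.mul (.pp [(1, 110820)]) (.sq [(2, -94), (3, -15), (5, 100), (13, 2),
    (17, 38), (19, -99), (23, 40)])))) (.add (.add (.mul (.pp [(1, 117060)]) (.sq [(2, -100), (3, 57),
    (5, 57), (7, 22), (13, -100), (17, 57), (19, 57), (23, 22)])) (.mul (.pp [(1, 535095)]) (.sq [(1,
    -56), (2, 69), (3, 100), (5, -9), (7, -8), (13, -49), (17, 40), (19, 23), (23, 68)]))) (.add (.mul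
    (.pp [(1, 526830)]) (.sq [(1, 3), (2, -10), (3, 3), (5, 100), (7, -55), (13, -14), (17, 4), (19,
    20), (23, -23)])) (.mul (.g 13) (.add (.add (.mul (.g 3) (.pp [(1, 21931050000)])) (.add (.mul (.g
    7) (.pp [(1, 7321650000)])) (.mul (.g 8) (.pp [(1, 226350000)])))) (.add (.add (.mul (.g 11) (.pp
    [(1, 7871550000)])) (.mul (.g 13) (.pp [(1, 6100350000)]))) (.add (.mul (.g 17) (.pp [(1,
    4146300000)])) (.mul (.g 19) (.pp [(1, 2132790000)]))))))))) (.add (.add (.add (.mul (.g 12) (.add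
    (.add (.pp [(1, 1231350000)]) (.mul (.g 3) (.pp [(1, 2771850000)]))) (.add (.mul (.g 7) (.pp [(1,
    4922850000)])) (.add (.mul (.g 17) (.pp [(1, 493500000)])) (.mul (.g 19) (.pp [(1,
    6040860000)])))))) (.mul (.g 4) (.add (.add (.pp [(1, 35530350000)]) (.mul (.g 8) (.pp [(1,
    4739400000)]))) (.add (.mul (.g 17) (.pp [(1, 4516200000)])) (.mul (.g 19) (.pp [(1,
    6311970000)])))))) (.add (.mul (.g 6) (.add (.mul (.g 2) (.pp [(1, 10002300000)])) (.add (.mul (.g
    11) (.pp [(1, 10591800000)])) (.mul (.g 19) (.pp [(1, 6388440000)]))))) (.mul (.g 16) (.add (.pp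
    [(1, 877500000)]) (.add (.mul (.g 8) (.pp [(1, 7721850000)])) (.mul (.g 20) (.pp [(1,
    695370000)]))))))) (.add (.add (.mul (.g 18) (.add (.pp [(1, 3094170000)]) (.add (.mul (.g 3) (.pp
    [(1, 398250000)])) (.mul (.g 11) (.pp [(1, 1449930000)]))))) (.mul (.g 0) (.mul (.g 19) (.pp [(1,
    249820500)])))) (.add (.mul (.g 1) (.mul (.g 9) (.pp [(1, 4968600000)]))) (.mul (.g 20) (.pp [(1,
    221580000)]))))))) (.mul (.g 6) (.add (.add (.add (.mul (.pp [(1, 95385)]) (.sq [(1, -10), (2,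
    -93), (3, 41), (5, 20), (7, -77), (13, -28), (17, 100), (19, -50), (23, -61)])) (.mul (.pp [(1,
    386880)]) (.sq [(1, -19), (2, 84), (3, 56), (5, -100), (7, -1), (13, -74), (17, 57), (19, 15),
    (23, -3)]))) (.add (.mul (.pp [(1, 222495)]) (.sq [(1, -33), (2, 91), (3, 61), (5, 100), (7, -22),
    (13, 9), (17, -39), (19, -48), (23, 30)])) (.add (.mul (.pp [(1, 1243530)]) (.sq [(2, -42), (3,
    63), (5, 16), (7, -100), (13, 77), (17, 18), (19, 38), (23, 8)])) (.mul (.g 15) (.add (.add (.mul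
    (.g 3) (.pp [(1, 7767150000)])) (.mul (.g 12) (.pp [(1, 16995900000)]))) (.add (.mul (.g 16) (.pp
    [(1, 10777350000)])) (.mul (.g 17) (.pp [(1, 8949450000)])))))))) (.add (.add (.mul (.g 18) (.add
    (.add (.mul (.g 0) (.pp [(1, 118486500)])) (.mul (.g 2) (.pp [(1, 444390000)]))) (.add (.mul (.g
    7) (.pp [(1, 533820000)])) (.mul (.g 20) (.pp [(1, 283824000)]))))) (.add (.mul (.g 0) (.add (.mul
    (.g 2) (.pp [(1, 786990000)])) (.mul (.g 8) (.pp [(1, 413362500)])))) (.mul (.g 3) (.add (.mul (.g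
    7) (.pp [(1, 3426150000)])) (.mul (.g 19) (.pp [(1, 199860000)])))))) (.add (.mul (.g 4) (.add
    (.pp [(1, 4002000000)]) (.mul (.g 5) (.pp [(1, 20187450000)])))) (.add (.mul (.g 12) (.add (.mul
    (.g 8) (.pp [(1, 2751750000)])) (.mul (.g 14) (.pp [(1, 16521300000)])))) (.mul (.g 17) (.mul (.g
    20) (.pp [(1, 1125330000)])))))))))) (.add (.add (.mul (.g 20) (.add (.add (.add (.mul (.pp [(1,
    31899)]) (.sq [(1, -29), (2, 31), (3, 24), (5, 100), (7, -48), (13, 46), (17, 34), (19, -49), (23,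
    -45)])) (.add (.mul (.pp [(1, 45684)]) (.sq [(1, 8), (2, -40), (3, 32), (5, -7), (7, 57), (13,
    -100), (17, 4), (19, -6), (23, 16)])) (.mul (.pp [(1, 239655)]) (.sq [(2, -1), (3, -4), (5, 100),
    (7, 16), (13, 6), (17, -27), (19, -17), (23, 27)])))) (.add (.mul (.pp [(1, 73791)]) (.sq [(1,
    19), (2, 42), (3, -21), (5, 95), (7, -30), (13, -21), (17, -62), (19, 100), (23, -82)])) (.add
    (.mul (.pp [(1, 398850)]) (.sq [(13, 20), (17, -20), (19, -13), (23, 13)])) (.mul (.pp [(1,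
    111492)]) (.sq [(1, -32), (2, 29), (3, 100), (5, 71), (7, 18), (13, 6), (19, -57), (23, -14)])))))
    (.add (.add (.mul (.pp [(1, 43260)]) (.sq [(2, -60), (3, 65), (5, 81), (7, -100), (13, -5), (17,
    53), (19, 52), (23, 45)])) (.add (.mul (.g 0) (.add (.add (.pp [(1, 836517000)]) (.add (.mul (.g
    1) (.pp [(1, 714045000)])) (.mul (.g 5) (.pp [(1, 156460500)])))) (.add (.mul (.g 8) (.pp [(1,
    54846000)])) (.add (.mul (.g 19) (.pp [(1, 56184600)])) (.mul (.g 20) (.pp [(1, 34917000)]))))))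
    (.mul (.g 17) (.add (.mul (.g 7) (.pp [(1, 2706360000)])) (.add (.mul (.g 17) (.pp [(1,
    565020000)])) (.mul (.g 18) (.pp [(1, 512436000)]))))))) (.add (.mul (.g 7) (.mul (.g 16) (.pp
    [(1, 1552410000)]))) (.add (.mul (.g 15) (.mul (.g 18) (.pp [(1, 386484000)]))) (.mul (.g 20)
    (.mul (.g 20) (.pp [(1, 8226000)])))))))) (.mul (.g 7) (.add (.add (.mul (.pp [(1, 628395)]) (.sq
    [(1, -47), (2, 100), (3, -7), (5, 52), (7, 1), (13, -6), (17, 22), (19, 66), (23, -57)])) (.add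
    (.mul (.pp [(1, 299730)]) (.sq [(1, -8), (2, -55), (3, -35), (5, 39), (7, -40), (13, 39), (17,
    100), (19, -76), (23, 9)])) (.mul (.pp [(1, 170670)]) (.sq [(2, -16), (3, -100), (5, -82), (7,
    -12), (13, 92), (17, 19), (19, 19), (23, -29)])))) (.add (.add (.mul (.g 16) (.add (.add (.mul (.g
    4) (.pp [(1, 1999350000)])) (.mul (.g 12) (.pp [(1, 15912150000)]))) (.add (.mul (.g 18) (.pp [(1,
    1293720000)])) (.mul (.g 19) (.pp [(1, 3750390000)]))))) (.mul (.g 0) (.add (.mul (.g 2) (.pp [(1,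
    1034535000)])) (.add (.mul (.g 3) (.pp [(1, 1639372500)])) (.mul (.g 17) (.pp [(1,
    290130000)])))))) (.add (.mul (.g 4) (.add (.mul (.g 7) (.pp [(1, 9971850000)])) (.mul (.g 11)
    (.pp [(1, 12628350000)])))) (.mul (.g 15) (.add (.mul (.g 11) (.pp [(1, 1781250000)])) (.mul (.g
    18) (.pp [(1, 9153720000)]))))))))) (.add (.mul (.g 1) (.add (.add (.mul (.pp [(1, 1718160)]) (.sq
    [(1, -1), (2, -24), (3, 49), (5, -20), (7, 100), (13, 10), (17, -59), (19, 1), (23, -60)])) (.add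
    (.mul (.pp [(1, 1194105)]) (.sq [(1, -46), (2, 29), (3, 68), (5, 100), (7, -22), (13, -9), (17,
    38), (19, 22), (23, 13)])) (.mul (.pp [(1, 9810)]) (.sq [(1, -34), (2, 100), (3, 58), (5, 38), (7,
    -5), (13, 14), (17, -54), (19, 74), (23, 73)])))) (.add (.add (.mul (.g 15) (.add (.add (.mul (.g
    4) (.pp [(1, 17164350000)])) (.mul (.g 9) (.pp [(1, 25706400000)]))) (.add (.mul (.g 17) (.pp [(1,
    17584800000)])) (.mul (.g 18) (.pp [(1, 6423840000)]))))) (.mul (.g 0) (.add (.pp [(1,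
    794482500)]) (.mul (.g 14) (.pp [(1, 3406095000)]))))) (.add (.mul (.g 16) (.add (.mul (.g 8) (.pp
    [(1, 3079800000)])) (.mul (.g 19) (.pp [(1, 7629750000)])))) (.mul (.g 4) (.mul (.g 17) (.pp [(1,
    14983650000)]))))))) (.mul (.g 5) (.add (.add (.mul (.pp [(1, 124815)]) (.sq [(1, 35), (2, 22),
    (3, -68), (5, -100), (7, 15), (13, -45), (17, 37), (19, 29), (23, -28)])) (.add (.mul (.pp [(1,
    239760)]) (.sq [(1, -8), (2, 3), (3, 25), (5, 73), (7, -100), (13, 32), (17, 59), (19, -17), (23,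
    -32)])) (.mul (.pp [(1, 13065)]) (.sq [(2, 84), (3, 77), (5, 10), (7, -4), (13, -100), (17, 8),
    (19, 61), (23, 30)])))) (.add (.mul (.g 0) (.add (.add (.mul (.g 2) (.pp [(1, 2292060000)])) (.mul
    (.g 3) (.pp [(1, 1403257500)]))) (.add (.mul (.g 11) (.pp [(1, 1031205000)])) (.add (.mul (.g 16)
    (.pp [(1, 1480485000)])) (.mul (.g 18) (.pp [(1, 55149000)])))))) (.add (.mul (.g 15) (.add (.mul
    (.g 4) (.pp [(1, 1461600000)])) (.add (.mul (.g 9) (.pp [(1, 15626850000)])) (.mul (.g 11) (.pp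
    [(1, 16203600000)]))))) (.mul (.g 12) (.mul (.g 16) (.pp [(1, 11643450000)])))))))))) (.add (.add
    (.mul (.g 19) (.add (.add (.mul (.pp [(1, 379440000)]) (.sq [(2, 1), (13, -1)])) (.add (.mul (.pp
    [(1, 547107)]) (.sq [(1, -8), (2, -45), (3, 39), (5, -26), (7, -5), (13, -3), (17, 100), (19, -9),
    (23, 9)])) (.mul (.pp [(1, 1589232)]) (.sq [(5, -16), (17, -25), (19, -3), (23, 19)])))) (.add
    (.mul (.g 8) (.add (.mul (.g 16) (.pp [(1, 1303200000)])) (.mul (.g 18) (.pp [(1, 397866000)]))))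
    (.add (.mul (.g 11) (.mul (.g 16) (.pp [(1, 2682990000)]))) (.mul (.g 15) (.mul (.g 18) (.pp [(1,
    514464000)]))))))) (.add (.mul (.g 18) (.add (.add (.mul (.pp [(1, 189696)]) (.sq [(2, 42), (3,
    -4), (5, -57), (7, 6), (13, 74), (17, -100), (19, 1), (23, 49)])) (.mul (.pp [(1, 2935710000)])
    (.sq [(3, 1), (13, -1)]))) (.add (.mul (.pp [(1, 136518)]) (.sq [(1, 15), (2, 36), (3, -16), (5,
    75), (7, -10), (13, 100), (17, -72), (19, -55), (23, 27)])) (.mul (.pp [(1, 601890)]) (.sq [(1,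
    -37), (2, 10), (3, -54), (5, 2), (7, 11), (13, 100), (17, 22), (23, 25)]))))) (.mul (.g 4) (.mul
    (.pp [(1, 37135350000)]) (.sq [(19, -1), (23, 1)]))))) (.add (.add (.mul (.g 11) (.mul (.pp [(1,
    72270)]) (.sq [(1, 10), (2, 3), (3, -91), (5, -46), (13, -43), (17, 100), (19, 76), (23, -50)])))
    (.mul (.g 12) (.mul (.pp [(1, 220335)]) (.sq [(2, 71), (3, 71), (5, -14), (7, 28), (13, -100),
    (17, 60), (19, -16), (23, -14)])))) (.add (.mul (.g 15) (.mul (.pp [(1, 136350)]) (.sq [(1, -66),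
    (2, 46), (3, 100), (5, 37), (7, -32), (13, 58), (17, 15), (19, 41), (23, -32)]))) (.mul (.g 16)
    (.mul (.pp [(1, 430860)]) (.sq [(1, 16), (2, -1), (3, -29), (5, 100), (7, -8), (13, 46), (17, 26),
    (19, -21), (23, -43)]))))))) (.pp [(1, 1208156919), (2, 1517094), (3, 1675158), (4, 1517574), (5,
    1545312), (6, 1892022), (7, 943665), (8, 1472775), (9, 1504704), (10, 1757226), (12, 1650975),
    (13, 1204356), (14, 1274196), (15, 1338006), (17, 1156134), (18, 1734675), (19, 1403826), (20,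
    1533210), (21, 1762476), (23, 1420764), (25, 1561887), (26, 1406322), (27, 1549260), (28,
    1343235), (30, 1628460), (34, 1557954), (35, 1653042), (38, 1486050), (39, 1138428), (42,
    1478010), (45, 1604205), (46, 1723152), (49, 1876497), (50, 1437405), (51, 1570536), (52,
    1674855), (57, 1273248), (63, 1453320), (65, 1429350), (68, 1439265), (69, 1469370), (70,
    1212360), (75, 1530345), (76, 1334355), (78, 1345410), (85, 1264002), (91, 1888842), (92,
    1446210), (95, 1346334), (98, 1572360), (102, 1307580), (105, 1212030), (114, 1298340), (115,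
    1282980), (117, 1474335), (119, 1658166), (125, 1361615), (130, 1722360), (133, 1874826), (138,
    1316610), (147, 1441980), (153, 1613580), (161, 1611072), (169, 1859052), (170, 970410), (171,
    1402650), (175, 1203030), (182, 1359660), (190, 1661130), (195, 1582380), (207, 1566555), (221,
    1519302), (230, 1474020), (238, 1629930), (245, 1514160), (247, 1527492), (255, 1345680), (266,
    1583430), (273, 1474050), (285, 1816710), (289, 1567383), (299, 1395294), (322, 1686840), (323,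
    1557600), (325, 1486365), (338, 1529955), (343, 1414655), (345, 1486800), (357, 1616460), (361,
    1576749), (391, 1610202), (399, 1574940), (425, 1586385), (437, 1541370), (442, 1660860), (455,
    1670820), (475, 1703355), (483, 1332210), (494, 1615020), (507, 1555170), (529, 1567764), (575,
    1706235), (578, 1248420), (595, 1654410), (598, 1569480), (637, 1460130), (646, 1688730), (663,
    1561500), (665, 1485240), (722, 1644315), (741, 1805280), (782, 1486140), (805, 1334790), (833,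
    1373625), (845, 1389195), (867, 1383375), (874, 1487640), (897, 1606320), (931, 1501950), (969,
    1661370), (1058, 1249035), (1083, 1348830), (1105, 1646670), (1127, 1701465), (1173, 1097730),
    (1183, 1502355), (1235, 1451190), (1311, 1687500), (1445, 1605885), (1495, 1431090), (1547,
    1295670), (1587, 1438110), (1615, 1713240), (1729, 1283340), (1805, 1429830), (1955, 1568250),
    (2023, 1459380), (2093, 1376970), (2185, 1552530), (2197, 1387335), (2261, 1427970), (2527,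
    1237500), (2645, 1680150), (2737, 1548270), (2873, 1429515), (3059, 1328790), (3211, 1351125),
    (3703, 1304865), (3757, 1690410), (3887, 1525770), (4199, 1562670), (4693, 1438815), (4913,
    1462845), (5083, 1344210), (5491, 1384680), (5681, 1669410), (6137, 1646175), (6647, 1673460),
    (6859, 1421795), (6877, 1522425), (7429, 1368750), (8303, 1574805), (8993, 1591245), (10051,
    1376670), (12167, 1571570)]))
    (by norm_num) (by decide +kernel)

theorem yc : Ck (gYc 3)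
    (pol 3 nE WE (vYc c1E c2E)) :=
  Ck.mk' 500000 (.add (.add (.add (.add (.mul (.g 11) (.add (.add (.add (.mul (.pp [(1, 842100)]) (.sq [(2, -65),
    (3, 100), (5, -16), (7, -39), (17, 87), (19, 11), (23, 14)])) (.mul (.pp [(1, 4212960)]) (.sq [(1,
    13), (2, -100), (3, -19), (5, 57), (7, 39), (17, -19), (23, 60)]))) (.add (.mul (.pp [(1,
    282180)]) (.sq [(2, -25), (3, 10), (5, -26), (7, 100), (17, 6), (19, -57), (23, 74)])) (.add (.mul
    (.pp [(1, 9227790)]) (.sq [(2, -18), (3, 100), (17, -17), (23, -76)])) (.mul (.g 3) (.add (.add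
    (.pp [(1, 1755300000)]) (.mul (.g 6) (.pp [(1, 54429300000)]))) (.add (.mul (.g 7) (.pp [(1,
    123669300000)])) (.add (.mul (.g 12) (.pp [(1, 37200000)])) (.mul (.g 17) (.pp [(1,
    7115160000)]))))))))) (.add (.add (.mul (.g 8) (.add (.add (.mul (.g 0) (.pp [(1, 640365000)]))
    (.mul (.g 9) (.pp [(1, 9865200000)]))) (.add (.mul (.g 12) (.pp [(1, 12567600000)])) (.add (.mul
    (.g 16) (.pp [(1, 6752520000)])) (.mul (.g 18) (.pp [(1, 5275200000)])))))) (.add (.mul (.g 15)
    (.add (.add (.mul (.g 6) (.pp [(1, 13886400000)])) (.mul (.g 9) (.pp [(1, 11875800000)]))) (.add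
    (.mul (.g 13) (.pp [(1, 43018200000)])) (.add (.mul (.g 17) (.pp [(1, 393840000)])) (.mul (.g 18)
    (.pp [(1, 2509740000)])))))) (.mul (.g 10) (.add (.mul (.g 7) (.pp [(1, 17835300000)])) (.mul (.g
    9) (.pp [(1, 10416000000)])))))) (.add (.mul (.g 13) (.add (.mul (.g 5) (.pp [(1, 126469200000)]))
    (.mul (.g 13) (.pp [(1, 10732200000)])))) (.add (.mul (.g 17) (.add (.mul (.g 11) (.pp [(1,
    31113900000)])) (.mul (.g 17) (.pp [(1, 2056092000)])))) (.mul (.g 14) (.mul (.g 14) (.pp [(1,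
    65242800000)])))))))) (.add (.mul (.g 13) (.add (.add (.add (.mul (.pp [(1, 261120)]) (.sq [(2,
    2), (3, 2), (5, 84), (7, -100), (19, 77), (23, 5)])) (.add (.mul (.pp [(1, 3586770)]) (.sq [(2,
    100), (3, 25), (5, -19), (7, -55), (17, 25), (19, -29), (23, 78)])) (.mul (.g 9) (.add (.add (.mul
    (.g 2) (.pp [(1, 6277200000)])) (.mul (.g 5) (.pp [(1, 52257600000)]))) (.add (.mul (.g 16) (.pp
    [(1, 1956300000)])) (.add (.mul (.g 17) (.pp [(1, 9236100000)])) (.mul (.g 18) (.pp [(1,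
    2002440000)])))))))) (.add (.mul (.g 7) (.add (.mul (.g 3) (.pp [(1, 87194100000)])) (.add (.mul
    (.g 10) (.pp [(1, 29814900000)])) (.mul (.g 12) (.pp [(1, 56318100000)]))))) (.add (.mul (.g 13)
    (.add (.mul (.g 12) (.pp [(1, 2512200000)])) (.add (.mul (.g 14) (.pp [(1, 46309200000)])) (.mul
    (.g 15) (.pp [(1, 6009900000)]))))) (.mul (.g 5) (.add (.pp [(1, 35039700000)]) (.mul (.g 3) (.pp
    [(1, 162245400000)]))))))) (.add (.add (.mul (.g 6) (.add (.mul (.g 4) (.pp [(1, 14490600000)]))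
    (.mul (.g 16) (.pp [(1, 5709360000)])))) (.add (.mul (.g 15) (.add (.mul (.g 0) (.pp [(1,
    2350965000)])) (.mul (.g 18) (.pp [(1, 221460000)])))) (.mul (.g 1) (.pp [(1, 44683200000)]))))
    (.add (.mul (.g 8) (.pp [(1, 179353200000)])) (.add (.mul (.g 14) (.mul (.g 14) (.pp [(1,
    11978700000)]))) (.mul (.g 18) (.pp [(1, 12628680000)]))))))) (.mul (.g 5) (.add (.add (.add (.mul
    (.pp [(1, 389580)]) (.sq [(2, -71), (3, 70), (7, -1), (17, 100), (19, 1), (23, 1)])) (.add (.mul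
    (.pp [(1, 5042100)]) (.sq [(2, 29), (3, 33), (5, -31), (7, 100), (17, 19), (19, -60), (23, -7)]))
    (.mul (.pp [(1, 1699740)]) (.sq [(2, 100), (3, 15), (5, 9), (7, -28), (17, -3), (19, 6), (23,
    -5)])))) (.add (.mul (.pp [(1, 2241930)]) (.sq [(2, 54), (3, -86), (5, 3), (7, -28), (17, 100),
    (19, 8), (23, -66)])) (.add (.mul (.pp [(1, 1119750)]) (.sq [(1, -14), (2, -60), (3, 100), (5,
    -7), (7, -13), (17, 7), (19, 32), (23, -98)])) (.mul (.pp [(1, 12960)]) (.sq [(2, 64), (3, 64),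
    (5, -100), (7, -71), (17, 64), (19, 64), (23, -30)]))))) (.add (.add (.mul (.pp [(1, 744330)])
    (.sq [(2, 30), (3, 30), (5, -100), (7, 83), (19, 74), (23, 21)])) (.add (.mul (.g 3) (.add (.add
    (.pp [(1, 15714900000)]) (.mul (.g 6) (.pp [(1, 135097500000)]))) (.add (.mul (.g 14) (.pp [(1,
    61555800000)])) (.mul (.g 18) (.pp [(1, 2180940000)]))))) (.mul (.g 0) (.add (.pp [(1,
    5725830000)]) (.mul (.g 4) (.pp [(1, 4345140000)])))))) (.add (.add (.mul (.g 18) (.add (.pp [(1,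
    9748980000)]) (.mul (.g 15) (.pp [(1, 5161740000)])))) (.mul (.g 8) (.pp [(1, 92646300000)])))
    (.add (.mul (.g 9) (.mul (.g 17) (.pp [(1, 4915140000)]))) (.mul (.g 10) (.mul (.g 14) (.pp [(1,
    139079700000)])))))))))) (.add (.add (.mul (.g 8) (.add (.add (.add (.mul (.pp [(1, 802350)]) (.sq
    [(1, -7), (2, -44), (3, -76), (5, -9), (7, -4), (17, 13), (19, 100), (23, -81)])) (.mul (.pp [(1,
    34318200000)]) (.sq [(2, -1), (3, 1)]))) (.add (.mul (.g 9) (.add (.add (.mul (.g 8) (.pp [(1,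
    25325100000)])) (.mul (.g 16) (.pp [(1, 14586960000)]))) (.add (.mul (.g 17) (.pp [(1,
    1296480000)])) (.mul (.g 18) (.pp [(1, 7878540000)]))))) (.mul (.g 7) (.add (.mul (.g 2) (.pp [(1,
    9141300000)])) (.add (.mul (.g 3) (.pp [(1, 13955100000)])) (.mul (.g 10) (.pp [(1,
    15782400000)]))))))) (.add (.add (.mul (.g 18) (.add (.pp [(1, 8565480000)]) (.add (.mul (.g 1)
    (.pp [(1, 15283440000)])) (.mul (.g 3) (.pp [(1, 7690320000)]))))) (.mul (.g 8) (.add (.mul (.g
    10) (.pp [(1, 13993200000)])) (.mul (.g 15) (.pp [(1, 8060700000)]))))) (.add (.mul (.g 14) (.add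
    (.pp [(1, 97218900000)]) (.mul (.g 10) (.pp [(1, 9491700000)])))) (.mul (.g 2) (.mul (.g 6) (.pp
    [(1, 6523800000)]))))))) (.mul (.g 18) (.add (.add (.mul (.pp [(1, 171336)]) (.sq [(2, -5), (3,
    -100), (5, -61), (7, 47), (17, -92), (19, 22), (23, 41)])) (.mul (.g 15) (.add (.add (.mul (.g 0)
    (.pp [(1, 1794000)])) (.mul (.g 2) (.pp [(1, 3910200000)]))) (.add (.mul (.g 3) (.pp [(1,
    1848060000)])) (.mul (.g 15) (.pp [(1, 10197060000)])))))) (.add (.mul (.g 14) (.add (.mul (.g 3)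
    (.pp [(1, 233520000)])) (.add (.mul (.g 9) (.pp [(1, 5284440000)])) (.mul (.g 17) (.pp [(1,
    808128000)]))))) (.mul (.g 0) (.add (.pp [(1, 1567431000)]) (.mul (.g 7) (.pp [(1,
    1699755000)])))))))) (.add (.mul (.g 1) (.add (.add (.mul (.pp [(1, 3058110)]) (.sq [(1, 38), (2,
    -5), (3, 47), (5, 100), (7, -30), (17, -8), (19, -23), (23, -13)])) (.add (.mul (.pp [(1,
    824040)]) (.sq [(1, -5), (2, -24), (3, -24), (5, 41), (17, 100), (19, -53), (23, -41)])) (.mul (.g
    0) (.add (.pp [(1, 240015000)]) (.add (.mul (.g 2) (.pp [(1, 1546380000)])) (.mul (.g 12) (.pp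
    [(1, 1245240000)]))))))) (.add (.mul (.g 6) (.add (.mul (.g 12) (.pp [(1, 54059100000)])) (.mul
    (.g 14) (.pp [(1, 42408900000)])))) (.add (.mul (.g 14) (.pp [(1, 42447300000)])) (.mul (.g 15)
    (.mul (.g 15) (.pp [(1, 3012600000)]))))))) (.mul (.g 7) (.add (.add (.mul (.pp [(1, 195570)])
    (.sq [(1, -29), (2, 69), (3, 100), (5, -79), (7, 54), (17, -55), (19, -10), (23, 35)])) (.mul (.pp
    [(1, 644520)]) (.sq [(1, 35), (2, -42), (3, 85), (5, -3), (7, -17), (17, 32), (19, -100), (23,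
    90)]))) (.add (.mul (.pp [(1, 2025870)]) (.sq [(2, -71), (3, 70), (17, -100), (23, 1)])) (.add
    (.mul (.g 14) (.add (.mul (.g 7) (.pp [(1, 13222800000)])) (.mul (.g 10) (.pp [(1,
    126934800000)])))) (.mul (.g 3) (.mul (.g 6) (.pp [(1, 6150000000)])))))))))) (.add (.add (.mul
    (.g 3) (.add (.mul (.pp [(1, 641850)]) (.sq [(2, -69), (3, 70), (5, -2), (7, 4), (17, 100), (19,
    -22), (23, -1)])) (.add (.mul (.pp [(1, 6518760)]) (.sq [(1, 100), (2, 84), (3, 84), (5, -13),
    (17, -77), (19, -77)])) (.mul (.g 6) (.mul (.g 6) (.pp [(1, 1796100000)])))))) (.add (.mul (.g 17)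
    (.add (.mul (.pp [(1, 2268372)]) (.sq [(2, -14), (3, 100), (5, -24), (7, 8), (17, 7), (19, -2),
    (23, 1)])) (.mul (.pp [(1, 512268)]) (.sq [(1, -14), (2, -8), (3, 5), (5, 22), (7, -27), (17,
    100), (19, 47), (23, -62)])))) (.mul (.g 0) (.mul (.pp [(1, 211923)]) (.sq [(1, -37), (2, 100),
    (3, -67), (5, 52), (7, 46), (17, 24), (19, -39), (23, 4)]))))) (.add (.add (.mul (.g 9) (.mul (.pp
    [(1, 15270)]) (.sq [(1, -18), (2, 24), (3, -40), (5, 50), (7, 3), (17, 100), (19, 19), (23,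
    -38)]))) (.mul (.g 12) (.mul (.pp [(1, 3774480)]) (.sq [(1, -94), (2, -22), (3, 29), (5, 100), (7,
    -20), (17, 38), (19, 62), (23, -21)])))) (.add (.mul (.g 14) (.mul (.pp [(1, 5015550)]) (.sq [(1,
    -15), (2, 21), (3, 100), (5, -52), (7, -5), (17, -60), (19, -24), (23, 78)]))) (.mul (.g 15) (.mul
    (.pp [(1, 741330)]) (.sq [(1, 8), (2, -13), (3, 28), (5, 75), (7, -41), (17, 100), (19, 25), (23,
    -70)]))))))) (.pp [(1, 358323117), (2, 2689254), (3, 2730372), (4, 3012138), (5, 2819772), (6,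
    3052320), (7, 2876730), (8, 2805120), (9, 3214221), (10, 2699916), (12, 3211650), (14, 3237636),
    (15, 2720448), (17, 2865156), (18, 2858670), (19, 3426738), (20, 2983110), (21, 2839464), (23,
    3042372), (25, 3106206), (27, 3536940), (28, 2821470), (30, 2919660), (34, 3139356), (35,
    2720424), (38, 3328272), (42, 3460620), (45, 2609040), (46, 3723000), (49, 3400872), (50,
    3171960), (51, 3714096), (57, 3430674), (63, 2912490), (68, 2705040), (69, 2641356), (70,
    2517180), (75, 2924400), (76, 3386640), (85, 2699088), (92, 2964870), (95, 2870040), (98,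
    3026190), (102, 3013260), (105, 3222600), (114, 2880900), (115, 3134100), (119, 2808264), (125,
    3025030), (133, 2284788), (138, 3052320), (147, 2843130), (153, 2535840), (161, 3162432), (170,
    2995200), (171, 3123240), (175, 3662670), (190, 3263460), (207, 2698440), (230, 3235140), (238,
    2784000), (245, 2720250), (255, 2736000), (266, 2868480), (285, 3176280), (289, 2901978), (322,
    2659020), (323, 3174744), (343, 3256700), (345, 3281640), (357, 3564120), (361, 2988057), (391,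
    3022956), (399, 2950020), (425, 2789640), (437, 2673396), (475, 2722140), (483, 3054300), (529,
    3105054), (575, 2834280), (578, 3220380), (595, 3089880), (646, 3027240), (665, 2943000), (722,
    2785230), (782, 2922180), (805, 3024120), (833, 2830650), (867, 2780610), (874, 3098760), (931,
    2719620), (969, 2480760), (1058, 2751210), (1083, 2890020), (1127, 2478420), (1173, 2666040),
    (1311, 2962080), (1445, 3021600), (1587, 3603660), (1615, 3307860), (1805, 3295830), (1955,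
    3428340), (2023, 2813700), (2185, 3182400), (2261, 3155880), (2527, 3632190), (2645, 2813160),
    (2737, 2992320), (3059, 3348840), (3703, 3223020), (4913, 3023250), (5491, 3305070), (6137,
    3017130), (6647, 3086880), (6859, 2725980), (7429, 2842680), (8303, 2845380), (8993, 2822640),
    (10051, 3030960), (12167, 2884060)]))
    (by norm_num) (by decide +kernel)

theorem yl : Ck (gYl 2)
    (pol 2 nE WE (vYl c1E c2E)) :=
  Ck.mk' 1000000 (.add (.add (.add (.add (.mul (.g 14) (.add (.add (.add (.mul (.pp [(1, 12780)]) (.sq [(1, -54),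
    (2, 100), (5, 21), (7, -79), (13, 92), (19, -52), (23, 89)])) (.add (.mul (.pp [(1, 8250000)])
    (.sq [(2, -6), (3, 1), (5, -41), (7, 8), (13, 100), (19, 30), (23, -32)])) (.mul (.pp [(1,
    2631600)]) (.sq [(2, 100), (3, 53), (5, 15), (7, -27), (13, 11), (19, 20), (23, 5)])))) (.add
    (.add (.mul (.pp [(1, 250860)]) (.sq [(2, 100), (3, -31), (5, -31), (7, -31), (13, 100), (19,
    -31), (23, -31)])) (.mul (.pp [(1, 36240)]) (.sq [(2, -100), (3, -3), (5, 96), (7, -79), (13, 60),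
    (19, 39), (23, 5)]))) (.add (.mul (.g 6) (.add (.add (.mul (.g 2) (.pp [(1, 32550000000)])) (.mul
    (.g 4) (.pp [(1, 62358600000)]))) (.add (.mul (.g 10) (.pp [(1, 23194800000)])) (.add (.mul (.g
    13) (.pp [(1, 7873800000)])) (.mul (.g 17) (.pp [(1, 2715600000)])))))) (.mul (.g 7) (.add (.add
    (.pp [(1, 27928200000)]) (.mul (.g 2) (.pp [(1, 68129400000)]))) (.add (.mul (.g 3) (.pp [(1,
    10045800000)])) (.mul (.g 13) (.pp [(1, 89131200000)])))))))) (.add (.add (.mul (.g 18) (.add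
    (.mul (.g 2) (.pp [(1, 8098440000)])) (.add (.mul (.g 14) (.pp [(1, 1100280000)])) (.mul (.g 16)
    (.pp [(1, 414072000)]))))) (.add (.mul (.g 1) (.add (.pp [(1, 153295200000)]) (.mul (.g 2) (.pp
    [(1, 40920000000)])))) (.mul (.g 5) (.add (.pp [(1, 148689600000)]) (.mul (.g 10) (.pp [(1,
    73239000000)])))))) (.add (.add (.mul (.g 8) (.add (.mul (.g 10) (.pp [(1, 114775200000)])) (.mul
    (.g 15) (.pp [(1, 3775800000)])))) (.mul (.g 11) (.pp [(1, 25684200000)]))) (.add (.mul (.g 13)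
    (.mul (.g 14) (.pp [(1, 59964000000)]))) (.mul (.g 16) (.mul (.g 16) (.pp [(1,
    4738656000)])))))))) (.add (.mul (.g 10) (.add (.add (.add (.mul (.pp [(1, 423060)]) (.sq [(2,
    -61), (3, 100), (5, 63), (7, -16), (13, -53), (19, -12), (23, 37)])) (.add (.mul (.pp [(1,
    524640)]) (.sq [(2, 27), (3, -3), (5, 11), (7, 100), (13, 6), (19, -46), (23, 71)])) (.mul (.g 15)
    (.add (.add (.pp [(1, 26950200000)]) (.mul (.g 5) (.pp [(1, 12589800000)]))) (.add (.mul (.g 7)
    (.pp [(1, 85846200000)])) (.add (.mul (.g 13) (.pp [(1, 8511000000)])) (.mul (.g 17) (.pp [(1,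
    15858840000)])))))))) (.add (.mul (.g 2) (.add (.pp [(1, 58349400000)]) (.add (.mul (.g 3) (.pp
    [(1, 46983000000)])) (.mul (.g 6) (.pp [(1, 11575200000)]))))) (.add (.mul (.g 0) (.add (.pp [(1,
    301890000)]) (.mul (.g 0) (.pp [(1, 115042500)])))) (.mul (.g 6) (.add (.mul (.g 9) (.pp [(1,
    17644200000)])) (.mul (.g 16) (.pp [(1, 9393000000)]))))))) (.add (.add (.mul (.g 1) (.mul (.g 8)
    (.pp [(1, 18777000000)]))) (.add (.mul (.g 3) (.mul (.g 18) (.pp [(1, 11230680000)]))) (.mul (.g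
    4) (.mul (.g 12) (.pp [(1, 17729400000)]))))) (.add (.mul (.g 7) (.mul (.g 11) (.pp [(1,
    541800000)]))) (.add (.mul (.g 9) (.pp [(1, 109548600000)])) (.mul (.g 13) (.mul (.g 17) (.pp [(1,
    2031960000)])))))))) (.mul (.g 11) (.add (.add (.add (.mul (.pp [(1, 1652460)]) (.sq [(2, -49),
    (3, 16), (5, 10), (7, 15), (13, -100), (19, -13), (23, 20)])) (.add (.mul (.pp [(1, 26100)]) (.sq
    [(2, 11), (3, -72), (5, -65), (7, -100), (13, -34), (19, -84), (23, 90)])) (.mul (.pp [(1,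
    1430400)]) (.sq [(2, -39), (3, -30), (5, 44), (7, 55), (13, -100), (19, 3), (23, 38)])))) (.add
    (.add (.mul (.pp [(1, 11501040)]) (.sq [(2, 100), (5, -28), (7, 4), (13, -3), (19, 1), (23, -4)]))
    (.mul (.pp [(1, 580200)]) (.sq [(2, 5), (3, -100), (5, -5), (7, -76), (13, 38), (19, 67), (23,
    66)]))) (.add (.mul (.g 8) (.add (.pp [(1, 80535600000)]) (.add (.mul (.g 9) (.pp [(1,
    56824200000)])) (.mul (.g 16) (.pp [(1, 11952360000)]))))) (.mul (.g 2) (.add (.mul (.g 7) (.pp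
    [(1, 43615200000)])) (.mul (.g 16) (.pp [(1, 23008560000)]))))))) (.add (.add (.add (.mul (.g 13)
    (.add (.pp [(1, 28692000000)]) (.mul (.g 17) (.pp [(1, 1910400000)])))) (.mul (.g 1) (.pp [(1,
    256576800000)]))) (.add (.mul (.g 3) (.mul (.g 15) (.pp [(1, 13870800000)]))) (.mul (.g 4) (.pp
    [(1, 31491600000)])))) (.add (.add (.mul (.g 5) (.pp [(1, 79589400000)])) (.mul (.g 6) (.pp [(1,
    245833200000)]))) (.add (.mul (.g 7) (.mul (.g 12) (.pp [(1, 79225200000)]))) (.mul (.g 18) (.pp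
    [(1, 21451680000)]))))))))) (.add (.mul (.g 5) (.add (.add (.add (.mul (.pp [(1, 1437240)]) (.sq
    [(2, -67), (3, 70), (5, 92), (7, -52), (13, 89), (19, 100), (23, -3)])) (.mul (.pp [(1, 655620)])
    (.sq [(2, 4), (3, -59), (5, -22), (7, 10), (13, -29), (19, 100), (23, 35)]))) (.add (.mul (.pp
    [(1, 3137040)]) (.sq [(2, -74), (3, -33), (5, 72), (7, -100), (13, -62), (19, 1), (23, -28)]))
    (.add (.mul (.pp [(1, 4641060)]) (.sq [(2, -71), (3, -21), (5, -14), (7, 100), (13, -21), (19,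
    52), (23, 41)])) (.mul (.pp [(1, 441480)]) (.sq [(2, 30), (3, 100), (5, 21), (7, -16), (13, -81),
    (19, 7), (23, 97)]))))) (.add (.add (.mul (.g 0) (.add (.pp [(1, 2980170000)]) (.mul (.g 4) (.pp
    [(1, 6605880000)])))) (.add (.mul (.g 2) (.add (.mul (.g 6) (.pp [(1, 94254000000)])) (.mul (.g
    18) (.pp [(1, 7804920000)])))) (.mul (.g 9) (.add (.mul (.g 8) (.pp [(1, 48926400000)])) (.mul (.g
    13) (.pp [(1, 82261200000)])))))) (.add (.mul (.g 3) (.mul (.g 15) (.pp [(1, 8464800000)]))) (.add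
    (.mul (.g 6) (.mul (.g 18) (.pp [(1, 3085320000)]))) (.mul (.g 13) (.pp [(1, 69415800000)])))))))
    (.add (.mul (.g 18) (.add (.add (.add (.mul (.pp [(1, 447228)]) (.sq [(2, -42), (3, -17), (5,
    -26), (7, -44), (13, -43), (19, -60), (23, 100)])) (.mul (.pp [(1, 15888)]) (.sq [(5, -9), (13,
    100), (19, -75), (23, -15)]))) (.add (.mul (.pp [(1, 317904)]) (.sq [(1, 39), (2, -51), (3, 5),
    (5, -7), (7, 100), (13, 3), (19, -84), (23, -42)])) (.mul (.pp [(1, 164448)]) (.sq [(2, -36), (3,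
    16), (5, 42), (7, 41), (13, 62), (19, -36), (23, -100)])))) (.add (.add (.mul (.g 0) (.add (.pp
    [(1, 4300062000)]) (.mul (.g 16) (.pp [(1, 135374400)])))) (.mul (.g 18) (.add (.pp [(1,
    19272000)]) (.mul (.g 2) (.pp [(1, 1640928000)]))))) (.add (.mul (.g 1) (.mul (.g 6) (.pp [(1,
    21582720000)]))) (.add (.mul (.g 9) (.mul (.g 17) (.pp [(1, 779112000)]))) (.mul (.g 15) (.mul (.g
    15) (.pp [(1, 19391880000)])))))))) (.mul (.g 1) (.add (.add (.add (.mul (.pp [(1, 1593840)]) (.sq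
    [(1, -45), (2, 74), (3, -19), (5, -100), (7, 87), (13, -22), (19, 62), (23, 37)])) (.mul (.pp [(1,
    6895920)]) (.sq [(1, -5), (2, -24), (3, -24), (5, 41), (13, 100), (19, -41), (23, -53)]))) (.add
    (.mul (.pp [(1, 162780)]) (.sq [(2, 40), (3, 8), (5, -15), (7, 100), (13, -24), (19, 58), (23,
    87)])) (.mul (.g 15) (.add (.pp [(1, 43235400000)]) (.mul (.g 7) (.pp [(1, 167737200000)]))))))
    (.add (.add (.mul (.g 0) (.pp [(1, 2404830000)])) (.mul (.g 6) (.mul (.g 12) (.pp [(1,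
    214619400000)])))) (.add (.mul (.g 8) (.mul (.g 9) (.pp [(1, 57577200000)]))) (.mul (.g 13) (.pp
    [(1, 74327400000)]))))))))) (.add (.add (.mul (.g 8) (.add (.add (.mul (.pp [(1, 1241640)]) (.sq
    [(2, 80), (3, 8), (5, 14), (7, 100), (13, -16), (19, -99), (23, -13)])) (.add (.mul (.pp [(1,
    816720)]) (.sq [(1, -17), (2, -45), (3, -1), (5, 100), (7, 3), (13, 32), (19, -43), (23, 28)]))
    (.mul (.pp [(1, 239820)]) (.sq [(2, -63), (3, -7), (5, -100), (7, -23), (13, -14), (19, -26), (23,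
    83)])))) (.add (.mul (.g 2) (.mul (.g 7) (.pp [(1, 45928200000)]))) (.add (.mul (.g 8) (.mul (.g
    16) (.pp [(1, 38663160000)]))) (.mul (.g 13) (.mul (.g 15) (.pp [(1, 25295400000)]))))))) (.add
    (.mul (.g 13) (.add (.add (.mul (.pp [(1, 1855980)]) (.sq [(2, -31), (3, 100), (5, -31), (7, -31),
    (13, 100), (19, -31), (23, -31)])) (.mul (.g 16) (.add (.mul (.g 3) (.pp [(1, 15482640000)]))
    (.mul (.g 13) (.pp [(1, 749280000)]))))) (.add (.mul (.g 7) (.mul (.g 12) (.pp [(1,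
    13070400000)]))) (.mul (.g 15) (.mul (.g 17) (.pp [(1, 834840000)])))))) (.mul (.g 0) (.add (.add
    (.mul (.pp [(1, 20355)]) (.sq [(2, 100), (3, 71), (5, -40), (7, 75), (13, 26), (19, -37), (23,
    -7)])) (.mul (.pp [(1, 251628)]) (.sq [(1, -29), (2, -12), (3, 28), (7, -12), (13, -6), (19, -60),
    (23, 100)]))) (.add (.mul (.g 6) (.mul (.g 15) (.pp [(1, 5349450000)]))) (.mul (.g 7) (.mul (.g 7)
    (.pp [(1, 3620250000)])))))))) (.add (.mul (.g 6) (.add (.mul (.pp [(1, 571800)]) (.sq [(1, 100),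
    (2, 7), (3, -21), (5, -68), (7, -37), (13, -61), (19, 31), (23, -59)])) (.add (.mul (.pp [(1,
    1938240)]) (.sq [(2, -15), (3, 50), (5, 13), (7, -35), (13, -18), (19, 32), (23, -8)])) (.mul (.g
    2) (.mul (.g 6) (.pp [(1, 131373600000)])))))) (.add (.mul (.g 7) (.mul (.pp [(1, 3830160)]) (.sq
    [(1, -37), (5, 7), (13, 25), (19, -7), (23, 50)]))) (.mul (.g 16) (.mul (.pp [(1, 23688840000)])
    (.sq [(3, 1), (13, -1)]))))))) (.pp [(1, 12944323272), (2, 5249580), (3, 5696304), (4, 5384904),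
    (5, 5635872), (6, 6294048), (7, 5821824), (8, 6134400), (9, 5564331), (10, 7224432), (12,
    6257640), (13, 6381684), (14, 5632416), (15, 5778768), (18, 5242560), (19, 6602244), (20,
    6324960), (21, 5841270), (23, 5719872), (25, 5780628), (26, 5970336), (27, 5875140), (28,
    5885460), (30, 6041880), (35, 6906672), (38, 5983056), (39, 5994492), (42, 5553840), (45,
    5880420), (46, 5788632), (49, 4935723), (50, 5989920), (52, 6055920), (57, 5778198), (63,
    5978220), (65, 6319368), (69, 6160530), (70, 6123000), (75, 5604900), (76, 6050160), (78,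
    6439320), (91, 6566004), (92, 6578340), (95, 4972704), (98, 5729700), (105, 6316320), (114,
    5632560), (115, 6557424), (117, 6015300), (125, 5783120), (130, 6154800), (133, 4673238), (138,
    5791560), (147, 5172540), (161, 6702330), (169, 5274924), (171, 5984280), (175, 5698740), (182,
    6206640), (190, 5047680), (195, 6102840), (207, 6293760), (230, 5479320), (245, 6300960), (247,
    4972884), (266, 6441000), (273, 5931240), (285, 6236040), (299, 5783124), (322, 6201000), (325,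
    6328260), (338, 6136260), (343, 5932780), (345, 6433920), (361, 6540939), (399, 6455640), (437,
    5827818), (455, 5717520), (475, 6670140), (483, 6224760), (494, 6240720), (507, 5234400), (529,
    5331567), (575, 6446700), (598, 5826000), (637, 5651220), (665, 5196960), (722, 6181860), (741,
    5342400), (805, 5665800), (845, 5827620), (874, 6083040), (897, 6493560), (931, 6930240), (1058,
    5873160), (1083, 6062520), (1127, 6967260), (1183, 5478000), (1235, 6399480), (1311, 6832680),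
    (1495, 5843160), (1587, 5795400), (1729, 6273120), (1805, 6368160), (2093, 5888040), (2185,
    6283320), (2197, 6076740), (2527, 6911700), (2645, 5398800), (3059, 6761520), (3211, 6554100),
    (3703, 5407440), (3887, 6663360), (4693, 6212280), (5681, 6299640), (6859, 5312240), (6877,
    6403680), (8303, 5480580), (10051, 5921700), (12167, 6356760)]))
    (by norm_num) (by decide +kernel)

theorem g004 : Ck (gG00 4)
    (pol2 4 nE WE (vGG c1E c2E) (Ex.add (hA (Ex.v 11) (Ex.v 19)) (hA (Ex.v 13) (Ex.v 23)))) :=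
  Ck.mk' 500000 (.add (.add (.add (.add (.mul (.g 8) (.add (.add (.add (.mul (.pp [(1, 18330)]) (.sq [(2, -8), (3,
    -23), (5, -1), (7, -1), (11, -85), (13, 100), (19, -23), (23, 15)])) (.add (.mul (.pp [(1,
    5446020)]) (.sq [(2, 100), (3, -18), (5, -18), (7, -18), (11, 57), (13, -18), (19, -18), (23,
    -18)])) (.mul (.pp [(1, 567840)]) (.sq [(2, -81), (3, 22), (5, 89), (7, -31), (11, -5), (13,
    -100), (19, 35), (23, 21)])))) (.add (.add (.mul (.pp [(1, 623520)]) (.sq [(1, 45), (2, -11), (3,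
    -75), (5, -5), (7, -43), (11, 100), (13, 65), (19, 7), (23, -68)])) (.mul (.pp [(1, 6234240)])
    (.sq [(2, -92), (3, 100), (5, 23), (7, 58), (11, 13), (13, -16), (19, 8), (23, -36)]))) (.add
    (.mul (.g 3) (.add (.add (.mul (.g 0) (.pp [(1, 793515000)])) (.add (.mul (.g 7) (.pp [(1,
    13713900000)])) (.mul (.g 8) (.pp [(1, 59652900000)])))) (.add (.mul (.g 10) (.pp [(1,
    6675300000)])) (.add (.mul (.g 17) (.pp [(1, 14262000000)])) (.mul (.g 18) (.pp [(1,
    963060000)])))))) (.mul (.g 20) (.add (.add (.mul (.g 4) (.pp [(1, 532500000)])) (.add (.mul (.g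
    9) (.pp [(1, 168279000)])) (.mul (.g 10) (.pp [(1, 9071760000)])))) (.add (.mul (.g 16) (.pp [(1,
    8109840000)])) (.add (.mul (.g 17) (.pp [(1, 3836400000)])) (.mul (.g 18) (.pp [(1,
    905604000)]))))))))) (.add (.add (.mul (.g 4) (.add (.pp [(1, 38333700000)]) (.add (.mul (.g 1)
    (.pp [(1, 15003900000)])) (.mul (.g 8) (.pp [(1, 43326300000)]))))) (.add (.mul (.g 9) (.add (.pp
    [(1, 1065795000)]) (.add (.mul (.g 8) (.pp [(1, 6256635000)])) (.mul (.g 10) (.pp [(1,
    735765000)]))))) (.mul (.g 16) (.add (.pp [(1, 5321100000)]) (.add (.mul (.g 8) (.pp [(1,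
    4470900000)])) (.mul (.g 19) (.pp [(1, 14059860000)]))))))) (.add (.add (.mul (.g 18) (.add (.pp
    [(1, 9383700000)]) (.add (.mul (.g 11) (.pp [(1, 95646000)])) (.mul (.g 18) (.pp [(1,
    1247340000)]))))) (.mul (.g 2) (.add (.mul (.g 5) (.pp [(1, 28153200000)])) (.mul (.g 10) (.pp
    [(1, 13082400000)]))))) (.add (.mul (.g 1) (.pp [(1, 104141400000)])) (.mul (.g 7) (.mul (.g 15)
    (.pp [(1, 87521400000)])))))))) (.add (.mul (.g 1) (.add (.add (.add (.add (.mul (.pp [(1,
    382110)]) (.sq [(1, 10), (2, 84), (3, -22), (5, 51), (11, -100), (13, 38), (19, -68), (23, 17)]))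
    (.mul (.pp [(1, 2050110)]) (.sq [(2, 34), (3, -97), (5, 100), (7, 31), (11, 55), (13, -46), (19,
    31), (23, -86)]))) (.add (.mul (.pp [(1, 1562370)]) (.sq [(1, -2), (3, -9), (5, 7), (7, 100), (11,
    49), (19, 89), (23, -1)])) (.mul (.pp [(1, 2861670)]) (.sq [(2, 34), (3, -15), (5, 39), (7, 100),
    (11, -27), (19, 11), (23, 99)])))) (.add (.add (.mul (.pp [(1, 1198980)]) (.sq [(2, -45), (3, 9),
    (5, 37), (7, -3), (11, 100), (13, -50), (19, 67), (23, 50)])) (.mul (.pp [(1, 3170100)]) (.sq [(2,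
    41), (3, 60), (5, -2), (7, -41), (11, -70), (13, 82), (19, 100), (23, -30)]))) (.add (.mul (.g 17)
    (.add (.add (.pp [(1, 43610100000)]) (.mul (.g 1) (.pp [(1, 229242600000)]))) (.add (.mul (.g 17)
    (.pp [(1, 6159600000)])) (.mul (.g 18) (.pp [(1, 3828780000)]))))) (.mul (.g 10) (.add (.mul (.g
    3) (.pp [(1, 96450000000)])) (.add (.mul (.g 6) (.pp [(1, 792300000)])) (.mul (.g 18) (.pp [(1,
    15577380000)])))))))) (.add (.add (.add (.mul (.g 14) (.add (.mul (.g 3) (.pp [(1, 23372700000)]))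
    (.add (.mul (.g 18) (.pp [(1, 8862720000)])) (.mul (.g 19) (.pp [(1, 3137220000)]))))) (.mul (.g
    0) (.add (.pp [(1, 4422840000)]) (.mul (.g 11) (.pp [(1, 19901250)]))))) (.add (.mul (.g 19) (.add
    (.pp [(1, 1579440000)]) (.mul (.g 9) (.pp [(1, 711084000)])))) (.mul (.g 2) (.mul (.g 20) (.pp
    [(1, 1428300000)]))))) (.add (.add (.mul (.g 4) (.pp [(1, 24049200000)])) (.mul (.g 6) (.mul (.g
    7) (.pp [(1, 138101400000)])))) (.add (.mul (.g 15) (.mul (.g 18) (.pp [(1, 2337480000)]))) (.mul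
    (.g 16) (.mul (.g 16) (.pp [(1, 93058800000)])))))))) (.mul (.g 10) (.add (.add (.add (.mul (.pp
    [(1, 1097970)]) (.sq [(2, 17), (3, -84), (5, 75), (7, 9), (11, -100), (13, -3), (19, 5), (23,
    -23)])) (.add (.mul (.pp [(1, 6594300)]) (.sq [(1, 1), (2, 6), (3, -78), (5, 100), (7, 11), (11,
    8), (13, 26), (19, -86), (23, 22)])) (.mul (.pp [(1, 3520950)]) (.sq [(1, 82), (2, 22), (3, -42),
    (5, 83), (7, -100), (11, 82), (13, 32), (19, 22), (23, -76)])))) (.add (.mul (.pp [(1, 773730)])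
    (.sq [(1, 7), (2, 33), (3, -10), (5, 69), (7, -31), (11, 73), (13, -100), (19, -25), (23, 24)]))
    (.add (.mul (.g 17) (.add (.add (.mul (.g 2) (.pp [(1, 52074300000)])) (.mul (.g 10) (.pp [(1,
    83389800000)]))) (.add (.mul (.g 14) (.pp [(1, 52943700000)])) (.add (.mul (.g 15) (.pp [(1,
    31279800000)])) (.mul (.g 20) (.pp [(1, 18879900000)])))))) (.mul (.g 11) (.add (.add (.mul (.g 6)
    (.pp [(1, 4796370000)])) (.mul (.g 10) (.pp [(1, 4606650000)]))) (.add (.mul (.g 19) (.pp [(1,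
    1684266000)])) (.mul (.g 20) (.pp [(1, 184902000)])))))))) (.add (.add (.mul (.g 3) (.add (.mul
    (.g 10) (.pp [(1, 36422100000)])) (.add (.mul (.g 18) (.pp [(1, 5658060000)])) (.mul (.g 19) (.pp
    [(1, 9240480000)]))))) (.add (.mul (.g 19) (.add (.pp [(1, 6351900000)]) (.mul (.g 15) (.pp [(1,
    5809440000)])))) (.mul (.g 0) (.mul (.g 10) (.pp [(1, 1861335000)]))))) (.add (.mul (.g 6) (.pp
    [(1, 45904200000)])) (.add (.mul (.g 7) (.mul (.g 7) (.pp [(1, 40488600000)]))) (.mul (.g 18)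
    (.mul (.g 18) (.pp [(1, 2059416000)])))))))))) (.add (.add (.mul (.g 6) (.add (.add (.add (.mul
    (.pp [(1, 1224180)]) (.sq [(1, 22), (2, 94), (3, -39), (5, -28), (7, -58), (11, 26), (13, -99),
    (19, -100)])) (.add (.mul (.pp [(1, 2598750)]) (.sq [(1, -1), (2, 75), (3, 100), (5, -30), (7,
    -38), (11, 3), (13, 76), (19, -14), (23, -37)])) (.mul (.pp [(1, 2284560)]) (.sq [(2, 51), (3, 5),
    (5, -32), (7, 100), (11, -20), (13, -100), (19, -4), (23, 37)])))) (.add (.mul (.pp [(1, 19170)])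
    (.sq [(2, 19), (3, -100), (5, 73), (7, -26), (11, -100), (13, -12), (19, -31), (23, 31)])) (.add
    (.mul (.pp [(1, 213690)]) (.sq [(2, 2), (3, 5), (5, 18), (7, -1), (11, 100), (13, -23), (19, 67),
    (23, -58)])) (.mul (.g 2) (.add (.add (.pp [(1, 29211300000)]) (.mul (.g 9) (.pp [(1,
    1411380000)]))) (.add (.mul (.g 15) (.pp [(1, 18264600000)])) (.mul (.g 16) (.pp [(1,
    8855400000)])))))))) (.add (.add (.mul (.g 15) (.add (.mul (.g 0) (.pp [(1, 124650000)])) (.add
    (.mul (.g 3) (.pp [(1, 41845500000)])) (.mul (.g 18) (.pp [(1, 18370200000)]))))) (.add (.mul (.g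
    9) (.add (.pp [(1, 1457595000)]) (.mul (.g 18) (.pp [(1, 475989000)])))) (.mul (.g 11) (.add (.mul
    (.g 7) (.pp [(1, 908925000)])) (.mul (.g 19) (.pp [(1, 781980000)])))))) (.add (.mul (.g 4) (.mul
    (.g 5) (.pp [(1, 39631200000)]))) (.add (.mul (.g 14) (.mul (.g 16) (.pp [(1, 16711500000)])))
    (.mul (.g 19) (.pp [(1, 621720000)]))))))) (.mul (.g 20) (.add (.add (.add (.mul (.pp [(1,
    2359728)]) (.sq [(2, 16), (3, 9), (5, -1), (7, 3), (11, -3), (13, 100), (19, -8), (23, -4)]))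
    (.mul (.pp [(1, 705978)]) (.sq [(2, 99), (3, -100), (5, 6), (7, 5), (11, 9), (13, -4), (19, 3),
    (23, -9)]))) (.add (.mul (.pp [(1, 127818)]) (.sq [(2, -15), (3, 100), (5, -94), (7, -9), (11,
    -1), (13, -3), (19, 27), (23, 28)])) (.add (.mul (.pp [(1, 157614)]) (.sq [(2, 100), (3, -32), (5,
    3), (7, 51), (11, -16), (13, -48), (19, 13), (23, 79)])) (.mul (.pp [(1, 144276)]) (.sq [(1, -53),
    (2, 69), (3, 1), (5, 70), (11, -100), (13, -12), (19, -56), (23, 28)]))))) (.add (.add (.mul (.pp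
    [(1, 143844)]) (.sq [(3, 100), (7, 1), (11, 25), (13, -10), (19, 40), (23, -91)])) (.add (.mul (.g
    18) (.add (.add (.pp [(1, 319068000)]) (.mul (.g 0) (.pp [(1, 13788000)]))) (.add (.mul (.g 15)
    (.pp [(1, 3516552000)])) (.add (.mul (.g 17) (.pp [(1, 423720000)])) (.mul (.g 19) (.pp [(1,
    518349600)])))))) (.mul (.g 16) (.add (.mul (.g 0) (.pp [(1, 281700000)])) (.add (.mul (.g 7) (.pp
    [(1, 6197640000)])) (.mul (.g 19) (.pp [(1, 2894664000)]))))))) (.add (.mul (.g 17) (.add (.mul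
    (.g 5) (.pp [(1, 5675280000)])) (.add (.mul (.g 17) (.pp [(1, 8135040000)])) (.mul (.g 19) (.pp
    [(1, 1820232000)]))))) (.add (.mul (.g 0) (.pp [(1, 738837000)])) (.mul (.g 5) (.mul (.g 19) (.pp
    [(1, 348504000)]))))))))) (.add (.mul (.g 7) (.add (.add (.add (.mul (.pp [(1, 130050)]) (.sq [(2,
    13), (3, 100), (5, -58), (7, -92), (11, 9), (13, -54), (19, -26), (23, 21)])) (.mul (.pp [(1,
    367470)]) (.sq [(2, -10), (3, -4), (5, 100), (7, -36), (11, 12), (13, -3), (19, -73), (23, 52)])))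
    (.add (.mul (.pp [(1, 1282830)]) (.sq [(2, 100), (3, -47), (5, 93), (7, -36), (11, 17), (13, 43),
    (19, 23), (23, 9)])) (.add (.mul (.pp [(1, 689820)]) (.sq [(2, -100), (3, -75), (5, -15), (7, 66),
    (11, -94), (13, 32), (19, 39), (23, 53)])) (.mul (.pp [(1, 2288340)]) (.sq [(2, 51), (3, 73), (5,
    39), (7, -42), (11, -67), (13, -100), (19, 20), (23, -79)]))))) (.add (.add (.mul (.g 11) (.add
    (.pp [(1, 1501755000)]) (.add (.mul (.g 14) (.pp [(1, 4827615000)])) (.mul (.g 18) (.pp [(1,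
    404985000)]))))) (.mul (.g 4) (.add (.mul (.g 5) (.pp [(1, 32859000000)])) (.mul (.g 16) (.pp [(1,
    26307900000)]))))) (.add (.mul (.g 0) (.pp [(1, 1754250000)])) (.add (.mul (.g 3) (.pp [(1,
    67407000000)])) (.mul (.g 14) (.mul (.g 16) (.pp [(1, 4659000000)])))))))) (.mul (.g 5) (.add
    (.add (.mul (.pp [(1, 1005690)]) (.sq [(2, 100), (3, -9), (5, -49), (7, 61), (11, -88), (13, -5),
    (19, -44), (23, -7)])) (.add (.mul (.pp [(1, 1040820)]) (.sq [(2, 2), (3, 100), (5, 13), (7, -7),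
    (11, 27), (13, -38), (19, -79), (23, -28)])) (.mul (.pp [(1, 2423970)]) (.sq [(1, 5), (2, 100),
    (3, -69), (11, -77), (13, 46)])))) (.add (.add (.mul (.g 0) (.add (.add (.pp [(1, 2526375000)])
    (.mul (.g 2) (.pp [(1, 980730000)]))) (.add (.mul (.g 3) (.pp [(1, 2084460000)])) (.mul (.g 17)
    (.pp [(1, 725745000)]))))) (.mul (.g 4) (.add (.pp [(1, 27622200000)]) (.mul (.g 17) (.pp [(1,
    5968800000)]))))) (.add (.mul (.g 11) (.mul (.g 16) (.pp [(1, 1778355000)]))) (.mul (.g 15) (.mul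
    (.g 18) (.pp [(1, 5071260000)])))))))))) (.add (.add (.mul (.g 12) (.add (.add (.mul (.pp [(1,
    1229070)]) (.sq [(2, -29), (3, -53), (5, -9), (7, 100), (11, -23), (13, 88), (19, 19), (23,
    -24)])) (.mul (.pp [(1, 207930)]) (.sq [(1, -2), (2, -88), (3, 18), (5, 100), (7, -5), (11, 16),
    (13, 28), (19, -88), (23, 50)]))) (.add (.mul (.pp [(1, 2565210)]) (.sq [(2, 69), (3, 12), (5,
    100), (7, -41), (11, -25), (13, -53), (19, -39), (23, -10)])) (.add (.mul (.pp [(1, 955590)]) (.sq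
    [(2, 18), (3, 100), (5, 26), (11, -100), (13, 11), (19, 13), (23, 17)])) (.mul (.pp [(1, 55470)])
    (.sq [(2, -100), (3, 76), (5, 91), (7, -16), (11, 83), (13, -36), (19, 77), (23, 61)])))))) (.add
    (.mul (.g 19) (.add (.add (.mul (.pp [(1, 1156998)]) (.sq [(1, 100), (2, -39), (3, 67), (5, -87),
    (7, -19), (11, 2), (13, 66), (19, -6), (23, -28)])) (.mul (.pp [(1, 2271060)]) (.sq [(1, 13), (2,
    -25), (3, 100), (5, 40), (7, 6), (11, -1), (13, -96), (19, -24), (23, -25)]))) (.add (.mul (.pp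
    [(1, 209622)]) (.sq [(2, -3), (3, 100), (5, -8), (7, -8), (11, -8), (13, -65), (19, -8), (23,
    -8)])) (.mul (.g 15) (.add (.mul (.g 16) (.pp [(1, 4078920000)])) (.mul (.g 18) (.pp [(1,
    531780000)]))))))) (.mul (.g 4) (.add (.mul (.pp [(1, 88926600000)]) (.sq [(19, -1), (23, 1)]))
    (.add (.mul (.pp [(1, 269160)]) (.sq [(1, 15), (2, 30), (3, -49), (5, -40), (7, 30), (11, 100),
    (13, -20), (19, -17), (23, -1)])) (.mul (.pp [(1, 241650)]) (.sq [(2, -6), (3, -100), (5, -4), (7,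
    -5), (11, -99), (13, 12), (19, 8), (23, 15)]))))))) (.add (.add (.mul (.g 18) (.add (.mul (.pp
    [(1, 676296)]) (.sq [(1, -2), (2, 39), (3, -32), (5, 18), (7, -12), (11, 2), (13, -1), (19, 100),
    (23, -97)])) (.add (.mul (.pp [(1, 957894)]) (.sq [(1, 38), (2, 100), (3, -44), (5, 9), (7, -6),
    (11, 1), (13, 52), (19, -11), (23, -30)])) (.mul (.pp [(1, 2127762)]) (.sq [(2, 100), (3, -75),
    (5, 6), (7, 6), (11, -41), (13, 6), (19, 6), (23, 6)]))))) (.mul (.g 11) (.add (.mul (.pp [(1,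
    105735)]) (.sq [(1, 6), (2, -70), (3, 85), (5, -63), (7, 11), (11, -21), (13, -100), (19, 20),
    (23, -10)])) (.mul (.pp [(1, 109578)]) (.sq [(1, 38), (2, 26), (3, -94), (5, -20), (7, 25), (11,
    91), (13, 34), (19, 68), (23, -100)]))))) (.add (.mul (.g 13) (.add (.mul (.pp [(1, 2098590)])
    (.sq [(2, 100), (3, -58), (5, -60), (7, -20), (11, -67), (13, 17), (19, 47), (23, 38)])) (.mul
    (.pp [(1, 3391980)]) (.sq [(2, -9), (3, 100), (5, 9), (7, -6), (11, -99), (13, -12), (19, 4), (23,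
    13)])))) (.mul (.g 15) (.add (.mul (.pp [(1, 2125890)]) (.sq [(1, -32), (2, 63), (3, 50), (5,
    -44), (7, 21), (11, -100), (13, 24), (19, -18), (23, 15)])) (.mul (.pp [(1, 4379400)]) (.sq [(2,
    15), (3, -2), (5, -7), (7, -63), (11, -9), (13, 100), (19, -20), (23, 77)])))))))) (.pp [(1,
    1864326492), (2, 2912496), (3, 2898108), (4, 3185604), (5, 2913048), (6, 3000048), (7, 3285018),
    (8, 3008670), (9, 3124611), (10, 3398592), (11, 2956008), (12, 2962200), (13, 3110442), (14,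
    3187908), (15, 3262458), (18, 2989350), (19, 2904072), (20, 2913240), (21, 3015486), (22,
    2818116), (23, 2898690), (25, 3285015), (26, 2904900), (27, 2920110), (28, 3521490), (30,
    2808780), (33, 3173538), (35, 3056562), (38, 2806428), (39, 2765100), (42, 2825160), (44,
    3290240), (45, 2805480), (46, 3270612), (49, 2889243), (50, 2789550), (52, 3097860), (55,
    2681898), (57, 3289512), (63, 2946840), (65, 2979912), (66, 3152460), (69, 2831676), (70,
    3183000), (75, 2896590), (76, 2833080), (77, 3124290), (78, 2938620), (91, 2914092), (92,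
    2496270), (95, 2810280), (98, 2417490), (99, 2899710), (105, 3165600), (110, 2757660), (114,
    3273300), (115, 3325536), (117, 3266900), (121, 3284595), (125, 2928550), (130, 3232860), (133,
    3195048), (138, 3019920), (143, 2877120), (147, 2791650), (154, 3553080), (161, 3500460), (165,
    3149100), (169, 2986470), (171, 3026880), (175, 3133200), (182, 3096300), (190, 2991900), (195,
    2854560), (207, 3079530), (209, 3041640), (230, 2536980), (231, 2926380), (242, 3062480), (245,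
    2615010), (247, 2820456), (253, 2700588), (266, 2482320), (273, 3084780), (275, 3303750), (285,
    2820000), (286, 3205860), (299, 3016308), (322, 2980440), (325, 3135450), (338, 2762700), (343,
    2704540), (345, 3065520), (361, 3023394), (363, 2937840), (385, 3096360), (399, 3658080), (418,
    3035160), (429, 3222720), (437, 3173988), (455, 2719620), (475, 3016200), (483, 3235140), (494,
    2964540), (506, 2462700), (507, 3131990), (529, 3072612), (539, 3016410), (575, 2817780), (598,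
    3080700), (605, 2845380), (627, 2956020), (637, 2916960), (665, 3426000), (715, 2522040), (722,
    3774930), (741, 2928000), (759, 3023100), (805, 3012480), (845, 2756550), (847, 3060060), (874,
    3047640), (897, 2850360), (931, 3577950), (1001, 2857560), (1045, 3035460), (1058, 3143850),
    (1083, 2558400), (1127, 2959260), (1183, 3278250), (1235, 3238080), (1265, 3133500), (1311,
    2527560), (1331, 3164210), (1463, 2840220), (1495, 3068460), (1573, 3067770), (1587, 3019980),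
    (1729, 3227700), (1771, 3141180), (1805, 2510790), (1859, 3066960), (2093, 3141660), (2185,
    3064920), (2197, 3062030), (2299, 2940060), (2527, 2554080), (2645, 2896740), (2717, 2908080),
    (2783, 2831070), (3059, 2479080), (3211, 2916060), (3289, 3414480), (3703, 2946270), (3887,
    3042000), (3971, 2791530), (4693, 2825760), (4807, 3043800), (5681, 3132480), (5819, 3270450),
    (6859, 3070300), (6877, 2858190), (8303, 3109350), (10051, 3108840), (12167, 2784340)]))
    (by norm_num) (by decide +kernel)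

theorem g012 : Ck (gG01 2)
    (pol2 2 nE WE (vGG c1E c2E) (Ex.add (hA (Ex.v 11) (Ex.v 19)) (hM (Ex.v 13)))) :=
  Ck.mk' 1000000 (.add (.add (.add (.add (.add (.mul (.g 10) (.add (.add (.add (.mul (.pp [(1, 5922180)]) (.sq [(2,
    -67), (3, -7), (5, 100), (7, 9), (11, -37), (19, 29), (23, -11)])) (.add (.mul (.pp [(1,
    1066200)]) (.sq [(1, 29), (2, 12), (3, 95), (5, 51), (7, -100), (11, -74), (13, 7), (19, 90), (23,
    -62)])) (.mul (.pp [(1, 923160)]) (.sq [(1, 31), (2, 84), (3, -100), (5, -41), (7, -65), (11, 16),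
    (13, 38), (19, -3), (23, -13)])))) (.add (.add (.mul (.pp [(1, 3860820)]) (.sq [(1, -20), (2,
    -84), (3, -53), (5, 58), (7, 63), (11, -46), (13, 100), (19, 8), (23, -28)])) (.mul (.g 2) (.add
    (.add (.mul (.g 1) (.pp [(1, 39302400000)])) (.add (.mul (.g 3) (.pp [(1, 21945000000)])) (.mul
    (.g 7) (.pp [(1, 34382400000)])))) (.add (.add (.mul (.g 8) (.pp [(1, 99250200000)])) (.mul (.g
    15) (.pp [(1, 64575000000)]))) (.add (.mul (.g 19) (.pp [(1, 10272240000)])) (.mul (.g 20) (.pp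
    [(1, 5006280000)]))))))) (.add (.mul (.g 19) (.add (.add (.pp [(1, 26957640000)]) (.add (.mul (.g
    1) (.pp [(1, 20337120000)])) (.mul (.g 9) (.pp [(1, 142974000)])))) (.add (.mul (.g 11) (.pp [(1,
    2287104000)])) (.add (.mul (.g 19) (.pp [(1, 5270616000)])) (.mul (.g 20) (.pp [(1,
    481392000)])))))) (.mul (.g 10) (.add (.add (.mul (.g 1) (.pp [(1, 53554200000)])) (.mul (.g 3)
    (.pp [(1, 32047800000)]))) (.add (.mul (.g 4) (.pp [(1, 132899400000)])) (.add (.mul (.g 11) (.pp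
    [(1, 11999970000)])) (.mul (.g 15) (.pp [(1, 54156600000)]))))))))) (.add (.add (.mul (.g 17)
    (.add (.add (.mul (.g 7) (.pp [(1, 22425000000)])) (.mul (.g 8) (.pp [(1, 81584400000)]))) (.add
    (.mul (.g 15) (.pp [(1, 35721000000)])) (.mul (.g 20) (.pp [(1, 12668640000)]))))) (.add (.mul (.g
    18) (.add (.mul (.g 3) (.pp [(1, 2317680000)])) (.add (.mul (.g 15) (.pp [(1, 17047320000)]))
    (.mul (.g 20) (.pp [(1, 4916136000)]))))) (.mul (.g 1) (.add (.pp [(1, 194196000000)]) (.mul (.g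
    8) (.pp [(1, 138190200000)])))))) (.add (.add (.mul (.g 4) (.add (.pp [(1, 53951400000)]) (.mul
    (.g 4) (.pp [(1, 11941800000)])))) (.mul (.g 0) (.mul (.g 0) (.pp [(1, 28239000)])))) (.add (.mul
    (.g 3) (.mul (.g 20) (.pp [(1, 7872240000)]))) (.mul (.g 8) (.mul (.g 11) (.pp [(1,
    6600000)])))))))) (.mul (.g 8) (.add (.add (.add (.mul (.pp [(1, 3762420)]) (.sq [(1, 13), (2,
    35), (3, -47), (5, 3), (7, -29), (11, -5), (13, -10), (19, 100), (23, -17)])) (.add (.mul (.pp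
    [(1, 4151460)]) (.sq [(1, -50), (2, 85), (3, -12), (5, -14), (7, 81), (11, 17), (13, -26), (19,
    -100), (23, -18)])) (.mul (.pp [(1, 7457220)]) (.sq [(2, 100), (3, -18), (5, -18), (7, -18), (11,
    57), (13, -18), (19, -18), (23, -18)])))) (.add (.add (.mul (.pp [(1, 977040)]) (.sq [(2, 79), (3,
    100), (5, -48), (7, -9), (13, 94), (19, -35), (23, -26)])) (.mul (.pp [(1, 3307740)]) (.sq [(2,
    5), (3, -89), (5, 28), (7, 2), (13, 71), (19, -100), (23, 8)]))) (.add (.mul (.pp [(1, 1621320)])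
    (.sq [(1, 29), (2, 20), (3, -11), (5, 90), (7, 17), (11, 100), (13, -80), (19, 52), (23, -49)]))
    (.mul (.g 2) (.add (.add (.mul (.g 3) (.pp [(1, 43845600000)])) (.mul (.g 5) (.pp [(1,
    71517600000)]))) (.add (.mul (.g 6) (.pp [(1, 49059600000)])) (.add (.mul (.g 8) (.pp [(1,
    35215800000)])) (.mul (.g 17) (.pp [(1, 14247600000)]))))))))) (.add (.add (.add (.mul (.g 18)
    (.add (.add (.mul (.g 5) (.pp [(1, 19118160000)])) (.mul (.g 16) (.pp [(1, 81964800000)]))) (.add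
    (.mul (.g 18) (.pp [(1, 8026848000)])) (.mul (.g 20) (.pp [(1, 1990104000)]))))) (.mul (.g 19)
    (.add (.add (.pp [(1, 2836560000)]) (.mul (.g 5) (.pp [(1, 7577400000)]))) (.add (.mul (.g 9) (.pp
    [(1, 316584000)])) (.mul (.g 17) (.pp [(1, 2632680000)])))))) (.add (.mul (.g 8) (.add (.mul (.g
    4) (.pp [(1, 109099800000)])) (.add (.mul (.g 9) (.pp [(1, 10999860000)])) (.mul (.g 17) (.pp [(1,
    8602800000)]))))) (.mul (.g 15) (.add (.mul (.g 13) (.pp [(1, 100881600000)])) (.mul (.g 15) (.pp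
    [(1, 15868200000)])))))) (.add (.add (.mul (.g 0) (.mul (.g 14) (.pp [(1, 1926720000)]))) (.mul
    (.g 1) (.pp [(1, 24096000000)]))) (.add (.mul (.g 4) (.mul (.g 5) (.pp [(1, 70342800000)]))) (.mul
    (.g 11) (.mul (.g 20) (.pp [(1, 536802000)]))))))))) (.add (.mul (.g 20) (.add (.add (.add (.mul
    (.pp [(1, 157044)]) (.sq [(2, 2), (3, 87), (7, 3), (11, -75), (13, 41), (19, 100), (23, -97)]))
    (.add (.mul (.pp [(1, 475620)]) (.sq [(1, -10), (2, 28), (3, -11), (5, 100), (7, 5), (13, 14),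
    (19, -100), (23, 28)])) (.mul (.pp [(1, 258276)]) (.sq [(2, -100), (3, 30), (5, -1), (7, 2), (11,
    39), (13, -96), (19, 68), (23, 17)])))) (.add (.add (.mul (.pp [(1, 1003620)]) (.sq [(1, 1), (2,
    12), (5, 100), (7, -25), (11, 8), (13, -3), (19, 7), (23, -22)])) (.mul (.pp [(1, 434484)]) (.sq
    [(1, -4), (2, 61), (3, 22), (5, -100), (7, -13), (11, -75), (13, -1), (19, -9), (23, -9)]))) (.add
    (.mul (.pp [(1, 131460)]) (.sq [(2, -69), (5, 100), (7, 65), (11, -61), (13, 2), (19, 29), (23,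
    39)])) (.mul (.pp [(1, 1164456)]) (.sq [(1, -1), (2, 17), (3, -33), (5, -3), (7, 36), (11, 34),
    (13, 100), (19, 12), (23, -46)]))))) (.add (.add (.mul (.pp [(1, 83556)]) (.sq [(2, 100), (3, 93),
    (5, -16), (7, 4), (11, -52), (13, -36), (19, 22), (23, 17)])) (.add (.mul (.g 19) (.add (.add
    (.mul (.g 2) (.pp [(1, 2129664000)])) (.mul (.g 6) (.pp [(1, 1650048000)]))) (.add (.mul (.g 7)
    (.pp [(1, 2308104000)])) (.add (.mul (.g 9) (.pp [(1, 18243600)])) (.mul (.g 15) (.pp [(1,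
    814224000)])))))) (.mul (.g 0) (.add (.add (.pp [(1, 879924000)]) (.mul (.g 1) (.pp [(1,
    1369050000)]))) (.add (.mul (.g 5) (.pp [(1, 1981452000)])) (.mul (.g 7) (.pp [(1,
    699438000)]))))))) (.add (.add (.mul (.g 17) (.add (.pp [(1, 2985000000)]) (.add (.mul (.g 13)
    (.pp [(1, 9993120000)])) (.mul (.g 15) (.pp [(1, 2722800000)]))))) (.mul (.g 2) (.add (.pp [(1,
    14095920000)]) (.mul (.g 18) (.pp [(1, 1283448000)]))))) (.add (.mul (.g 6) (.add (.mul (.g 9)
    (.pp [(1, 690462000)])) (.mul (.g 20) (.pp [(1, 2266752000)])))) (.mul (.g 3) (.mul (.g 9) (.pp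
    [(1, 5328000)])))))))) (.mul (.g 1) (.add (.add (.add (.mul (.pp [(1, 2602680)]) (.sq [(2, 19),
    (3, -8), (5, -5), (7, 53), (11, -100), (13, -62), (19, 73), (23, 32)])) (.add (.mul (.pp [(1,
    159900)]) (.sq [(1, -8), (2, -14), (3, -83), (5, -15), (7, 34), (11, 46), (13, 100), (23, 78)]))
    (.mul (.pp [(1, 1615860)]) (.sq [(2, 1), (3, 2), (5, -70), (7, 11), (11, 11), (13, -71), (19, 30),
    (23, 100)])))) (.add (.mul (.pp [(1, 1144800)]) (.sq [(2, 100), (3, 100), (5, 85), (7, 53), (11,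
    100), (13, 100), (19, 86), (23, 100)])) (.add (.mul (.pp [(1, 1942320)]) (.sq [(1, -20), (2, -32),
    (3, 53), (5, -60), (7, 54), (11, 64), (13, -29), (19, 100), (23, 13)])) (.mul (.pp [(1, 3193320)])
    (.sq [(2, -29), (3, -60), (5, -10), (7, 100), (11, 12), (13, 18), (19, 69), (23, 36)]))))) (.add
    (.add (.mul (.g 17) (.add (.add (.pp [(1, 136318200000)]) (.mul (.g 1) (.pp [(1, 130069200000)])))
    (.add (.mul (.g 4) (.pp [(1, 196369800000)])) (.mul (.g 15) (.pp [(1, 63613200000)]))))) (.add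
    (.mul (.g 18) (.add (.pp [(1, 4153200000)]) (.add (.mul (.g 14) (.pp [(1, 3303240000)])) (.mul (.g
    15) (.pp [(1, 3955080000)]))))) (.mul (.g 2) (.add (.mul (.g 7) (.pp [(1, 235524600000)])) (.mul
    (.g 16) (.pp [(1, 2888400000)])))))) (.add (.mul (.g 19) (.add (.pp [(1, 10566840000)]) (.mul (.g
    19) (.pp [(1, 49104000)])))) (.add (.mul (.g 0) (.mul (.g 14) (.pp [(1, 5184480000)]))) (.mul (.g
    4) (.pp [(1, 151153800000)]))))))))) (.add (.add (.mul (.g 13) (.add (.add (.add (.mul (.pp [(1,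
    2425800)]) (.sq [(2, -100), (3, 22), (5, -38), (7, 40), (11, 80), (13, 21), (19, -9), (23, -92)]))
    (.add (.mul (.pp [(1, 768540)]) (.sq [(2, -48), (3, 35), (5, -24), (7, 17), (11, -7), (13, -100),
    (19, 63), (23, 44)])) (.mul (.pp [(1, 2132760)]) (.sq [(1, 5), (2, 100), (3, -27), (5, -31), (7,
    -20), (11, -82), (13, 44), (19, 57), (23, -48)])))) (.add (.mul (.pp [(1, 1299600)]) (.sq [(3,
    86), (5, 100), (7, -95), (11, -10), (13, 79), (19, -28), (23, 89)])) (.add (.mul (.pp [(1,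
    1120260)]) (.sq [(1, -14), (2, 100), (3, -33), (5, -1), (7, -17), (11, 99), (13, -40), (19, -72),
    (23, -18)])) (.mul (.pp [(1, 907500)]) (.sq [(1, -41), (2, 8), (3, 44), (5, -41), (7, 34), (11,
    100), (13, -65), (19, -74), (23, 10)]))))) (.add (.add (.mul (.g 9) (.add (.mul (.g 2) (.pp [(1,
    3190200000)])) (.add (.mul (.g 11) (.pp [(1, 531958500)])) (.mul (.g 18) (.pp [(1, 37344000)])))))
    (.add (.mul (.g 7) (.add (.pp [(1, 78307800000)]) (.mul (.g 15) (.pp [(1, 23438400000)])))) (.mul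
    (.g 16) (.add (.mul (.g 2) (.pp [(1, 8263800000)])) (.mul (.g 19) (.pp [(1, 9373800000)]))))))
    (.add (.mul (.g 0) (.mul (.g 15) (.pp [(1, 1908930000)]))) (.add (.mul (.g 4) (.mul (.g 13) (.pp
    [(1, 18179400000)]))) (.mul (.g 11) (.pp [(1, 13591650000)]))))))) (.mul (.g 5) (.add (.add (.add
    (.mul (.pp [(1, 5652120)]) (.sq [(1, -31), (2, -4), (3, 29), (5, 10), (7, -8), (11, -51), (13,
    100), (19, 21), (23, -3)])) (.mul (.pp [(1, 242220)]) (.sq [(2, 13), (3, 30), (5, 100), (7, 6),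
    (11, 95), (13, -80), (19, -27), (23, 31)]))) (.add (.mul (.pp [(1, 5654760)]) (.sq [(1, -32), (2,
    13), (3, -68), (11, -76), (13, 100), (23, 30)])) (.mul (.pp [(1, 1901280)]) (.sq [(2, 100), (3,
    -28), (5, 83), (7, 45), (11, -26), (13, 9), (19, -16), (23, -95)])))) (.add (.add (.mul (.pp [(1,
    220140)]) (.sq [(2, 100), (3, -59), (5, 44), (7, -49), (11, -51), (13, 22), (19, -11), (23, 32)]))
    (.mul (.g 2) (.add (.pp [(1, 73992000000)]) (.add (.mul (.g 0) (.pp [(1, 6668940000)])) (.mul (.g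
    6) (.pp [(1, 4000200000)])))))) (.add (.mul (.g 18) (.add (.mul (.g 15) (.pp [(1, 17260080000)]))
    (.mul (.g 19) (.pp [(1, 2304000000)])))) (.add (.mul (.g 4) (.pp [(1, 86562600000)])) (.mul (.g
    19) (.mul (.g 19) (.pp [(1, 1302096000)]))))))))) (.add (.mul (.g 19) (.add (.add (.mul (.pp [(1,
    3536112)]) (.sq [(2, -3), (3, 100), (5, -8), (7, -8), (11, -8), (13, -65), (19, -8), (23, -8)]))
    (.add (.mul (.pp [(1, 443772)]) (.sq [(1, 100), (2, 12), (3, -5), (5, -93), (7, -7), (11, 40),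
    (13, -57), (19, 53), (23, -91)])) (.mul (.pp [(1, 1608864)]) (.sq [(1, 7), (2, 59), (3, -100), (5,
    -5), (11, -47), (13, 6), (19, 2), (23, 4)])))) (.add (.mul (.g 7) (.add (.mul (.g 6) (.pp [(1,
    1967040000)])) (.mul (.g 16) (.pp [(1, 238320000)])))) (.add (.mul (.g 15) (.mul (.g 18) (.pp [(1,
    6913536000)]))) (.mul (.g 16) (.mul (.g 16) (.pp [(1, 8540400000)]))))))) (.add (.mul (.g 6) (.add
    (.mul (.g 6) (.add (.mul (.g 2) (.pp [(1, 179316600000)])) (.add (.mul (.g 4) (.pp [(1,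
    1516200000)])) (.mul (.g 9) (.pp [(1, 2486070000)]))))) (.add (.mul (.g 2) (.mul (.g 7) (.pp [(1,
    19304400000)]))) (.mul (.g 15) (.mul (.g 16) (.pp [(1, 6464400000)])))))) (.mul (.g 18) (.add
    (.add (.mul (.pp [(1, 3691896)]) (.sq [(1, 19), (2, -100), (3, 74), (5, 9), (7, -23), (11, 3),
    (13, 9), (19, -9), (23, 8)])) (.mul (.pp [(1, 964548)]) (.sq [(2, -47), (3, 12), (5, 3), (7, 19),
    (11, 100), (13, -13), (19, 55), (23, -78)]))) (.add (.mul (.pp [(1, 174756)]) (.sq [(2, 100), (3,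
    -75), (5, 6), (7, 6), (11, -41), (13, 6), (19, 6), (23, 6)])) (.mul (.g 15) (.mul (.g 15) (.pp
    [(1, 19221120000)])))))))))) (.add (.add (.add (.mul (.g 7) (.add (.mul (.pp [(1, 4224720)]) (.sq
    [(1, 93), (2, -30), (3, -30), (5, -15), (11, -33), (19, 15), (23, -100)])) (.add (.mul (.g 7) (.pp
    [(1, 138113400000)])) (.mul (.g 9) (.mul (.g 15) (.pp [(1, 1903950000)])))))) (.mul (.g 17) (.add
    (.mul (.pp [(1, 2005380)]) (.sq [(1, 13), (2, -8), (3, 7), (5, -5), (7, -9), (11, -9), (13, 100),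
    (19, 37), (23, -38)])) (.mul (.pp [(1, 2626020)]) (.sq [(1, 74), (2, -5), (3, 9), (5, 30), (7,
    -34), (11, 68), (13, -61), (19, 43), (23, -100)]))))) (.add (.mul (.g 0) (.mul (.pp [(1, 131298)])
    (.sq [(2, 100), (3, -15), (5, 56), (7, 9), (11, -6), (13, 60), (19, 49), (23, -87)]))) (.mul (.g
    2) (.mul (.pp [(1, 1521180)]) (.sq [(1, -42), (2, -27), (3, 41), (5, 29), (7, 30), (11, 3), (13,
    29), (19, 94), (23, -100)]))))) (.add (.add (.mul (.g 4) (.mul (.pp [(1, 1466400)]) (.sq [(2, 2),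
    (3, 2), (5, -43), (7, 100), (11, 2), (13, 2), (19, -77), (23, 2)]))) (.mul (.g 9) (.mul (.pp [(1,
    108723)]) (.sq [(1, -3), (2, 14), (3, -22), (5, 8), (7, -13), (11, 100), (13, -51), (19, 61), (23,
    -48)])))) (.add (.mul (.g 14) (.mul (.pp [(1, 43200)]) (.sq [(1, -58), (2, -14), (3, 38), (5, 43),
    (7, 14), (11, -37), (13, -59), (19, -100), (23, 97)]))) (.add (.mul (.g 15) (.mul (.pp [(1,
    5376660)]) (.sq [(1, 34), (2, 4), (3, -12), (5, -27), (7, -24), (11, 100), (13, -36), (19, 66),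
    (23, -54)]))) (.mul (.g 16) (.mul (.pp [(1, 578940)]) (.sq [(2, 100), (3, 1), (5, -86), (7, 16),
    (11, -5), (13, 3), (19, 57), (23, -9)])))))))) (.pp [(1, 3363117213), (2, 6237252), (3, 6918660),
    (4, 5844288), (5, 6319848), (6, 4658568), (7, 6530958), (8, 5606100), (9, 5494530), (10, 5750712),
    (11, 5761128), (12, 6223440), (13, 6204066), (14, 6111876), (15, 5757528), (18, 5997300), (19,
    6111642), (20, 6219780), (21, 6061296), (22, 5671176), (23, 6279744), (25, 5512440), (26,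
    5278692), (27, 5692560), (28, 5921160), (30, 6873960), (33, 5935656), (35, 4882368), (38,
    5140908), (39, 6023124), (42, 5868960), (44, 6635020), (45, 6185940), (46, 5273064), (49,
    5204607), (50, 5912520), (52, 5976660), (55, 5415432), (57, 5041464), (63, 4841880), (65,
    6197160), (66, 6132120), (69, 4505532), (70, 6285240), (75, 5616900), (76, 6171600), (77,
    5408856), (78, 5934600), (91, 5552382), (92, 6120900), (95, 6574104), (98, 6960660), (99,
    6072480), (105, 5715960), (110, 5526120), (114, 6028200), (115, 5641512), (117, 6127360), (121,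
    6123384), (125, 6291080), (130, 5707560), (133, 7176594), (138, 6411840), (143, 5881464), (147,
    6547380), (154, 6816960), (161, 6150276), (165, 5119560), (169, 5995473), (171, 6819360), (175,
    5195820), (182, 7272600), (190, 6244920), (195, 6097800), (207, 7125420), (209, 5526168), (230,
    6217680), (231, 6213120), (242, 5787100), (245, 7760640), (247, 5254506), (253, 5272872), (266,
    7105200), (273, 6523800), (275, 6685260), (285, 6655560), (286, 6012720), (299, 5642112), (322,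
    4242360), (325, 6280080), (338, 6166620), (343, 4751800), (345, 6559920), (361, 5137935), (363,
    5714940), (385, 6645960), (399, 6267240), (418, 5693040), (429, 5955720), (437, 6228660), (455,
    5299560), (475, 5725380), (483, 6349680), (494, 5911800), (506, 5977440), (507, 6089200), (529,
    5772150), (539, 6432060), (575, 6591360), (598, 5719560), (605, 6725220), (627, 6163560), (637,
    7259160), (665, 5289960), (715, 5292960), (722, 5443860), (741, 6011760), (759, 6165480), (805,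
    4485120), (845, 6195240), (847, 5754660), (874, 6561840), (897, 5533560), (931, 8605620), (1001,
    6486840), (1045, 6599160), (1058, 6765240), (1083, 5876160), (1127, 8961660), (1183, 4991820),
    (1235, 6097080), (1265, 6257280), (1311, 5804160), (1331, 6259780), (1463, 6393120), (1495,
    5528520), (1573, 5692380), (1587, 6224160), (1729, 6503640), (1771, 7251720), (1805, 6229860),
    (1859, 6676080), (2093, 5180520), (2185, 6342000), (2197, 5913160), (2299, 6154980), (2527,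
    4242960), (2645, 6584580), (2717, 5253000), (2783, 6059640), (3059, 1653720), (3211, 6346200),
    (3289, 5851080), (3703, 4250100), (3887, 6237780), (3971, 6745860), (4693, 6166500), (4807,
    5212080), (5681, 6333960), (5819, 5657820), (6859, 6642380), (6877, 6338580), (8303, 7386660),
    (10051, 7061580), (12167, 6525780)]))
    (by norm_num) (by decide +kernel)

theorem g014 : Ck (gG01 4)
    (pol2 4 nE WE (vGG c1E c2E) (Ex.add (hA (Ex.v 11) (Ex.v 19)) (hM (Ex.v 13)))) :=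
  Ck.mk' 1000000 (.add (.add (.add (.add (.mul (.g 8) (.add (.add (.add (.add (.mul (.pp [(1, 471720)]) (.sq [(1,
    3), (2, 47), (3, -27), (5, -35), (7, -7), (11, 17), (13, 62), (19, -100), (23, -18)])) (.mul (.pp
    [(1, 3508620)]) (.sq [(1, 1), (2, -100), (3, 76), (5, -41), (7, -6), (11, -5), (13, 75), (19, -8),
    (23, 12)]))) (.add (.mul (.pp [(1, 4105260)]) (.sq [(2, -68), (3, 19), (5, 31), (7, -51), (11,
    61), (13, 37), (19, 100), (23, 10)])) (.mul (.pp [(1, 701580)]) (.sq [(2, 20), (3, 99), (5, -100),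
    (7, 5), (13, 71), (19, 4), (23, -30)])))) (.add (.add (.mul (.pp [(1, 5686140)]) (.sq [(2, -2),
    (3, -73), (5, 88), (7, -23), (11, 1), (13, 92), (19, -100), (23, -1)])) (.mul (.pp [(1, 7887540)])
    (.sq [(2, -1), (3, 100), (5, 99), (13, -30), (19, -17), (23, -38)]))) (.add (.mul (.pp [(1,
    1546740)]) (.sq [(2, -72), (3, 100), (5, -10), (7, -13), (11, -3), (13, -11), (19, -85), (23,
    81)])) (.mul (.g 18) (.add (.add (.mul (.g 3) (.pp [(1, 17621400000)])) (.add (.mul (.g 7) (.pp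
    [(1, 9218640000)])) (.mul (.g 9) (.pp [(1, 1674354000)])))) (.add (.mul (.g 13) (.pp [(1,
    2156400000)])) (.add (.mul (.g 16) (.pp [(1, 37907520000)])) (.mul (.g 18) (.pp [(1,
    2861928000)]))))))))) (.add (.add (.add (.mul (.g 2) (.add (.add (.mul (.g 1) (.pp [(1,
    342103200000)])) (.mul (.g 6) (.pp [(1, 58050600000)]))) (.add (.mul (.g 8) (.pp [(1,
    164151000000)])) (.add (.mul (.g 17) (.pp [(1, 58482000000)])) (.mul (.g 19) (.pp [(1,
    1789680000)])))))) (.mul (.g 9) (.add (.add (.mul (.g 7) (.pp [(1, 3493470000)])) (.mul (.g 8)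
    (.pp [(1, 10776270000)]))) (.add (.mul (.g 10) (.pp [(1, 1503450000)])) (.mul (.g 20) (.pp [(1,
    186018000)])))))) (.add (.mul (.g 1) (.add (.pp [(1, 198778200000)]) (.add (.mul (.g 6) (.pp [(1,
    13567800000)])) (.mul (.g 8) (.pp [(1, 42810000000)]))))) (.mul (.g 19) (.add (.pp [(1,
    16947360000)]) (.add (.mul (.g 15) (.pp [(1, 7572240000)])) (.mul (.g 17) (.pp [(1,
    13469280000)]))))))) (.add (.add (.mul (.g 7) (.add (.mul (.g 6) (.pp [(1, 19797000000)])) (.mul
    (.g 20) (.pp [(1, 19514640000)])))) (.mul (.g 10) (.add (.pp [(1, 57405000000)]) (.mul (.g 11)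
    (.pp [(1, 6338190000)]))))) (.add (.mul (.g 4) (.mul (.g 5) (.pp [(1, 109671000000)]))) (.add
    (.mul (.g 8) (.mul (.g 16) (.pp [(1, 37267800000)]))) (.mul (.g 17) (.mul (.g 20) (.pp [(1,
    34893600000)]))))))))) (.add (.mul (.g 10) (.add (.add (.add (.mul (.pp [(1, 1667280)]) (.sq [(2,
    -100), (5, 9), (7, -5), (11, -1), (19, -73), (23, 67)])) (.add (.mul (.pp [(1, 1653480)]) (.sq
    [(1, -2), (2, 94), (3, -5), (5, 100), (7, 6), (11, -61), (13, -81), (19, -61), (23, 57)])) (.mul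
    (.pp [(1, 3154800)]) (.sq [(2, -58), (3, -12), (5, -79), (7, 3), (11, -30), (13, -46), (19, 26),
    (23, 100)])))) (.add (.mul (.pp [(1, 4235280)]) (.sq [(1, 20), (2, 84), (3, -93), (5, 13), (7,
    -67), (11, 24), (13, 95), (19, 24), (23, 100)])) (.add (.mul (.pp [(1, 1813500)]) (.sq [(2, -18),
    (3, 100), (5, -18), (7, -18), (11, -18), (13, 57), (19, -18), (23, -18)])) (.mul (.g 19) (.add
    (.add (.pp [(1, 14482800000)]) (.add (.mul (.g 4) (.pp [(1, 8958840000)])) (.mul (.g 11) (.pp [(1,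
    2084112000)])))) (.add (.mul (.g 18) (.pp [(1, 4191528000)])) (.add (.mul (.g 19) (.pp [(1,
    6189696000)])) (.mul (.g 20) (.pp [(1, 1097328000)]))))))))) (.add (.add (.mul (.g 10) (.add (.add
    (.mul (.g 2) (.pp [(1, 110351400000)])) (.mul (.g 4) (.pp [(1, 25720200000)]))) (.add (.mul (.g
    11) (.pp [(1, 13082280000)])) (.add (.mul (.g 17) (.pp [(1, 27609000000)])) (.mul (.g 18) (.pp
    [(1, 8655840000)])))))) (.add (.mul (.g 3) (.add (.mul (.g 1) (.pp [(1, 45336600000)])) (.add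
    (.mul (.g 7) (.pp [(1, 13051200000)])) (.mul (.g 18) (.pp [(1, 15610560000)]))))) (.mul (.g 4)
    (.add (.pp [(1, 71856600000)]) (.add (.mul (.g 5) (.pp [(1, 49013400000)])) (.mul (.g 17) (.pp
    [(1, 1427400000)]))))))) (.add (.add (.mul (.g 2) (.add (.mul (.g 0) (.pp [(1, 2992380000)]))
    (.mul (.g 6) (.pp [(1, 49233000000)])))) (.mul (.g 17) (.add (.mul (.g 18) (.pp [(1,
    1766040000)])) (.mul (.g 20) (.pp [(1, 64800000)]))))) (.add (.mul (.g 1) (.pp [(1,
    211582200000)])) (.mul (.g 15) (.mul (.g 20) (.pp [(1, 6512760000)])))))))) (.mul (.g 7) (.add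
    (.add (.add (.mul (.pp [(1, 2473200)]) (.sq [(2, 16), (3, 100), (5, -5), (7, -25), (11, -43), (13,
    -56), (19, -3), (23, 3)])) (.add (.mul (.pp [(1, 400680)]) (.sq [(2, -54), (3, 25), (5, -17), (7,
    -19), (11, -91), (13, 100), (19, 84), (23, -83)])) (.mul (.pp [(1, 1574100)]) (.sq [(2, 100), (3,
    16), (5, -18), (7, -13), (11, -53), (13, -76), (19, -20), (23, 20)])))) (.add (.mul (.pp [(1,
    2849940)]) (.sq [(2, 100), (3, -72), (5, -49), (7, -2), (11, -45), (13, -46), (19, 67), (23,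
    -14)])) (.add (.mul (.pp [(1, 14340720)]) (.sq [(1, -15), (2, -32), (3, 26), (5, -31), (7, 13),
    (11, -8), (13, 50), (19, 6), (23, 44)])) (.mul (.g 0) (.add (.pp [(1, 5004390000)]) (.add (.mul
    (.g 15) (.pp [(1, 4284390000)])) (.mul (.g 16) (.pp [(1, 3324210000)])))))))) (.add (.add (.mul
    (.g 3) (.add (.mul (.g 13) (.pp [(1, 99603000000)])) (.add (.mul (.g 16) (.pp [(1, 810000000)]))
    (.mul (.g 17) (.pp [(1, 23986800000)]))))) (.add (.mul (.g 4) (.add (.mul (.g 7) (.pp [(1,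
    882600000)])) (.add (.mul (.g 14) (.pp [(1, 82126200000)])) (.mul (.g 18) (.pp [(1,
    2680200000)]))))) (.mul (.g 11) (.add (.pp [(1, 16669470000)]) (.add (.mul (.g 16) (.pp [(1,
    6521730000)])) (.mul (.g 18) (.pp [(1, 1268592000)]))))))) (.add (.add (.mul (.g 15) (.add (.mul
    (.g 9) (.pp [(1, 1470120000)])) (.mul (.g 17) (.pp [(1, 20145000000)])))) (.mul (.g 19) (.add
    (.mul (.g 17) (.pp [(1, 2087040000)])) (.mul (.g 19) (.pp [(1, 1028952000)]))))) (.add (.mul (.g
    1) (.mul (.g 6) (.pp [(1, 225478800000)]))) (.mul (.g 18) (.mul (.g 20) (.pp [(1,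
    840312000)])))))))))) (.add (.add (.mul (.g 20) (.add (.add (.add (.mul (.pp [(1, 137160)]) (.sq
    [(2, -78), (3, 100), (11, -91), (13, -63), (19, -14), (23, 84)])) (.add (.mul (.pp [(1, 388236)])
    (.sq [(2, 100), (3, -1), (5, 51), (7, 3), (11, 79), (13, 26), (19, -28), (23, 19)])) (.mul (.pp
    [(1, 19788)]) (.sq [(2, 100), (3, 75), (11, -83), (13, 52), (19, -22), (23, -52)])))) (.add (.add
    (.mul (.pp [(1, 857952)]) (.sq [(2, -16), (3, 3), (5, 100), (7, 16), (11, -59), (13, 21), (19,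
    -9), (23, 24)])) (.mul (.pp [(1, 2832)]) (.sq [(1, 4), (2, -33), (3, -93), (5, -100), (7, 31),
    (11, -71), (13, 40), (19, 52), (23, -26)]))) (.add (.mul (.pp [(1, 479508)]) (.sq [(1, -33), (2,
    -42), (3, 32), (5, -4), (7, -32), (11, 33), (13, 100), (19, 17), (23, 13)])) (.mul (.pp [(1,
    116028)]) (.sq [(2, 7), (3, 100), (5, -21), (7, -82), (11, 5), (13, -23), (19, 33), (23, 14)])))))
    (.add (.add (.mul (.g 15) (.add (.add (.mul (.g 6) (.pp [(1, 2816760000)])) (.mul (.g 9) (.pp [(1,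
    219744000)]))) (.add (.mul (.g 18) (.pp [(1, 4117944000)])) (.mul (.g 20) (.pp [(1,
    98880000)]))))) (.add (.mul (.g 19) (.add (.pp [(1, 1443192000)]) (.add (.mul (.g 2) (.pp [(1,
    1199664000)])) (.mul (.g 18) (.pp [(1, 262108800)]))))) (.mul (.g 0) (.add (.pp [(1, 2355354000)])
    (.mul (.g 9) (.pp [(1, 6081300)])))))) (.add (.add (.mul (.g 20) (.add (.mul (.g 11) (.pp [(1,
    31299600)])) (.mul (.g 20) (.pp [(1, 412992000)])))) (.mul (.g 3) (.mul (.g 18) (.pp [(1,
    2650728000)])))) (.add (.mul (.g 5) (.mul (.g 17) (.pp [(1, 11154960000)]))) (.mul (.g 6) (.pp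
    [(1, 5426520000)]))))))) (.mul (.g 1) (.add (.add (.add (.mul (.pp [(1, 6401760)]) (.sq [(2, -19),
    (5, 1), (13, 100), (19, -84), (23, -57)])) (.mul (.pp [(1, 3270060)]) (.sq [(1, 4), (2, 89), (3,
    49), (5, 89), (11, -38), (13, -100), (19, -77), (23, -11)]))) (.add (.mul (.pp [(1, 15439680)])
    (.sq [(2, 26), (3, 1), (5, 2), (7, -1), (11, -80), (13, 54), (19, 100), (23, -2)])) (.add (.mul
    (.g 17) (.add (.add (.pp [(1, 72006600000)]) (.mul (.g 1) (.pp [(1, 316992600000)]))) (.add (.mul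
    (.g 2) (.pp [(1, 11628600000)])) (.add (.mul (.g 4) (.pp [(1, 76624200000)])) (.mul (.g 9) (.pp
    [(1, 5178240000)])))))) (.mul (.g 0) (.add (.pp [(1, 5553690000)]) (.add (.mul (.g 3) (.pp [(1,
    11904060000)])) (.mul (.g 14) (.pp [(1, 739830000)])))))))) (.add (.add (.mul (.g 18) (.add (.pp
    [(1, 16900800000)]) (.add (.mul (.g 3) (.pp [(1, 3918120000)])) (.mul (.g 15) (.pp [(1,
    10628280000)]))))) (.mul (.g 3) (.pp [(1, 36910200000)]))) (.add (.mul (.g 4) (.pp [(1,
    252722400000)])) (.add (.mul (.g 6) (.mul (.g 15) (.pp [(1, 22021800000)]))) (.mul (.g 19) (.pp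
    [(1, 4863240000)])))))))) (.add (.mul (.g 6) (.add (.add (.add (.mul (.pp [(1, 987600)]) (.sq [(1,
    -15), (2, 33), (3, -100), (5, 86), (7, -83), (11, 25), (13, 54), (19, 11), (23, -17)])) (.mul (.pp
    [(1, 6695760)]) (.sq [(2, 4), (3, 32), (5, 19), (7, -54), (11, -66), (13, 100), (19, -27), (23,
    6)]))) (.add (.mul (.pp [(1, 581580)]) (.sq [(1, -97), (2, 32), (3, 32), (5, -34), (11, 100), (13,
    100), (23, 34)])) (.mul (.g 11) (.add (.pp [(1, 16699350000)]) (.add (.mul (.g 4) (.pp [(1,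
    1406130000)])) (.mul (.g 18) (.pp [(1, 284154000)]))))))) (.add (.add (.mul (.g 2) (.add (.mul (.g
    15) (.pp [(1, 31426200000)])) (.mul (.g 17) (.pp [(1, 15880200000)])))) (.mul (.g 9) (.add (.mul
    (.g 9) (.pp [(1, 230445000)])) (.mul (.g 19) (.pp [(1, 696306000)]))))) (.add (.mul (.g 4) (.mul
    (.g 5) (.pp [(1, 113779200000)]))) (.add (.mul (.g 15) (.mul (.g 18) (.pp [(1, 39312120000)])))
    (.mul (.g 16) (.mul (.g 19) (.pp [(1, 205320000)])))))))) (.mul (.g 12) (.add (.add (.mul (.pp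
    [(1, 1166880)]) (.sq [(1, -14), (2, -13), (3, 43), (5, -14), (7, -21), (11, 100), (13, 29), (19,
    -76), (23, -45)])) (.add (.mul (.pp [(1, 1503660)]) (.sq [(1, 13), (2, 9), (3, -6), (5, -78), (7,
    -3), (11, 100), (13, -9), (23, -69)])) (.mul (.pp [(1, 4611840)]) (.sq [(2, 100), (7, -5), (13,
    -96), (19, 5), (23, -24)])))) (.add (.add (.mul (.pp [(1, 486540)]) (.sq [(2, -59), (3, 100), (5,
    81), (7, -24), (11, -47), (13, -43), (19, 30), (23, -54)])) (.mul (.pp [(1, 4068960)]) (.sq [(2,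
    -16), (3, -50), (5, -92), (7, 37), (11, 22), (13, 100), (19, -6), (23, -66)]))) (.add (.mul (.pp
    [(1, 1298820)]) (.sq [(1, -24), (2, 100), (3, -8), (5, 1), (7, -1), (11, -22), (13, 36), (19, 8),
    (23, -12)])) (.mul (.pp [(1, 1035180)]) (.sq [(1, 82), (2, -87), (3, -100), (5, 47), (7, -71),
    (11, 2), (13, 49), (19, 73), (23, -42)]))))))))) (.add (.add (.mul (.g 13) (.add (.add (.mul (.pp
    [(1, 1563660)]) (.sq [(2, -92), (3, 49), (5, -50), (7, 50), (11, 60), (13, -16), (19, 8), (23,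
    -100)])) (.mul (.pp [(1, 374940)]) (.sq [(2, 12), (3, -12), (5, 7), (7, 50), (11, -94), (13, 59),
    (19, -100), (23, 2)]))) (.add (.mul (.pp [(1, 1500840)]) (.sq [(1, -6), (2, 100), (3, -9), (5,
    14), (7, -9), (11, 12), (13, -32), (19, -21), (23, -15)])) (.add (.mul (.g 2) (.add (.mul (.g 11)
    (.pp [(1, 517620000)])) (.mul (.g 19) (.pp [(1, 12717960000)])))) (.mul (.g 4) (.mul (.g 16) (.pp
    [(1, 61446600000)]))))))) (.add (.mul (.g 4) (.add (.mul (.pp [(1, 6118980)]) (.sq [(2, -45), (3,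
    100), (5, -5), (7, -52), (11, 21), (13, 37), (19, -30), (23, 68)])) (.add (.mul (.pp [(1,
    129516000000)]) (.sq [(19, 1), (23, -1)])) (.mul (.g 5) (.pp [(1, 45757200000)]))))) (.mul (.g 15)
    (.add (.mul (.pp [(1, 191880)]) (.sq [(2, 78), (3, -3), (5, -7), (7, -100), (11, 48), (13, 93),
    (19, 91), (23, 10)])) (.add (.mul (.pp [(1, 2662860)]) (.sq [(1, -100), (2, 88), (3, 9), (5, -48),
    (7, 41), (11, 36), (13, 73), (19, -36), (23, 98)])) (.mul (.pp [(1, 1757820)]) (.sq [(2, 48), (3,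
    100), (5, -13), (7, -13), (11, -74), (13, -13), (19, -13), (23, -13)]))))))) (.add (.add (.mul (.g
    19) (.add (.mul (.pp [(1, 183504)]) (.sq [(2, -3), (3, 100), (5, -8), (7, -8), (11, -8), (13,
    -65), (19, -8), (23, -8)])) (.add (.mul (.pp [(1, 2871972)]) (.sq [(1, -26), (2, -51), (3, 100),
    (5, -5), (7, 24), (11, 54), (13, -62), (19, 5), (23, -6)])) (.mul (.g 16) (.mul (.g 16) (.pp [(1,
    29446440000)])))))) (.mul (.g 18) (.add (.mul (.pp [(1, 1001088)]) (.sq [(1, 13), (2, 100), (3,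
    -44), (5, 15), (7, -23), (11, -33), (13, 74), (19, 58), (23, -67)])) (.mul (.pp [(1, 5515800)])
    (.sq [(2, 100), (3, -75), (5, 6), (7, 6), (11, -41), (13, 6), (19, 6), (23, 6)]))))) (.add (.mul
    (.g 0) (.mul (.pp [(1, 43491)]) (.sq [(2, -4), (3, -100), (5, -56), (7, 5), (11, 35), (13, -36),
    (19, -30), (23, 77)]))) (.mul (.g 5) (.mul (.pp [(1, 4794960)]) (.sq [(1, -29), (2, 17), (3, 9),
    (5, 37), (7, 16), (11, 100), (13, 11), (19, -74), (23, -47)]))))))) (.pp [(1, 2293890576), (2,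
    6249984), (3, 6327888), (4, 5410212), (5, 6095904), (6, 6155160), (7, 5638464), (8, 5796960), (9,
    5846004), (10, 6172680), (11, 5781780), (12, 6139140), (13, 6045120), (14, 4655280), (15,
    5467920), (18, 5704260), (19, 6158760), (20, 6547020), (21, 5770464), (22, 5896176), (23,
    6070776), (25, 5769264), (26, 5593080), (27, 6000000), (28, 6962700), (30, 5962440), (33,
    5984328), (35, 6350616), (38, 6976032), (39, 5459088), (42, 5649840), (44, 6454900), (45,
    6145320), (46, 5851920), (49, 6482979), (50, 6637140), (52, 5444880), (55, 5470896), (57,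
    6098472), (63, 6120060), (65, 6203496), (66, 5039520), (69, 5916552), (70, 5722440), (75,
    6591180), (76, 5376960), (77, 5900586), (78, 6669480), (91, 6704784), (92, 6159180), (95,
    6058560), (98, 6351720), (99, 6358500), (105, 6735840), (110, 6314160), (114, 6150120), (115,
    5968296), (117, 6011080), (121, 5835663), (125, 6411560), (130, 5777760), (133, 4811124), (138,
    5863680), (143, 6047784), (147, 5525760), (154, 6593040), (161, 6023358), (165, 6786600), (169,
    5865924), (171, 6140340), (175, 5472600), (182, 7095600), (190, 5580120), (195, 6102240), (207,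
    6245100), (209, 5449284), (230, 5687520), (231, 6007800), (242, 6204040), (245, 6073020), (247,
    6618384), (253, 6309138), (266, 5992680), (273, 6330960), (275, 6428700), (285, 5161560), (286,
    6080160), (299, 5440584), (322, 6761160), (325, 5611800), (338, 6224640), (343, 5640380), (345,
    5889960), (361, 6607236), (363, 6090960), (385, 6184920), (399, 6615000), (418, 5884920), (429,
    5953200), (437, 6587124), (455, 6696360), (475, 5850060), (483, 4916040), (494, 4615320), (506,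
    5432280), (507, 5903440), (529, 5830371), (539, 6225840), (575, 6005580), (598, 6274560), (605,
    6425760), (627, 6031920), (637, 5297280), (665, 5820840), (715, 6303480), (722, 6243540), (741,
    5631600), (759, 6144600), (805, 5567040), (845, 6895860), (847, 6069300), (874, 5425920), (897,
    6291600), (931, 7003260), (1001, 7064520), (1045, 5644680), (1058, 5752980), (1083, 5612100),
    (1127, 6192660), (1183, 5509080), (1235, 6177000), (1265, 5839680), (1311, 6744480), (1331,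
    6078160), (1463, 5119200), (1495, 4721520), (1573, 5919360), (1587, 6542160), (1729, 6125160),
    (1771, 5625120), (1805, 6289320), (1859, 5812440), (2093, 6293400), (2185, 6633840), (2197,
    6097420), (2299, 5867280), (2527, 5181060), (2645, 6055680), (2717, 5505720), (2783, 5953740),
    (3059, 6070560), (3211, 6099180), (3289, 5164800), (3703, 5664540), (3887, 5835960), (3971,
    7128840), (4693, 5570640), (4807, 6273120), (5681, 5863320), (5819, 6439680), (6859, 6134420),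
    (6877, 6301320), (8303, 5642940), (10051, 5577780), (12167, 6497360)]))
    (by norm_num) (by decide +kernel)

theorem g103 : Ck (gG10 3)
    (pol2 3 nE WE (vGG c1E c2E) (Ex.add (hM (Ex.v 11)) (hA (Ex.v 13) (Ex.v 23)))) :=
  Ck.mk' 500000 (.add (.add (.add (.add (.mul (.g 8) (.add (.add (.add (.mul (.pp [(1, 995280)]) (.sq [(2, -8),
    (3, -30), (5, 44), (7, 30), (11, -1), (13, -42), (19, -34), (23, 100)])) (.add (.mul (.pp [(1,
    1629150)]) (.sq [(1, 9), (2, -90), (3, -8), (5, 15), (7, 73), (11, -100), (13, -5), (19, -37),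
    (23, -93)])) (.mul (.pp [(1, 5052420)]) (.sq [(2, 100), (3, -5), (5, 55), (7, -8), (11, 12), (13,
    -3), (19, -74), (23, 66)])))) (.add (.mul (.pp [(1, 5705550)]) (.sq [(2, 100), (3, -18), (5, -18),
    (7, -18), (11, 57), (13, -18), (19, -18), (23, -18)])) (.add (.mul (.g 11) (.add (.add (.add (.mul
    (.g 1) (.pp [(1, 1212000000)])) (.mul (.g 4) (.pp [(1, 1241595000)]))) (.add (.mul (.g 6) (.pp
    [(1, 759780000)])) (.mul (.g 7) (.pp [(1, 2063985000)])))) (.add (.add (.mul (.g 11) (.pp [(1,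
    9622500)])) (.mul (.g 16) (.pp [(1, 613575000)]))) (.add (.mul (.g 18) (.pp [(1, 628770000)]))
    (.mul (.g 20) (.pp [(1, 414081000)])))))) (.mul (.g 9) (.add (.add (.pp [(1, 221040000)]) (.add
    (.mul (.g 1) (.pp [(1, 1645470000)])) (.mul (.g 7) (.pp [(1, 763230000)])))) (.add (.add (.mul (.g
    8) (.pp [(1, 6778020000)])) (.mul (.g 10) (.pp [(1, 87855000)]))) (.add (.mul (.g 19) (.pp [(1,
    133578000)])) (.mul (.g 20) (.pp [(1, 40857000)]))))))))) (.add (.add (.mul (.g 1) (.add (.add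
    (.pp [(1, 1656900000)]) (.mul (.g 4) (.pp [(1, 30125400000)]))) (.add (.mul (.g 14) (.pp [(1,
    19434900000)])) (.add (.mul (.g 16) (.pp [(1, 82379400000)])) (.mul (.g 17) (.pp [(1,
    64571100000)])))))) (.add (.mul (.g 7) (.add (.add (.pp [(1, 12214800000)]) (.mul (.g 5) (.pp [(1,
    41543100000)]))) (.add (.mul (.g 16) (.pp [(1, 143880900000)])) (.mul (.g 20) (.pp [(1,
    399840000)]))))) (.mul (.g 19) (.add (.add (.mul (.g 3) (.pp [(1, 4453980000)])) (.mul (.g 15)
    (.pp [(1, 1479240000)]))) (.add (.mul (.g 16) (.pp [(1, 8326440000)])) (.mul (.g 20) (.pp [(1,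
    3063324000)]))))))) (.add (.add (.mul (.g 17) (.add (.mul (.g 8) (.pp [(1, 49222200000)])) (.add
    (.mul (.g 18) (.pp [(1, 31574640000)])) (.mul (.g 20) (.pp [(1, 3134460000)]))))) (.mul (.g 0)
    (.mul (.g 15) (.pp [(1, 1873365000)])))) (.add (.mul (.g 3) (.mul (.g 6) (.pp [(1,
    27721200000)]))) (.mul (.g 16) (.mul (.g 18) (.pp [(1, 24745380000)])))))))) (.add (.mul (.g 10)
    (.add (.add (.add (.mul (.pp [(1, 3761850)]) (.sq [(2, -18), (3, 100), (5, -18), (7, -18), (11,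
    -18), (13, 57), (19, -18), (23, -18)])) (.mul (.pp [(1, 252900)]) (.sq [(1, 33), (2, -8), (3, 27),
    (5, 83), (7, -36), (11, 23), (13, 47), (19, -85), (23, 100)]))) (.add (.mul (.pp [(1, 1569990)])
    (.sq [(2, -98), (3, 6), (5, 30), (7, 88), (11, 83), (23, -100)])) (.add (.mul (.g 19) (.add (.add
    (.add (.pp [(1, 14288040000)]) (.mul (.g 1) (.pp [(1, 1250100000)]))) (.add (.mul (.g 3) (.pp [(1,
    6592800000)])) (.mul (.g 9) (.pp [(1, 149019000)])))) (.add (.add (.mul (.g 11) (.pp [(1,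
    269277000)])) (.mul (.g 18) (.pp [(1, 498732000)]))) (.add (.mul (.g 19) (.pp [(1, 5095128000)]))
    (.mul (.g 20) (.pp [(1, 2584956000)])))))) (.mul (.g 3) (.add (.add (.mul (.g 1) (.pp [(1,
    64225500000)])) (.add (.mul (.g 3) (.pp [(1, 56069400000)])) (.mul (.g 5) (.pp [(1,
    11105400000)])))) (.add (.mul (.g 10) (.pp [(1, 1791000000)])) (.add (.mul (.g 15) (.pp [(1,
    19462200000)])) (.mul (.g 17) (.pp [(1, 20447400000)]))))))))) (.add (.add (.mul (.g 10) (.add
    (.add (.mul (.g 4) (.pp [(1, 71754900000)])) (.mul (.g 11) (.pp [(1, 5608365000)]))) (.add (.mul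
    (.g 15) (.pp [(1, 10652700000)])) (.mul (.g 17) (.pp [(1, 23047200000)]))))) (.add (.mul (.g 1)
    (.add (.pp [(1, 64294200000)]) (.add (.mul (.g 15) (.pp [(1, 24389400000)])) (.mul (.g 17) (.pp
    [(1, 66965700000)]))))) (.mul (.g 15) (.add (.mul (.g 15) (.pp [(1, 4442100000)])) (.mul (.g 20)
    (.pp [(1, 5499240000)])))))) (.add (.mul (.g 18) (.add (.mul (.g 7) (.pp [(1, 4513200000)])) (.mul
    (.g 18) (.pp [(1, 1047924000)])))) (.add (.mul (.g 13) (.mul (.g 14) (.pp [(1, 8367900000)])))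
    (.mul (.g 17) (.mul (.g 20) (.pp [(1, 2219520000)])))))))) (.mul (.g 1) (.add (.add (.add (.mul
    (.pp [(1, 3774030)]) (.sq [(1, -18), (2, 34), (3, 63), (5, 100), (7, 20), (11, -63), (13, -65),
    (19, -16), (23, 68)])) (.mul (.pp [(1, 1955730)]) (.sq [(2, 100), (3, -68), (7, -1), (11, -14),
    (13, -82), (19, -1), (23, -26)]))) (.add (.mul (.pp [(1, 264300)]) (.sq [(2, -10), (3, 100), (5,
    -49), (7, 17), (11, 4), (13, -37), (19, 7), (23, 18)])) (.add (.mul (.pp [(1, 1209930)]) (.sq [(2,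
    100), (3, 56), (5, 13), (7, 2), (11, -26), (13, 93), (19, -24), (23, -44)])) (.mul (.g 3) (.add
    (.add (.pp [(1, 1908900000)]) (.mul (.g 0) (.pp [(1, 4888995000)]))) (.add (.mul (.g 7) (.pp [(1,
    90933900000)])) (.add (.mul (.g 16) (.pp [(1, 11233500000)])) (.mul (.g 20) (.pp [(1,
    12264540000)]))))))))) (.add (.add (.mul (.g 2) (.add (.add (.mul (.g 0) (.pp [(1, 3163050000)]))
    (.mul (.g 13) (.pp [(1, 59124300000)]))) (.add (.mul (.g 15) (.pp [(1, 21871800000)])) (.mul (.g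
    19) (.pp [(1, 3894120000)]))))) (.add (.mul (.g 17) (.add (.add (.mul (.g 1) (.pp [(1,
    184185000000)])) (.mul (.g 4) (.pp [(1, 117078900000)]))) (.add (.mul (.g 18) (.pp [(1,
    10612740000)])) (.mul (.g 20) (.pp [(1, 2753340000)]))))) (.mul (.g 0) (.add (.pp [(1,
    2389755000)]) (.mul (.g 19) (.pp [(1, 96861000)])))))) (.add (.mul (.g 18) (.add (.pp [(1,
    1993980000)]) (.mul (.g 15) (.pp [(1, 6118380000)])))) (.add (.mul (.g 4) (.pp [(1,
    114963000000)])) (.mul (.g 19) (.pp [(1, 8086740000)]))))))))) (.add (.mul (.g 13) (.add (.add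
    (.add (.mul (.pp [(1, 2235300)]) (.sq [(1, -43), (2, 70), (3, -16), (5, 39), (7, -86), (11, 100),
    (13, -14), (19, 46), (23, -2)])) (.add (.mul (.pp [(1, 2683590)]) (.sq [(1, 2), (2, 58), (3, -62),
    (5, -35), (7, 25), (11, -17), (13, 8), (19, 15), (23, -100)])) (.mul (.pp [(1, 256020)]) (.sq [(1,
    -13), (2, 100), (3, -2), (5, 46), (7, -57), (11, -85), (13, 22), (19, 40), (23, 64)])))) (.add
    (.mul (.pp [(1, 508890)]) (.sq [(2, 100), (3, -48), (5, 56), (7, -3), (11, -5), (13, -77), (19,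
    42), (23, -60)])) (.add (.mul (.pp [(1, 1298700)]) (.sq [(2, 100), (3, 3), (5, -89), (7, 45), (11,
    -44), (13, 38), (19, -3), (23, -3)])) (.mul (.pp [(1, 3231690)]) (.sq [(1, -21), (2, 3), (3, 10),
    (5, 32), (7, -15), (11, -10), (13, 100), (19, -24), (23, -2)]))))) (.add (.add (.mul (.pp [(1,
    881400)]) (.sq [(1, -3), (2, 26), (3, 82), (5, 12), (7, -44), (11, -12), (13, -57), (19, 100),
    (23, 3)])) (.add (.mul (.pp [(1, 2485170)]) (.sq [(2, 10), (3, 100), (5, 16), (7, -15), (11, -1),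
    (13, -2), (19, -23), (23, 39)])) (.mul (.pp [(1, 445440)]) (.sq [(1, 5), (2, 62), (3, -3), (5,
    -100), (7, -32), (11, 4), (13, 10), (19, -13), (23, 77)])))) (.add (.add (.mul (.g 9) (.add (.pp
    [(1, 9059520000)]) (.add (.mul (.g 9) (.pp [(1, 963000)])) (.mul (.g 19) (.pp [(1,
    481134000)]))))) (.mul (.g 11) (.add (.pp [(1, 3825000)]) (.mul (.g 11) (.pp [(1, 30936000)])))))
    (.add (.mul (.g 13) (.add (.mul (.g 4) (.pp [(1, 26759700000)])) (.mul (.g 17) (.pp [(1,
    622200000)])))) (.mul (.g 15) (.add (.mul (.g 2) (.pp [(1, 16807200000)])) (.mul (.g 3) (.pp [(1,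
    11566500000)]))))))))) (.add (.mul (.g 20) (.add (.add (.mul (.pp [(1, 135372)]) (.sq [(2, -24),
    (3, 74), (5, -100), (7, -37), (11, -15), (13, 67), (19, 12), (23, -50)])) (.add (.mul (.pp [(1,
    862902)]) (.sq [(2, -50), (3, 83), (5, 2), (7, 6), (11, 100), (13, 61), (19, -38), (23, 5)]))
    (.mul (.g 19) (.add (.add (.mul (.g 2) (.pp [(1, 9096000)])) (.mul (.g 6) (.pp [(1, 37092000)])))
    (.add (.mul (.g 7) (.pp [(1, 680928000)])) (.add (.mul (.g 19) (.pp [(1, 40490400)])) (.mul (.g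
    20) (.pp [(1, 48124800)])))))))) (.add (.add (.mul (.g 17) (.add (.add (.mul (.g 5) (.pp [(1,
    4576980000)])) (.mul (.g 7) (.pp [(1, 1253280000)]))) (.add (.mul (.g 17) (.pp [(1, 8643420000)]))
    (.mul (.g 18) (.pp [(1, 2099460000)]))))) (.mul (.g 3) (.add (.mul (.g 2) (.pp [(1, 3011100000)]))
    (.add (.mul (.g 15) (.pp [(1, 13536360000)])) (.mul (.g 20) (.pp [(1, 514044000)])))))) (.add
    (.mul (.g 18) (.add (.mul (.g 2) (.pp [(1, 1892568000)])) (.add (.mul (.g 11) (.pp [(1,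
    46440600)])) (.mul (.g 18) (.pp [(1, 113407200)]))))) (.mul (.g 0) (.mul (.g 5) (.pp [(1,
    1080402000)]))))))) (.mul (.g 5) (.add (.add (.add (.mul (.pp [(1, 410130)]) (.sq [(2, -18), (3,
    -54), (5, 14), (7, -2), (11, 100), (13, 85), (23, 2)])) (.mul (.pp [(1, 1261530)]) (.sq [(1, 3),
    (2, 35), (3, -68), (5, 97), (7, -41), (11, 58), (13, 100), (19, -58), (23, 89)]))) (.add (.mul
    (.pp [(1, 1417980)]) (.sq [(1, -22), (2, -51), (3, 22), (5, -6), (7, 78), (11, 100), (13, -42),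
    (19, -68), (23, -54)])) (.mul (.pp [(1, 2968980)]) (.sq [(1, -1), (2, 40), (3, 100), (5, -3), (7,
    -46), (11, -25), (13, -35), (23, -82)])))) (.add (.add (.mul (.g 3) (.add (.mul (.g 2) (.pp [(1,
    64720500000)])) (.add (.mul (.g 6) (.pp [(1, 77005200000)])) (.mul (.g 16) (.pp [(1,
    4757400000)]))))) (.mul (.g 0) (.add (.mul (.g 15) (.pp [(1, 469545000)])) (.mul (.g 16) (.pp [(1,
    2479665000)]))))) (.add (.mul (.g 15) (.mul (.g 18) (.pp [(1, 14352480000)]))) (.add (.mul (.g 16)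
    (.mul (.g 19) (.pp [(1, 9482700000)]))) (.mul (.g 17) (.pp [(1, 4665300000)])))))))))) (.add (.add
    (.mul (.g 7) (.add (.add (.mul (.pp [(1, 198870)]) (.sq [(1, -57), (2, 60), (3, -94), (5, -6), (7,
    -19), (11, 100), (13, 74), (19, 95), (23, 17)])) (.add (.mul (.pp [(1, 7395150)]) (.sq [(2, -10),
    (3, 90), (5, -36), (7, -3), (11, -100), (13, -33), (19, 3), (23, -9)])) (.mul (.pp [(1, 87120)])
    (.sq [(1, 27), (2, -3), (3, 77), (5, -69), (7, 18), (11, 82), (13, 9), (19, -100), (23, 77)]))))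
    (.add (.mul (.g 6) (.add (.add (.pp [(1, 15415500000)]) (.mul (.g 3) (.pp [(1, 73329900000)])))
    (.add (.mul (.g 6) (.pp [(1, 299100000)])) (.mul (.g 9) (.pp [(1, 3803145000)]))))) (.add (.mul
    (.g 7) (.add (.pp [(1, 8784900000)]) (.add (.mul (.g 11) (.pp [(1, 1794345000)])) (.mul (.g 15)
    (.pp [(1, 53699700000)]))))) (.mul (.g 15) (.add (.mul (.g 11) (.pp [(1, 390360000)])) (.mul (.g
    15) (.pp [(1, 7760400000)])))))))) (.add (.mul (.g 18) (.add (.add (.mul (.pp [(1, 1045068)]) (.sq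
    [(1, 43), (2, 17), (3, -38), (5, -100), (7, -2), (11, 97), (13, 50), (19, -38), (23, 62)])) (.mul
    (.pp [(1, 236544)]) (.sq [(1, 10), (2, -100), (3, 67), (5, -17), (7, 2), (11, 16), (13, -18), (19,
    -13), (23, 17)]))) (.add (.mul (.pp [(1, 2768862)]) (.sq [(2, 100), (3, -75), (5, 6), (7, 6), (11,
    -41), (13, 6), (19, 6), (23, 6)])) (.mul (.pp [(1, 133416)]) (.sq [(1, 17), (2, 100), (3, -20),
    (5, -96), (7, 2), (11, -20), (13, -8), (19, 45), (23, -11)]))))) (.mul (.g 19) (.add (.mul (.pp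
    [(1, 1763988)]) (.sq [(1, 3), (2, -48), (3, 100), (5, -15), (11, -6), (13, -33), (19, 16), (23,
    -16)])) (.add (.mul (.pp [(1, 166560)]) (.sq [(2, -3), (3, 100), (5, -8), (7, -8), (11, -8), (13,
    -65), (19, -8), (23, -8)])) (.mul (.pp [(1, 1069518)]) (.sq [(1, 2), (3, 100), (5, -10), (7, -14),
    (11, -25), (13, 29), (19, 2), (23, 14)]))))))) (.add (.add (.mul (.g 3) (.add (.mul (.pp [(1,
    2630550)]) (.sq [(2, -52), (3, 84), (5, 3), (7, -7), (11, 100), (13, 70), (19, -2), (23, -4)]))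
    (.mul (.g 6) (.mul (.g 6) (.pp [(1, 31962900000)]))))) (.mul (.g 15) (.add (.mul (.pp [(1,
    1345050)]) (.sq [(1, -42), (2, 73), (3, 14), (5, 82), (7, 34), (11, -100), (13, -89), (19, -41),
    (23, -14)])) (.mul (.pp [(1, 555810)]) (.sq [(2, 48), (3, 100), (5, -13), (7, -13), (11, -74),
    (13, -13), (19, -13), (23, -13)]))))) (.add (.mul (.g 4) (.mul (.pp [(1, 5818650)]) (.sq [(2, -2),
    (3, -2), (5, 43), (7, -100), (11, -2), (13, -2), (19, -2), (23, 77)]))) (.mul (.g 11) (.mul (.pp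
    [(1, 77091)]) (.sq [(2, -8), (3, 46), (5, -29), (7, -20), (11, 6), (13, 20), (19, -61), (23,
    100)]))))))) (.pp [(1, 1536257250), (2, 2914464), (3, 2915172), (4, 3342990), (5, 2985612), (6,
    3107328), (7, 3304248), (8, 2865570), (9, 3098658), (10, 2825628), (11, 2967606), (12, 3021480),
    (13, 3246444), (14, 3094776), (15, 3025788), (18, 2862990), (19, 3076866), (20, 3086640), (21,
    2759136), (22, 2927952), (23, 2746284), (25, 2904321), (26, 2813184), (27, 3300000), (28,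
    3106110), (30, 2975520), (33, 3011064), (35, 3366432), (38, 2753280), (39, 2831712), (42,
    2985840), (44, 3496640), (45, 2964750), (46, 2705244), (49, 2795604), (50, 2888430), (52,
    3212100), (55, 3010344), (57, 2789100), (63, 2785830), (65, 2984412), (66, 2893140), (69,
    3317292), (70, 3201000), (75, 3034020), (76, 2796300), (77, 3834036), (78, 3048000), (91,
    2421792), (92, 2773080), (95, 2763102), (98, 3254730), (99, 2915700), (105, 3240000), (110,
    2813880), (114, 3001320), (115, 2853408), (117, 2925380), (121, 2799294), (125, 2958040), (130,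
    2661180), (133, 2814732), (138, 2920560), (143, 2362380), (147, 2727480), (154, 2023320), (161,
    3235644), (165, 3289200), (169, 2878794), (171, 3043980), (175, 2951670), (182, 2792220), (190,
    3365760), (195, 3212460), (207, 2947980), (209, 2732016), (230, 2817360), (231, 3647100), (242,
    3299450), (245, 3151080), (247, 3385440), (253, 2686404), (266, 2750460), (273, 3449460), (275,
    3094470), (285, 2939280), (286, 2687760), (299, 3177252), (322, 2838240), (325, 3028560), (338,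
    2981220), (343, 2954000), (345, 2884140), (361, 2955399), (363, 2982990), (385, 2446620), (399,
    2987160), (418, 3345720), (429, 3128940), (437, 3175704), (455, 2602980), (475, 3068730), (483,
    3376800), (494, 3022440), (506, 3767400), (507, 3116450), (529, 3065904), (539, 3690690), (575,
    3105540), (598, 3214620), (605, 3122340), (627, 2557680), (637, 2952780), (665, 2931120), (715,
    3108420), (722, 3192900), (741, 2677680), (759, 2836800), (805, 2724900), (845, 3195450), (847,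
    2099190), (874, 3152520), (897, 2878320), (931, 3157590), (1001, 3011640), (1045, 3256800), (1058,
    3266010), (1083, 3170520), (1127, 2730060), (1183, 3011400), (1235, 3174240), (1265, 3420720),
    (1311, 3054960), (1331, 3024290), (1463, 1936440), (1495, 3452460), (1573, 3130230), (1587,
    2843400), (1729, 3260820), (1771, 2173320), (1805, 2880300), (1859, 3110550), (2093, 2996520),
    (2185, 3009780), (2197, 3121250), (2299, 3537690), (2527, 2937810), (2645, 3133710), (2717,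
    3260880), (2783, 3556410), (3059, 3320880), (3211, 2958210), (3289, 3147720), (3703, 3400800),
    (3887, 3040200), (3971, 3436170), (4693, 2853900), (4807, 3284520), (5681, 2813220), (5819,
    3381630), (6859, 3086280), (6877, 2894880), (8303, 2856360), (10051, 2597430), (12167, 2814310)]))
    (by norm_num) (by decide +kernel)

theorem g104 : Ck (gG10 4)
    (pol2 4 nE WE (vGG c1E c2E) (Ex.add (hM (Ex.v 11)) (hA (Ex.v 13) (Ex.v 23)))) :=
  Ck.mk' 1000000 (.add (.add (.add (.add (.mul (.g 10) (.add (.add (.add (.mul (.pp [(1, 6685260)]) (.sq [(2, -18),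
    (3, 100), (5, -18), (7, -18), (11, -18), (13, 57), (19, -18), (23, -18)])) (.add (.mul (.pp [(1,
    1558200)]) (.sq [(2, -87), (3, 83), (5, -92), (7, -9), (11, -48), (13, 7), (19, 100), (23, -6)]))
    (.mul (.pp [(1, 1980300)]) (.sq [(1, -13), (2, -24), (3, 100), (5, -1), (7, 54), (11, -24), (13,
    -11), (19, -24), (23, 75)])))) (.add (.add (.mul (.pp [(1, 4863060)]) (.sq [(2, 100), (3, 13), (5,
    -63), (7, 5), (11, 46), (13, -1), (19, -6), (23, 9)])) (.mul (.pp [(1, 1141920)]) (.sq [(1, -37),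
    (2, -54), (3, 81), (5, -7), (7, 25), (11, -34), (13, 100), (19, 7), (23, 11)]))) (.add (.mul (.g
    19) (.add (.add (.pp [(1, 53787960000)]) (.add (.mul (.g 1) (.pp [(1, 16067040000)])) (.mul (.g 6)
    (.pp [(1, 3730320000)])))) (.add (.add (.mul (.g 11) (.pp [(1, 440184000)])) (.mul (.g 15) (.pp
    [(1, 2699160000)]))) (.add (.mul (.g 19) (.pp [(1, 6923568000)])) (.mul (.g 20) (.pp [(1,
    3044280000)])))))) (.mul (.g 4) (.add (.add (.mul (.g 1) (.pp [(1, 55155600000)])) (.add (.mul (.g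
    2) (.pp [(1, 17024400000)])) (.mul (.g 3) (.pp [(1, 85071000000)])))) (.add (.mul (.g 10) (.pp
    [(1, 58670400000)])) (.add (.mul (.g 13) (.pp [(1, 2936400000)])) (.mul (.g 20) (.pp [(1,
    3172080000)]))))))))) (.add (.add (.mul (.g 1) (.add (.add (.pp [(1, 87745200000)]) (.mul (.g 2)
    (.pp [(1, 33043200000)]))) (.add (.mul (.g 3) (.pp [(1, 71239800000)])) (.mul (.g 8) (.pp [(1,
    44136600000)]))))) (.add (.mul (.g 3) (.add (.mul (.g 6) (.pp [(1, 70026000000)])) (.add (.mul (.g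
    10) (.pp [(1, 96424200000)])) (.mul (.g 18) (.pp [(1, 9609480000)]))))) (.mul (.g 11) (.add (.mul
    (.g 5) (.pp [(1, 1050120000)])) (.add (.mul (.g 10) (.pp [(1, 11673330000)])) (.mul (.g 18) (.pp
    [(1, 160830000)]))))))) (.add (.add (.mul (.g 6) (.add (.mul (.g 15) (.pp [(1, 5628600000)]))
    (.mul (.g 20) (.pp [(1, 11809320000)])))) (.mul (.g 9) (.mul (.g 15) (.pp [(1, 2607060000)]))))
    (.add (.mul (.g 10) (.mul (.g 17) (.pp [(1, 62793600000)]))) (.mul (.g 18) (.mul (.g 20) (.pp [(1,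
    4168992000)])))))))) (.add (.mul (.g 20) (.add (.add (.add (.mul (.pp [(1, 923088)]) (.sq [(2,
    92), (3, 16), (5, 6), (7, -19), (11, 34), (13, 100), (19, -17), (23, -27)])) (.mul (.pp [(1,
    352860)]) (.sq [(1, 13), (2, 25), (3, 14), (5, 100), (7, -31), (11, 71), (13, 3), (19, -32), (23,
    -22)]))) (.add (.mul (.g 17) (.add (.add (.mul (.g 5) (.pp [(1, 2426880000)])) (.add (.mul (.g 6)
    (.pp [(1, 19560120000)])) (.mul (.g 8) (.pp [(1, 4134720000)])))) (.add (.mul (.g 17) (.pp [(1,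
    16439400000)])) (.add (.mul (.g 18) (.pp [(1, 4252920000)])) (.mul (.g 19) (.pp [(1,
    590136000)])))))) (.add (.mul (.g 7) (.add (.add (.pp [(1, 6099360000)]) (.mul (.g 3) (.pp [(1,
    596880000)]))) (.add (.mul (.g 6) (.pp [(1, 15070800000)])) (.add (.mul (.g 15) (.pp [(1,
    4906440000)])) (.mul (.g 19) (.pp [(1, 366936000)])))))) (.mul (.g 11) (.add (.pp [(1,
    239880000)]) (.add (.mul (.g 15) (.pp [(1, 360432000)])) (.mul (.g 20) (.pp [(1,
    56246400)])))))))) (.add (.add (.mul (.g 19) (.add (.pp [(1, 217416000)]) (.add (.mul (.g 3) (.pp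
    [(1, 1762464000)])) (.mul (.g 15) (.pp [(1, 606528000)]))))) (.mul (.g 0) (.add (.pp [(1,
    2586696000)]) (.mul (.g 20) (.pp [(1, 12534000)]))))) (.add (.mul (.g 6) (.add (.pp [(1,
    10919760000)]) (.mul (.g 2) (.pp [(1, 9052440000)])))) (.add (.mul (.g 8) (.add (.pp [(1,
    3726360000)]) (.mul (.g 4) (.pp [(1, 15870360000)])))) (.mul (.g 18) (.add (.mul (.g 5) (.pp [(1,
    794352000)])) (.mul (.g 15) (.pp [(1, 5199048000)]))))))))) (.mul (.g 1) (.add (.add (.add (.add
    (.mul (.pp [(1, 571260)]) (.sq [(1, 4), (2, 89), (3, 49), (5, 89), (11, -38), (13, -100), (19,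
    -11), (23, -77)])) (.mul (.pp [(1, 5303820)]) (.sq [(1, -3), (2, -14), (3, 25), (5, 3), (7, 15),
    (11, 73), (13, 100), (19, -14), (23, 32)]))) (.add (.mul (.pp [(1, 4497660)]) (.sq [(2, -4), (3,
    40), (5, 9), (7, 87), (11, -100), (13, 57), (19, -63), (23, 36)])) (.mul (.pp [(1, 4040040)]) (.sq
    [(2, 49), (3, -13), (5, 39), (7, 100), (11, 48), (13, -16), (19, 21), (23, 12)])))) (.add (.add
    (.mul (.pp [(1, 167460)]) (.sq [(2, -76), (3, -26), (5, 100), (11, 75), (13, 28), (23, 53)]))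
    (.mul (.pp [(1, 7519080)]) (.sq [(2, 8), (3, 44), (5, 72), (7, -55), (11, 49), (13, 37), (19,
    -100), (23, -30)]))) (.add (.mul (.pp [(1, 2928480)]) (.sq [(2, -42), (3, 100), (5, 5), (7, -49),
    (11, 15), (13, -22), (19, 3), (23, -13)])) (.mul (.pp [(1, 610560)]) (.sq [(1, -49), (2, -96), (3,
    61), (5, 5), (7, 87), (11, 35), (13, -51), (19, 100), (23, -10)]))))) (.add (.add (.add (.mul (.g
    8) (.add (.add (.pp [(1, 71583600000)]) (.mul (.g 3) (.pp [(1, 168250200000)]))) (.add (.mul (.g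
    4) (.pp [(1, 95211000000)])) (.mul (.g 18) (.pp [(1, 25941600000)]))))) (.mul (.g 3) (.add (.pp
    [(1, 7170600000)]) (.mul (.g 16) (.pp [(1, 7048200000)]))))) (.add (.mul (.g 17) (.add (.pp [(1,
    277483200000)]) (.mul (.g 1) (.pp [(1, 167326200000)])))) (.mul (.g 0) (.pp [(1, 6274320000)]))))
    (.add (.add (.mul (.g 2) (.mul (.g 16) (.pp [(1, 110138400000)]))) (.mul (.g 4) (.pp [(1,
    207900000000)]))) (.add (.mul (.g 6) (.mul (.g 13) (.pp [(1, 99018600000)]))) (.add (.mul (.g 18)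
    (.pp [(1, 8140920000)])) (.mul (.g 19) (.pp [(1, 14892600000)])))))))))) (.add (.add (.mul (.g 6)
    (.add (.add (.add (.mul (.pp [(1, 10122960)]) (.sq [(2, -13), (3, 26), (5, 100), (7, -20), (11,
    25), (13, 9), (19, 38), (23, -61)])) (.mul (.pp [(1, 340500)]) (.sq [(2, -22), (3, 38), (5, -100),
    (7, 30), (11, 77), (13, 72), (19, 95), (23, 7)]))) (.add (.mul (.pp [(1, 2871600)]) (.sq [(1, -7),
    (2, -16), (3, 41), (5, -1), (7, -17), (11, 100), (13, 7), (19, -3), (23, 15)])) (.mul (.g 9) (.add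
    (.add (.pp [(1, 7020780000)]) (.mul (.g 9) (.pp [(1, 337162500)]))) (.add (.mul (.g 11) (.pp [(1,
    46035000)])) (.mul (.g 17) (.pp [(1, 3286140000)]))))))) (.add (.add (.mul (.g 2) (.add (.mul (.g
    11) (.pp [(1, 342210000)])) (.add (.mul (.g 13) (.pp [(1, 57245400000)])) (.mul (.g 18) (.pp [(1,
    10900080000)]))))) (.mul (.g 4) (.add (.mul (.g 5) (.pp [(1, 31054800000)])) (.add (.mul (.g 15)
    (.pp [(1, 36407400000)])) (.mul (.g 16) (.pp [(1, 42435600000)])))))) (.add (.mul (.g 16) (.add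
    (.mul (.g 11) (.pp [(1, 385530000)])) (.mul (.g 16) (.pp [(1, 21595200000)])))) (.add (.mul (.g
    18) (.add (.pp [(1, 5940360000)]) (.mul (.g 19) (.pp [(1, 1019544000)])))) (.mul (.g 0) (.mul (.g
    17) (.pp [(1, 9821400000)])))))))) (.mul (.g 8) (.add (.add (.add (.mul (.pp [(1, 3780420)]) (.sq
    [(1, -6), (2, -97), (3, 39), (5, 100), (7, 47), (11, -20), (13, 69), (19, 73), (23, -20)])) (.add
    (.mul (.pp [(1, 1612680)]) (.sq [(1, 22), (2, -15), (3, -4), (5, -8), (7, -50), (13, 100), (19,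
    11), (23, 12)])) (.mul (.pp [(1, 602520)]) (.sq [(3, -73), (5, 100), (7, -38), (13, 61), (19, -5),
    (23, -23)])))) (.add (.mul (.pp [(1, 8929440)]) (.sq [(2, 100), (3, -18), (5, -18), (7, -18), (11,
    57), (13, -18), (19, -18), (23, -18)])) (.add (.mul (.pp [(1, 2283540)]) (.sq [(1, 20), (2, -71),
    (3, 40), (5, -34), (7, 55), (11, -97), (13, 53), (19, -100), (23, -15)])) (.mul (.g 8) (.add (.add
    (.mul (.g 4) (.pp [(1, 166204800000)])) (.mul (.g 9) (.pp [(1, 12002190000)]))) (.add (.mul (.g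
    16) (.pp [(1, 60325800000)])) (.mul (.g 17) (.pp [(1, 22197000000)])))))))) (.add (.add (.mul (.g
    16) (.add (.mul (.g 4) (.pp [(1, 66897000000)])) (.add (.mul (.g 18) (.pp [(1, 27429480000)]))
    (.mul (.g 19) (.pp [(1, 1443720000)]))))) (.add (.mul (.g 18) (.add (.pp [(1, 19389000000)]) (.mul
    (.g 11) (.pp [(1, 567576000)])))) (.mul (.g 0) (.mul (.g 0) (.pp [(1, 192058500)]))))) (.add (.mul
    (.g 3) (.mul (.g 19) (.pp [(1, 7487760000)]))) (.add (.mul (.g 4) (.pp [(1, 34374600000)])) (.mul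
    (.g 9) (.pp [(1, 2142180000)])))))))) (.add (.mul (.g 7) (.add (.add (.add (.mul (.pp [(1,
    1405200)]) (.sq [(2, 100), (3, -61), (5, -9), (7, 50), (11, 50), (13, 3), (19, -73), (23, 55)]))
    (.mul (.pp [(1, 3886620)]) (.sq [(1, 10), (2, 39), (3, -30), (5, 7), (7, 41), (11, -90), (13, 96),
    (19, -100), (23, 19)]))) (.add (.mul (.pp [(1, 1545780)]) (.sq [(2, -66), (3, 6), (5, -3), (7,
    -82), (11, -8), (13, 100), (19, 34), (23, 80)])) (.mul (.g 9) (.add (.add (.mul (.g 9) (.pp [(1,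
    83232000)])) (.mul (.g 14) (.pp [(1, 10735590000)]))) (.add (.mul (.g 16) (.pp [(1, 2362800000)]))
    (.add (.mul (.g 17) (.pp [(1, 3103620000)])) (.mul (.g 18) (.pp [(1, 297018000)])))))))) (.add
    (.add (.mul (.g 3) (.add (.add (.mul (.g 7) (.pp [(1, 32179800000)])) (.mul (.g 11) (.pp [(1,
    2140800000)]))) (.add (.mul (.g 13) (.pp [(1, 53404800000)])) (.mul (.g 19) (.pp [(1,
    5978760000)]))))) (.mul (.g 19) (.add (.mul (.g 2) (.pp [(1, 7313880000)])) (.mul (.g 19) (.pp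
    [(1, 849960000)]))))) (.add (.mul (.g 4) (.mul (.g 5) (.pp [(1, 55727400000)]))) (.mul (.g 15)
    (.mul (.g 15) (.pp [(1, 29311200000)]))))))) (.mul (.g 5) (.add (.add (.mul (.pp [(1, 1351680)])
    (.sq [(1, 3), (2, -67), (3, 80), (11, 87), (13, -100)])) (.add (.mul (.pp [(1, 4302900)]) (.sq
    [(2, -46), (3, 9), (5, -6), (7, -60), (11, -12), (13, 100), (19, 28), (23, 87)])) (.mul (.pp [(1,
    499020)]) (.sq [(1, 1), (2, 86), (3, -72), (5, 18), (7, -55), (11, 65), (13, -13), (19, 100), (23,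
    -31)])))) (.add (.mul (.g 4) (.add (.pp [(1, 106930800000)]) (.mul (.g 14) (.pp [(1,
    55081200000)])))) (.add (.mul (.g 0) (.mul (.g 3) (.pp [(1, 7368690000)]))) (.mul (.g 15) (.mul
    (.g 18) (.pp [(1, 11573760000)])))))))))) (.add (.add (.add (.mul (.g 15) (.add (.add (.mul (.pp
    [(1, 3856080)]) (.sq [(1, -22), (2, -1), (3, 100), (5, 11), (7, -37), (11, 14), (13, 57), (19, 3),
    (23, 17)])) (.add (.mul (.pp [(1, 4069380)]) (.sq [(2, 48), (3, 100), (5, -13), (7, -13), (11,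
    -74), (13, -13), (19, -13), (23, -13)])) (.mul (.pp [(1, 1386540)]) (.sq [(2, -46), (3, -11), (5,
    100), (7, -10), (11, 68), (13, -61), (19, -12), (23, -4)])))) (.add (.mul (.g 3) (.mul (.g 13)
    (.pp [(1, 24445200000)]))) (.add (.mul (.g 15) (.mul (.g 18) (.pp [(1, 2449920000)]))) (.mul (.g
    19) (.mul (.g 19) (.pp [(1, 948216000)]))))))) (.mul (.g 13) (.add (.add (.mul (.pp [(1, 451200)])
    (.sq [(2, -22), (3, -46), (5, 69), (7, -13), (11, 60), (13, 100), (19, -64), (23, -20)])) (.mul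
    (.pp [(1, 3124560)]) (.sq [(1, -100), (2, 9), (3, 5), (5, 70), (7, 43), (11, 38), (13, 55), (19,
    -14), (23, 63)]))) (.add (.mul (.g 4) (.mul (.g 19) (.pp [(1, 1101360000)]))) (.mul (.g 9) (.pp
    [(1, 5531910000)])))))) (.add (.mul (.g 12) (.add (.mul (.pp [(1, 2876700)]) (.sq [(1, -97), (2,
    32), (3, 32), (5, -34), (11, 100), (13, 100), (19, 34)])) (.add (.mul (.pp [(1, 6540)]) (.sq [(1,
    -8), (2, 51), (3, -24), (5, -70), (7, -5), (11, 56), (13, 27), (19, -24), (23, -100)])) (.mul (.pp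
    [(1, 3800880)]) (.sq [(2, -37), (3, -2), (5, 7), (7, -25), (11, 100), (13, 59), (19, -82), (23,
    33)]))))) (.mul (.g 18) (.add (.mul (.pp [(1, 1679580)]) (.sq [(1, -38), (2, 73), (3, -29), (5,
    100), (7, -28), (11, -69), (13, 18), (19, -7), (23, 13)])) (.add (.mul (.pp [(1, 784656)]) (.sq
    [(1, -100), (2, -95), (3, 61), (5, 76), (7, 2), (11, 51), (13, -28), (19, -29), (23, 88)])) (.mul
    (.pp [(1, 4398204)]) (.sq [(2, 100), (3, -75), (5, 6), (7, 6), (11, -41), (13, 6), (19, 6), (23,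
    6)]))))))) (.add (.add (.mul (.g 19) (.add (.mul (.pp [(1, 761244)]) (.sq [(1, -31), (2, -49), (3,
    100), (5, 47), (7, 7), (11, 21), (13, -19), (19, -5), (23, -4)])) (.add (.mul (.pp [(1, 1642104)])
    (.sq [(2, -3), (3, 100), (5, -8), (7, -8), (11, -8), (13, -65), (19, -8), (23, -8)])) (.mul (.g
    16) (.mul (.g 16) (.pp [(1, 35967720000)])))))) (.mul (.g 4) (.add (.mul (.pp [(1, 113113800000)])
    (.sq [(19, 1), (23, -1)])) (.mul (.pp [(1, 2942760)]) (.sq [(2, 49), (3, -100), (5, 9), (7, 48),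
    (11, 47), (13, 29), (19, -96), (23, 61)]))))) (.add (.mul (.g 9) (.mul (.pp [(1, 118743)]) (.sq
    [(1, 24), (2, 29), (3, -48), (5, 28), (7, -18), (11, -71), (13, 100), (19, 10), (23, -29)])))
    (.mul (.g 17) (.mul (.pp [(1, 2416320)]) (.sq [(2, -92), (3, 100), (7, -1), (11, -20), (13, -4),
    (19, 99), (23, -91)]))))))) (.pp [(1, 1465333344), (2, 6495696), (3, 6068916), (4, 6071685), (5,
    6426972), (6, 5243880), (7, 6665784), (8, 6184860), (9, 5896932), (10, 5221104), (11, 5599356),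
    (12, 5794620), (13, 6437244), (14, 5897196), (15, 5357928), (18, 5606940), (19, 5579280), (20,
    5827980), (21, 5975688), (22, 6649338), (23, 6508512), (25, 5524944), (26, 7065816), (27,
    6000000), (28, 6221460), (30, 6923160), (33, 6403968), (35, 6776616), (38, 5691996), (39,
    5594088), (42, 6159120), (44, 6355540), (45, 5791440), (46, 6116550), (49, 6367680), (50,
    5776860), (52, 6540120), (55, 5756976), (57, 6590520), (63, 6674940), (65, 6235536), (66,
    6202080), (69, 5766792), (70, 6028320), (75, 6217740), (76, 6020640), (77, 6883692), (78,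
    5634240), (91, 7267944), (92, 5448840), (95, 6112200), (98, 6442860), (99, 6116100), (105,
    6945000), (110, 4891320), (114, 6347520), (115, 5885856), (117, 6369940), (121, 5852097), (125,
    6155840), (130, 5952480), (133, 5623104), (138, 6669240), (143, 5767248), (147, 5234820), (154,
    5411280), (161, 4756476), (165, 6364440), (169, 5428824), (171, 5570340), (175, 6261300), (182,
    5094720), (190, 6878280), (195, 5153040), (207, 5718420), (209, 6496716), (230, 6163920), (231,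
    5389320), (242, 5881240), (245, 5050980), (247, 5348184), (253, 5555118), (266, 5805600), (273,
    5376720), (275, 6127440), (285, 5165160), (286, 5805360), (299, 4582176), (322, 4859160), (325,
    6259440), (338, 5794080), (343, 6516380), (345, 6583920), (361, 5940156), (363, 6198540), (385,
    6708000), (399, 6983520), (418, 5370240), (429, 5990400), (437, 6730740), (455, 5516760), (475,
    6132360), (483, 6360720), (494, 5273160), (506, 6341880), (507, 6495580), (529, 6156081), (539,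
    5104920), (575, 5939880), (598, 6062880), (605, 5974620), (627, 6541200), (637, 5907180), (665,
    6906960), (715, 6154200), (722, 6009480), (741, 6919800), (759, 6259440), (805, 5334120), (845,
    5508540), (847, 6649080), (874, 6272400), (897, 6111480), (931, 4929060), (1001, 5133240), (1045,
    6116160), (1058, 6263760), (1083, 5402940), (1127, 5461140), (1183, 6372300), (1235, 5951280),
    (1265, 6139440), (1311, 5339880), (1331, 5722840), (1463, 5407800), (1495, 6408960), (1573,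
    6452040), (1587, 6078120), (1729, 5189520), (1771, 6163800), (1805, 4829520), (1859, 5764080),
    (2093, 7052400), (2185, 6535200), (2197, 6159100), (2299, 5405400), (2527, 6642060), (2645,
    5938920), (2717, 6583200), (2783, 5779140), (3059, 6368520), (3211, 6117780), (3289, 6853200),
    (3703, 7065240), (3887, 6083280), (3971, 6500580), (4693, 6529440), (4807, 6509760), (5681,
    5847240), (5819, 5738040), (6859, 6137540), (6877, 5495400), (8303, 6044760), (10051, 5704380),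
    (12167, 5607140)]))
    (by norm_num) (by decide +kernel)

theorem g112 : Ck (gG11 2)
    (pol2 2 nE WE (vGG c1E c2E) (Ex.add (hM (Ex.v 11)) (hM (Ex.v 13)))) :=
  Ck.mk' 1000000 (.add (.add (.add (.add (.add (.mul (.g 19) (.add (.add (.add (.add (.mul (.pp [(1, 553452)]) (.sq
    [(2, -14), (3, -23), (5, 12), (7, 29), (11, 100), (13, 21), (19, 94), (23, -36)])) (.mul (.pp [(1,
    584736)]) (.sq [(1, 47), (2, 43), (3, -99), (5, -100), (7, -38), (11, 40), (13, 17), (19, 32),
    (23, -18)]))) (.add (.mul (.pp [(1, 202872)]) (.sq [(2, -31), (3, 10), (5, 100), (7, -12), (11,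
    -30), (13, 18), (19, 14), (23, -6)])) (.mul (.pp [(1, 22908)]) (.sq [(2, -100), (3, -64), (5,
    -11), (7, -39), (11, 55), (13, -81), (19, 8), (23, 61)])))) (.add (.add (.mul (.pp [(1, 230484)])
    (.sq [(2, -35), (3, 23), (7, 2), (11, 96), (13, -100), (19, 6), (23, 9)])) (.mul (.pp [(1,
    277572)]) (.sq [(2, -18), (3, 100), (5, 7), (7, 25), (11, 77), (13, 24), (19, 36), (23, -76)])))
    (.add (.mul (.pp [(1, 461604)]) (.sq [(2, -1), (3, 2), (5, 17), (7, -100), (11, 31), (13, 83),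
    (19, -1), (23, -68)])) (.mul (.g 16) (.add (.add (.mul (.g 1) (.pp [(1, 12013920000)])) (.add
    (.mul (.g 3) (.pp [(1, 4302720000)])) (.mul (.g 6) (.pp [(1, 3560400000)])))) (.add (.add (.mul
    (.g 9) (.pp [(1, 260442000)])) (.mul (.g 11) (.pp [(1, 6900000)]))) (.add (.mul (.g 16) (.pp [(1,
    11943360000)])) (.mul (.g 18) (.pp [(1, 2305272000)]))))))))) (.add (.add (.add (.mul (.g 10)
    (.add (.add (.pp [(1, 2937000000)]) (.add (.mul (.g 7) (.pp [(1, 15520200000)])) (.mul (.g 8) (.pp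
    [(1, 4591200000)])))) (.add (.mul (.g 11) (.pp [(1, 354306000)])) (.add (.mul (.g 14) (.pp [(1,
    4214640000)])) (.mul (.g 18) (.pp [(1, 4032768000)])))))) (.mul (.g 17) (.add (.add (.pp [(1,
    1842624000)]) (.add (.mul (.g 7) (.pp [(1, 6100968000)])) (.mul (.g 8) (.pp [(1, 86064000)]))))
    (.add (.mul (.g 14) (.pp [(1, 1364088000)])) (.add (.mul (.g 18) (.pp [(1, 85118400)])) (.mul (.g
    19) (.pp [(1, 245347200)]))))))) (.add (.mul (.g 2) (.add (.add (.mul (.g 1) (.pp [(1,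
    5817360000)])) (.mul (.g 5) (.pp [(1, 4448280000)]))) (.add (.mul (.g 6) (.pp [(1, 14503320000)]))
    (.mul (.g 19) (.pp [(1, 1677096000)]))))) (.mul (.g 18) (.add (.add (.mul (.g 3) (.pp [(1,
    436392000)])) (.mul (.g 6) (.pp [(1, 1250928000)]))) (.add (.mul (.g 9) (.pp [(1, 106986000)]))
    (.mul (.g 15) (.pp [(1, 1541256000)]))))))) (.add (.add (.mul (.g 0) (.add (.mul (.g 5) (.pp [(1,
    873648000)])) (.mul (.g 7) (.pp [(1, 285468000)])))) (.mul (.g 4) (.mul (.g 14) (.pp [(1,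
    3082800000)])))) (.add (.mul (.g 5) (.mul (.g 11) (.pp [(1, 493752000)]))) (.mul (.g 8) (.mul (.g
    9) (.pp [(1, 314892000)])))))))) (.mul (.g 1) (.add (.add (.add (.add (.mul (.pp [(1, 2246400)])
    (.sq [(2, 80), (3, 39), (5, -2), (7, 6), (11, -17), (13, 100), (19, -62), (23, -34)])) (.mul (.pp
    [(1, 2053980)]) (.sq [(2, 62), (3, -34), (5, 9), (7, -3), (11, -14), (13, -100), (19, 60), (23,
    23)]))) (.add (.mul (.pp [(1, 1961160)]) (.sq [(1, -11), (2, -20), (3, -54), (5, -41), (7, 100),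
    (11, 28), (13, 16), (19, 77), (23, 55)])) (.mul (.pp [(1, 2438640)]) (.sq [(2, -8), (3, -18), (5,
    -15), (7, -74), (11, 100), (13, 59), (19, -13), (23, -34)])))) (.add (.add (.mul (.pp [(1,
    424260)]) (.sq [(2, 100), (3, 100), (5, 85), (7, 53), (11, 100), (13, 100), (19, 86), (23, 100)]))
    (.mul (.pp [(1, 8207220)]) (.sq [(1, -11), (2, 64), (3, -56), (5, -57), (7, 100), (11, -97), (13,
    -39), (19, -97), (23, -62)]))) (.add (.mul (.pp [(1, 1316160)]) (.sq [(2, 65), (3, -100), (5, -9),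
    (7, 9), (11, 10), (13, 39), (19, 31), (23, 92)])) (.mul (.g 14) (.add (.add (.pp [(1,
    10429800000)]) (.mul (.g 1) (.pp [(1, 177000000)]))) (.add (.mul (.g 4) (.pp [(1, 93687000000)]))
    (.mul (.g 7) (.pp [(1, 418200000)])))))))) (.add (.add (.add (.mul (.g 16) (.add (.add (.pp [(1,
    214975800000)]) (.mul (.g 1) (.pp [(1, 302023200000)]))) (.add (.mul (.g 7) (.pp [(1,
    21152400000)])) (.mul (.g 9) (.pp [(1, 1015530000)]))))) (.mul (.g 2) (.add (.mul (.g 4) (.pp [(1,
    58410600000)])) (.add (.mul (.g 7) (.pp [(1, 146158800000)])) (.mul (.g 10) (.pp [(1,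
    99072600000)])))))) (.add (.mul (.g 0) (.add (.pp [(1, 7649340000)]) (.mul (.g 13) (.pp [(1,
    11090520000)])))) (.mul (.g 8) (.add (.mul (.g 4) (.pp [(1, 258001200000)])) (.mul (.g 8) (.pp
    [(1, 40131600000)])))))) (.add (.add (.mul (.g 10) (.add (.pp [(1, 91887000000)]) (.mul (.g 18)
    (.pp [(1, 94255080000)])))) (.mul (.g 9) (.mul (.g 13) (.pp [(1, 5295720000)])))) (.add (.mul (.g
    15) (.mul (.g 15) (.pp [(1, 59223000000)]))) (.mul (.g 18) (.pp [(1, 21210120000)])))))))) (.add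
    (.mul (.g 8) (.add (.add (.add (.mul (.pp [(1, 3415020)]) (.sq [(2, -1), (3, -12), (5, 10), (7,
    10), (13, 12), (19, 100), (23, -27)])) (.add (.mul (.pp [(1, 9149220)]) (.sq [(2, 100), (3, -18),
    (5, -18), (7, -18), (11, 57), (13, -18), (19, -18), (23, -18)])) (.mul (.pp [(1, 859020)]) (.sq
    [(1, 88), (2, -55), (3, 2), (5, -7), (7, -43), (11, -68), (13, 100), (19, 23), (23, -38)]))))
    (.add (.mul (.pp [(1, 1603680)]) (.sq [(1, -61), (2, 100), (3, -23), (5, 20), (7, -2), (11, -28),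
    (13, 86), (19, 50), (23, 20)])) (.add (.mul (.pp [(1, 748500)]) (.sq [(1, 4), (2, 100), (3, -69),
    (5, -20), (11, -40), (13, 2), (19, -4), (23, -22)])) (.mul (.pp [(1, 812640)]) (.sq [(1, -12), (2,
    -6), (3, -100), (5, -23), (7, -28), (11, 87), (13, 56), (19, -4), (23, -17)]))))) (.add (.add
    (.mul (.g 2) (.add (.add (.mul (.g 8) (.pp [(1, 231549000000)])) (.mul (.g 10) (.pp [(1,
    59763000000)]))) (.add (.mul (.g 15) (.pp [(1, 90772200000)])) (.mul (.g 17) (.pp [(1,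
    29673240000)]))))) (.add (.mul (.g 7) (.add (.add (.pp [(1, 206990400000)]) (.mul (.g 7) (.pp [(1,
    92629800000)]))) (.add (.mul (.g 8) (.pp [(1, 91342200000)])) (.mul (.g 12) (.pp [(1,
    123082800000)]))))) (.mul (.g 9) (.add (.mul (.g 8) (.pp [(1, 11239830000)])) (.add (.mul (.g 14)
    (.pp [(1, 99180000)])) (.mul (.g 18) (.pp [(1, 1330260000)]))))))) (.add (.mul (.g 14) (.add (.mul
    (.g 4) (.pp [(1, 89997000000)])) (.mul (.g 18) (.pp [(1, 15384960000)])))) (.add (.mul (.g 15)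
    (.add (.mul (.g 11) (.pp [(1, 2446530000)])) (.mul (.g 17) (.pp [(1, 54769920000)])))) (.mul (.g
    17) (.mul (.g 17) (.pp [(1, 9282024000)])))))))) (.mul (.g 10) (.add (.add (.add (.mul (.pp [(1,
    17731200)]) (.sq [(2, -18), (3, 100), (5, -18), (7, -18), (11, -18), (13, 57), (19, -18), (23,
    -18)])) (.mul (.pp [(1, 175740)]) (.sq [(2, -44), (3, -98), (5, 81), (7, 14), (11, -10), (13,
    100), (19, 67), (23, -34)]))) (.add (.mul (.g 18) (.add (.add (.mul (.g 2) (.pp [(1,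
    23158440000)])) (.mul (.g 3) (.pp [(1, 4364880000)]))) (.add (.mul (.g 9) (.pp [(1, 1670082000)]))
    (.add (.mul (.g 10) (.pp [(1, 5008920000)])) (.mul (.g 17) (.pp [(1, 2417472000)])))))) (.mul (.g
    11) (.add (.add (.mul (.g 9) (.pp [(1, 75301500)])) (.mul (.g 10) (.pp [(1, 12968610000)]))) (.add
    (.mul (.g 15) (.pp [(1, 980160000)])) (.mul (.g 17) (.pp [(1, 387546000)]))))))) (.add (.add (.mul
    (.g 2) (.add (.mul (.g 2) (.pp [(1, 12560400000)])) (.add (.mul (.g 3) (.pp [(1, 5883600000)]))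
    (.mul (.g 10) (.pp [(1, 200739000000)]))))) (.mul (.g 3) (.add (.mul (.g 7) (.pp [(1,
    52629600000)])) (.mul (.g 9) (.pp [(1, 1137780000)]))))) (.add (.mul (.g 4) (.pp [(1,
    101697000000)])) (.add (.mul (.g 7) (.pp [(1, 191781600000)])) (.mul (.g 14) (.mul (.g 17) (.pp
    [(1, 4569720000)])))))))))) (.add (.add (.mul (.g 12) (.add (.add (.mul (.pp [(1, 8165580)]) (.sq
    [(1, -36), (2, 20), (3, 26), (5, 14), (7, -70), (11, 100), (13, 25), (19, 5), (23, -1)])) (.add
    (.mul (.pp [(1, 1488600)]) (.sq [(1, -20), (2, -9), (3, 78), (5, -20), (7, 77), (11, 100), (13,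
    -37), (19, -46), (23, -87)])) (.mul (.pp [(1, 3096660)]) (.sq [(2, -100), (3, -100), (5, -6), (7,
    59), (11, 72), (13, 49), (19, -59), (23, -44)])))) (.add (.add (.mul (.g 2) (.add (.add (.mul (.g
    12) (.pp [(1, 45079200000)])) (.mul (.g 13) (.pp [(1, 11349600000)]))) (.add (.mul (.g 14) (.pp
    [(1, 84000000)])) (.mul (.g 18) (.pp [(1, 5684400000)]))))) (.mul (.g 4) (.add (.pp [(1,
    66412200000)]) (.add (.mul (.g 11) (.pp [(1, 566370000)])) (.mul (.g 18) (.pp [(1,
    13868040000)])))))) (.add (.mul (.g 9) (.add (.pp [(1, 3975420000)]) (.mul (.g 9) (.pp [(1,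
    54526500)])))) (.mul (.g 11) (.add (.pp [(1, 4929630000)]) (.mul (.g 15) (.pp [(1,
    5263050000)])))))))) (.mul (.g 5) (.add (.add (.add (.mul (.pp [(1, 1030740)]) (.sq [(1, -29), (2,
    59), (3, 48), (5, -3), (7, -16), (11, 17), (13, 28), (19, 100), (23, -35)])) (.mul (.pp [(1,
    6045120)]) (.sq [(1, -6), (2, -51), (3, -23), (5, -30), (7, -22), (11, 19), (13, -2), (19, 30),
    (23, 100)]))) (.add (.mul (.pp [(1, 4275120)]) (.sq [(1, -3), (2, 20), (3, -60), (5, 100), (7,
    -7), (11, -6), (13, -32), (19, 60), (23, 7)])) (.mul (.g 2) (.add (.pp [(1, 64684200000)]) (.add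
    (.mul (.g 6) (.pp [(1, 46775400000)])) (.mul (.g 15) (.pp [(1, 60051000000)]))))))) (.add (.add
    (.mul (.g 17) (.add (.mul (.g 9) (.pp [(1, 158364000)])) (.add (.mul (.g 11) (.pp [(1,
    569592000)])) (.mul (.g 14) (.pp [(1, 12753120000)]))))) (.mul (.g 0) (.mul (.g 9) (.pp [(1,
    551130000)])))) (.add (.mul (.g 7) (.mul (.g 15) (.pp [(1, 142678200000)]))) (.mul (.g 11) (.mul
    (.g 11) (.pp [(1, 73128000)])))))))) (.add (.mul (.g 7) (.add (.add (.mul (.pp [(1, 5347860)])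
    (.sq [(2, -2), (3, 37), (5, -100), (7, -36), (11, 9), (13, -90), (19, 26), (23, 51)])) (.add (.mul
    (.pp [(1, 4167960)]) (.sq [(1, -30), (2, -59), (3, 100), (5, 9), (7, -3), (11, 1), (13, 5), (19,
    -32), (23, 53)])) (.mul (.pp [(1, 4141080)]) (.sq [(1, 34), (2, 16), (3, 22), (5, 9), (7, -14),
    (11, 54), (13, 100), (19, -11), (23, -24)])))) (.add (.mul (.pp [(1, 9563940)]) (.sq [(2, -100),
    (3, -35), (5, 37), (7, -48), (11, 55), (19, 25), (23, 51)])) (.add (.mul (.g 7) (.add (.mul (.g 2)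
    (.pp [(1, 76490400000)])) (.add (.mul (.g 14) (.pp [(1, 114040800000)])) (.mul (.g 15) (.pp [(1,
    32874600000)]))))) (.mul (.g 6) (.mul (.g 17) (.pp [(1, 2521320000)]))))))) (.mul (.g 18) (.add
    (.add (.mul (.pp [(1, 2124948)]) (.sq [(1, -2), (2, -33), (3, 32), (5, -16), (7, 4), (11, 100),
    (13, 9), (19, 22), (23, -17)])) (.add (.mul (.pp [(1, 423252)]) (.sq [(2, -61), (3, 100), (5, 8),
    (7, -62), (11, -4), (13, -7), (19, 18), (23, 47)])) (.mul (.pp [(1, 1773600)]) (.sq [(1, 17), (2,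
    7), (3, 100), (5, 15), (7, 19), (11, -14), (13, -5), (19, -57), (23, 8)])))) (.add (.mul (.pp [(1,
    3290484)]) (.sq [(2, -3), (3, 100), (5, -8), (7, -8), (11, -8), (13, -65), (19, -8), (23, -8)]))
    (.add (.mul (.g 14) (.add (.mul (.g 17) (.pp [(1, 4796736000)])) (.mul (.g 18) (.pp [(1,
    938424000)])))) (.mul (.g 15) (.mul (.g 15) (.pp [(1, 2957880000)])))))))))) (.add (.add (.add
    (.mul (.g 6) (.add (.add (.mul (.pp [(1, 4306320)]) (.sq [(2, -81), (3, 86), (5, 52), (7, 4), (11,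
    17), (13, -100), (19, -8), (23, -2)])) (.mul (.pp [(1, 5478780)]) (.sq [(1, -56), (2, 100), (3,
    -33), (5, 9), (7, 90), (11, -68), (13, -26), (19, -28), (23, -1)]))) (.add (.mul (.pp [(1,
    2290140)]) (.sq [(2, -63), (3, 68), (5, 2), (7, 16), (11, -100), (13, 25), (19, -15), (23, -4)]))
    (.add (.mul (.pp [(1, 7962960)]) (.sq [(1, -45), (2, -37), (3, -14), (5, 28), (7, -7), (11, 23),
    (13, 100), (19, 45), (23, 8)])) (.mul (.g 2) (.mul (.g 6) (.pp [(1, 149049600000)]))))))) (.mul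
    (.g 14) (.add (.mul (.pp [(1, 2719440)]) (.sq [(1, 25), (2, -57), (3, 100), (5, -3), (7, -14),
    (11, -43), (13, 15), (19, 25), (23, -45)])) (.add (.mul (.pp [(1, 2701920)]) (.sq [(2, 48), (3,
    100), (5, -13), (7, -13), (11, -74), (13, -13), (19, -13), (23, -13)])) (.mul (.g 14) (.mul (.g
    17) (.pp [(1, 16257120000)]))))))) (.add (.mul (.g 9) (.add (.mul (.pp [(1, 244026)]) (.sq [(1,
    -24), (2, -5), (3, 8), (5, 100), (7, -69), (11, -45), (19, -56), (23, 79)])) (.mul (.pp [(1,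
    99249)]) (.sq [(1, 8), (2, 4), (3, -8), (7, 17), (11, -62), (13, 100), (19, 40), (23, -61)]))))
    (.mul (.g 17) (.add (.mul (.pp [(1, 3302076)]) (.sq [(1, -9), (2, -100), (3, 72), (5, -5), (7,
    17), (13, 10), (19, 34), (23, -37)])) (.mul (.pp [(1, 1373544)]) (.sq [(2, 100), (3, -75), (5, 6),
    (7, 6), (11, -41), (13, 6), (19, 6), (23, 6)])))))) (.add (.add (.mul (.g 2) (.mul (.pp [(1,
    2557320)]) (.sq [(1, 27), (2, 26), (3, -63), (5, -38), (7, -3), (11, -9), (13, 63), (19, 100),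
    (23, -93)]))) (.mul (.g 3) (.mul (.pp [(1, 2630940)]) (.sq [(1, -83), (2, -9), (3, -9), (5, -9),
    (7, 37), (11, -26), (13, -26), (19, -57), (23, 100)])))) (.add (.mul (.g 15) (.mul (.pp [(1,
    1844580)]) (.sq [(2, 56), (3, 4), (5, -67), (7, -53), (11, -28), (13, 95), (19, 100), (23,
    -16)]))) (.mul (.g 16) (.mul (.pp [(1, 2946960)]) (.sq [(1, 70), (2, 32), (3, -12), (5, -9), (7,
    -40), (11, 19), (13, 100), (19, 68), (23, -85)]))))))) (.pp [(1, 1799679708), (2, 5714148), (3,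
    5894976), (4, 6756198), (5, 6114024), (6, 6702312), (7, 5683368), (8, 5915760), (9, 6109320), (10,
    6296712), (11, 6519024), (12, 6458220), (13, 6517740), (14, 6611556), (15, 6298320), (18,
    6088200), (19, 6375000), (20, 5861040), (21, 5902728), (22, 5420364), (23, 6083244), (25,
    6159312), (26, 5796096), (27, 6420480), (28, 5412120), (30, 5468280), (33, 6380016), (35,
    6292776), (38, 6771984), (39, 6465864), (42, 5421600), (44, 6407920), (45, 6265200), (46,
    6786492), (49, 6507225), (50, 6042180), (52, 6201120), (55, 6469416), (57, 6779472), (63,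
    5191980), (65, 5898408), (66, 5915520), (69, 5713872), (70, 6096720), (75, 6244140), (76,
    5974920), (77, 5703240), (78, 6152520), (91, 6445728), (92, 5881800), (95, 5996760), (98,
    5534220), (99, 5732460), (105, 5350080), (110, 5780400), (114, 5964000), (115, 6434112), (117,
    5938480), (121, 5501118), (125, 5863940), (130, 5942760), (133, 6297384), (138, 5824680), (143,
    6878280), (147, 7021740), (154, 6620880), (161, 6415350), (165, 6273120), (169, 5964900), (171,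
    6012420), (175, 5414160), (182, 6584520), (190, 5725680), (195, 6045120), (207, 6425340), (209,
    6757128), (230, 5447760), (231, 5883120), (242, 6389320), (245, 6418380), (247, 6671856), (253,
    6541656), (266, 5985960), (273, 6359400), (275, 6157260), (285, 6312120), (286, 5951040), (299,
    6792144), (322, 4765560), (325, 6135780), (338, 6111840), (343, 5093680), (345, 5948280), (361,
    6708024), (363, 5847120), (385, 5651280), (399, 4742520), (418, 5526000), (429, 6081840), (437,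
    6259344), (455, 4491000), (475, 6003000), (483, 4591920), (494, 5688840), (506, 6197760), (507,
    6764680), (529, 6612189), (539, 5240400), (575, 6002460), (598, 5824320), (605, 6614100), (627,
    5455200), (637, 5742480), (665, 5243520), (715, 6117360), (722, 5646840), (741, 5798400), (759,
    5636640), (805, 5800320), (845, 6246300), (847, 5793840), (874, 6279840), (897, 5302560), (931,
    5390340), (1001, 5214840), (1045, 6653640), (1058, 6258180), (1083, 5854800), (1127, 6068640),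
    (1183, 5519760), (1235, 6252240), (1265, 5296440), (1311, 6860280), (1331, 6234580), (1463,
    5588280), (1495, 5963640), (1573, 5355360), (1587, 6580680), (1729, 5027160), (1771, 6491280),
    (1805, 6361380), (1859, 6541920), (2093, 5051880), (2185, 6186240), (2197, 6131200), (2299,
    5545500), (2527, 6421860), (2645, 6384240), (2717, 6839520), (2783, 6420420), (3059, 5779800),
    (3211, 5961180), (3289, 5722080), (3703, 5457900), (3887, 5939040), (3971, 6033060), (4693,
    6383100), (4807, 5721360), (5681, 6211800), (5819, 5811480), (6859, 5774060), (6877, 6321480),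
    (8303, 5040960), (10051, 5937660), (12167, 5796600)]))
    (by norm_num) (by decide +kernel)

theorem g113 : Ck (gG11 3)
    (pol2 3 nE WE (vGG c1E c2E) (Ex.add (hM (Ex.v 11)) (hM (Ex.v 13)))) :=
  Ck.mk' 1000000 (.add (.add (.add (.add (.mul (.pp [(1, 2777220)]) (.sq [(1, -2), (2, 36), (3, -28), (5, 8), (7,
    -66), (11, 87), (13, 92), (19, -35), (23, 100)])) (.add (.mul (.g 10) (.add (.add (.add (.mul (.pp
    [(1, 900960)]) (.sq [(2, 41), (3, -1), (5, 100), (7, -17), (11, -94), (19, -2), (23, -15)])) (.mul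
    (.pp [(1, 2594700)]) (.sq [(1, -11), (2, -32), (3, 79), (5, -21), (7, 7), (11, 100), (13, -76),
    (19, -40), (23, 13)]))) (.add (.mul (.pp [(1, 1163100)]) (.sq [(1, 6), (2, 42), (3, 10), (5, 100),
    (7, -74), (11, 33), (13, -14), (19, -58), (23, 8)])) (.add (.mul (.g 18) (.add (.add (.add (.mul
    (.g 1) (.pp [(1, 734160000)])) (.mul (.g 3) (.pp [(1, 1512000000)]))) (.add (.mul (.g 4) (.pp [(1,
    6198600000)])) (.mul (.g 9) (.pp [(1, 1028376000)])))) (.add (.add (.mul (.g 11) (.pp [(1,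
    1760718000)])) (.mul (.g 14) (.pp [(1, 2216640000)]))) (.add (.mul (.g 18) (.pp [(1,
    10157208000)])) (.mul (.g 19) (.pp [(1, 386064000)])))))) (.mul (.g 10) (.add (.add (.mul (.g 1)
    (.pp [(1, 4204800000)])) (.add (.mul (.g 3) (.pp [(1, 88765800000)])) (.mul (.g 7) (.pp [(1,
    33826800000)])))) (.add (.mul (.g 9) (.pp [(1, 783840000)])) (.add (.mul (.g 11) (.pp [(1,
    10761060000)])) (.mul (.g 19) (.pp [(1, 255480000)]))))))))) (.add (.add (.mul (.g 4) (.add (.add
    (.mul (.g 3) (.pp [(1, 4904400000)])) (.mul (.g 7) (.pp [(1, 18572400000)]))) (.add (.mul (.g 8)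
    (.pp [(1, 197307600000)])) (.add (.mul (.g 14) (.pp [(1, 793200000)])) (.mul (.g 19) (.pp [(1,
    10499400000)])))))) (.add (.mul (.g 19) (.add (.add (.pp [(1, 1736400000)]) (.mul (.g 9) (.pp [(1,
    630960000)]))) (.add (.mul (.g 14) (.pp [(1, 53160000)])) (.mul (.g 16) (.pp [(1,
    5581560000)]))))) (.mul (.g 3) (.add (.mul (.g 9) (.pp [(1, 8513130000)])) (.add (.mul (.g 12)
    (.pp [(1, 138468000000)])) (.mul (.g 17) (.pp [(1, 26295840000)]))))))) (.add (.mul (.g 7) (.add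
    (.pp [(1, 236591400000)]) (.add (.mul (.g 6) (.pp [(1, 32881200000)])) (.mul (.g 16) (.pp [(1,
    22167000000)]))))) (.add (.mul (.g 1) (.add (.mul (.g 16) (.pp [(1, 153742200000)])) (.mul (.g 17)
    (.pp [(1, 20611080000)])))) (.mul (.g 9) (.mul (.g 14) (.pp [(1, 5541390000)])))))))) (.mul (.g 8)
    (.add (.add (.add (.mul (.pp [(1, 8415600)]) (.sq [(1, -7), (2, -100), (3, 79), (5, 32), (7, 27),
    (11, -16), (13, -87), (19, 44), (23, 15)])) (.add (.mul (.pp [(1, 10954860)]) (.sq [(2, 100), (3,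
    -18), (5, -18), (7, -18), (11, 57), (13, -18), (19, -18), (23, -18)])) (.mul (.pp [(1, 3298920)])
    (.sq [(1, 4), (3, 100), (5, 6), (7, 5), (11, -33), (13, 68), (19, -55), (23, 26)])))) (.add (.mul
    (.g 17) (.add (.add (.mul (.g 1) (.pp [(1, 57983760000)])) (.add (.mul (.g 2) (.pp [(1,
    4405560000)])) (.mul (.g 3) (.pp [(1, 18134280000)])))) (.add (.add (.mul (.g 11) (.pp [(1,
    86604000)])) (.mul (.g 15) (.pp [(1, 10791240000)]))) (.add (.mul (.g 17) (.pp [(1, 4424928000)]))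
    (.mul (.g 19) (.pp [(1, 4766544000)])))))) (.add (.mul (.g 1) (.add (.add (.pp [(1, 91727400000)])
    (.mul (.g 2) (.pp [(1, 64999200000)]))) (.add (.mul (.g 4) (.pp [(1, 261766800000)])) (.add (.mul
    (.g 13) (.pp [(1, 146805600000)])) (.mul (.g 15) (.pp [(1, 52056600000)])))))) (.mul (.g 7) (.add
    (.add (.pp [(1, 27581400000)]) (.mul (.g 2) (.pp [(1, 75416400000)]))) (.add (.mul (.g 3) (.pp
    [(1, 160925400000)])) (.add (.mul (.g 8) (.pp [(1, 34185600000)])) (.mul (.g 19) (.pp [(1,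
    5715600000)]))))))))) (.add (.add (.mul (.g 9) (.add (.add (.mul (.g 8) (.pp [(1, 12056610000)]))
    (.mul (.g 14) (.pp [(1, 1441140000)]))) (.add (.mul (.g 18) (.pp [(1, 707202000)])) (.mul (.g 19)
    (.pp [(1, 461382000)]))))) (.add (.mul (.g 3) (.add (.mul (.g 8) (.pp [(1, 125134800000)])) (.add
    (.mul (.g 11) (.pp [(1, 400980000)])) (.mul (.g 19) (.pp [(1, 5269920000)]))))) (.mul (.g 11)
    (.add (.mul (.g 8) (.pp [(1, 829380000)])) (.mul (.g 15) (.pp [(1, 4920180000)])))))) (.add (.mul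
    (.g 18) (.add (.mul (.g 14) (.pp [(1, 26923320000)])) (.mul (.g 15) (.pp [(1, 20000280000)]))))
    (.add (.mul (.g 4) (.pp [(1, 29769600000)])) (.mul (.g 16) (.mul (.g 19) (.pp [(1,
    9011880000)])))))))))) (.add (.add (.mul (.g 19) (.add (.add (.add (.mul (.pp [(1, 316092)]) (.sq
    [(2, -57), (3, 26), (5, 100), (7, 32), (11, -77), (13, 5), (19, 1), (23, 28)])) (.add (.mul (.pp
    [(1, 107832)]) (.sq [(1, -19), (2, 83), (3, -100), (5, -86), (7, -24), (11, 91), (13, 83), (19,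
    34), (23, 56)])) (.mul (.g 18) (.add (.add (.pp [(1, 599520000)]) (.mul (.g 6) (.pp [(1,
    75072000)]))) (.add (.mul (.g 9) (.pp [(1, 141091200)])) (.add (.mul (.g 16) (.pp [(1,
    743616000)])) (.mul (.g 17) (.pp [(1, 181516800)])))))))) (.add (.mul (.g 0) (.add (.mul (.g 5)
    (.pp [(1, 2267394000)])) (.add (.mul (.g 11) (.pp [(1, 163839600)])) (.mul (.g 19) (.pp [(1,
    113198400)]))))) (.add (.mul (.g 14) (.add (.mul (.g 2) (.pp [(1, 2001240000)])) (.add (.mul (.g
    6) (.pp [(1, 2511960000)])) (.mul (.g 17) (.pp [(1, 506160000)]))))) (.mul (.g 3) (.add (.pp [(1,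
    3593400000)]) (.mul (.g 15) (.pp [(1, 2028360000)]))))))) (.add (.add (.mul (.g 4) (.add (.pp [(1,
    2012040000)]) (.mul (.g 19) (.pp [(1, 493464000)])))) (.add (.mul (.g 7) (.add (.mul (.g 2) (.pp
    [(1, 2231640000)])) (.mul (.g 16) (.pp [(1, 3143640000)])))) (.mul (.g 9) (.mul (.g 12) (.pp [(1,
    429588000)]))))) (.add (.mul (.g 16) (.mul (.g 16) (.pp [(1, 11796000000)]))) (.add (.mul (.g 17)
    (.pp [(1, 1501656000)])) (.mul (.g 19) (.mul (.g 19) (.pp [(1, 169867200)])))))))) (.mul (.g 1)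
    (.add (.add (.add (.add (.mul (.pp [(1, 314580)]) (.sq [(2, -58), (3, 100), (11, 83), (13, -17),
    (19, 1)])) (.mul (.pp [(1, 4350600)]) (.sq [(2, 93), (3, -38), (5, 75), (7, -100), (11, 90), (13,
    71), (19, -74), (23, -88)]))) (.add (.mul (.pp [(1, 2483820)]) (.sq [(1, -16), (2, 45), (3, 100),
    (5, 2), (7, -33), (11, 7), (13, -93), (19, 8), (23, 13)])) (.mul (.pp [(1, 1951200)]) (.sq [(2,
    -13), (3, -84), (5, -27), (7, 37), (11, 100), (13, 31), (19, -56), (23, 87)])))) (.add (.add (.mul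
    (.pp [(1, 2045940)]) (.sq [(1, 31), (2, -50), (3, 90), (5, 11), (7, 2), (11, -3), (13, 36), (19,
    -100), (23, 75)])) (.mul (.pp [(1, 3421440)]) (.sq [(2, 48), (3, 100), (5, 18), (7, 3), (11, -92),
    (13, -8), (19, -34), (23, 17)]))) (.add (.mul (.pp [(1, 9414600)]) (.sq [(2, 8), (3, -5), (5, 42),
    (7, 59), (11, -44), (13, 100), (19, -4), (23, 18)])) (.mul (.pp [(1, 4539180)]) (.sq [(1, 24), (2,
    -73), (3, 8), (5, 42), (7, -21), (11, 100), (13, 65), (19, -3), (23, -5)]))))) (.add (.add (.add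
    (.mul (.pp [(1, 264600)]) (.sq [(2, 100), (3, 100), (5, 85), (7, 53), (11, 100), (13, 100), (19,
    100), (23, 86)])) (.mul (.g 3) (.add (.mul (.g 4) (.pp [(1, 212425200000)])) (.add (.mul (.g 7)
    (.pp [(1, 153711000000)])) (.mul (.g 14) (.pp [(1, 2931600000)])))))) (.add (.mul (.g 4) (.add
    (.pp [(1, 76286400000)]) (.mul (.g 16) (.pp [(1, 247263000000)])))) (.mul (.g 6) (.add (.mul (.g
    5) (.pp [(1, 48068400000)])) (.mul (.g 12) (.pp [(1, 24148200000)])))))) (.add (.add (.mul (.g 1)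
    (.mul (.g 16) (.pp [(1, 216133200000)]))) (.mul (.g 7) (.pp [(1, 71981400000)]))) (.add (.mul (.g
    9) (.mul (.g 18) (.pp [(1, 1121100000)]))) (.mul (.g 17) (.pp [(1, 3001800000)])))))))) (.add
    (.mul (.g 12) (.add (.add (.add (.mul (.pp [(1, 734400)]) (.sq [(1, -22), (2, 49), (3, 100), (5,
    -11), (7, -23), (11, 34), (13, -48), (19, 5), (23, 67)])) (.mul (.pp [(1, 2683080)]) (.sq [(2,
    -7), (5, 2), (7, 1), (11, -6), (13, 100), (19, -75), (23, -75)]))) (.add (.mul (.pp [(1,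
    17654880)]) (.sq [(1, -5), (2, -66), (3, -19), (5, -16), (7, -22), (11, 100), (13, -15), (19, 10),
    (23, 50)])) (.add (.mul (.pp [(1, 10707180)]) (.sq [(2, 100), (3, -53), (5, -5), (7, 44), (11,
    -20), (13, 30), (19, -52), (23, -55)])) (.mul (.pp [(1, 284100)]) (.sq [(1, 25), (2, 24), (3,
    -100), (5, 74), (7, -75), (11, -100), (13, 36), (19, 71), (23, 67)]))))) (.add (.add (.mul (.pp
    [(1, 19200)]) (.sq [(2, -74), (3, 19), (5, 83), (7, 4), (11, 66), (13, -15), (19, -86), (23,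
    100)])) (.add (.mul (.g 11) (.add (.mul (.g 9) (.pp [(1, 643942500)])) (.add (.mul (.g 11) (.pp
    [(1, 269563500)])) (.mul (.g 14) (.pp [(1, 5425830000)]))))) (.mul (.g 4) (.add (.pp [(1,
    80074800000)]) (.mul (.g 12) (.pp [(1, 2335200000)])))))) (.add (.mul (.g 17) (.add (.mul (.g 9)
    (.pp [(1, 1143288000)])) (.mul (.g 18) (.pp [(1, 1503240000)])))) (.add (.mul (.g 6) (.mul (.g 7)
    (.pp [(1, 21594600000)]))) (.mul (.g 15) (.mul (.g 18) (.pp [(1, 57840000)])))))))) (.mul (.g 14)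
    (.add (.add (.mul (.pp [(1, 670680)]) (.sq [(1, -15), (2, -3), (3, 13), (5, -7), (7, -29), (11,
    -22), (13, 100), (19, -3), (23, 48)])) (.mul (.g 5) (.add (.add (.mul (.g 3) (.pp [(1,
    108166800000)])) (.mul (.g 4) (.pp [(1, 15817800000)]))) (.add (.mul (.g 15) (.pp [(1,
    18871200000)])) (.mul (.g 17) (.pp [(1, 24986520000)])))))) (.add (.mul (.g 14) (.add (.mul (.g 3)
    (.pp [(1, 5629200000)])) (.add (.mul (.g 15) (.pp [(1, 5774400000)])) (.mul (.g 17) (.pp [(1,
    13244640000)]))))) (.add (.mul (.g 6) (.add (.mul (.g 7) (.pp [(1, 398412000000)])) (.mul (.g 17)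
    (.pp [(1, 19358280000)])))) (.mul (.g 18) (.add (.mul (.g 7) (.pp [(1, 14876760000)])) (.mul (.g
    17) (.pp [(1, 4304280000)]))))))))))) (.add (.add (.mul (.g 5) (.add (.add (.mul (.pp [(1,
    3436500)]) (.sq [(2, -8), (3, 89), (5, -25), (7, 3), (11, -20), (13, -23), (19, 17), (23, -100)]))
    (.mul (.g 3) (.add (.pp [(1, 10001400000)]) (.add (.mul (.g 6) (.pp [(1, 321628800000)])) (.mul
    (.g 9) (.pp [(1, 7909800000)])))))) (.add (.mul (.g 18) (.add (.mul (.g 9) (.pp [(1, 522024000)]))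
    (.mul (.g 15) (.pp [(1, 11518920000)])))) (.mul (.g 11) (.mul (.g 16) (.pp [(1, 3796560000)]))))))
    (.add (.mul (.g 7) (.add (.add (.mul (.pp [(1, 202320)]) (.sq [(2, 13), (3, 75), (5, -36), (7, 9),
    (11, 47), (13, 100), (19, 1), (23, 8)])) (.mul (.pp [(1, 2008200)]) (.sq [(1, -2), (2, -40), (3,
    30), (5, -60), (7, 67), (11, -45), (13, 100), (19, -38), (23, 39)]))) (.add (.mul (.pp [(1,
    5632200)]) (.sq [(1, -26), (2, -97), (3, -26), (5, -17), (7, 59), (11, 100), (13, -40), (19, 15),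
    (23, -19)])) (.add (.mul (.g 3) (.add (.mul (.g 6) (.pp [(1, 110160600000)])) (.mul (.g 7) (.pp
    [(1, 108684600000)])))) (.mul (.g 15) (.add (.mul (.g 6) (.pp [(1, 12285600000)])) (.mul (.g 7)
    (.pp [(1, 74755200000)])))))))) (.mul (.g 17) (.add (.add (.mul (.pp [(1, 503328)]) (.sq [(1,
    -55), (2, -2), (3, 5), (5, -100), (7, 55), (11, -19), (13, -21), (19, 35), (23, 25)])) (.mul (.pp
    [(1, 1152732)]) (.sq [(1, 1), (2, 97), (3, -100), (5, -2), (7, 4), (11, -25), (13, 38), (19, 86),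
    (23, -90)]))) (.add (.mul (.pp [(1, 1497948)]) (.sq [(1, -4), (2, 100), (3, -62), (5, -5), (7,
    -6), (11, 12), (13, -33), (19, -74), (23, 88)])) (.mul (.pp [(1, 2093040)]) (.sq [(2, 100), (3,
    -75), (5, 6), (7, 6), (11, -41), (13, 6), (19, 6), (23, 6)]))))))) (.add (.add (.mul (.g 18) (.add
    (.add (.mul (.pp [(1, 2087172)]) (.sq [(2, -3), (3, 100), (5, -8), (7, -8), (11, -8), (13, -65),
    (19, -8), (23, -8)])) (.mul (.pp [(1, 2534532)]) (.sq [(1, -7), (2, -49), (3, 100), (5, 2), (7,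
    -12), (11, 8), (19, -8), (23, 15)]))) (.add (.mul (.pp [(1, 393180)]) (.sq [(1, 2), (2, -40), (3,
    94), (5, 14), (7, 1), (11, -55), (13, 16), (19, 76), (23, -100)])) (.mul (.g 15) (.mul (.g 15)
    (.pp [(1, 10310040000)])))))) (.mul (.g 2) (.mul (.pp [(1, 2133000)]) (.sq [(1, -69), (5, 7), (7,
    -70), (11, 100), (13, 19), (19, 74), (23, 60)])))) (.add (.mul (.g 4) (.mul (.pp [(1, 9297300)])
    (.sq [(1, 23), (2, 17), (3, -6), (5, -2), (7, 8), (11, 100), (13, 86), (19, -57), (23, 27)])))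
    (.mul (.g 9) (.mul (.pp [(1, 131583)]) (.sq [(1, -2), (2, 3), (3, -47), (5, -2), (7, -7), (11, 9),
    (13, 100), (19, 19), (23, -3)]))))))) (.pp [(1, 3682734744), (2, 5911272), (3, 6586464), (4,
    5371701), (5, 5666232), (6, 5184582), (7, 5022588), (8, 6907380), (9, 5462337), (10, 5834580),
    (11, 6088428), (12, 5219640), (13, 5983332), (14, 5236470), (15, 5643108), (18, 6329640), (19,
    6379404), (20, 5875140), (21, 6252258), (22, 6605022), (23, 6852876), (25, 6639816), (26,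
    5931624), (27, 6092400), (28, 6199020), (30, 6179040), (33, 4897770), (35, 6497196), (38,
    4885698), (39, 5350152), (42, 5392800), (44, 5604820), (45, 5927760), (46, 5418870), (49,
    6982221), (50, 6289860), (52, 6268320), (55, 5724996), (57, 4720038), (63, 6509820), (65,
    5184168), (66, 6177960), (69, 5727594), (70, 6959040), (75, 5446080), (76, 6327420), (77,
    4795170), (78, 5769000), (91, 5982696), (92, 5471940), (95, 4478700), (98, 6676200), (99,
    5876700), (105, 5932920), (110, 5366280), (114, 6167040), (115, 4501236), (117, 6313540), (121,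
    6194193), (125, 5627360), (130, 6167760), (133, 6078702), (138, 7673400), (143, 6101280), (147,
    6330180), (154, 5919120), (161, 4920954), (165, 6580560), (169, 6096732), (171, 6175200), (175,
    5551200), (182, 7163760), (190, 5820840), (195, 6487800), (207, 5509200), (209, 5209062), (230,
    5544720), (231, 6977760), (242, 6294820), (245, 5841480), (247, 4447704), (253, 4853010), (266,
    5935920), (273, 6346560), (275, 6200160), (285, 6388320), (286, 6582720), (299, 5344656), (322,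
    7003320), (325, 6349140), (338, 6022140), (343, 6870940), (345, 6396480), (361, 5818521), (363,
    6089940), (385, 5152440), (399, 6664800), (418, 6152520), (429, 5196240), (437, 6094350), (455,
    6086880), (475, 6282000), (483, 5129640), (494, 5146560), (506, 5614680), (507, 5804500), (529,
    6215229), (539, 8177340), (575, 6334080), (598, 5106480), (605, 5710980), (627, 5935560), (637,
    6418860), (665, 7896000), (715, 5653560), (722, 6760560), (741, 6011160), (759, 6122520), (805,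
    6856080), (845, 5582340), (847, 5962500), (874, 5658720), (897, 6303600), (931, 3357840), (1001,
    5535600), (1045, 6774360), (1058, 6293640), (1083, 6299640), (1127, 3041280), (1183, 5394000),
    (1235, 5875440), (1265, 6356880), (1311, 5930640), (1331, 6106840), (1463, 6357120), (1495,
    6056160), (1573, 5984820), (1587, 6436140), (1729, 7412400), (1771, 4836840), (1805, 5736660),
    (1859, 6287280), (2093, 6352560), (2185, 5471760), (2197, 6245200), (2299, 5820240), (2527,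
    6995760), (2645, 6061800), (2717, 6542160), (2783, 6362280), (3059, 11449080), (3211, 6475500),
    (3289, 6996000), (3703, 7090920), (3887, 6520500), (3971, 5741940), (4693, 5971560), (4807,
    6916440), (5681, 6257400), (5819, 7104780), (6859, 5963700), (6877, 6203700), (8303, 4665900),
    (10051, 4538820), (12167, 6059300)]))
    (by norm_num) (by decide +kernel)

theorem g114 : Ck (gG11 4)
    (pol2 4 nE WE (vGG c1E c2E) (Ex.add (hM (Ex.v 11)) (hM (Ex.v 13)))) :=
  Ck.mk' 250000 (.add (.add (.add (.add (.mul (.g 1) (.add (.add (.add (.add (.mul (.pp [(1, 874170)]) (.sq [(1,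
    4), (2, 89), (3, 49), (5, 89), (11, -38), (13, -100), (19, -11), (23, -77)])) (.mul (.pp [(1,
    904395)]) (.sq [(2, 3), (3, 10), (5, 58), (7, -21), (11, -3), (13, 85), (19, -100), (23, 13)])))
    (.add (.mul (.pp [(1, 1175670)]) (.sq [(1, -51), (2, 57), (3, 100), (5, -46), (7, -5), (11, -95),
    (13, -68), (19, 3), (23, -27)])) (.mul (.pp [(1, 1063605)]) (.sq [(1, -10), (2, 16), (3, 73), (5,
    53), (7, -27), (11, 100), (13, 46), (19, -11), (23, -17)])))) (.add (.add (.mul (.pp [(1,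
    1201350)]) (.sq [(2, 2), (5, 59), (7, -20), (11, 2), (13, 88), (19, 1), (23, -100)])) (.mul (.pp
    [(1, 1032165)]) (.sq [(2, -28), (3, -90), (5, -23), (7, 100), (11, 26), (13, 10), (19, 67), (23,
    58)]))) (.add (.mul (.g 4) (.add (.add (.pp [(1, 73131750000)]) (.add (.mul (.g 2) (.pp [(1,
    21401550000)])) (.mul (.g 4) (.pp [(1, 9440400000)])))) (.add (.add (.mul (.g 8) (.pp [(1,
    18952350000)])) (.mul (.g 10) (.pp [(1, 19309500000)]))) (.add (.mul (.g 14) (.pp [(1,
    12754650000)])) (.mul (.g 16) (.pp [(1, 10147500000)])))))) (.mul (.g 8) (.add (.add (.mul (.g 1)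
    (.pp [(1, 16709250000)])) (.add (.mul (.g 2) (.pp [(1, 9934950000)])) (.mul (.g 9) (.pp [(1,
    1285777500)])))) (.add (.mul (.g 10) (.pp [(1, 11989500000)])) (.add (.mul (.g 17) (.pp [(1,
    3310020000)])) (.mul (.g 18) (.pp [(1, 90120000)]))))))))) (.add (.add (.add (.mul (.g 0) (.add
    (.add (.mul (.g 9) (.pp [(1, 60001125)])) (.mul (.g 13) (.pp [(1, 524205000)]))) (.add (.mul (.g
    14) (.pp [(1, 495112500)])) (.add (.mul (.g 15) (.pp [(1, 1249425000)])) (.mul (.g 19) (.pp [(1,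
    252033000)])))))) (.mul (.g 10) (.add (.add (.pp [(1, 32155200000)]) (.mul (.g 2) (.pp [(1,
    7201350000)]))) (.add (.mul (.g 11) (.pp [(1, 1732005000)])) (.mul (.g 18) (.pp [(1,
    11544540000)])))))) (.add (.mul (.g 14) (.add (.mul (.g 3) (.pp [(1, 10962000000)])) (.add (.mul
    (.g 9) (.pp [(1, 80685000)])) (.mul (.g 17) (.pp [(1, 4972410000)]))))) (.mul (.g 16) (.add (.pp
    [(1, 66023250000)]) (.add (.mul (.g 1) (.pp [(1, 22857900000)])) (.mul (.g 19) (.pp [(1,
    1553520000)]))))))) (.add (.add (.mul (.g 18) (.add (.pp [(1, 308490000)]) (.mul (.g 17) (.pp [(1,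
    626934000)])))) (.mul (.g 2) (.mul (.g 19) (.pp [(1, 292200000)])))) (.add (.mul (.g 3) (.mul (.g
    15) (.pp [(1, 16175550000)]))) (.mul (.g 6) (.mul (.g 7) (.pp [(1, 33669300000)])))))))) (.add
    (.mul (.g 19) (.add (.add (.add (.mul (.pp [(1, 106257)]) (.sq [(2, -35), (3, 42), (5, 76), (7,
    -39), (11, 100), (13, 11), (19, 17), (23, -13)])) (.add (.mul (.pp [(1, 196665)]) (.sq [(1, 10),
    (2, -13), (3, -17), (5, 100), (7, 26), (11, -27), (13, -31), (19, -86), (23, 5)])) (.mul (.pp [(1,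
    23577)]) (.sq [(2, 9), (3, -73), (7, -4), (11, -93), (13, 85), (19, -51), (23, 100)])))) (.add
    (.mul (.pp [(1, 52821)]) (.sq [(1, 4), (2, -81), (3, 30), (5, -100), (7, 20), (11, 18), (13, -41),
    (19, 9), (23, 22)])) (.add (.mul (.g 18) (.add (.add (.add (.mul (.g 2) (.pp [(1, 60690000)]))
    (.mul (.g 3) (.pp [(1, 516216000)]))) (.add (.mul (.g 5) (.pp [(1, 442890000)])) (.mul (.g 8) (.pp
    [(1, 157848000)])))) (.add (.add (.mul (.g 10) (.pp [(1, 29952000)])) (.mul (.g 12) (.pp [(1,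
    417006000)]))) (.add (.mul (.g 16) (.pp [(1, 67200000)])) (.mul (.g 17) (.pp [(1, 51417600)]))))))
    (.mul (.g 16) (.add (.add (.mul (.g 2) (.pp [(1, 576300000)])) (.add (.mul (.g 4) (.pp [(1,
    274380000)])) (.mul (.g 6) (.pp [(1, 1272810000)])))) (.add (.mul (.g 10) (.pp [(1, 1000380000)]))
    (.add (.mul (.g 14) (.pp [(1, 320850000)])) (.mul (.g 16) (.pp [(1, 1891710000)]))))))))) (.add
    (.add (.mul (.g 3) (.add (.add (.mul (.g 7) (.pp [(1, 6985710000)])) (.mul (.g 9) (.pp [(1,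
    21961500)]))) (.add (.mul (.g 11) (.pp [(1, 26040000)])) (.mul (.g 14) (.pp [(1, 482310000)])))))
    (.add (.mul (.g 11) (.add (.mul (.g 6) (.pp [(1, 89439000)])) (.add (.mul (.g 10) (.pp [(1,
    136041000)])) (.mul (.g 12) (.pp [(1, 126132000)]))))) (.mul (.g 17) (.add (.mul (.g 8) (.pp [(1,
    310536000)])) (.add (.mul (.g 13) (.pp [(1, 622734000)])) (.mul (.g 14) (.pp [(1,
    543684000)]))))))) (.add (.add (.mul (.g 4) (.add (.mul (.g 6) (.pp [(1, 3117840000)])) (.mul (.g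
    13) (.pp [(1, 2327010000)])))) (.mul (.g 9) (.add (.mul (.g 7) (.pp [(1, 99075000)])) (.mul (.g 8)
    (.pp [(1, 142755000)]))))) (.add (.mul (.g 0) (.pp [(1, 391666500)])) (.mul (.g 10) (.mul (.g 14)
    (.pp [(1, 309120000)])))))))) (.mul (.g 4) (.add (.add (.add (.mul (.pp [(1, 744435)]) (.sq [(1,
    2), (2, -50), (3, 100), (5, -13), (7, -13), (11, -23), (13, -4), (19, -9), (23, 14)])) (.mul (.pp
    [(1, 26511150000)]) (.sq [(19, 1), (23, -1)]))) (.add (.mul (.pp [(1, 1164225)]) (.sq [(1, 6), (2,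
    -26), (3, 16), (5, 20), (7, -28), (11, 100), (13, 92), (19, 22), (23, -11)])) (.mul (.g 5) (.add
    (.add (.mul (.g 6) (.pp [(1, 20287800000)])) (.mul (.g 10) (.pp [(1, 40334400000)]))) (.add (.mul
    (.g 13) (.pp [(1, 8470800000)])) (.add (.mul (.g 14) (.pp [(1, 1610100000)])) (.mul (.g 15) (.pp
    [(1, 4650450000)])))))))) (.add (.add (.mul (.g 7) (.add (.mul (.g 7) (.pp [(1, 29417250000)]))
    (.add (.mul (.g 11) (.pp [(1, 996637500)])) (.mul (.g 16) (.pp [(1, 30523350000)]))))) (.mul (.g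
    8) (.add (.pp [(1, 30098400000)]) (.add (.mul (.g 8) (.pp [(1, 39048000000)])) (.mul (.g 15) (.pp
    [(1, 20900550000)])))))) (.add (.mul (.g 10) (.add (.mul (.g 4) (.pp [(1, 18210300000)])) (.add
    (.mul (.g 10) (.pp [(1, 50606100000)])) (.mul (.g 14) (.pp [(1, 24447900000)]))))) (.add (.mul (.g
    6) (.add (.pp [(1, 18290400000)]) (.mul (.g 15) (.pp [(1, 2364150000)])))) (.mul (.g 12) (.mul (.g
    18) (.pp [(1, 3544230000)])))))))))) (.add (.add (.mul (.g 18) (.add (.add (.add (.mul (.pp [(1,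
    826794)]) (.sq [(1, -3), (2, -60), (3, 100), (5, -3), (7, -3), (11, 4), (19, 4), (23, -2)])) (.mul
    (.pp [(1, 808446)]) (.sq [(1, -28), (2, 2), (3, -3), (5, -28), (7, -30), (13, 100), (19, 42), (23,
    33)]))) (.add (.mul (.pp [(1, 35556)]) (.sq [(2, -3), (3, 100), (5, -8), (7, -8), (11, -8), (13,
    -65), (19, -8), (23, -8)])) (.mul (.g 10) (.add (.add (.pp [(1, 1445100000)]) (.mul (.g 2) (.pp
    [(1, 463350000)]))) (.add (.mul (.g 8) (.pp [(1, 4595610000)])) (.mul (.g 18) (.pp [(1,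
    828432000)]))))))) (.add (.add (.mul (.g 7) (.add (.mul (.g 7) (.pp [(1, 1366320000)])) (.add
    (.mul (.g 17) (.pp [(1, 1149918000)])) (.mul (.g 18) (.pp [(1, 614514000)]))))) (.mul (.g 6) (.add
    (.mul (.g 6) (.pp [(1, 1044330000)])) (.mul (.g 18) (.pp [(1, 257154000)]))))) (.add (.mul (.g 8)
    (.add (.mul (.g 2) (.pp [(1, 2585700000)])) (.mul (.g 9) (.pp [(1, 101818500)])))) (.mul (.g 15)
    (.add (.mul (.g 5) (.pp [(1, 7026900000)])) (.mul (.g 15) (.pp [(1, 6369540000)])))))))) (.mul (.g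
    9) (.add (.add (.mul (.g 12) (.add (.add (.mul (.g 2) (.pp [(1, 462067500)])) (.mul (.g 8) (.pp
    [(1, 486345000)]))) (.add (.mul (.g 15) (.pp [(1, 1666635000)])) (.mul (.g 17) (.pp [(1,
    22209000)]))))) (.mul (.g 6) (.add (.mul (.g 6) (.pp [(1, 545887500)])) (.add (.mul (.g 11) (.pp
    [(1, 121918500)])) (.mul (.g 15) (.pp [(1, 296400000)])))))) (.add (.mul (.g 7) (.add (.mul (.g 2)
    (.pp [(1, 822412500)])) (.add (.mul (.g 3) (.pp [(1, 700320000)])) (.mul (.g 11) (.pp [(1,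
    185991375)]))))) (.add (.mul (.g 8) (.add (.mul (.g 8) (.pp [(1, 3195510000)])) (.mul (.g 14) (.pp
    [(1, 220987500)])))) (.mul (.g 10) (.mul (.g 11) (.pp [(1, 1978875)])))))))) (.add (.mul (.g 17)
    (.add (.add (.mul (.pp [(1, 436476)]) (.sq [(1, -24), (2, 10), (3, -76), (5, 2), (7, 60), (11,
    -40), (13, 100), (19, -37), (23, 15)])) (.add (.mul (.pp [(1, 188748)]) (.sq [(1, -2), (2, 100),
    (3, -58), (5, -1), (7, -2), (11, -11), (13, -2), (19, -1)])) (.mul (.pp [(1, 1385274)]) (.sq [(2,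
    100), (3, -75), (5, 6), (7, 6), (11, -41), (13, 6), (19, 6), (23, 6)])))) (.add (.add (.mul (.g
    10) (.add (.add (.mul (.g 2) (.pp [(1, 2478870000)])) (.mul (.g 8) (.pp [(1, 172710000)]))) (.add
    (.mul (.g 11) (.pp [(1, 315897000)])) (.mul (.g 17) (.pp [(1, 516474000)]))))) (.mul (.g 8) (.add
    (.mul (.g 3) (.pp [(1, 7457700000)])) (.mul (.g 15) (.pp [(1, 6392430000)]))))) (.add (.mul (.g
    14) (.add (.mul (.g 5) (.pp [(1, 4458660000)])) (.mul (.g 7) (.pp [(1, 458700000)])))) (.mul (.g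
    6) (.mul (.g 11) (.pp [(1, 282124500)]))))))) (.mul (.g 6) (.add (.add (.mul (.pp [(1, 1058850)])
    (.sq [(3, -1), (5, -100), (7, 3), (11, -68), (13, 85), (19, -3), (23, 50)])) (.add (.mul (.pp [(1,
    102825)]) (.sq [(2, 100), (3, -74), (5, 50), (7, 66), (11, -60), (13, 27), (19, 98), (23, -29)]))
    (.mul (.pp [(1, 1638585)]) (.sq [(1, -57), (2, 6), (3, 50), (5, -36), (7, -88), (11, 100), (13,
    66), (19, -25), (23, 34)])))) (.add (.add (.mul (.pp [(1, 657360)]) (.sq [(1, 31), (2, -88), (3,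
    -61), (5, 4), (7, -18), (11, -4), (13, 100), (19, 22), (23, -51)])) (.mul (.pp [(1, 531840)]) (.sq
    [(3, -87), (5, 100), (7, -13), (11, -20), (13, 63), (19, 18), (23, -21)]))) (.add (.mul (.g 2)
    (.add (.mul (.g 6) (.pp [(1, 11165250000)])) (.mul (.g 15) (.pp [(1, 3637950000)])))) (.mul (.g 3)
    (.mul (.g 11) (.pp [(1, 608010000)])))))))))) (.add (.add (.mul (.g 11) (.add (.add (.mul (.g 2)
    (.add (.mul (.g 7) (.pp [(1, 412957500)])) (.mul (.g 12) (.pp [(1, 855360000)])))) (.mul (.g 10)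
    (.add (.mul (.g 5) (.pp [(1, 52627500)])) (.mul (.g 10) (.pp [(1, 3348945000)]))))) (.add (.mul
    (.g 8) (.mul (.g 8) (.pp [(1, 448935000)]))) (.mul (.g 12) (.mul (.g 14) (.pp [(1,
    1060582500)])))))) (.add (.mul (.g 8) (.add (.add (.mul (.pp [(1, 3840960)]) (.sq [(2, 100), (3,
    -18), (5, -18), (7, -18), (11, 57), (13, -18), (19, -18), (23, -18)])) (.mul (.pp [(1, 142845)])
    (.sq [(2, 9), (3, -100), (5, 4), (7, 42), (11, 93), (13, 13), (19, -32), (23, 19)]))) (.add (.mul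
    (.pp [(1, 27885)]) (.sq [(2, 65), (3, 5), (5, -34), (7, 61), (11, -43), (13, -47), (19, -100),
    (23, -57)])) (.mul (.pp [(1, 556080)]) (.sq [(1, -17), (2, 100), (3, -25), (5, -31), (7, -6), (11,
    -16), (13, 15), (19, -41), (23, 43)]))))) (.mul (.g 5) (.add (.mul (.pp [(1, 1406190)]) (.sq [(1,
    -42), (2, -14), (3, -4), (5, 7), (7, -85), (11, 100), (13, 43), (19, 56), (23, 52)])) (.add (.mul
    (.pp [(1, 2238285)]) (.sq [(1, 3), (2, -67), (3, 80), (11, 87), (13, -100)])) (.mul (.pp [(1,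
    333075)]) (.sq [(1, 56), (2, 35), (3, -100), (5, -25), (7, -21), (11, -5), (13, 93), (19, -70),
    (23, -74)]))))))) (.add (.add (.mul (.g 7) (.add (.mul (.pp [(1, 149910)]) (.sq [(2, -51), (3,
    -81), (5, 9), (7, 62), (11, -93), (13, 41), (19, 100), (23, -50)])) (.add (.mul (.pp [(1,
    143010)]) (.sq [(1, -1), (2, -28), (3, -14), (5, 10), (7, -31), (11, 100), (13, -10), (19, -7),
    (23, -28)])) (.mul (.pp [(1, 1890600)]) (.sq [(1, 1), (2, -45), (3, 56), (5, 1), (7, 3), (11,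
    100), (13, -97), (19, -10), (23, -5)]))))) (.mul (.g 14) (.add (.mul (.pp [(1, 382545)]) (.sq [(2,
    48), (3, 100), (5, -13), (7, -13), (11, -74), (13, -13), (19, -13), (23, -13)])) (.add (.mul (.pp
    [(1, 355245)]) (.sq [(2, -56), (3, -50), (5, 1), (7, -20), (11, 2), (13, 100), (19, 17), (23,
    10)])) (.mul (.pp [(1, 192255)]) (.sq [(1, -32), (2, 100), (3, 37), (5, -60), (7, 24), (11, -50),
    (13, -1), (19, 20), (23, -31)])))))) (.add (.mul (.g 10) (.add (.mul (.pp [(1, 2542770)]) (.sq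
    [(1, -47), (2, -30), (3, 100), (5, -12), (7, -10), (11, 77), (13, 20), (19, 4), (23, -50)])) (.mul
    (.pp [(1, 4912350)]) (.sq [(2, -18), (3, 100), (5, -18), (7, -18), (11, -18), (13, 57), (19, -18),
    (23, -18)])))) (.mul (.g 12) (.mul (.pp [(1, 563490)]) (.sq [(1, -23), (2, 45), (3, 100), (5,
    -16), (7, -17), (11, 17), (13, -28), (19, -8), (23, -10)]))))))) (.pp [(1, 664038768), (2,
    1503390), (3, 1524714), (4, 1466577), (5, 1584672), (6, 1460280), (7, 1575042), (8, 1356000), (9,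
    1519851), (10, 1362582), (11, 1540290), (12, 1418340), (13, 1560267), (14, 1409088), (15,
    1490670), (18, 1425135), (19, 1472664), (20, 1702440), (21, 1216494), (22, 1529178), (23,
    1373352), (25, 1446639), (26, 1487244), (27, 1580070), (28, 1436925), (30, 1484460), (33,
    1491948), (35, 1394148), (38, 1535904), (39, 1461828), (42, 1623060), (44, 1573990), (45,
    1535970), (46, 1558872), (49, 1481160), (50, 1569030), (52, 1574760), (55, 1536630), (57,
    1465476), (63, 1763535), (65, 1574178), (66, 1546230), (69, 1710576), (70, 1503870), (75,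
    1480410), (76, 1507470), (77, 1621938), (78, 1638750), (91, 1549962), (92, 1585440), (95,
    1305648), (98, 1444215), (99, 1559835), (105, 1362810), (110, 1388220), (114, 1470780), (115,
    1530078), (117, 1522000), (121, 1438959), (125, 1552160), (130, 1628550), (133, 1992282), (138,
    1546710), (143, 1467996), (147, 1387860), (154, 1630320), (161, 1683894), (165, 1593660), (169,
    1416948), (171, 1342050), (175, 1443390), (182, 1561170), (190, 1537620), (195, 1391940), (207,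
    1244970), (209, 1391820), (230, 1409040), (231, 1676910), (242, 1370230), (245, 1564395), (247,
    1357350), (253, 1526586), (266, 1467120), (273, 1273740), (275, 1414500), (285, 1709970), (286,
    1482660), (299, 1343154), (322, 1596150), (325, 1494240), (338, 1398120), (343, 1488620), (345,
    1514550), (361, 1281393), (363, 1364910), (385, 1442040), (399, 1808790), (418, 1423380), (429,
    1364070), (437, 1379652), (455, 1555440), (475, 1526970), (483, 1793610), (494, 1377000), (506,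
    1360620), (507, 1550500), (529, 1439280), (539, 1513785), (575, 1507260), (598, 1333890), (605,
    1557450), (627, 1395480), (637, 1501200), (665, 1634520), (715, 1404360), (722, 1545630), (741,
    1604160), (759, 1330950), (805, 1577820), (845, 1512240), (847, 1458960), (874, 1494330), (897,
    1672620), (931, 1355310), (1001, 1566330), (1045, 1736850), (1058, 1494000), (1083, 1366320),
    (1127, 1468530), (1183, 1554285), (1235, 1359180), (1265, 1308630), (1311, 1311660), (1331,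
    1538710), (1463, 1212150), (1495, 1595130), (1573, 1473210), (1587, 1401270), (1729, 1492110),
    (1771, 1545000), (1805, 1544925), (1859, 1532790), (2093, 1338810), (2185, 1333320), (2197,
    1566850), (2299, 1570095), (2527, 1384500), (2645, 1570470), (2717, 1510170), (2783, 1679625),
    (3059, 1424400), (3211, 1474680), (3289, 1700730), (3703, 1352520), (3887, 1513095), (3971,
    1703970), (4693, 1653240), (4807, 1645170), (5681, 1698330), (5819, 1454670), (6859, 1613540),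
    (6877, 1520100), (8303, 1530855), (10051, 1633260), (12167, 1584815)]))
    (by norm_num) (by decide +kernel)

theorem l0 : Ck (gL0)
    (poL nE WE (vP c1E c2E)) :=
  Ck.mk' 250000 (.add (.add (.add (.add (.add (.mul (.pp [(1, 1840500)]) (.sq [(1, -63), (2, 46), (3, 21), (5,
    32), (7, -41), (13, -25), (17, 100)])) (.mul (.pp [(1, 297525)]) (.sq [(1, 32), (2, 63), (3, 63),
    (5, 100), (7, 21), (13, -73), (17, -73)]))) (.add (.mul (.pp [(1, 790200)]) (.sq [(1, -86), (2,
    -40), (3, -69), (5, 54), (7, -56), (13, 100), (17, 100)])) (.mul (.g 0) (.add (.add (.add (.mul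
    (.g 7) (.add (.add (.pp [(1, 383767500)]) (.add (.mul (.g 0) (.pp [(1, 2719500)])) (.mul (.g 4)
    (.pp [(1, 11872500)])))) (.add (.mul (.g 7) (.pp [(1, 19140000)])) (.add (.mul (.g 8) (.pp [(1,
    643252500)])) (.mul (.g 9) (.pp [(1, 521295000)])))))) (.mul (.g 2) (.add (.add (.mul (.g 3) (.pp
    [(1, 166755000)])) (.mul (.g 4) (.pp [(1, 541545000)]))) (.add (.mul (.g 10) (.pp [(1,
    249462000)])) (.add (.mul (.g 11) (.pp [(1, 69235500)])) (.mul (.g 12) (.pp [(1,
    112519500)]))))))) (.add (.mul (.g 1) (.add (.add (.mul (.g 3) (.pp [(1, 78127500)])) (.mul (.g 6)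
    (.pp [(1, 2501437500)]))) (.add (.mul (.g 11) (.pp [(1, 89715000)])) (.mul (.g 12) (.pp [(1,
    750250500)]))))) (.mul (.g 4) (.add (.pp [(1, 1436482500)]) (.add (.mul (.g 0) (.pp [(1,
    66870000)])) (.mul (.g 4) (.pp [(1, 186300000)]))))))) (.add (.add (.mul (.g 12) (.add (.pp [(1,
    1260954000)]) (.add (.mul (.g 11) (.pp [(1, 16016700)])) (.mul (.g 12) (.pp [(1, 10613100)])))))
    (.mul (.g 0) (.mul (.g 5) (.pp [(1, 72893250)])))) (.add (.mul (.g 6) (.mul (.g 11) (.pp [(1,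
    87121500)]))) (.mul (.g 8) (.mul (.g 8) (.pp [(1, 31200000)]))))))))) (.add (.add (.mul (.g 8)
    (.add (.add (.mul (.g 5) (.add (.add (.mul (.g 1) (.pp [(1, 18706500000)])) (.add (.mul (.g 3)
    (.pp [(1, 17817750000)])) (.mul (.g 4) (.pp [(1, 67919700000)])))) (.add (.add (.mul (.g 6) (.pp
    [(1, 24300750000)])) (.mul (.g 7) (.pp [(1, 38750400000)]))) (.add (.mul (.g 8) (.pp [(1,
    1321800000)])) (.mul (.g 9) (.pp [(1, 4995150000)])))))) (.mul (.g 7) (.add (.add (.mul (.g 4)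
    (.pp [(1, 32947650000)])) (.mul (.g 7) (.pp [(1, 5310450000)]))) (.add (.mul (.g 8) (.pp [(1,
    7736850000)])) (.mul (.g 9) (.pp [(1, 6472200000)])))))) (.add (.mul (.g 11) (.add (.add (.pp [(1,
    4943640000)]) (.mul (.g 2) (.pp [(1, 219150000)]))) (.add (.mul (.g 8) (.pp [(1, 300000)])) (.mul
    (.g 12) (.pp [(1, 117876000)]))))) (.add (.mul (.g 3) (.add (.mul (.g 3) (.pp [(1, 8903400000)]))
    (.mul (.g 9) (.pp [(1, 13057350000)])))) (.mul (.g 9) (.mul (.g 9) (.pp [(1, 5990400000)])))))))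
    (.mul (.g 7) (.add (.add (.mul (.pp [(1, 5896620)]) (.sq [(1, -15), (2, -9), (5, -8), (7, -10),
    (13, -15), (17, 50)])) (.mul (.g 3) (.add (.add (.mul (.g 2) (.pp [(1, 53740500000)])) (.add (.mul
    (.g 3) (.pp [(1, 32177100000)])) (.mul (.g 5) (.pp [(1, 11723400000)])))) (.add (.mul (.g 7) (.pp
    [(1, 2687850000)])) (.add (.mul (.g 9) (.pp [(1, 11405250000)])) (.mul (.g 11) (.pp [(1,
    10941090000)]))))))) (.add (.mul (.g 10) (.add (.add (.pp [(1, 5545260000)]) (.mul (.g 5) (.pp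
    [(1, 518580000)]))) (.add (.mul (.g 7) (.pp [(1, 95820000)])) (.mul (.g 12) (.pp [(1,
    28362000)]))))) (.mul (.g 9) (.mul (.g 9) (.pp [(1, 1452900000)]))))))) (.add (.mul (.g 12) (.add
    (.add (.mul (.pp [(1, 400884)]) (.sq [(1, 19), (2, -12), (3, -9), (5, -100), (7, 12), (13, -3),
    (17, -19)])) (.add (.mul (.pp [(1, 1599120000)]) (.sq [(13, 1), (17, -1)])) (.mul (.pp [(1,
    78585)]) (.sq [(1, -11), (2, -95), (3, -74), (5, 17), (7, -7), (13, 100), (17, -24)])))) (.add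
    (.mul (.pp [(1, 174042)]) (.sq [(1, -58), (2, -2), (3, -27), (5, -32), (7, -37), (13, -1), (17,
    100)])) (.add (.mul (.pp [(1, 237129)]) (.sq [(1, -40), (2, 35), (5, 100), (7, -26), (13, -40),
    (17, 97)])) (.mul (.g 9) (.mul (.g 10) (.pp [(1, 118992000)]))))))) (.mul (.g 11) (.add (.add
    (.mul (.pp [(1, 13266)]) (.sq [(1, -64), (2, -57), (5, 65), (7, -42), (13, 100), (17, 99)])) (.mul
    (.pp [(1, 183936)]) (.sq [(1, -43), (2, -53), (5, -11), (7, -28), (13, 100), (17, 13)]))) (.add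
    (.mul (.pp [(1, 28356)]) (.sq [(1, -22), (2, -72), (5, -100), (7, -15), (13, 94), (17, 94)]))
    (.add (.mul (.pp [(1, 70545)]) (.sq [(1, 23), (2, -71), (5, 13), (7, 15), (13, 71), (17, -100)]))
    (.mul (.g 2) (.mul (.g 10) (.pp [(1, 11364000)])))))))))) (.add (.add (.add (.mul (.g 9) (.add
    (.add (.mul (.pp [(1, 17265)]) (.sq [(1, -37), (2, -2), (5, -24), (7, -24), (13, 100), (17, 16)]))
    (.mul (.pp [(1, 1927185)]) (.sq [(1, -70), (2, 44), (5, 64), (7, -46), (13, -37), (17, 100)])))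
    (.add (.mul (.g 3) (.mul (.g 9) (.pp [(1, 983550000)]))) (.mul (.g 5) (.mul (.g 5) (.pp [(1,
    9176400000)])))))) (.mul (.g 10) (.add (.mul (.pp [(1, 257997)]) (.sq [(1, -33), (3, -53), (5,
    44), (7, -22), (13, 100), (17, 14)])) (.add (.mul (.pp [(1, 671793)]) (.sq [(1, -33), (3, -35),
    (5, -19), (7, -22), (13, 100), (17, 5)])) (.mul (.pp [(1, 2452290000)]) (.sq [(13, 1), (17,
    -1)])))))) (.add (.mul (.g 1) (.add (.mul (.pp [(1, 192390)]) (.sq [(1, -63), (2, 46), (3, 21),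
    (5, 32), (7, -41), (13, -25), (17, 100)])) (.mul (.pp [(1, 325185)]) (.sq [(1, 32), (2, 63), (3,
    63), (5, 100), (7, 21), (13, -73), (17, -73)])))) (.mul (.g 3) (.add (.mul (.pp [(1, 363165)])
    (.sq [(1, -55), (5, -46), (7, -36), (13, 100), (17, 6)])) (.mul (.g 5) (.mul (.g 5) (.pp [(1,
    18933000000)]))))))) (.add (.add (.mul (.g 2) (.mul (.pp [(1, 1395675)]) (.sq [(1, 10), (2, 28),
    (3, 28), (5, 54), (7, 7), (13, 51), (17, -100)]))) (.mul (.g 4) (.mul (.pp [(1, 1467015)]) (.sq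
    [(1, -51), (2, -43), (3, -30), (5, 7), (7, -33), (13, 100), (17, 17)])))) (.add (.mul (.g 5) (.mul
    (.g 5) (.mul (.g 5) (.pp [(1, 425400000)])))) (.mul (.g 6) (.mul (.pp [(1, 157545)]) (.sq [(1,
    -86), (2, -40), (3, -69), (5, 54), (7, -56), (13, 100), (17, 100)]))))))) (.pp [(1, 2836364427),
    (2, 1717914), (3, 1623369), (4, 1516107), (5, 1611798), (6, 1516290), (7, 1819434), (8, 1473780),
    (9, 1538280), (10, 1383324), (12, 1511535), (13, 1508595), (14, 1473720), (15, 1461156), (17,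
    1247181), (18, 1449990), (20, 1418070), (21, 1282542), (25, 1312083), (26, 1202250), (27,
    1500000), (28, 1492905), (30, 1539540), (34, 1274358), (35, 1495266), (39, 1474938), (42,
    1507560), (45, 1498410), (49, 1225812), (50, 1712415), (51, 1376550), (52, 1553400), (63,
    1431510), (65, 1723506), (68, 1547265), (70, 1468050), (75, 1615635), (78, 1358070), (85,
    1397916), (91, 1287810), (98, 1572630), (102, 1517310), (105, 1637490), (117, 1540800), (119,
    1536378), (125, 1605965), (130, 1579440), (147, 1585035), (153, 1486500), (169, 1535583), (170,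
    1573230), (175, 1461270), (182, 1540770), (195, 1429170), (221, 1518216), (238, 1474740), (245,
    1563015), (255, 1433160), (273, 1609920), (289, 1812636), (325, 1369440), (338, 1562700), (343,
    1503055), (357, 1545750), (425, 1745985), (442, 1662000), (455, 1469340), (507, 1507005), (578,
    1487115), (595, 1291350), (637, 1610055), (663, 1463160), (833, 1609455), (845, 1329825), (867,
    1599630), (1105, 1539600), (1183, 1504665), (1445, 1534815), (1547, 1428450), (2023, 1351695),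
    (2197, 1499325), (2873, 1533000), (3757, 1472940), (4913, 1432665)]))
    (by norm_num) (by decide +kernel)

theorem l2 : Ck (gL2)
    (poL2 nE WE (vGG c1E c2E)) :=
  Ck.mk' 10000 (.add (.add (.add (.add (.mul (.g 11) (.add (.add (.mul (.g 4) (.add (.add (.pp [(1, 306849600)])
    (.add (.mul (.g 3) (.pp [(1, 2940)])) (.mul (.g 5) (.pp [(1, 9999420)])))) (.add (.add (.mul (.g
    6) (.pp [(1, 12000)])) (.mul (.g 7) (.pp [(1, 12000)]))) (.add (.mul (.g 11) (.pp [(1,
    165108720)])) (.mul (.g 12) (.pp [(1, 11760)])))))) (.add (.mul (.g 7) (.add (.add (.mul (.g 1)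
    (.pp [(1, 3712800)])) (.mul (.g 6) (.pp [(1, 3724800)]))) (.add (.mul (.g 8) (.pp [(1, 12000)]))
    (.add (.mul (.g 9) (.pp [(1, 12000)])) (.mul (.g 10) (.pp [(1, 64526880)])))))) (.mul (.g 0) (.add
    (.add (.pp [(1, 1740)]) (.mul (.g 6) (.pp [(1, 600)]))) (.add (.mul (.g 8) (.pp [(1, 600)])) (.mul
    (.g 9) (.pp [(1, 600)]))))))) (.add (.add (.mul (.g 3) (.add (.add (.mul (.g 1) (.pp [(1, 600)]))
    (.mul (.g 3) (.pp [(1, 30)]))) (.add (.mul (.g 10) (.pp [(1, 2307996)])) (.mul (.g 11) (.pp [(1,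
    120)]))))) (.mul (.g 8) (.add (.mul (.g 8) (.pp [(1, 304423200)])) (.mul (.g 9) (.pp [(1,
    12000)]))))) (.add (.mul (.g 11) (.mul (.g 11) (.pp [(1, 11823552)]))) (.mul (.g 12) (.mul (.g 12)
    (.pp [(1, 3592512)]))))))) (.mul (.g 0) (.add (.add (.add (.pp [(1, 95585700)]) (.mul (.g 1) (.add
    (.add (.mul (.g 2) (.pp [(1, 3000)])) (.mul (.g 4) (.pp [(1, 3000)]))) (.add (.mul (.g 6) (.pp
    [(1, 100002900)])) (.add (.mul (.g 7) (.pp [(1, 3000)])) (.mul (.g 12) (.pp [(1, 81129720)])))))))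
    (.add (.mul (.g 2) (.add (.add (.mul (.g 3) (.pp [(1, 150)])) (.mul (.g 5) (.pp [(1, 150)])))
    (.add (.mul (.g 10) (.pp [(1, 600)])) (.mul (.g 12) (.pp [(1, 600)]))))) (.mul (.g 10) (.add (.pp
    [(1, 2340)]) (.add (.mul (.g 4) (.pp [(1, 600)])) (.mul (.g 7) (.pp [(1, 600)]))))))) (.add (.add
    (.mul (.g 12) (.add (.mul (.g 4) (.pp [(1, 600)])) (.add (.mul (.g 6) (.pp [(1, 51130320)])) (.mul
    (.g 12) (.pp [(1, 1202904)]))))) (.mul (.g 0) (.pp [(1, 3749415)]))) (.add (.mul (.g 3) (.pp [(1,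
    855)])) (.mul (.g 5) (.pp [(1, 765)]))))))) (.add (.mul (.g 9) (.add (.add (.mul (.g 3) (.add
    (.add (.pp [(1, 6900)]) (.add (.mul (.g 2) (.pp [(1, 3000)])) (.mul (.g 4) (.pp [(1, 3000)]))))
    (.add (.mul (.g 7) (.pp [(1, 3000)])) (.add (.mul (.g 8) (.pp [(1, 3000)])) (.mul (.g 9) (.pp [(1,
    3000)])))))) (.mul (.g 7) (.add (.add (.mul (.g 1) (.pp [(1, 468918000)])) (.mul (.g 5) (.pp [(1,
    3000)]))) (.add (.mul (.g 6) (.pp [(1, 468858000)])) (.add (.mul (.g 7) (.pp [(1, 58398000)]))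
    (.mul (.g 12) (.pp [(1, 12000)]))))))) (.add (.mul (.g 9) (.add (.add (.mul (.g 1) (.pp [(1,
    601512000)])) (.mul (.g 5) (.pp [(1, 3000)]))) (.add (.mul (.g 8) (.pp [(1, 449004000)])) (.mul
    (.g 12) (.pp [(1, 200012400)]))))) (.mul (.g 5) (.add (.mul (.g 4) (.pp [(1, 3000)])) (.mul (.g 8)
    (.pp [(1, 17700)]))))))) (.mul (.g 2) (.add (.mul (.g 3) (.add (.add (.pp [(1, 23348400)]) (.mul
    (.g 2) (.pp [(1, 75003000)]))) (.add (.mul (.g 4) (.pp [(1, 3000)])) (.mul (.g 10) (.pp [(1,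
    8470080)]))))) (.add (.mul (.g 5) (.add (.mul (.g 4) (.pp [(1, 3000)])) (.mul (.g 8) (.pp [(1,
    17700)])))) (.mul (.g 10) (.add (.mul (.g 8) (.pp [(1, 650853600)])) (.mul (.g 10) (.pp [(1,
    135699120)]))))))))) (.add (.add (.mul (.g 7) (.add (.mul (.g 3) (.add (.add (.mul (.g 3) (.pp
    [(1, 382320)])) (.mul (.g 4) (.pp [(1, 3000)]))) (.add (.mul (.g 8) (.pp [(1, 281700)])) (.mul (.g
    10) (.pp [(1, 6074640)]))))) (.add (.mul (.g 7) (.add (.pp [(1, 538686000)]) (.add (.mul (.g 5)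
    (.pp [(1, 12000)])) (.mul (.g 10) (.pp [(1, 600012000)]))))) (.mul (.g 4) (.mul (.g 5) (.pp [(1,
    3000)])))))) (.mul (.g 4) (.add (.mul (.g 5) (.add (.pp [(1, 18756900)]) (.add (.mul (.g 4) (.pp
    [(1, 75003000)])) (.mul (.g 6) (.pp [(1, 3000)]))))) (.mul (.g 10) (.mul (.g 10) (.pp [(1,
    7200)])))))) (.add (.mul (.g 8) (.add (.mul (.g 5) (.mul (.g 8) (.pp [(1, 6388800)]))) (.mul (.g
    10) (.mul (.g 10) (.pp [(1, 112024320)]))))) (.mul (.g 10) (.mul (.g 10) (.mul (.g 12) (.pp [(1,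
    467664)]))))))) (.pp [(1, 2088325875), (2, 55920), (3, 64350), (4, 63000), (5, 60300), (6, 60000),
    (7, 57780), (8, 60000), (9, 58800), (10, 62400), (11, 63480), (12, 60000), (13, 57240), (14,
    63000), (15, 59100), (18, 60000), (20, 60000), (21, 60000), (22, 55800), (25, 58200), (26, 63000),
    (27, 60000), (28, 60000), (30, 60000), (33, 60300), (35, 59400), (39, 59400), (42, 60000), (44,
    58000), (45, 60000), (49, 66300), (50, 60000), (52, 60000), (55, 60000), (63, 60000), (65, 59400),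
    (66, 60000), (70, 60000), (75, 60000), (77, 57000), (78, 60000), (91, 60000), (98, 60000), (99,
    60000), (105, 60000), (110, 60000), (117, 58000), (121, 58800), (125, 62000), (130, 60000), (143,
    59400), (147, 60000), (154, 60000), (165, 60000), (169, 64200), (175, 60000), (182, 60000), (195,
    60000), (231, 60000), (242, 64000), (245, 60000), (273, 60000), (275, 60000), (286, 60000), (325,
    60000), (338, 60000), (343, 58000), (363, 60000), (385, 60000), (429, 60000), (455, 60000), (507,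
    58000), (539, 60000), (605, 60000), (637, 60000), (715, 60000), (845, 60000), (847, 60000), (1001,
    60000), (1183, 60000), (1331, 60000), (1573, 60000), (1859, 60000), (2197, 60000)]))
    (by norm_num) (by decide +kernel)

theorem s1 : Ck (bE)
    (Ex.sub c1E (Ex.mul (Ex.mul (Ex.c 100000) (Ex.v 2)) (Ex.sub (Ex.c 1) (Ex.v 2)))) :=
  Ck.mk' 1250 (.add (.add (.add (.mul (.g 5) (.add (.add (.pp [(1, 400)]) (.mul (.g 0) (.add (.add (.pp [(1,
    400)]) (.mul (.g 0) (.pp [(1, 250)]))) (.add (.mul (.g 1) (.pp [(1, 250)])) (.mul (.g 2) (.pp [(1,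
    250)])))))) (.add (.mul (.g 1) (.add (.pp [(1, 400)]) (.add (.mul (.g 1) (.pp [(1, 250)])) (.mul
    (.g 2) (.pp [(1, 250)]))))) (.add (.mul (.g 2) (.pp [(1, 700)])) (.mul (.g 5) (.mul (.g 5) (.pp
    [(1, 10)]))))))) (.mul (.g 1) (.add (.mul (.g 4) (.add (.pp [(1, 550)]) (.add (.mul (.g 0) (.pp
    [(1, 250)])) (.mul (.g 1) (.pp [(1, 250)]))))) (.mul (.g 3) (.add (.pp [(1, 18348225)]) (.mul (.g
    3) (.pp [(1, 7220)]))))))) (.add (.mul (.g 0) (.mul (.g 0) (.add (.mul (.g 0) (.pp [(1,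
    52104500)])) (.mul (.g 4) (.pp [(1, 36350)]))))) (.mul (.g 3) (.mul (.g 3) (.add (.pp [(1,
    1243940)]) (.mul (.g 3) (.pp [(1, 416846)]))))))) (.pp [(1, 38793228), (2, 1210), (3, 1245), (4,
    1350), (5, 1250), (6, 1225), (8, 1250), (9, 1250), (10, 1250), (12, 1250), (15, 1250), (18, 1250),
    (20, 1250), (25, 1250), (27, 1250), (30, 1250), (45, 1250), (50, 1250), (75, 1250), (125, 1250)]))
    (by norm_num) (by decide +kernel)

theorem s2 : Ck (bE)
    (Ex.sub c2E (Ex.mul (Ex.mul (Ex.c 100000) (Ex.v 3)) (Ex.sub (Ex.c 1) (Ex.v 3)))) :=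
  Ck.mk' 1250 (.add (.add (.add (.mul (.g 5) (.add (.add (.pp [(1, 400)]) (.mul (.g 0) (.add (.add (.pp [(1,
    400)]) (.mul (.g 0) (.pp [(1, 250)]))) (.add (.mul (.g 1) (.pp [(1, 250)])) (.mul (.g 2) (.pp [(1,
    250)])))))) (.add (.mul (.g 1) (.add (.pp [(1, 400)]) (.add (.mul (.g 1) (.pp [(1, 250)])) (.mul
    (.g 2) (.pp [(1, 250)]))))) (.add (.mul (.g 2) (.pp [(1, 700)])) (.mul (.g 5) (.mul (.g 5) (.pp
    [(1, 10)]))))))) (.mul (.g 3) (.add (.add (.pp [(1, 900)]) (.mul (.g 0) (.add (.pp [(1, 850)])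
    (.mul (.g 1) (.pp [(1, 250)]))))) (.add (.mul (.g 1) (.mul (.g 1) (.pp [(1, 700)]))) (.mul (.g 3)
    (.mul (.g 3) (.pp [(1, 10)]))))))) (.add (.mul (.g 4) (.mul (.g 4) (.add (.pp [(1, 4913910)])
    (.add (.mul (.g 0) (.pp [(1, 90)])) (.mul (.g 4) (.pp [(1, 9547)])))))) (.mul (.g 1) (.mul (.g 1)
    (.mul (.g 1) (.pp [(1, 1192125)])))))) (.pp [(1, 50112601), (2, 1290), (3, 1195), (4, 1250), (5,
    1250), (6, 1200), (8, 1250), (9, 1325), (10, 1250), (12, 1250), (15, 1250), (18, 1250), (20,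
    1250), (25, 1250), (27, 1250), (30, 1250), (45, 1250), (50, 1250), (75, 1250), (125, 1250)]))
    (by norm_num) (by decide +kernel)

theorem s3 : Ck (bE)
    (nE) :=
  Ck.mk' 250 (.add (.add (.mul (.g 5) (.add (.add (.pp [(1, 3987230)]) (.mul (.g 0) (.add (.add (.pp [(1, 80)])
    (.mul (.g 0) (.pp [(1, 50)]))) (.add (.mul (.g 1) (.pp [(1, 50)])) (.mul (.g 2) (.pp [(1,
    50)])))))) (.add (.mul (.g 1) (.add (.pp [(1, 80)]) (.add (.mul (.g 1) (.pp [(1, 50)])) (.mul (.g
    2) (.pp [(1, 50)]))))) (.add (.mul (.g 2) (.pp [(1, 140)])) (.mul (.g 5) (.mul (.g 5) (.pp [(1,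
    2)]))))))) (.add (.mul (.g 4) (.add (.add (.pp [(1, 145)]) (.mul (.g 0) (.add (.pp [(1, 110)])
    (.add (.mul (.g 0) (.pp [(1, 50)])) (.mul (.g 1) (.pp [(1, 50)])))))) (.add (.mul (.g 1) (.pp [(1,
    170)])) (.mul (.g 4) (.mul (.g 4) (.pp [(1, 2)])))))) (.mul (.g 3) (.add (.pp [(1, 230)]) (.add
    (.mul (.g 0) (.pp [(1, 200)])) (.mul (.g 3) (.mul (.g 3) (.pp [(1, 2)])))))))) (.pp [(1, 8524273),
    (2, 250), (3, 245), (4, 250), (5, 250), (6, 250), (8, 250), (9, 250), (10, 250), (12, 250), (15,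
    250), (18, 250), (20, 250), (25, 250), (27, 250), (30, 250), (45, 250), (50, 250), (75, 250),
    (125, 250)]))
    (by norm_num) (by decide +kernel)

end Pool.Agent.Helper20.TS.SA
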