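import Pool.Agent.Helper20.TS.SAK
import Pool.Agent.Helper83.TS.TallAD

/-!
# Column `b`, set A: the multipliers as expressions
-/

set_option autoImplicit false
set_option maxRecDepth 100000

namespace Pool.Agent.Helper20.TS.SA

open Pool.Agent.Helper83.Cert Pool.Agent.Helper83.TS Pool.Agent.Helper53.TT

def c1E : Ex := .add (.add (.c (48996)) (.mul (.c (44091)) (.v 3))) (.add (.mul (.c (25128)) (.v 2)) (.mul (.mul
    (.c (-73564)) (.v 2)) (.v 3)))

theorem c1E_val (x y z : ℝ) : Dt x y z c1E (100000 * (TallA.n1 x - TallA.k12 x y)) :=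
  ⟨fun w s u v A B => by
    simp only [c1E, exadd, exmul, exc, exv2, exv3, exv5, TallA.n1, TallA.k12]
    push_cast
    ring⟩

def c2E : Ex := .add (.c (75680)) (.mul (.c (-18963)) (.v 3))

theorem c2E_val (x y z : ℝ) : Dt x y z c2E (100000 * (TallA.n1 y)) :=
  ⟨fun w s u v A B => by
    simp only [c2E, exadd, exmul, exc, exv2, exv3, exv5, TallA.n1]
    push_cast
    ring⟩

def d1E : Ex := .add (.c (75680)) (.mul (.c (-18963)) (.v 2))

theorem d1E_val (x y z : ℝ) : Dt x y z d1E (100000 * (TallA.n1 x)) :=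
  ⟨fun w s u v A B => by
    simp only [d1E, exadd, exmul, exc, exv2, exv3, exv5, TallA.n1]
    push_cast
    ring⟩

def d2E : Ex := .add (.add (.c (48996)) (.mul (.c (25128)) (.v 3))) (.add (.mul (.c (44091)) (.v 2)) (.mul (.mul
    (.c (-73564)) (.v 2)) (.v 3)))

theorem d2E_val (x y z : ℝ) : Dt x y z d2E (100000 * (TallA.n1 y - TallA.k12 x y)) :=
  ⟨fun w s u v A B => by
    simp only [d2E, exadd, exmul, exc, exv2, exv3, exv5, TallA.n1, TallA.k12]
    push_cast
    ring⟩

def nE : Ex := .add (.c (81949)) (.mul (.c (-79743)) (.v 5))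

theorem nE_val (x y z : ℝ) : Dt x y z nE (100000 * (TallA.n3 z)) :=
  ⟨fun w s u v A B => by
    simp only [nE, exadd, exmul, exc, exv2, exv3, exv5, TallA.n3]
    push_cast
    ring⟩

def WE : Ex := .add (.add (.add (.c (-8782)) (.mul (.c (171921)) (.v 5))) (.add (.mul (.mul (.c (-111740)) (.v
    5)) (.v 5)) (.add (.mul (.c (55686)) (.v 3)) (.mul (.mul (.c (8988)) (.v 3)) (.v 5))))) (.add
    (.add (.mul (.mul (.c (-8017)) (.v 3)) (.v 3)) (.mul (.c (55686)) (.v 2))) (.add (.mul (.mul (.c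
    (8988)) (.v 2)) (.v 5)) (.add (.mul (.mul (.c (-15798)) (.v 2)) (.v 3)) (.mul (.mul (.c (-8017))
    (.v 2)) (.v 2)))))

theorem WE_val (x y z : ℝ) : Dt x y z WE (100000 * (TallA.wb x y z)) :=
  ⟨fun w s u v A B => by
    simp only [WE, exadd, exmul, exc, exv2, exv3, exv5, TallA.wb]
    push_cast
    ring⟩

end Pool.Agent.Helper20.TS.SA
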