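import Pool.Agent.Helper20.TS.Ck
import Pool.Agent.Helper83.TS.TallAD
import Pool.Agent.Helper83.TS.TallBD

/-!
# The slot of the row `a` in the columns `c`, `l`
-/

set_option autoImplicit false

namespace Pool.Agent.Helper20.TS

open Pool.Agent.Helper83.Cert Pool.Agent.Helper83.TS Pool.Agent.Helper53.TT

def tAE : Ex := .add (.c (33663)) (.add (.mul (.c (-31909)) (.v 5)) (.mul (.mul (.c (460)) (.v 5)) (.v 5)))

def nAE : Ex := .add (.c (81949)) (.mul (.c (-79743)) (.v 5))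

theorem kA : Ck [Ex.v 5, Ex.v 13, Ex.sub (Ex.c 3) (Ex.mul (Ex.c 5) (Ex.v 5)), Ex.sub (Ex.c 1) (Ex.v 13)]
    (Ex.sub (Ex.mul (Ex.c 6) tAE) (stE nAE (Ex.v 5) (Ex.v 13))) :=
  Ck.mk' 250000 (.add (.add (.add (.mul (.pp [(1, 1527285)]) (.sq [(1, -83), (13, 100)])) (.mul (.g 2) (.add (.add
    (.mul (.pp [(1, 1701627)]) (.sq [(1, -83), (13, 100)])) (.mul (.pp [(1, 1632720)]) (.sq [(1, -17),
    (13, 25)]))) (.add (.mul (.pp [(1, 30)]) (.sq [(1, 15), (5, 100), (13, -48)])) (.mul (.g 0) (.mul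
    (.g 3) (.pp [(1, 247650000)]))))))) (.add (.mul (.g 1) (.add (.mul (.pp [(1, 605715)]) (.sq [(1,
    -79), (13, 100)])) (.mul (.pp [(1, 1712625)]) (.sq [(1, 2), (5, 20), (13, -7)])))) (.add (.mul (.g
    0) (.mul (.pp [(1, 878235)]) (.sq [(1, -91), (13, 100)]))) (.mul (.g 3) (.mul (.pp [(1, 2457000)])
    (.sq [(1, -37), (5, -28), (13, 50)])))))) (.pp [(1, 26286936), (5, 1568130), (13, 1436385), (25,
    1512000), (65, 1368000), (125, 1500000), (169, 1633140), (325, 1548000), (845, 1530600), (2197,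
    1431375)]))
    (by norm_num) (by decide +kernel)

theorem t3A {z : ℝ} (h0 : 0 ≤ z) (h1 : z ≤ 3 / 5) (u : ℝ) (u0 : 0 ≤ u) (u1 : u ≤ 1) :
    st (TallA.n3 z) z u ≤ TallA.t3 z := by
  refine kA.fin (y := yv 0 0 z 0 0 u 0 0 0)
    (yv_nonneg le_rfl le_rfl h0 le_rfl le_rfl u0 le_rfl le_rfl le_rfl) ?_ (a := TallA.t3 z) ?_
    (stE_val (c := TallA.n3 z) (d := z) (u := u) ?_ (exv5 ..) (exv13 ..))
  · simp only [List.forall_mem_cons, exsub, exmul, exc, exv5, exv13]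
    push_cast
    exact ⟨h0, u0, by linarith, by linarith, fun _ hh => absurd hh List.not_mem_nil⟩
  · simp only [tAE, exadd, exsub, exmul, exc, exv5, TallA.t3]
    push_cast
    ring
  · simp only [nAE, exadd, exsub, exmul, exc, exv5, TallA.n3]
    push_cast
    ring

def tBE : Ex := .add (.c (35820)) (.add (.mul (.c (-22464)) (.v 5)) (.mul (.mul (.c (3643)) (.v 5)) (.v 5)))

def nBE : Ex := .add (.c (84552)) (.mul (.c (-68239)) (.v 5))

theorem kB : Ck [Ex.v 5, Ex.v 13, Ex.sub (Ex.c 3) (Ex.mul (Ex.c 5) (Ex.v 5)), Ex.sub (Ex.c 1) (Ex.v 13)]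
    (Ex.sub (Ex.mul (Ex.c 6) tBE) (stE nBE (Ex.v 5) (Ex.v 13))) :=
  Ck.mk' 250000 (.add (.add (.add (.mul (.pp [(1, 130950)]) (.sq [(1, -79), (5, -36), (13, 100)])) (.add (.mul
    (.pp [(1, 573870)]) (.sq [(1, -80), (5, -41), (13, 100)])) (.mul (.g 3) (.add (.mul (.pp [(1,
    514560)]) (.sq [(1, -84), (5, 100), (13, 77)])) (.add (.mul (.pp [(1, 6108240)]) (.sq [(1, -3),
    (5, 50), (13, -3)])) (.mul (.pp [(1, 1887105)]) (.sq [(1, -86), (5, -27), (13, 100)]))))))) (.add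
    (.mul (.g 2) (.add (.mul (.pp [(1, 286008)]) (.sq [(1, -84), (5, -33), (13, 100)])) (.mul (.pp
    [(1, 1176909)]) (.sq [(1, -85), (5, -16), (13, 100)])))) (.add (.mul (.g 0) (.mul (.pp [(1,
    503325)]) (.sq [(1, -59), (5, -78), (13, 100)]))) (.mul (.g 1) (.mul (.pp [(1, 2197530)]) (.sq
    [(1, -84), (5, -25), (13, 100)])))))) (.pp [(1, 33515031), (5, 1596624), (13, 1664460), (25,
    1460397), (65, 1281420), (125, 1527780), (169, 1337760), (325, 1505295), (845, 1635000), (2197,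
    1550400)]))
    (by norm_num) (by decide +kernel)

theorem t3B {z : ℝ} (h0 : 0 ≤ z) (h1 : z ≤ 3 / 5) (u : ℝ) (u0 : 0 ≤ u) (u1 : u ≤ 1) :
    st (TallB.n3 z) z u ≤ TallB.t3 z := by
  refine kB.fin (y := yv 0 0 z 0 0 u 0 0 0)
    (yv_nonneg le_rfl le_rfl h0 le_rfl le_rfl u0 le_rfl le_rfl le_rfl) ?_ (a := TallB.t3 z) ?_
    (stE_val (c := TallB.n3 z) (d := z) (u := u) ?_ (exv5 ..) (exv13 ..))
  · simp only [List.forall_mem_cons, exsub, exmul, exc, exv5, exv13]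
    push_cast
    exact ⟨h0, u0, by linarith, by linarith, fun _ hh => absurd hh List.not_mem_nil⟩
  · simp only [tBE, exadd, exsub, exmul, exc, exv5, TallB.t3]
    push_cast
    ring
  · simp only [nBE, exadd, exsub, exmul, exc, exv5, TallB.n3]
    push_cast
    ring

/-- the form of `caseOneTall_of_cert` -/
theorem t3A' (z u : ℝ) (h0 : 0 ≤ z) (h1 : z ≤ 3 / 5) (u0 : 0 ≤ u) (u1 : u ≤ 1) :
    st (TallA.n3 z) z u ≤ TallA.t3 z := t3A h0 h1 u u0 u1

theorem t3B' (z u : ℝ) (h0 : 0 ≤ z) (h1 : z ≤ 3 / 5) (u0 : 0 ≤ u) (u1 : u ≤ 1) :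
    st (TallB.n3 z) z u ≤ TallB.t3 z := t3B h0 h1 u u0 u1

end Pool.Agent.Helper20.TS
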